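import Mathlib

/-!
# Partition identities with difference conditions on the smaller part: definitions
-/

namespace P46788a

/-- The residue class of `n ≥ 1` modulo `M`, as an element of `{1, ..., M}`. -/
def cls (M n : ℕ) : ℕ := (n - 1) % M + 1

/-- `A(a_1, ..., a_s; M; n)` with `S = {a_1, ..., a_s}`: the number of sets of pairwise different
positive integers with sum `n`, every element congruent modulo `M` to an element of `S`. -/
noncomputable def countA (S : Finset ℕ) (M n : ℕ) : ℕ :=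
  Set.ncard {T : Finset ℕ | (∀ e ∈ T, 1 ≤ e ∧ ∃ a ∈ S, e ≡ a [MOD M]) ∧ ∑ e ∈ T, e = n}

/-- `B_1(b_1, ..., b_M; M; C; n)`: the number of sequences `e_1 ≥ e_2 ≥ ... ≥ e_r ≥ 1` with sum
`n`, no term in `C`, and `e_i - e_(i+1) ≥ b_j` where `j` is the class of `e_(i+1)`. -/
noncomputable def countB (b : ℕ → ℕ) (M : ℕ) (C : Finset ℕ) (n : ℕ) : ℕ :=
  Set.ncard {l : List ℕ | (∀ e ∈ l, 1 ≤ e ∧ e ∉ C) ∧ l.sum = n ∧
    l.IsChain fun x y => y ≤ x ∧ b (cls M y) ≤ x - y}

end P46788a
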