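import Pool.Agent.Lib.MP_46788a_nt.Core
import Pool.Agent.Lib.MP_46788a_nt.Defs

/-!
# From the counts of the problem to gap systems
-/

open Finset

namespace P46788a

lemma countA_eq (S : Finset ℕ) (M n : ℕ) :
    countA S M n = cnt (fun _ => 1) (fun x => 1 ≤ x ∧ ∃ a ∈ S, x ≡ a [MOD M]) n := by
  unfold countA cnt
  rw [← Set.ncard_coe_finset]
  congr 1
  ext T
  rw [Set.mem_setOf_eq, Finset.mem_coe, mem_adm]
  constructor
  · rintro ⟨h1, h2⟩
    exact ⟨⟨h1, fun x _ y _ hxy => hxy⟩, h2⟩
  · rintro ⟨⟨h1, _⟩, h2⟩
    exact ⟨h1, h2⟩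

lemma countB_eq {b : ℕ → ℕ} {M : ℕ} {C : Finset ℕ} (hM : 1 ≤ M)
    (hb : ∀ j, 1 ≤ j → j ≤ M → 1 ≤ b j) (n : ℕ) :
    countB b M C n = cnt (fun x => b (cls M x)) (fun x => 1 ≤ x ∧ x ∉ C) n := by
  have hb' : ∀ x, 1 ≤ b (cls M x) := fun x => hb _ (by unfold cls; omega) (by
    unfold cls
    have := Nat.mod_lt (x - 1) hM
    omega)
  unfold countB cnt
  rw [← Set.ncard_coe_finset]
  have hinj : Function.Injective (fun T : Finset ℕ => T.sort (· ≥ ·)) := by
    intro T T' h
    have h1 := congrArg List.toFinset h
    simpa using h1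
  rw [← Set.ncard_image_of_injective _ hinj]
  congr 1
  ext l
  rw [Set.mem_setOf_eq, Set.mem_image]
  -- the transitive form of the chain condition
  have htr : ∀ l : List ℕ, (l.IsChain fun x y => y ≤ x ∧ b (cls M y) ≤ x - y) ↔
      l.Pairwise fun x y => y + b (cls M y) ≤ x := by
    intro l
    have h1 : (fun x y => y ≤ x ∧ b (cls M y) ≤ x - y) = fun x y => y + b (cls M y) ≤ x := by
      funext x y
      apply propext
      constructor
      · rintro ⟨h1, h2⟩; omega
      · intro h; exact ⟨by omega, by omega⟩
    rw [h1]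
    have : IsTrans ℕ (fun x y => y + b (cls M y) ≤ x) :=
      ⟨fun x y z hxy hyz => by omega⟩
    exact List.isChain_iff_pairwise
  constructor
  · rintro ⟨h1, h2, h3⟩
    rw [htr] at h3
    have hnd : l.Nodup := h3.imp (fun {x y} h => by have := hb' y; omega)
    have hsort : l.toFinset.sort (· ≥ ·) = l := by
      rw [List.toFinset_sort _ hnd]
      exact h3.imp (fun {x y} h => by have := hb' y; omega)
    refine ⟨l.toFinset, ?_, hsort⟩
    rw [Finset.mem_coe, mem_adm]
    refine ⟨⟨fun x hx => h1 x (List.mem_toFinset.1 hx), fun x hx y hy hxy => ?_⟩, ?_⟩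
    · rw [List.mem_toFinset] at hx hy
      have h4 : ∀ l : List ℕ, (l.Pairwise fun x y => y + b (cls M y) ≤ x) → x ∈ l → y ∈ l →
          x + b (cls M x) ≤ y := by
        intro l
        induction l with
        | nil => intro _ hx; simp at hx
        | cons z l ih =>
          intro hp hx hy
          rw [List.pairwise_cons] at hp
          rw [List.mem_cons] at hx hy
          rcases hx with rfl | hx
          · rcases hy with rfl | hy
            · omega
            · have := hp.1 y hy
              have := hb' y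
              omega
          · rcases hy with rfl | hy
            · exact hp.1 x hx
            · exact ih hp.2 hx hy
      exact h4 l h3 hx hy
    · rw [List.sum_toFinset (fun x => x) hnd]
      simpa using h2
  · rintro ⟨T, hT, rfl⟩
    rw [Finset.mem_coe, mem_adm] at hT
    refine ⟨fun e he => hT.1.1 e (by simpa using he), ?_, ?_⟩
    · have h1 := List.sum_toFinset (fun x => x) (Finset.sort_nodup T (· ≥ ·))
      rw [Finset.sort_toFinset] at h1
      rw [hT.2] at h1
      simpa using h1.symm
    · rw [htr]
      have h1 := Finset.sortedGT_sort T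
      have h2 : (T.sort (· ≥ ·)).Pairwise (· > ·) := h1.pairwise
      refine List.Pairwise.imp_of_mem ?_ h2
      intro x y hx hy hxy
      exact hT.1.2 y (by simpa using hy) x (by simpa using hx) hxy

end P46788a
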