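import Pool.Agent.Lib.MP_46788a_nt.Sol
import Pool.Agent.Lib.MP_46788a_nt.Bridge

/-!
# From the statement of the problem to residues
-/

open Finset

namespace P46788a

lemma exists_mask (M : ℕ) (Q : ℕ → Prop) :
    ∃ sm < 2 ^ M, ∀ r < M, (Nat.testBit sm r = true ↔ Q r) := by
  classical
  induction M with
  | zero => exact ⟨0, by norm_num, by simp⟩
  | succ M ih =>
    obtain ⟨sm, h1, h2⟩ := ih
    by_cases hQ : Q M
    · refine ⟨2 ^ M + sm, by rw [pow_succ]; omega, fun r hr => ?_⟩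
      rcases Nat.lt_or_ge r M with h | h
      · rw [Nat.testBit_two_pow_add_gt h]; exact h2 r h
      · have : r = M := by omega
        subst this
        rw [Nat.testBit_two_pow_add_eq, Nat.testBit_lt_two_pow h1]
        simp [hQ]
    · refine ⟨sm, by rw [pow_succ]; omega, fun r hr => ?_⟩
      rcases Nat.lt_or_ge r M with h | h
      · exact h2 r h
      · have : r = M := by omega
        subst this
        rw [Nat.testBit_lt_two_pow h1]
        simp [hQ]

/-- the gaps in terms of residues -/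
def resb (M : ℕ) (b : ℕ → ℕ) (r : ℕ) : ℕ := b (if r = 0 then M else r)

lemma cls_eq {M x : ℕ} (hM : 1 ≤ M) (hx : 1 ≤ x) :
    cls M x = if x % M = 0 then M else x % M := by
  unfold cls
  obtain ⟨y, rfl⟩ : ∃ y, x = y + 1 := ⟨x - 1, by omega⟩
  rw [Nat.add_sub_cancel]
  have h1 := Nat.mod_lt y (show 0 < M by omega)
  have h2 := Nat.add_mod y 1 M
  rcases Nat.lt_or_ge (y % M + 1) M with h | h
  · have h3 : (y + 1) % M = y % M + 1 := by
      rw [Nat.add_mod]
      rcases Nat.lt_or_ge 1 M with h4 | h4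
      · rw [Nat.mod_eq_of_lt h4, Nat.mod_eq_of_lt h]
      · have : M = 1 := by omega
        omega
    rw [h3, if_neg (by omega)]
  · have h3 : (y + 1) % M = 0 := by
      have h4 : y % M + 1 = M := by omega
      have h5 := Nat.div_add_mod y M
      have h6 : y + 1 = M * (y / M + 1) := by
        rw [Nat.mul_add, Nat.mul_one]; omega
      rw [h6, Nat.mul_mod_right]
    rw [h3, if_pos rfl]
    omega

lemma resb_eq {M x : ℕ} {b : ℕ → ℕ} (hM : 1 ≤ M) (hx : 1 ≤ x) :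
    b (cls M x) = gr M (resb M b) x := by
  unfold gr resb
  rw [cls_eq hM hx]

/-- allowed parts -/
def PC (C : Finset ℕ) (x : ℕ) : Prop := 1 ≤ x ∧ x ∉ C

lemma PC_cofin (C : Finset ℕ) : ∃ N₀, ∀ x, N₀ ≤ x → PC C x := by
  refine ⟨C.sup id + 1, fun x hx => ⟨by omega, fun h => ?_⟩⟩
  have : x ≤ C.sup id := Finset.le_sup (f := id) h
  omega

lemma cntB_eq {b : ℕ → ℕ} {M : ℕ} {C : Finset ℕ} (hM : 1 ≤ M)
    (hb : ∀ j, 1 ≤ j → j ≤ M → 1 ≤ b j) (n : ℕ) :
    countB b M C n = cnt (gr M (resb M b)) (PC C) n := by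
  rw [countB_eq hM hb n]
  have h : adm (fun x => b (cls M x)) (PC C) n = adm (gr M (resb M b)) (PC C) n := by
    refine adm_eq (fun _ _ => Iff.rfl) ?_
    intro x y _ hx _ _
    rw [resb_eq (b := b) hM hx.1]
  exact congrArg Finset.card h

/-- the mask describes the classes of `S` -/
def IsMask (M sm : ℕ) (S : Finset ℕ) : Prop :=
  ∀ r < M, (Nat.testBit sm r = true ↔ ∃ a ∈ S, a % M = r)

lemma cntA_eq {M sm : ℕ} {S : Finset ℕ} (hM : 1 ≤ M) (h : IsMask M sm S) (n : ℕ) :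
    countA S M n = cnt (fun _ => 1) (SP M sm) n := by
  rw [countA_eq]
  congr 1
  funext x
  apply propext
  unfold SP rs
  rw [h (x % M) (Nat.mod_lt _ (by omega))]
  constructor
  · rintro ⟨h1, a, ha, h2⟩; exact ⟨⟨a, ha, h2.symm⟩, h1⟩
  · rintro ⟨⟨a, ha, h2⟩, h1⟩; exact ⟨h1, a, ha, h2.symm⟩

lemma count_zero {M sm : ℕ} {β : ℕ → ℕ} {C : Finset ℕ} :
    cnt (gr M β) (PC C) 0 = cnt (fun _ => 1) (SP M sm) 0 := by
  rw [cnt_zero (fun x hx => hx.1), cnt_zero (fun x hx => hx.2)]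

/-- the classes of `S` -/
lemma mem_classes {M sm : ℕ} {S : Finset ℕ} (hM : 1 ≤ M) (hS : ∀ a ∈ S, 1 ≤ a)
    (h : IsMask M sm S) (c : ℕ) :
    c ∈ S.image (cls M) ↔ 1 ≤ c ∧ c ≤ M ∧ Nat.testBit sm (c % M) = true := by
  rw [Finset.mem_image]
  constructor
  · rintro ⟨a, ha, rfl⟩
    have h1 := hS a ha
    have hlt := Nat.mod_lt a (show 0 < M by omega)
    have h2 : cls M a % M = a % M := by
      rw [cls_eq hM h1]
      split_ifs with h3
      · rw [Nat.mod_self, h3]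
      · exact Nat.mod_mod _ _
    refine ⟨by unfold cls; omega, ?_, ?_⟩
    · rw [cls_eq hM h1]; split_ifs <;> omega
    · rw [h2]; exact (h _ hlt).2 ⟨a, ha, rfl⟩
  · rintro ⟨h1, h2, h3⟩
    obtain ⟨a, ha, h4⟩ := (h _ (Nat.mod_lt _ (by omega))).1 h3
    refine ⟨a, ha, ?_⟩
    rw [cls_eq hM (hS a ha), h4]
    rcases Nat.lt_or_ge c M with h5 | h5
    · rw [Nat.mod_eq_of_lt h5, if_neg (by omega)]
    · have : c = M := by omega
      rw [this, Nat.mod_self, if_pos rfl]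

lemma C_empty {C : Finset ℕ} (hC : ∀ c ∈ C, 1 ≤ c) (h : ∀ x, PC C x ↔ 0 < x) : C = ∅ := by
  rw [Finset.eq_empty_iff_forall_notMem]
  intro c hc
  exact ((h c).2 (hC c hc)).2 hc

lemma C_two {C : Finset ℕ} (hC : ∀ c ∈ C, 1 ≤ c) (h : ∀ x, PC C x ↔ 0 < x ∧ x ≠ 2) :
    C = {2} := by
  ext c
  rw [Finset.mem_singleton]
  constructor
  · intro hc
    by_contra hne
    exact ((h c).2 ⟨hC c hc, hne⟩).2 hc
  · rintro rfl
    by_contra hc
    exact ((h 2).1 ⟨by norm_num, hc⟩).2 rfl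

lemma C_one {C : Finset ℕ} (hC : ∀ c ∈ C, 1 ≤ c) (h : ∀ x, PC C x ↔ 2 ≤ x) : C = {1} := by
  ext c
  rw [Finset.mem_singleton]
  constructor
  · intro hc
    by_contra hne
    have := hC c hc
    exact ((h c).2 (by omega)).2 hc
  · rintro rfl
    by_contra hc
    have := (h 1).1 ⟨le_rfl, hc⟩
    omega

lemma PC_empty (x : ℕ) : PC ∅ x ↔ 0 < x := by
  unfold PC
  simp
  omega

lemma PC_two (x : ℕ) : PC {2} x ↔ 0 < x ∧ x ≠ 2 := by
  unfold PC
  simp
  omega

lemma PC_one (x : ℕ) : PC {1} x ↔ 2 ≤ x := by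
  unfold PC
  simp
  omega

end P46788a
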