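import Mathlib

/-!
# Gap systems: admissible sets, counts, comparison and generating functions
-/

open Finset

namespace P46788a

/-- `T` is admissible for the gap function `g` and the set `P` of allowed parts: after the part
`x` the next larger part is at least `x + g x`. -/
def Adm (g : ℕ → ℕ) (P : ℕ → Prop) (T : Finset ℕ) : Prop :=
  (∀ x ∈ T, P x) ∧ ∀ x ∈ T, ∀ y ∈ T, x < y → x + g x ≤ y

open Classical in
/-- admissible sets with sum `n` -/
noncomputable def adm (g : ℕ → ℕ) (P : ℕ → Prop) (n : ℕ) : Finset (Finset ℕ) :=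
  (Finset.range (n + 1)).powerset.filter fun T => Adm g P T ∧ ∑ x ∈ T, x = n

/-- the number of admissible sets with sum `n` -/
noncomputable def cnt (g : ℕ → ℕ) (P : ℕ → Prop) (n : ℕ) : ℕ := (adm g P n).card

/-- parts at least `k` -/
def ge (P : ℕ → Prop) (k : ℕ) : ℕ → Prop := fun x => P x ∧ k ≤ x

lemma mem_adm {g : ℕ → ℕ} {P : ℕ → Prop} {n : ℕ} {T : Finset ℕ} :
    T ∈ adm g P n ↔ Adm g P T ∧ ∑ x ∈ T, x = n := by
  classical
  unfold adm
  rw [Finset.mem_filter, Finset.mem_powerset]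
  refine ⟨fun h => h.2, fun h => ⟨fun x hx => ?_, h⟩⟩
  rw [Finset.mem_range, Nat.lt_succ_iff, ← h.2]
  exact Finset.single_le_sum (f := fun x => x) (fun _ _ => Nat.zero_le _) hx

lemma le_of_mem {g : ℕ → ℕ} {P : ℕ → Prop} {n : ℕ} {T : Finset ℕ} (h : T ∈ adm g P n) {x : ℕ}
    (hx : x ∈ T) : x ≤ n := by
  rw [mem_adm] at h
  rw [← h.2]
  exact Finset.single_le_sum (f := fun x => x) (fun _ _ => Nat.zero_le _) hx

lemma add_le_of_mem {g : ℕ → ℕ} {P : ℕ → Prop} {n : ℕ} {T : Finset ℕ} (h : T ∈ adm g P n)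
    {x y : ℕ} (hx : x ∈ T) (hy : y ∈ T) (hxy : x ≠ y) : x + y ≤ n := by
  rw [mem_adm] at h
  rw [← h.2]
  have h1 : ({x, y} : Finset ℕ) ⊆ T := by
    intro z hz
    rw [Finset.mem_insert, Finset.mem_singleton] at hz
    rcases hz with rfl | rfl
    · exact hx
    · exact hy
  have h2 := Finset.sum_le_sum_of_subset (f := fun x => x) h1
  rw [Finset.sum_pair hxy] at h2
  exact h2

lemma lt_of_mem {g : ℕ → ℕ} {P : ℕ → Prop} (h0 : ∀ x, P x → 0 < x) {n : ℕ} {T : Finset ℕ}
    (h : T ∈ adm g P n) (hT : T ≠ {n}) {x : ℕ} (hx : x ∈ T) : x < n := by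
  refine lt_of_le_of_ne (le_of_mem h hx) fun hxn => hT ?_
  subst hxn
  ext y
  rw [Finset.mem_singleton]
  refine ⟨fun hy => ?_, fun hy => hy ▸ hx⟩
  by_contra hne
  have h1 := add_le_of_mem h hx hy (fun h => hne h.symm)
  have h2 := h0 y ((mem_adm.1 h).1.1 y hy)
  omega

lemma singleton_mem {g : ℕ → ℕ} {P : ℕ → Prop} {n : ℕ} : {n} ∈ adm g P n ↔ P n := by
  rw [mem_adm]
  constructor
  · intro h; exact h.1.1 n (Finset.mem_singleton_self n)
  · intro h
    refine ⟨⟨?_, ?_⟩, by simp⟩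
    · intro x hx; rw [Finset.mem_singleton] at hx; subst hx; exact h
    · intro x hx y hy hxy
      rw [Finset.mem_singleton] at hx hy
      omega

/-- the set of admissible sets is determined by the parts up to `n` and the pairs of sum at most
`n` -/
lemma adm_eq {g g' : ℕ → ℕ} {P P' : ℕ → Prop} {n : ℕ}
    (hP : ∀ x, x ≤ n → (P x ↔ P' x))
    (hp : ∀ x y, x < y → P' x → P' y → x + y ≤ n → (x + g x ≤ y ↔ x + g' x ≤ y)) :
    adm g P n = adm g' P' n := by
  ext T
  constructor
  · intro h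
    have h' := mem_adm.1 h
    refine mem_adm.2 ⟨⟨fun x hx => (hP x (le_of_mem h hx)).1 (h'.1.1 x hx), ?_⟩, h'.2⟩
    intro x hx y hy hxy
    exact (hp x y hxy ((hP x (le_of_mem h hx)).1 (h'.1.1 x hx))
      ((hP y (le_of_mem h hy)).1 (h'.1.1 y hy)) (add_le_of_mem h hx hy hxy.ne)).1
      (h'.1.2 x hx y hy hxy)
  · intro h
    have h' := mem_adm.1 h
    refine mem_adm.2 ⟨⟨fun x hx => (hP x (le_of_mem h hx)).2 (h'.1.1 x hx), ?_⟩, h'.2⟩
    intro x hx y hy hxy
    exact (hp x y hxy (h'.1.1 x hx) (h'.1.1 y hy) (add_le_of_mem h hx hy hxy.ne)).2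
      (h'.1.2 x hx y hy hxy)

/-- the same without the one-part set -/
lemma adm_erase_eq {g g' : ℕ → ℕ} {P P' : ℕ → Prop} (h0 : ∀ x, P x → 0 < x)
    (h0' : ∀ x, P' x → 0 < x) {n : ℕ} (hP : ∀ x, x < n → (P x ↔ P' x))
    (hp : ∀ x y, x < y → P' x → P' y → x + y ≤ n → (x + g x ≤ y ↔ x + g' x ≤ y)) :
    (adm g P n).erase {n} = (adm g' P' n).erase {n} := by
  ext T
  rw [Finset.mem_erase, Finset.mem_erase]
  constructor
  · rintro ⟨hT, h⟩
    have h' := mem_adm.1 h
    have hlt := fun x hx => lt_of_mem h0 h hT (x := x) hx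
    refine ⟨hT, mem_adm.2 ⟨⟨fun x hx => (hP x (hlt x hx)).1 (h'.1.1 x hx), ?_⟩, h'.2⟩⟩
    intro x hx y hy hxy
    exact (hp x y hxy ((hP x (hlt x hx)).1 (h'.1.1 x hx))
      ((hP y (hlt y hy)).1 (h'.1.1 y hy)) (add_le_of_mem h hx hy hxy.ne)).1
      (h'.1.2 x hx y hy hxy)
  · rintro ⟨hT, h⟩
    have h' := mem_adm.1 h
    have hlt := fun x hx => lt_of_mem h0' h hT (x := x) hx
    refine ⟨hT, mem_adm.2 ⟨⟨fun x hx => (hP x (hlt x hx)).2 (h'.1.1 x hx), ?_⟩, h'.2⟩⟩
    intro x hx y hy hxy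
    exact (hp x y hxy (h'.1.1 x hx) (h'.1.1 y hy) (add_le_of_mem h hx hy hxy.ne)).2
      (h'.1.2 x hx y hy hxy)

lemma cnt_eq_erase (g : ℕ → ℕ) (P : ℕ → Prop) (n : ℕ) [Decidable (P n)] :
    cnt g P n = ((adm g P n).erase {n}).card + if P n then 1 else 0 := by
  unfold cnt
  split_ifs with h
  · have h1 : {n} ∈ adm g P n := singleton_mem.2 h
    rw [Finset.card_erase_of_mem h1]
    have := Finset.card_pos.2 ⟨_, h1⟩
    omega
  · rw [Finset.erase_eq_of_notMem (fun h1 => h (singleton_mem.1 h1)), add_zero]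

/-- Comparison: if two systems have the same counts below `N` and the same allowed pairs of sum
below `N`, then they have the same allowed parts below `N`. -/
theorem agree {g g' : ℕ → ℕ} {P P' : ℕ → Prop} (h0 : ∀ x, P x → 0 < x)
    (h0' : ∀ x, P' x → 0 < x) (N : ℕ) (hc : ∀ n < N, cnt g P n = cnt g' P' n)
    (hp : ∀ x y, x < y → P' x → P' y → x + y < N → (x + g x ≤ y ↔ x + g' x ≤ y)) :
    ∀ n < N, (P n ↔ P' n) := by
  classical
  intro n
  induction n using Nat.strong_induction_on with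
  | _ n ih =>
    intro hn
    have h1 := adm_erase_eq (g := g) (g' := g') h0 h0' (n := n)
      (fun x hx => ih x hx (hx.trans hn)) (fun x y hxy hx hy hs => hp x y hxy hx hy (by omega))
    have h2 := hc n hn
    rw [cnt_eq_erase, cnt_eq_erase, h1] at h2
    by_cases hP : P n <;> by_cases hP' : P' n <;> simp [hP, hP'] at h2 ⊢

/-- Determinism: the counts and the gaps determine the allowed parts. -/
theorem determ {g : ℕ → ℕ} {P P' : ℕ → Prop} (h0 : ∀ x, P x → 0 < x)
    (h0' : ∀ x, P' x → 0 < x) (hc : ∀ n, cnt g P n = cnt g P' n) (n : ℕ) : P n ↔ P' n :=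
  agree h0 h0' (n + 1) (fun m _ => hc m) (fun _ _ _ _ _ _ => Iff.rfl) n (Nat.lt_succ_self n)

/-! ## recursion on the smallest part -/

lemma cnt_small {g : ℕ → ℕ} {P : ℕ → Prop} {k n : ℕ} (hk : 1 ≤ k) (hn : n ≤ 2 * k)
    [Decidable (P n)] (hn1 : 1 ≤ n) : cnt g (ge P k) n = if k ≤ n ∧ P n then 1 else 0 := by
  classical
  have h1 : (adm g (ge P k) n).erase {n} = ∅ := by
    rw [Finset.eq_empty_iff_forall_notMem]
    intro T hT
    rw [Finset.mem_erase] at hT
    obtain ⟨hne, h⟩ := hT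
    have h0 : ∀ x, ge P k x → 0 < x := fun x hx => by have := hx.2; omega
    have h' := mem_adm.1 h
    rcases T.eq_empty_or_nonempty with hT | ⟨x, hx⟩
    · rw [hT] at h'
      simp at h'
      omega
    by_cases hex : ∃ y ∈ T, y ≠ x
    · obtain ⟨y, hy, hyx⟩ := hex
      have h2 := add_le_of_mem h hy hx hyx
      have h3 := (h'.1.1 x hx).2
      have h4 := (h'.1.1 y hy).2
      omega
    · push Not at hex
      have hT : T = {x} := by
        ext y
        rw [Finset.mem_singleton]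
        exact ⟨fun hy => hex y hy, fun hy => hy ▸ hx⟩
      have h3 := h'.2
      rw [hT, Finset.sum_singleton] at h3
      exact hne (hT.trans (by rw [h3]))
  rw [cnt_eq_erase, h1]
  by_cases h2 : P n <;> by_cases h3 : k ≤ n <;> simp [ge, h2, h3]

lemma cnt_big {g : ℕ → ℕ} {P : ℕ → Prop} {k n : ℕ} (hk : n < k) (hn1 : 1 ≤ n) :
    cnt g (ge P k) n = 0 := by
  unfold cnt
  rw [Finset.card_eq_zero, Finset.eq_empty_iff_forall_notMem]
  intro T h
  have h' := mem_adm.1 h
  rcases T.eq_empty_or_nonempty with hT | ⟨x, hx⟩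
  · rw [hT] at h'
    simp at h'
    omega
  · have h1 := le_of_mem h hx
    have h2 := (h'.1.1 x hx).2
    omega

lemma cnt_zero {g : ℕ → ℕ} {P : ℕ → Prop} (h0 : ∀ x, P x → 0 < x) : cnt g P 0 = 1 := by
  unfold cnt
  rw [Finset.card_eq_one]
  refine ⟨∅, ?_⟩
  ext T
  rw [Finset.mem_singleton]
  constructor
  · intro h
    rw [Finset.eq_empty_iff_forall_notMem]
    intro x hx
    have h1 := le_of_mem h hx
    have h2 := h0 x ((mem_adm.1 h).1.1 x hx)
    omega
  · rintro rfl
    rw [mem_adm]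
    exact ⟨⟨by simp, by simp⟩, by simp⟩

lemma cnt_split (g : ℕ → ℕ) (P : ℕ → Prop) (k n : ℕ) (hg : 0 < g k)
    [Decidable (P k ∧ k ≤ n)] :
    cnt g (ge P k) n = cnt g (ge P (k + 1)) n +
      if P k ∧ k ≤ n then cnt g (ge P (k + g k)) (n - k) else 0 := by
  classical
  unfold cnt
  rw [← Finset.card_filter_add_card_filter_not (s := adm g (ge P k) n) (fun T => k ∉ T)]
  congr 1
  · congr 1
    ext T
    rw [Finset.mem_filter, mem_adm, mem_adm]
    constructor
    · rintro ⟨⟨h1, h2⟩, h3⟩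
      refine ⟨⟨fun x hx => ⟨(h1.1 x hx).1, ?_⟩, h1.2⟩, h2⟩
      have h4 := (h1.1 x hx).2
      have h5 : x ≠ k := fun h => h3 (h ▸ hx)
      omega
    · rintro ⟨h1, h2⟩
      refine ⟨⟨⟨fun x hx => ⟨(h1.1 x hx).1, ?_⟩, h1.2⟩, h2⟩, fun hk => ?_⟩
      · have := (h1.1 x hx).2; omega
      · have := (h1.1 k hk).2; omega
  · split_ifs with hPk
    · refine Finset.card_bij' (fun T _ => T.erase k) (fun T _ => insert k T) ?_ ?_ ?_ ?_
      · intro T hT
        rw [Finset.mem_filter, mem_adm, not_not] at hT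
        obtain ⟨⟨h1, h2⟩, h3⟩ := hT
        rw [mem_adm]
        refine ⟨⟨fun x hx => ?_, fun x hx y hy => h1.2 x (Finset.mem_of_mem_erase hx) y
          (Finset.mem_of_mem_erase hy)⟩, ?_⟩
        · rw [Finset.mem_erase] at hx
          have h4 := h1.1 x hx.2
          have h5 : k ≤ x := h4.2
          exact ⟨h4.1, h1.2 k h3 x hx.2 (by omega)⟩
        · have := Finset.add_sum_erase T (fun x => x) h3
          omega
      · intro T hT
        rw [mem_adm] at hT
        rw [Finset.mem_filter, mem_adm, not_not]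
        have hkT : k ∉ T := fun h => by have := (hT.1.1 k h).2; omega
        refine ⟨⟨⟨fun x hx => ?_, fun x hx y hy hxy => ?_⟩, ?_⟩, Finset.mem_insert_self _ _⟩
        · rw [Finset.mem_insert] at hx
          rcases hx with rfl | hx
          · exact ⟨hPk.1, le_rfl⟩
          · have := (hT.1.1 x hx)
            exact ⟨this.1, by have := this.2; omega⟩
        · rw [Finset.mem_insert] at hx hy
          rcases hx with rfl | hx
          · rcases hy with rfl | hy
            · omega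
            · exact (hT.1.1 y hy).2
          · rcases hy with rfl | hy
            · have := (hT.1.1 x hx).2; omega
            · exact hT.1.2 x hx y hy hxy
        · rw [Finset.sum_insert hkT, hT.2]
          omega
      · intro T hT
        rw [Finset.mem_filter, not_not] at hT
        exact Finset.insert_erase hT.2
      · intro T hT
        rw [mem_adm] at hT
        have hkT : k ∉ T := fun h => by have := (hT.1.1 k h).2; omega
        exact Finset.erase_insert hkT
    · rw [Finset.card_eq_zero, Finset.eq_empty_iff_forall_notMem]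
      intro T hT
      rw [Finset.mem_filter, not_not] at hT
      exact hPk ⟨((mem_adm.1 hT.1).1.1 k hT.2).1, le_of_mem hT.1 hT.2⟩

end P46788a
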