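import Mathlib

/-!
# A verified search for gap systems: definitions
-/

namespace P46788a

/-- known gap after the part `x` (`0` = not known) -/
def gf (M : ℕ) (bs : List ℕ) (x : ℕ) : ℕ := bs.getD (x % M) 0

/-- number of nonempty admissible sets with all parts `≥ k` and sum `n` -/
def cg (M : ℕ) (p : ℕ → Bool) (bs : List ℕ) : ℕ → ℕ → ℕ → ℕ
  | 0, k, n => cond (Nat.ble k n && p n) 1 0
  | f + 1, k, n =>
    cond (Nat.ble n (2 * k)) (cond (Nat.ble k n && p n) 1 0)
      (cg M p bs f (k + 1) n +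
        cond (p k) (cond (Nat.beq (gf M bs k) 0) 0
          (cg M p bs f (k + gf M bs k) (n - k))) 0)

/-- smallest allowed part `e ≡ j`, `2 e < n`; `0` if there is none -/
def mel (M : ℕ) (p : ℕ → Bool) (n : ℕ) : ℕ → ℕ → ℕ
  | 0, _ => 0
  | f + 1, e => cond (Nat.ble n (2 * e)) 0 (cond (p e) e (mel M p n f (e + M)))

/-- all decisions at `n` for the classes `j < J` -/
def br (M : ℕ) (p : ℕ → Bool) (n : ℕ) : ℕ → List ℕ → List (List ℕ)
  | 0, bs => [bs]
  | j + 1, bs =>
    cond (Nat.beq (bs.getD j 0) 0)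
      (cond (Nat.beq (mel M p n n (cond (Nat.beq j 0) M j)) 0) (br M p n j bs)
        (br M p n j bs ++
          br M p n j (bs.set j (n - 2 * mel M p n n (cond (Nat.beq j 0) M j)))))
      (br M p n j bs)

/-- is the state in one of the boxes -/
def inb (boxes : List (List (ℕ × ℕ × ℕ))) (bs : List ℕ) : Bool :=
  boxes.any fun bx => bx.all fun t => Nat.ble (t.2.1 + 1) (bs.getD t.1 0) &&
    Nat.ble (bs.getD t.1 0) t.2.2

/-- the search -/
def dfs (M : ℕ) (boxes : List (List (ℕ × ℕ × ℕ))) : List ℕ → ℕ → ℕ → List ℕ → Bool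
  | [], _, _, _ => false
  | a :: al, n, pm, bs =>
    inb boxes bs || (br M (Nat.testBit pm) n M bs).all fun bs' =>
      cond (Nat.beq (cg M (Nat.testBit pm) bs' n 1 n) a) (dfs M boxes al (n + 1) pm bs')
        (cond (Nat.beq (cg M (Nat.testBit pm) bs' n 1 n + 1) a)
          (dfs M boxes al (n + 1) (pm ||| 2 ^ n) bs') true)

/-- residue test -/
def rs (M sm : ℕ) (x : ℕ) : Bool := Nat.testBit sm (x % M)

/-- check of the list of values of `A` -/
def chkA (M sm : ℕ) : List ℕ → ℕ → Bool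
  | [], _ => true
  | a :: al, n => Nat.beq (cg 1 (rs M sm) [1] n 1 n) a && chkA M sm al (n + 1)

end P46788a
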