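import Pool.Agent.Lib.MP_46788a_nt.Core
import Pool.Agent.Lib.MP_46788a_nt.DfsDef

/-!
# A verified search for gap systems: soundness
-/

open Finset

namespace P46788a

/-- gap function from the known gaps; unknown gaps are `B` -/
def gB (M : ℕ) (bs : List ℕ) (B x : ℕ) : ℕ := if gf M bs x = 0 then B else gf M bs x

theorem cg_eq (M : ℕ) (p : ℕ → Bool) (bs : List ℕ) (B : ℕ) : ∀ f k n, 1 ≤ k → 1 ≤ n →
    n ≤ f + 2 * k → n < B →
    cg M p bs f k n = cnt (gB M bs B) (ge (fun x => p x = true) k) n := by
  classical
  intro f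
  induction f with
  | zero =>
    intro k n hk hn hf _
    rw [cnt_small hk (by omega) hn]
    unfold cg
    by_cases h1 : k ≤ n
    · have : Nat.ble k n = true := by rw [Nat.ble_eq]; exact h1
      cases h2 : p n <;> simp [h1, this]
    · have : Nat.ble k n = false := by
        rw [← Bool.not_eq_true, Nat.ble_eq]; exact h1
      simp [h1, this]
  | succ f ih =>
    intro k n hk hn hf hB
    unfold cg
    by_cases h1 : n ≤ 2 * k
    · have e1 : Nat.ble n (2 * k) = true := by rw [Nat.ble_eq]; exact h1
      rw [e1, cond_true, cnt_small hk h1 hn]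
      by_cases h1 : k ≤ n
      · have : Nat.ble k n = true := by rw [Nat.ble_eq]; exact h1
        cases h2 : p n <;> simp [h1, this]
      · have : Nat.ble k n = false := by
          rw [← Bool.not_eq_true, Nat.ble_eq]; exact h1
        simp [h1, this]
    · have e1 : Nat.ble n (2 * k) = false := by
        rw [← Bool.not_eq_true, Nat.ble_eq]; exact h1
      have hg : 0 < gB M bs B k := by
        unfold gB
        split_ifs <;> omega
      rw [e1, cond_false, cnt_split _ _ _ _ hg, ih (k + 1) n (by omega) hn (by omega) hB]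
      congr 1
      cases h2 : p k
      · simp
      · have hkn : k ≤ n := by omega
        rw [cond_true, if_pos ⟨rfl, hkn⟩]
        by_cases h3 : gf M bs k = 0
        · have e2 : Nat.beq (gf M bs k) 0 = true := by rw [h3]; rfl
          have e3 : gB M bs B k = B := by unfold gB; rw [if_pos h3]
          rw [e2, cond_true, e3, cnt_big (by omega) (by omega)]
        · have e2 : Nat.beq (gf M bs k) 0 = false := by
            rw [← Bool.not_eq_true, Nat.beq_eq]; exact h3
          have e3 : gB M bs B k = gf M bs k := by unfold gB; rw [if_neg h3]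
          rw [e2, cond_false, e3]
          exact ih _ _ (by omega) (by omega) (by omega) (by omega)

theorem mel_spec {M : ℕ} (hM : 1 ≤ M) (p : ℕ → Bool) (n : ℕ) : ∀ f e, 1 ≤ e → n ≤ f + 2 * e →
    (mel M p n f e = 0 ∧ ∀ i, 2 * (e + i * M) < n → p (e + i * M) = false) ∨
    ∃ i, mel M p n f e = e + i * M ∧ 2 * (e + i * M) < n ∧ p (e + i * M) = true ∧
      ∀ i' < i, p (e + i' * M) = false := by
  intro f
  induction f with
  | zero =>
    intro e he hn
    left
    refine ⟨rfl, fun i hi => ?_⟩
    omega
  | succ f ih =>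
    intro e he hn
    unfold mel
    by_cases h1 : n ≤ 2 * e
    · left
      have e1 : Nat.ble n (2 * e) = true := by rw [Nat.ble_eq]; exact h1
      rw [e1]
      refine ⟨rfl, fun i hi => ?_⟩
      omega
    · have e1 : Nat.ble n (2 * e) = false := by
        rw [← Bool.not_eq_true, Nat.ble_eq]; exact h1
      rw [e1, cond_false]
      cases h2 : p e
      · rw [cond_false]
        rcases ih (e + M) (by omega) (by omega) with ⟨h3, h4⟩ | ⟨i, h3, h4, h5, h6⟩
        · left
          refine ⟨h3, fun i hi => ?_⟩
          rcases Nat.eq_zero_or_pos i with rfl | hi0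
          · simpa using h2
          · obtain ⟨i, rfl⟩ : ∃ j, i = j + 1 := ⟨i - 1, by omega⟩
            have e2 : e + (i + 1) * M = e + M + i * M := by ring
            rw [e2] at hi ⊢
            exact h4 i hi
        · right
          have e2 : e + (i + 1) * M = e + M + i * M := by ring
          refine ⟨i + 1, by rw [h3, e2], by rw [e2]; exact h4, by rw [e2]; exact h5, ?_⟩
          intro i' hi'
          rcases Nat.eq_zero_or_pos i' with rfl | hi0
          · simpa using h2
          · obtain ⟨i'', rfl⟩ : ∃ j, i' = j + 1 := ⟨i' - 1, by omega⟩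
            have e3 : e + (i'' + 1) * M = e + M + i'' * M := by ring
            rw [e3]
            exact h6 i'' (by omega)
      · rw [cond_true]
        right
        exact ⟨0, by simp, by simpa using h1, by simpa using h2, by simp⟩

lemma getD_set (bs : List ℕ) (j v r : ℕ) (hj : j < bs.length) :
    (bs.set j v).getD r 0 = if r = j then v else bs.getD r 0 := by
  rw [List.getD_eq_getElem?_getD, List.getElem?_set, List.getD_eq_getElem?_getD]
  by_cases h : r = j
  · subst h; simp [hj]
  · rw [if_neg h, if_neg (fun h' => h h'.symm)]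

lemma cls_form {M j x : ℕ} (hM : 1 ≤ M) (hx : 0 < x) (hj : x % M = j) :
    ∃ i, x = (cond (Nat.beq j 0) M j) + i * M := by
  have h1 := Nat.mod_add_div x M
  rw [hj] at h1
  rcases Nat.eq_zero_or_pos j with h0 | h0
  · subst h0
    have h2 : 0 < x / M := by
      rcases Nat.eq_zero_or_pos (x / M) with h | h
      · rw [h] at h1; omega
      · exact h
    refine ⟨x / M - 1, ?_⟩
    show x = M + (x / M - 1) * M
    obtain ⟨q, hq⟩ : ∃ q, x / M = q + 1 := ⟨x / M - 1, by omega⟩
    rw [hq] at h1 ⊢
    rw [← h1]
    simp only [Nat.add_sub_cancel]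
    ring
  · have e : Nat.beq j 0 = false := by
      rw [← Bool.not_eq_true, Nat.beq_eq]; omega
    refine ⟨x / M, ?_⟩
    rw [e, cond_false]
    rw [Nat.mul_comm] at h1
    exact h1.symm

/-- the invariant of the search -/
def Inv (M : ℕ) (β : ℕ → ℕ) (P : ℕ → Prop) (J n : ℕ) (bs : List ℕ) : Prop :=
  bs.length = M ∧ ∀ r < M, (bs.getD r 0 ≠ 0 → bs.getD r 0 = β r) ∧
    (bs.getD r 0 = 0 → ∀ x, P x → x % M = r → (if r < J then n else n + 1) ≤ 2 * x + β r)

theorem br_spec {M : ℕ} (hM : 1 ≤ M) {p : ℕ → Bool} {n : ℕ} {β : ℕ → ℕ} {P : ℕ → Prop}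
    (hβ : ∀ r < M, 1 ≤ β r) (h0 : ∀ x, P x → 0 < x) (hp : ∀ x < n, (p x = true ↔ P x)) :
    ∀ J ≤ M, ∀ bs, Inv M β P J n bs → ∃ bs' ∈ br M p n J bs, Inv M β P 0 n bs' := by
  intro J
  induction J with
  | zero =>
    intro _ bs h
    exact ⟨bs, by simp [br], h⟩
  | succ j ih =>
    intro hj bs h
    have hjM : j < M := hj
    unfold br
    by_cases h1 : bs.getD j 0 = 0
    · have e1 : Nat.beq (bs.getD j 0) 0 = true := by rw [h1]; rfl
      rw [e1, cond_true]
      have he : 1 ≤ cond (Nat.beq j 0) M j := by
        cases h2 : Nat.beq j 0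
        · rw [cond_false]
          rw [← Bool.not_eq_true, Nat.beq_eq] at h2
          omega
        · rw [cond_true]; exact hM
      rcases mel_spec hM p n n _ he (by omega) with ⟨h3, h4⟩ | ⟨i, h3, h4, h5, h6⟩
      · have e2 : Nat.beq (mel M p n n (cond (Nat.beq j 0) M j)) 0 = true := by rw [h3]; rfl
        rw [e2, cond_true]
        refine ih hjM.le bs ⟨h.1, fun r hr => ⟨(h.2 r hr).1, fun hb x hx hxr => ?_⟩⟩
        have h5 := (h.2 r hr).2 hb x hx hxr
        rcases lt_trichotomy r j with hrj | rfl | hrj
        · rw [if_pos hrj]; rw [if_pos (by omega)] at h5; exact h5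
        · rw [if_neg (lt_irrefl _)]
          obtain ⟨i, hi⟩ := cls_form hM (h0 x hx) hxr
          have h6 : ¬ 2 * x < n := by
            intro h7
            have h8 := h4 i (by rw [← hi]; exact h7)
            rw [← hi] at h8
            have h9 := (hp x (by omega)).2 hx
            rw [h8] at h9
            exact Bool.false_ne_true h9
          have := hβ r hr
          omega
        · rw [if_neg (by omega)]; rw [if_neg (by omega)] at h5; exact h5
      · have e2 : Nat.beq (mel M p n n (cond (Nat.beq j 0) M j)) 0 = false := by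
          rw [← Bool.not_eq_true, Nat.beq_eq, h3]; omega
        rw [e2, cond_false, h3]
        set e0 := cond (Nat.beq j 0) M j + i * M with he0
        have hPe : P e0 := (hp e0 (by omega)).1 h5
        have hre : e0 % M = j := by
          rw [he0, Nat.add_mul_mod_self_right]
          cases h2 : Nat.beq j 0
          · rw [cond_false]; exact Nat.mod_eq_of_lt hjM
          · rw [cond_true]
            rw [Nat.beq_eq] at h2
            rw [Nat.mod_self, h2]
        have hin := (h.2 j hjM).2 h1 e0 hPe hre
        rw [if_pos (Nat.lt_succ_self j)] at hin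
        by_cases hdec : β j = n - 2 * e0
        · suffices hI : Inv M β P j n (bs.set j (n - 2 * e0)) by
            obtain ⟨bs', hb1, hb2⟩ := ih hjM.le _ hI
            exact ⟨bs', List.mem_append.2 (Or.inr hb1), hb2⟩
          refine ⟨by rw [List.length_set]; exact h.1, fun r hr => ?_⟩
          rw [getD_set _ _ _ _ (by rw [h.1]; exact hjM)]
          by_cases hrj : r = j
          · rw [if_pos hrj]
            refine ⟨fun _ => by rw [hrj, hdec], fun h7 => ?_⟩
            have := hβ j hjM
            omega
          · rw [if_neg hrj]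
            refine ⟨(h.2 r hr).1, fun hb x hx hxr => ?_⟩
            have h5 := (h.2 r hr).2 hb x hx hxr
            rcases Nat.lt_or_ge r j with hrj' | hrj'
            · rw [if_pos hrj']; rw [if_pos (by omega)] at h5; exact h5
            · rw [if_neg (by omega)]; rw [if_neg (by omega)] at h5; exact h5
        · suffices hI : Inv M β P j n bs by
            obtain ⟨bs', hb1, hb2⟩ := ih hjM.le _ hI
            exact ⟨bs', List.mem_append.2 (Or.inl hb1), hb2⟩
          refine ⟨h.1, fun r hr => ⟨(h.2 r hr).1, fun hb x hx hxr => ?_⟩⟩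
          have h7 := (h.2 r hr).2 hb x hx hxr
          rcases lt_trichotomy r j with hrj | hrj | hrj
          · rw [if_pos hrj]; rw [if_pos (by omega)] at h7; exact h7
          · rw [if_neg (by omega)]
            obtain ⟨i', hi'⟩ := cls_form hM (h0 x hx) hxr
            rw [hrj] at hi' ⊢
            rcases Nat.lt_or_ge i' i with hii | hii
            · exfalso
              have h8 := h6 i' hii
              rw [← hi'] at h8
              have h10 : i' * M ≤ i * M := Nat.mul_le_mul_right M hii.le
              have h9 := (hp x (by omega)).2 hx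
              rw [h8] at h9
              exact Bool.false_ne_true h9
            · have h10 : i * M ≤ i' * M := Nat.mul_le_mul_right M hii
              omega
          · rw [if_neg (by omega)]; rw [if_neg (by omega)] at h7; exact h7
    · have e1 : Nat.beq (bs.getD j 0) 0 = false := by
        rw [← Bool.not_eq_true, Nat.beq_eq]; exact h1
      rw [e1, cond_false]
      refine ih hjM.le bs ⟨h.1, fun r hr => ⟨(h.2 r hr).1, fun hb x hx hxr => ?_⟩⟩
      have h5 := (h.2 r hr).2 hb x hx hxr
      rcases lt_trichotomy r j with hrj | rfl | hrj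
      · rw [if_pos hrj]; rw [if_pos (by omega)] at h5; exact h5
      · exact absurd hb h1
      · rw [if_neg (by omega)]; rw [if_neg (by omega)] at h5; exact h5

/-- the conclusion of the search -/
def InBox (boxes : List (List (ℕ × ℕ × ℕ))) (β : ℕ → ℕ) : Prop :=
  ∃ bx ∈ boxes, ∀ t ∈ bx, t.2.1 < β t.1 ∧ β t.1 ≤ t.2.2

theorem inb_sound {M : ℕ} {β : ℕ → ℕ} {P : ℕ → Prop} {J n : ℕ} {bs : List ℕ}
    (h : Inv M β P J n bs) {boxes : List (List (ℕ × ℕ × ℕ))} (hb : inb boxes bs = true) :
    InBox boxes β := by
  unfold inb at hb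
  rw [List.any_eq_true] at hb
  obtain ⟨bx, h1, h2⟩ := hb
  refine ⟨bx, h1, fun t ht => ?_⟩
  rw [List.all_eq_true] at h2
  have h3 := h2 t ht
  rw [Bool.and_eq_true, Nat.ble_eq, Nat.ble_eq] at h3
  have h4 : t.1 < M := by
    by_contra hge
    have : bs.getD t.1 0 = 0 := by
      rw [List.getD_eq_getElem?_getD, List.getElem?_eq_none (by rw [h.1]; omega)]
      rfl
    omega
  have h5 := (h.2 t.1 h4).1 (by omega)
  rw [h5] at h3
  omega

theorem dfs_sound {M : ℕ} (hM : 1 ≤ M) {boxes : List (List (ℕ × ℕ × ℕ))} {β : ℕ → ℕ}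
    {P : ℕ → Prop} (hβ : ∀ r < M, 1 ≤ β r) (h0 : ∀ x, P x → 0 < x) {A : ℕ → ℕ}
    (hc : ∀ n, cnt (fun x => β (x % M)) P n = A n) :
    ∀ (al : List ℕ) (n pm : ℕ) (bs : List ℕ), dfs M boxes al n pm bs = true → 1 ≤ n →
    (∀ i (hi : i < al.length), al[i] = A (n + i)) →
    (∀ x < n, (Nat.testBit pm x = true ↔ P x)) → (∀ x, n ≤ x → Nat.testBit pm x = false) →
    Inv M β P M n bs → InBox boxes β := by
  classical
  intro al
  induction al with
  | nil =>
    intro n pm bs h
    exact absurd h (by simp [dfs])
  | cons a al ih =>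
    intro n pm bs h hn hA hp1 hp2 hInv
    unfold dfs at h
    rw [Bool.or_eq_true] at h
    rcases h with h | h
    · exact inb_sound hInv h
    rw [List.all_eq_true] at h
    obtain ⟨bs', hb1, hb2⟩ := br_spec hM (p := Nat.testBit pm) hβ h0 hp1 M le_rfl bs hInv
    have h1 := h bs' hb1
    -- the invariant at `n + 1`
    have hInv' : Inv M β P M (n + 1) bs' := by
      refine ⟨hb2.1, fun r hr => ⟨(hb2.2 r hr).1, fun hb x hx hxr => ?_⟩⟩
      have := (hb2.2 r hr).2 hb x hx hxr
      rw [if_neg (Nat.not_lt_zero r)] at this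
      rw [if_pos hr]
      exact this
    -- the count
    have hcg := cg_eq M (Nat.testBit pm) bs' (n + 1) n 1 n le_rfl hn (by omega) (by omega)
    have hbits : ∀ x, x < n → (ge (fun x => Nat.testBit pm x = true) 1 x ↔ P x) := by
      intro x hx
      unfold ge
      exact ⟨fun h => (hp1 x hx).1 h.1, fun h => ⟨(hp1 x hx).2 h, h0 x h⟩⟩
    have hpn : ¬ ge (fun x => Nat.testBit pm x = true) 1 n := by
      intro h
      have h1 : Nat.testBit pm n = true := h.1
      rw [hp2 n le_rfl] at h1
      exact Bool.false_ne_true h1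
    have hset : (adm (gB M bs' (n + 1)) (ge (fun x => Nat.testBit pm x = true) 1) n).erase {n} =
        (adm (fun x => β (x % M)) P n).erase {n} := by
      refine adm_erase_eq (fun x hx => hx.2) h0 hbits ?_
      intro x y hxy hx hy hs
      have hr : x % M < M := Nat.mod_lt _ (by omega)
      have hI := hb2.2 (x % M) hr
      unfold gB gf
      by_cases hz : bs'.getD (x % M) 0 = 0
      · rw [if_pos hz]
        have := hI.2 hz x hx rfl
        rw [if_neg (Nat.not_lt_zero _)] at this
        constructor
        · intro h; omega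
        · intro h; omega
      · rw [if_neg hz, hI.1 hz]
    have hcount : cnt (fun x => β (x % M)) P n =
        cg M (Nat.testBit pm) bs' n 1 n + if P n then 1 else 0 := by
      rw [cnt_eq_erase, ← hset, hcg, cnt_eq_erase, if_neg hpn, add_zero]
    have ha : a = A n := by
      have := hA 0 (by simp)
      simpa using this
    rw [hc n, ← ha] at hcount
    have hA' : ∀ i (hi : i < al.length), al[i] = A (n + 1 + i) := by
      intro i hi
      have := hA (i + 1) (by simpa using hi)
      rw [List.getElem_cons_succ] at this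
      rw [this]
      congr 1
      ring
    by_cases hPn : P n
    · rw [if_pos hPn] at hcount
      have e1 : Nat.beq (cg M (Nat.testBit pm) bs' n 1 n) a = false := by
        rw [← Bool.not_eq_true, Nat.beq_eq]; omega
      have e2 : Nat.beq (cg M (Nat.testBit pm) bs' n 1 n + 1) a = true := by
        rw [Nat.beq_eq]; omega
      rw [e1, e2, cond_false, cond_true] at h1
      refine ih (n + 1) (pm ||| 2 ^ n) bs' h1 (by omega) hA' ?_ ?_ hInv'
      · intro x hx
        rw [Nat.testBit_or, Nat.testBit_two_pow]
        rcases Nat.lt_or_ge x n with hxn | hxn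
        · have : ¬ n = x := by omega
          simp [this, hp1 x hxn]
        · have : n = x := by omega
          subst this
          simp [hPn]
      · intro x hx
        rw [Nat.testBit_or, Nat.testBit_two_pow, hp2 x (by omega)]
        have : ¬ n = x := by omega
        simp [this]
    · rw [if_neg hPn, add_zero] at hcount
      have e1 : Nat.beq (cg M (Nat.testBit pm) bs' n 1 n) a = true := by
        rw [Nat.beq_eq]; omega
      rw [e1, cond_true] at h1
      refine ih (n + 1) pm bs' h1 (by omega) hA' ?_ (fun x hx => hp2 x (by omega)) hInv'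
      intro x hx
      rcases Nat.lt_or_ge x n with hxn | hxn
      · exact hp1 x hxn
      · have : n = x := by omega
        subst this
        rw [hp2 n le_rfl]
        simp [hPn]

/-- the parts of the product side -/
def SP (M sm : ℕ) (x : ℕ) : Prop := rs M sm x = true ∧ 1 ≤ x

theorem chkA_sound {M sm : ℕ} : ∀ (al : List ℕ) (n : ℕ), chkA M sm al n = true → 1 ≤ n →
    ∀ i (hi : i < al.length), al[i] = cnt (fun _ => 1) (SP M sm) (n + i) := by
  intro al
  induction al with
  | nil => intro n _ _ i hi; exact absurd hi (by simp)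
  | cons a al ih =>
    intro n h hn i hi
    unfold chkA at h
    rw [Bool.and_eq_true, Nat.beq_eq] at h
    rcases i with _ | i
    · have h1 := cg_eq 1 (rs M sm) [1] (n + 1) n 1 n le_rfl hn (by omega) (by omega)
      rw [h.1] at h1
      have e1 : gB 1 [1] (n + 1) = fun _ => 1 := by
        funext x
        unfold gB gf
        rw [Nat.mod_one]
        rfl
      rw [e1] at h1
      rw [List.getElem_cons_zero, Nat.add_zero]
      exact h1
    · have := ih (n + 1) h.2 (by omega) i (by simpa using hi)
      rw [List.getElem_cons_succ, this]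
      congr 1
      ring

/-- soundness of the whole search -/
theorem search_sound {M sm : ℕ} (hM : 1 ≤ M) {boxes : List (List (ℕ × ℕ × ℕ))} {al bs : List ℕ}
    (hbs : bs = List.replicate M 0)
    (hd : (chkA M sm al 1 && dfs M boxes al 1 0 bs) = true)
    {β : ℕ → ℕ} {P : ℕ → Prop} (hβ : ∀ r < M, 1 ≤ β r) (h0 : ∀ x, P x → 0 < x)
    (hc : ∀ n, cnt (fun x => β (x % M)) P n = cnt (fun _ => 1) (SP M sm) n) :
    InBox boxes β := by
  rw [Bool.and_eq_true] at hd
  subst hbs
  refine dfs_sound hM hβ h0 hc al 1 0 _ hd.2 le_rfl (chkA_sound al 1 hd.1 le_rfl) ?_ ?_ ?_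
  · intro x hx
    have : x = 0 := by omega
    subst this
    simp only [Nat.zero_testBit]
    exact ⟨fun h => absurd h (by simp), fun h => absurd (h0 0 h) (by omega)⟩
  · intro x _
    simp
  · refine ⟨by simp, fun r hr => ⟨fun h => ?_, fun _ x hx _ => ?_⟩⟩
    · exfalso; apply h
      rw [List.getD_eq_getElem?_getD, List.getElem?_replicate]
      simp [hr]
    · rw [if_pos hr]
      have := h0 x hx
      omega

end P46788a
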