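import Pool.Agent.Lib.MP_46788a_nt.Core

/-!
# Generating functions of gap systems at a real number
-/

open Finset

namespace P46788a

/-- the generating function of the admissible sets with parts `≥ m`, at `q` -/
noncomputable def Z (g : ℕ → ℕ) (P : ℕ → Prop) (m : ℕ) (q : ℝ) : ℝ :=
  ∑' n, (cnt g (ge P m) n : ℝ) * q ^ n

section
variable {g g' : ℕ → ℕ} {P P' : ℕ → Prop} {m : ℕ} {q : ℝ}

lemma part_le (hq : 0 ≤ q) (hq1 : q < 1) (N : ℕ) :
    ∑ n ∈ Finset.range N, (cnt g (ge P m) n : ℝ) * q ^ n ≤ Real.exp (q ^ m / (1 - q)) := by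
  classical
  have h1 : ∑ n ∈ Finset.range N, (cnt g (ge P m) n : ℝ) * q ^ n =
      ∑ T ∈ (Finset.range N).biUnion (adm g (ge P m)), ∏ x ∈ T, q ^ x := by
    rw [Finset.sum_biUnion]
    · refine Finset.sum_congr rfl fun n _ => ?_
      rw [Finset.sum_congr rfl (g := fun _ => q ^ n), Finset.sum_const, nsmul_eq_mul]
      · rfl
      · intro T hT
        rw [Finset.prod_pow_eq_pow_sum, (mem_adm.1 hT).2]
    · intro n _ n' _ hne
      rw [Function.onFun, Finset.disjoint_left]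
      intro T hT hT'
      exact hne ((mem_adm.1 hT).2.symm.trans (mem_adm.1 hT').2)
  have h2 : (Finset.range N).biUnion (adm g (ge P m)) ⊆ (Finset.Ico m N).powerset := by
    intro T hT
    rw [Finset.mem_biUnion] at hT
    obtain ⟨n, hn, hT⟩ := hT
    rw [Finset.mem_powerset]
    intro x hx
    have h3 := le_of_mem hT hx
    have h4 := ((mem_adm.1 hT).1.1 x hx).2
    rw [Finset.mem_range] at hn
    rw [Finset.mem_Ico]
    omega
  have h3 : ∑ T ∈ (Finset.range N).biUnion (adm g (ge P m)), ∏ x ∈ T, q ^ x ≤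
      ∏ x ∈ Finset.Ico m N, (1 + q ^ x) := by
    rw [Finset.prod_one_add]
    exact Finset.sum_le_sum_of_subset_of_nonneg h2 fun T _ _ =>
      Finset.prod_nonneg fun x _ => pow_nonneg hq x
  have h4 : ∏ x ∈ Finset.Ico m N, (1 + q ^ x) ≤ Real.exp (∑ x ∈ Finset.Ico m N, q ^ x) := by
    rw [Real.exp_sum]
    refine Finset.prod_le_prod (fun x _ => by positivity) fun x _ => ?_
    rw [add_comm]
    exact Real.add_one_le_exp _
  have h5 : ∑ x ∈ Finset.Ico m N, q ^ x ≤ q ^ m / (1 - q) := geom_sum_Ico_le_of_lt_one hq hq1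
  rw [h1]
  exact h3.trans (h4.trans (Real.exp_le_exp.2 h5))

lemma Z_summable (hq : 0 ≤ q) (hq1 : q < 1) :
    Summable fun n => (cnt g (ge P m) n : ℝ) * q ^ n :=
  summable_of_sum_range_le (fun n => by positivity) fun N => part_le hq hq1 N

lemma Z_le_exp (hq : 0 ≤ q) (hq1 : q < 1) :
    Z g P m q ≤ Real.exp (q ^ m / (1 - q)) :=
  Real.tsum_le_of_sum_range_le (fun n => by positivity) fun N => part_le hq hq1 N

lemma one_le_Z (hm : 1 ≤ m) (hq : 0 ≤ q) (hq1 : q < 1) : 1 ≤ Z g P m q := by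
  have h1 := (Z_summable (g := g) (P := P) (m := m) hq hq1).le_tsum 0 fun n _ => by positivity
  rw [cnt_zero (fun x hx => by have := hx.2; omega)] at h1
  simpa [Z] using h1

lemma Z_mono (hq : 0 ≤ q) (hq1 : q < 1) (hP : ∀ x, m ≤ x → P' x → P x)
    (hg : ∀ x, m ≤ x → g x ≤ g' x) : Z g' P' m q ≤ Z g P m q := by
  refine (Z_summable hq hq1).tsum_le_tsum (fun n => ?_) (Z_summable hq hq1)
  refine mul_le_mul_of_nonneg_right ?_ (pow_nonneg hq n)
  have : cnt g' (ge P' m) n ≤ cnt g (ge P m) n := by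
    refine Finset.card_le_card fun T hT => ?_
    rw [mem_adm] at hT ⊢
    refine ⟨⟨fun x hx => ⟨hP x (hT.1.1 x hx).2 (hT.1.1 x hx).1, (hT.1.1 x hx).2⟩,
      fun x hx y hy hxy => ?_⟩, hT.2⟩
    have h1 := hT.1.2 x hx y hy hxy
    have h2 := hg x (hT.1.1 x hx).2
    omega
  exact_mod_cast this

lemma Z_congr (hq : 0 ≤ q) (hq1 : q < 1) (hP : ∀ x, m ≤ x → (P' x ↔ P x))
    (hg : ∀ x, m ≤ x → g x = g' x) : Z g' P' m q = Z g P m q :=
  le_antisymm (Z_mono hq hq1 (fun x hx => (hP x hx).1) fun x hx => (hg x hx).le)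
    (Z_mono hq hq1 (fun x hx => (hP x hx).2) fun x hx => (hg x hx).ge)

lemma Z_pos (hq : 0 ≤ q) (hq1 : q < 1) (hg : 1 ≤ g m) (hP : P m) :
    Z g P m q = Z g P (m + 1) q + q ^ m * Z g P (m + g m) q := by
  classical
  have hs1 := Z_summable (g := g) (P := P) (m := m + 1) hq hq1
  have hs2 := Z_summable (g := g) (P := P) (m := m + g m) hq hq1
  set c : ℕ → ℝ := fun n => if m ≤ n then (cnt g (ge P (m + g m)) (n - m) : ℝ) * q ^ n else 0
    with hc
  have h1 : (fun n => (cnt g (ge P m) n : ℝ) * q ^ n) =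
      fun n => (cnt g (ge P (m + 1)) n : ℝ) * q ^ n + c n := by
    funext n
    rw [cnt_split g P m n hg, hc]
    by_cases h : m ≤ n
    · simp only [hP, h, and_self, if_true]
      push_cast
      ring
    · simp only [h, and_false, if_false]
      push_cast
      ring
  have h2 : ∀ n, c (n + m) = q ^ m * ((cnt g (ge P (m + g m)) n : ℝ) * q ^ n) := by
    intro n
    simp only [hc, Nat.le_add_left, if_true, Nat.add_sub_cancel]
    rw [pow_add]
    ring
  have h3 : Summable fun n => c (n + m) := by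
    simp only [h2]
    exact hs2.mul_left _
  have h4 : Summable c := (summable_nat_add_iff m).1 h3
  have h5 : ∑' n, c n = q ^ m * Z g P (m + g m) q := by
    rw [← h4.sum_add_tsum_nat_add m, Finset.sum_eq_zero, zero_add]
    · simp only [h2]
      rw [tsum_mul_left]
      rfl
    · intro n hn
      rw [Finset.mem_range] at hn
      simp only [hc]
      rw [if_neg (by omega)]
  unfold Z at h5 ⊢
  rw [h1, hs1.tsum_add h4, h5]

lemma Z_neg (hP : ¬ P m) : Z g P m q = Z g P (m + 1) q := by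
  have : ge P m = ge P (m + 1) := by
    funext x
    apply propext
    unfold ge
    constructor
    · rintro ⟨h1, h2⟩
      refine ⟨h1, ?_⟩
      rcases Nat.lt_or_ge m x with h | h
      · exact h
      · exact absurd ((le_antisymm h h2) ▸ h1) hP
    · rintro ⟨h1, h2⟩
      exact ⟨h1, by omega⟩
  unfold Z
  rw [this]

lemma Z_anti {k : ℕ} (hq : 0 ≤ q) (hq1 : q < 1) (hk : m ≤ k) :
    Z g P k q ≤ Z g P m q := by
  refine (Z_summable hq hq1).tsum_le_tsum (fun n => ?_) (Z_summable hq hq1)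
  refine mul_le_mul_of_nonneg_right ?_ (pow_nonneg hq n)
  have : cnt g (ge P k) n ≤ cnt g (ge P m) n := by
    refine Finset.card_le_card fun T hT => ?_
    rw [mem_adm] at hT ⊢
    exact ⟨⟨fun x hx => ⟨(hT.1.1 x hx).1, hk.trans (hT.1.1 x hx).2⟩, hT.1.2⟩, hT.2⟩
  exact_mod_cast this

lemma Z_half (hm : 1 ≤ m) (hq : 0 ≤ q) (hq1 : q < 1) (hg : 1 ≤ g m) :
    Z g P m q ≤ 2 * Z g P (m + 1) q := by
  have h0 : 1 ≤ Z g P (m + 1) q := one_le_Z (by omega) hq hq1
  by_cases hP : P m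
  · rw [Z_pos hq hq1 hg hP]
    have h1 : Z g P (m + g m) q ≤ Z g P (m + 1) q := Z_anti hq hq1 (by omega)
    have h2 : q ^ m ≤ 1 := pow_le_one₀ hq hq1.le
    have h3 : 0 ≤ Z g P (m + g m) q := zero_le_one.trans (one_le_Z (by omega) hq hq1)
    nlinarith [mul_le_mul h2 h1 h3 zero_le_one]
  · rw [Z_neg hP]
    linarith

lemma Z_halfs (hm : 1 ≤ m) (hq : 0 ≤ q) (hq1 : q < 1) (hg : ∀ x, 1 ≤ x → 1 ≤ g x) (k : ℕ) :
    Z g P m q ≤ 2 ^ k * Z g P (m + k) q := by
  induction k with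
  | zero => simp
  | succ k ih =>
    have h1 := Z_half (g := g) (P := P) (m := m + k) (q := q) (by omega) hq hq1
      (hg _ (by omega))
    calc Z g P m q ≤ 2 ^ k * Z g P (m + k) q := ih
      _ ≤ 2 ^ k * (2 * Z g P (m + k + 1) q) := by gcongr
      _ = 2 ^ (k + 1) * Z g P (m + (k + 1)) q := by rw [pow_succ, ← add_assoc]; ring

end

end P46788a
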