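import Pool.Agent.Lib.MP_46788a_nt.Fin1

/-!
# Smaller gaps give a generating function which is larger by an unbounded factor
-/

open Finset

namespace P46788a

/-- the recursions of two gap systems from `m0` on -/
structure Two (f h : ℕ → ℝ) (g g' : ℕ → ℕ) (m0 G : ℕ) (q : ℝ) : Prop where
  hq : 0 < q
  hq1 : q < 1
  g1 : ∀ x, m0 ≤ x → 1 ≤ g x
  gg : ∀ x, m0 ≤ x → g x ≤ g' x
  gG : ∀ x, m0 ≤ x → g' x ≤ G
  f0 : ∀ x, m0 ≤ x → 1 ≤ f x
  h0 : ∀ x, m0 ≤ x → 1 ≤ h x
  fr : ∀ x, m0 ≤ x → f x = f (x + 1) + q ^ x * f (x + g x)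
  hr : ∀ x, m0 ≤ x → h x = h (x + 1) + q ^ x * h (x + g' x)
  anti : ∀ x y, m0 ≤ x → x ≤ y → h y ≤ h x
  half : ∀ x, m0 ≤ x → h x ≤ 2 * h (x + 1)

/-- `f ≥ σ h` on `G` consecutive indices -/
def Win (f h : ℕ → ℝ) (G : ℕ) (σ : ℝ) (m : ℕ) : Prop := ∀ y, m ≤ y → y < m + G → σ * h y ≤ f y

section
variable {f h : ℕ → ℝ} {g g' : ℕ → ℕ} {m0 G : ℕ} {q : ℝ}

lemma Two.halfs (T : Two f h g g' m0 G q) {x : ℕ} (hx : m0 ≤ x) (k : ℕ) :
    h x ≤ 2 ^ k * h (x + k) := by
  induction k with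
  | zero => simp
  | succ k ih =>
    have h1 := T.half (x + k) (by omega)
    calc h x ≤ 2 ^ k * h (x + k) := ih
      _ ≤ 2 ^ k * (2 * h (x + k + 1)) := by gcongr
      _ = 2 ^ (k + 1) * h (x + (k + 1)) := by rw [pow_succ, ← add_assoc]; ring

lemma Two.down (T : Two f h g g' m0 G q) {σ : ℝ} (hσ : 0 ≤ σ) {m : ℕ} (hm : m0 ≤ m)
    (hw : Win f h G σ (m + 1)) : Win f h G σ m := by
  intro y hy1 hy2
  rcases Nat.eq_or_lt_of_le hy1 with rfl | hlt
  · have hg1 := T.g1 m hm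
    have hgg := T.gg m hm
    have hgG := T.gG m hm
    have h1 := hw (m + 1) (by omega) (by omega)
    have h2 := hw (m + g m) (by omega) (by omega)
    have h3 := T.anti (m + g m) (m + g' m) (by omega) (by omega)
    have h4 : 0 ≤ q ^ m := pow_nonneg T.hq.le m
    rw [T.fr m hm, T.hr m hm]
    have h5 : σ * h (m + g' m) ≤ f (m + g m) := (mul_le_mul_of_nonneg_left h3 hσ).trans h2
    nlinarith [mul_le_mul_of_nonneg_left h5 h4]
  · exact hw y (by omega) (by omega)

lemma Two.downs (T : Two f h g g' m0 G q) {σ : ℝ} (hσ : 0 ≤ σ) {m n : ℕ} (hm : m0 ≤ m)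
    (hmn : m ≤ n) (hw : Win f h G σ n) : Win f h G σ m := by
  induction n, hmn using Nat.le_induction with
  | base => exact hw
  | succ n hn ih => exact ih (T.down hσ (hm.trans hn) hw)

/-- the gain at an index where the gaps differ -/
lemma Two.gain (T : Two f h g g' m0 G q) {σ : ℝ} (hσ : 0 ≤ σ) {m : ℕ} (hm : m0 ≤ m)
    (hlt : g m < g' m) (hw : Win f h G σ (m + 1)) :
    σ * (1 + q ^ (2 * m + G) / 4 ^ G) * h m ≤ f m := by
  have hg1 := T.g1 m hm
  have hgG := T.gG m hm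
  have h1 := hw (m + 1) (by omega) (by omega)
  have h2 := hw (m + g m) (by omega) (by omega)
  have h3 := T.hr (m + g m) (by omega)
  have h4 := T.anti (m + g m + 1) (m + g' m) (by omega) (by omega)
  have hg2 := T.gG (m + g m) (by omega)
  have h5 := T.anti (m + g m + g' (m + g m)) (m + 2 * G) (by omega) (by omega)
  have h6 := T.halfs hm (2 * G)
  have h40 : (2 : ℝ) ^ (2 * G) = 4 ^ G := by rw [pow_mul]; norm_num
  rw [h40] at h6
  have h4p : (0 : ℝ) < 4 ^ G := by positivity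
  have h7 : h m / 4 ^ G ≤ h (m + g m + g' (m + g m)) := by
    refine le_trans ?_ h5
    rw [div_le_iff₀ h4p]
    linarith
  have h8 : q ^ (m + G) ≤ q ^ (m + g m) :=
    pow_le_pow_of_le_one T.hq.le T.hq1.le (by omega)
  have h9 : 0 ≤ q ^ m := pow_nonneg T.hq.le m
  have h10 : (0 : ℝ) ≤ h m / 4 ^ G := div_nonneg (zero_le_one.trans (T.h0 m hm)) h4p.le
  have h11 : h (m + g' m) + q ^ (m + G) * (h m / 4 ^ G) ≤ h (m + g m) := by
    rw [h3]
    have := mul_le_mul h8 h7 h10 (pow_nonneg T.hq.le _)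
    linarith
  have h12 : σ * (h (m + g' m) + q ^ (m + G) * (h m / 4 ^ G)) ≤ f (m + g m) :=
    (mul_le_mul_of_nonneg_left h11 hσ).trans h2
  have h13 := mul_le_mul_of_nonneg_left h12 h9
  rw [T.fr m hm]
  have e : q ^ (2 * m + G) = q ^ m * q ^ (m + G) := by
    rw [← pow_add]
    congr 1
    omega
  have e2 : σ * (1 + q ^ (2 * m + G) / 4 ^ G) * h m =
      σ * h m + q ^ m * (σ * (q ^ (m + G) * (h m / 4 ^ G))) := by
    rw [e]
    ring
  have e3 := T.hr m hm
  rw [e2]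
  have e4 : σ * h m = σ * h (m + 1) + q ^ m * (σ * h (m + g' m)) := by
    rw [e3]
    ring
  rw [e4]
  have e5 : q ^ m * (σ * (h (m + g' m) + q ^ (m + G) * (h m / 4 ^ G))) =
      q ^ m * (σ * h (m + g' m)) + q ^ m * (σ * (q ^ (m + G) * (h m / 4 ^ G))) := by ring
  rw [e5] at h13
  linarith

/-- the gain spreads to a window -/
lemma Two.spread (T : Two f h g g' m0 G q) {σ δ : ℝ} (hσ : 0 ≤ σ) (hδ : 0 ≤ δ) {m : ℕ}
    (hw : Win f h G σ (m + 1)) (hm : σ * (1 + δ) * h m ≤ f m) (i : ℕ) :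
    ∀ x, m0 ≤ x → x + i = m → σ * (1 + δ / 2 ^ i) * h x ≤ f x := by
  induction i using Nat.strong_induction_on with
  | _ i ih =>
    intro x hx hxi
    rcases Nat.eq_zero_or_pos i with rfl | hi
    · rw [add_zero] at hxi
      subst hxi
      simpa using hm
    obtain ⟨j, rfl⟩ := Nat.exists_eq_succ_of_ne_zero hi.ne'
    have key : ∀ y, x < y → y ≤ x + G → σ * h y ≤ f y := by
      intro y hy1 hy2
      rcases Nat.lt_or_ge m y with hy | hy
      · exact hw y (by omega) (by omega)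
      · have h1 := ih (m - y) (by omega) y (by omega) (by omega)
        have h2 : 0 ≤ δ / 2 ^ (m - y) := by positivity
        have h3 := zero_le_one.trans (T.h0 y (by omega))
        have h4 : 0 ≤ σ * (δ / 2 ^ (m - y)) * h y := by positivity
        nlinarith
    have hg1 := T.g1 x hx
    have hgg := T.gg x hx
    have hgG := T.gG x hx
    have h1 := ih j (by omega) (x + 1) (by omega) (by omega)
    have h2 := key (x + g x) (by omega) (by omega)
    have h3 := T.anti (x + g x) (x + g' x) (by omega) (by omega)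
    have h5 : σ * h (x + g' x) ≤ f (x + g x) := (mul_le_mul_of_nonneg_left h3 hσ).trans h2
    have h6 := mul_le_mul_of_nonneg_left h5 (pow_nonneg T.hq.le x)
    have h7 := T.half x hx
    have h8 := T.hr x hx
    rw [T.fr x hx]
    have h9 : 0 ≤ σ * (δ / 2 ^ (j + 1)) := by positivity
    have h10 := mul_le_mul_of_nonneg_left h7 h9
    have e1 : σ * (δ / 2 ^ (j + 1)) * (2 * h (x + 1)) = σ * (δ / 2 ^ j) * h (x + 1) := by
      rw [pow_succ]
      field_simp
    rw [e1] at h10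
    have e2 : σ * (1 + δ / 2 ^ (j + 1)) * h x = σ * h x + σ * (δ / 2 ^ (j + 1)) * h x := by ring
    have e3 : σ * h x = σ * h (x + 1) + q ^ x * (σ * h (x + g' x)) := by
      rw [h8]
      ring
    have e4 : σ * (1 + δ / 2 ^ j) * h (x + 1) = σ * h (x + 1) + σ * (δ / 2 ^ j) * h (x + 1) := by
      ring
    rw [e4] at h1
    change σ * (1 + δ / 2 ^ (j + 1)) * h x ≤ _
    rw [e2, e3]
    linarith

/-- one period -/
lemma Two.period (T : Two f h g g' m0 G q) {σ : ℝ} (hσ : 0 ≤ σ) {m m1 : ℕ} (hm1 : m0 ≤ m1)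
    (hm : m1 + G ≤ m) (hlt : g m < g' m) (hw : Win f h G σ (m + 1)) :
    Win f h G (σ * (1 + q ^ (2 * m + G) / 8 ^ G)) (m1 + 1) := by
  have hgG := T.gG m (by omega)
  have h1 := T.gain hσ (by omega) hlt hw
  have hδ : (0 : ℝ) ≤ q ^ (2 * m + G) / 4 ^ G :=
    div_nonneg (pow_nonneg T.hq.le _) (by positivity)
  have h2 := T.spread hσ hδ hw h1
  have h3 : Win f h G (σ * (1 + q ^ (2 * m + G) / 8 ^ G)) (m - G + 1) := by
    intro y hy1 hy2
    have h4 := h2 (m - y) y (by omega) (by omega)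
    refine le_trans ?_ h4
    have h5 : q ^ (2 * m + G) / 8 ^ G ≤ q ^ (2 * m + G) / 4 ^ G / 2 ^ (m - y) := by
      rw [div_div]
      refine div_le_div_of_nonneg_left (pow_nonneg T.hq.le _) (by positivity) ?_
      have : (8 : ℝ) ^ G = 4 ^ G * 2 ^ G := by rw [← mul_pow]; norm_num
      rw [this]
      refine mul_le_mul_of_nonneg_left ?_ (by positivity)
      exact pow_le_pow_right₀ (by norm_num) (by omega)
    have h6 := zero_le_one.trans (T.h0 y (by omega))
    refine mul_le_mul_of_nonneg_right ?_ h6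
    exact mul_le_mul_of_nonneg_left (by linarith) hσ
  refine T.downs ?_ (by omega) (by omega) h3
  have : (0 : ℝ) ≤ q ^ (2 * m + G) / 8 ^ G :=
    div_nonneg (pow_nonneg T.hq.le _) (by positivity)
  positivity

/-- many periods -/
lemma Two.periods (T : Two f h g g' m0 G q) (hfh : ∀ x, m0 ≤ x → h x ≤ f x) {L : ℕ}
    (hL : G ≤ L) {j : ℕ} (hj : m0 ≤ j) (hlt : ∀ k, g (j + k * L) < g' (j + k * L)) (K : ℕ) :
    ((1 + q ^ (2 * (j + K * L) + G) / 8 ^ G) ^ K) * h (j + 1) ≤ f (j + 1) := by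
  set ε : ℝ := q ^ (2 * (j + K * L) + G) / 8 ^ G with hε
  have hε0 : 0 ≤ ε := div_nonneg (pow_nonneg T.hq.le _) (by positivity)
  have key : ∀ i, i ≤ K → Win f h G ((1 + ε) ^ i) (j + (K - i) * L + 1) := by
    intro i
    induction i with
    | zero =>
      intro _ y hy1 _
      rw [pow_zero, one_mul]
      exact hfh y (by nlinarith)
    | succ i ih =>
      intro hi
      have h1 := ih (by omega)
      obtain ⟨d, hd⟩ : ∃ d, K - i = d + 1 := ⟨K - i - 1, by omega⟩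
      have hd' : K - (i + 1) = d := by omega
      rw [hd] at h1
      rw [hd']
      have h2 := T.period (σ := (1 + ε) ^ i) (by positivity) (m := j + (d + 1) * L)
        (m1 := j + d * L) (by nlinarith) (by nlinarith) (hlt _) h1
      intro y hy1 hy2
      refine le_trans ?_ (h2 y hy1 hy2)
      refine mul_le_mul_of_nonneg_right ?_ (zero_le_one.trans (T.h0 y (by nlinarith)))
      rw [pow_succ]
      refine mul_le_mul_of_nonneg_left ?_ (by positivity)
      have h3 : q ^ (2 * (j + K * L) + G) ≤ q ^ (2 * (j + (d + 1) * L) + G) := by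
        refine pow_le_pow_of_le_one T.hq.le T.hq1.le ?_
        have : (d + 1) * L ≤ K * L := Nat.mul_le_mul_right _ (by omega)
        omega
      have h4 : ε ≤ q ^ (2 * (j + (d + 1) * L) + G) / 8 ^ G := by
        rw [hε]
        exact div_le_div_of_nonneg_right h3 (by positivity)
      linarith
  have h1 := key K le_rfl
  rw [Nat.sub_self, zero_mul, add_zero] at h1
  have hG : 1 ≤ G := by
    have h2 := hlt 0
    have h3 := T.gG (j + 0 * L) (by omega)
    omega
  exact h1 (j + 1) le_rfl (by omega)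

end

/-- a power of `q` close to `1` -/
lemma exists_q (E : ℕ) (hE : 1 ≤ E) : ∃ q0 : ℝ, 0 < q0 ∧ q0 < 1 ∧
    ∀ q, q0 ≤ q → q < 1 → 1 / 2 ≤ q ^ E := by
  have hE' : (1 : ℝ) ≤ E := by exact_mod_cast hE
  refine ⟨1 - 1 / (2 * E), ?_, ?_, fun q hq hq1 => ?_⟩
  · have : 1 / (2 * (E : ℝ)) ≤ 1 / 2 := by
      apply div_le_div_of_nonneg_left <;> linarith
    linarith
  · have : 0 < 1 / (2 * (E : ℝ)) := by positivity
    linarith
  · have h1 : 1 / (2 * (E : ℝ)) ≤ 1 / 2 := by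
      apply div_le_div_of_nonneg_left <;> linarith
    have h2 : 1 + (E : ℝ) * (-(1 / (2 * E))) ≤ (1 + -(1 / (2 * (E : ℝ)))) ^ E :=
      one_add_mul_le_pow (by linarith) E
    have h3 : (E : ℝ) * (-(1 / (2 * E))) = -(1 / 2) := by
      field_simp
    rw [h3] at h2
    have h4 : (1 + -(1 / (2 * (E : ℝ)))) ^ E ≤ q ^ E :=
      pow_le_pow_left₀ (by linarith) (by linarith) E
    linarith

/-- **Growth.** Two gap systems with cofinite sets of allowed parts and periodic bounded gaps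
`g ≤ g'`, `g ≠ g'`: the quotient of the generating functions tends to infinity as `q → 1`. -/
theorem growth {g g' : ℕ → ℕ} {P P' : ℕ → Prop} {L G m0 j : ℕ} (hL : G ≤ L)
    (hg1 : ∀ x, 1 ≤ x → 1 ≤ g x) (hgg : ∀ x, 1 ≤ x → g x ≤ g' x)
    (hgG : ∀ x, 1 ≤ x → g' x ≤ G) (hm0 : 1 ≤ m0) (hP : ∀ x, m0 ≤ x → P x)
    (hP' : ∀ x, m0 ≤ x → P' x) (hj : m0 ≤ j) (hlt : ∀ k, g (j + k * L) < g' (j + k * L)) (R : ℝ) :
    ∃ q0 : ℝ, 0 < q0 ∧ q0 < 1 ∧ ∀ q, q0 ≤ q → q < 1 → R * Z g' P' 1 q ≤ Z g P 1 q := by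
  obtain ⟨K, hK⟩ := exists_nat_ge (R * 2 ^ j * (2 * 8 ^ G))
  obtain ⟨q0, h0, h1, h2⟩ := exists_q (2 * (j + K * L) + G) (by omega)
  refine ⟨q0, h0, h1, fun q hq hq1 => ?_⟩
  have hq0 : 0 < q := h0.trans_le hq
  have T : Two (fun m => Z g P m q) (fun m => Z g' P' m q) g g' m0 G q :=
    { hq := hq0
      hq1 := hq1
      g1 := fun x hx => hg1 x (by omega)
      gg := fun x hx => hgg x (by omega)
      gG := fun x hx => hgG x (by omega)
      f0 := fun x hx => one_le_Z (by omega) hq0.le hq1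
      h0 := fun x hx => one_le_Z (by omega) hq0.le hq1
      fr := fun x hx => Z_pos hq0.le hq1 (hg1 x (by omega)) (hP x hx)
      hr := fun x hx => Z_pos hq0.le hq1 ((hg1 x (by omega)).trans (hgg x (by omega))) (hP' x hx)
      anti := fun x y hx hxy => Z_anti hq0.le hq1 hxy
      half := fun x hx => Z_half (by omega) hq0.le hq1 ((hg1 x (by omega)).trans
        (hgg x (by omega))) }
  have h3 := T.periods (fun x hx => Z_mono hq0.le hq1 (fun y hy _ => hP y (by omega))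
    fun y hy => hgg y (by omega)) hL hj hlt K
  have h4 : Z g P (j + 1) q ≤ Z g P 1 q := Z_anti hq0.le hq1 (by omega)
  have h5 := Z_halfs (g := g') (P := P') (m := 1) (q := q) le_rfl hq0.le hq1
    (fun x hx => (hg1 x hx).trans (hgg x hx)) j
  rw [add_comm 1 j] at h5
  have h6 : R * 2 ^ j ≤ (1 + q ^ (2 * (j + K * L) + G) / 8 ^ G) ^ K := by
    have h7 := h2 q hq hq1
    have h8 : (1 : ℝ) / (2 * 8 ^ G) ≤ q ^ (2 * (j + K * L) + G) / 8 ^ G := by
      rw [← div_div]
      exact div_le_div_of_nonneg_right h7 (by positivity)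
    have h9 : (1 : ℝ) + K * (1 / (2 * 8 ^ G)) ≤ (1 + 1 / (2 * 8 ^ G)) ^ K :=
      one_add_mul_le_pow (by
        have : (0 : ℝ) ≤ 1 / (2 * 8 ^ G) := by positivity
        linarith) K
    have h10 : (1 + (1 : ℝ) / (2 * 8 ^ G)) ^ K ≤ (1 + q ^ (2 * (j + K * L) + G) / 8 ^ G) ^ K :=
      pow_le_pow_left₀ (by positivity) (by linarith) K
    have h11 : R * 2 ^ j ≤ K * (1 / (2 * 8 ^ G)) := by
      rw [mul_one_div, le_div_iff₀ (by positivity)]
      exact hK
    linarith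
  have h0' : (0 : ℝ) < Z g' P' (j + 1) q :=
    zero_lt_one.trans_le (one_le_Z (by omega) hq0.le hq1)
  have h1' : (0 : ℝ) < Z g' P' 1 q := zero_lt_one.trans_le (one_le_Z le_rfl hq0.le hq1)
  rcases le_total R 0 with hR | hR
  · have : R * Z g' P' 1 q ≤ 0 := mul_nonpos_of_nonpos_of_nonneg hR h1'.le
    have h12 : 0 ≤ Z g P 1 q := zero_le_one.trans (one_le_Z le_rfl hq0.le hq1)
    linarith
  · calc R * Z g' P' 1 q ≤ R * (2 ^ j * Z g' P' (j + 1) q) := mul_le_mul_of_nonneg_left h5 hR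
      _ = (R * 2 ^ j) * Z g' P' (j + 1) q := by ring
      _ ≤ (1 + q ^ (2 * (j + K * L) + G) / 8 ^ G) ^ K * Z g' P' (j + 1) q :=
          mul_le_mul_of_nonneg_right h6 h0'.le
      _ ≤ Z g P (j + 1) q := h3
      _ ≤ Z g P 1 q := h4

end P46788a
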