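import Pool.Agent.Lib.MP_46788a_nt.Fin2

/-!
# The product side as `q → 1`
-/

open Finset

namespace P46788a

/-- allowed parts: the positive integers with a periodic property -/
def PQ (Q : ℕ → Prop) (x : ℕ) : Prop := 1 ≤ x ∧ Q x

/-- the generating function of the distinct parts `≥ t N + 1` with the property `Q` -/
noncomputable def D (Q : ℕ → Prop) (N : ℕ) (q : ℝ) (t : ℕ) : ℝ :=
  Z (fun _ => 1) (PQ Q) (t * N + 1) q

section
variable {Q Q' : ℕ → Prop} {N : ℕ} {q : ℝ}

open scoped Classical in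
lemma block (hq : 0 ≤ q) (hq1 : q < 1) (m k : ℕ) (hm : 1 ≤ m) :
    Z (fun _ => 1) (PQ Q) m q =
      (∏ x ∈ (Finset.Ico m (m + k)).filter Q, (1 + q ^ x)) *
        Z (fun _ => 1) (PQ Q) (m + k) q := by
  induction k with
  | zero => simp
  | succ k ih =>
    rw [ih]
    have e : Finset.Ico m (m + (k + 1)) = insert (m + k) (Finset.Ico m (m + k)) := by
      ext x
      rw [Finset.mem_insert, Finset.mem_Ico, Finset.mem_Ico]
      omega
    rw [e, Finset.filter_insert]
    by_cases h : Q (m + k)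
    · rw [if_pos h, Finset.prod_insert (by simp),
        Z_pos (m := m + k) hq hq1 le_rfl ⟨by omega, h⟩]
      rw [show m + (k + 1) = m + k + 1 from rfl]
      ring
    · rw [if_neg h, Z_neg (m := m + k) (fun h' => h h'.2)]
      rfl

open scoped Classical in
lemma D_up (hQ : Function.Periodic Q N) (hq : 0 ≤ q) (hq1 : q < 1) (t : ℕ) :
    D Q N q t ≤ (1 + q ^ (t * N)) ^ (Nat.count Q N) * D Q N q (t + 1) := by
  unfold D
  rw [block hq hq1 (t * N + 1) N (by omega)]
  have e : t * N + 1 + N = (t + 1) * N + 1 := by ring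
  have hc := Nat.filter_Ico_card_eq_of_periodic (t * N + 1) N Q hQ
  have h0 : 0 ≤ Z (fun _ => 1) (PQ Q) ((t + 1) * N + 1) q :=
    zero_le_one.trans (one_le_Z (by omega) hq hq1)
  rw [← hc]
  rw [← e] at h0 ⊢
  refine mul_le_mul_of_nonneg_right ?_ h0
  rw [← Finset.prod_const]
  refine Finset.prod_le_prod (fun x _ => by positivity) fun x hx => ?_
  rw [Finset.mem_filter, Finset.mem_Ico] at hx
  have := pow_le_pow_of_le_one hq hq1.le (show t * N ≤ x by omega)
  linarith

open scoped Classical in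
lemma D_lo (hQ : Function.Periodic Q N) (hq : 0 ≤ q) (hq1 : q < 1) (t : ℕ) :
    (1 + q ^ ((t + 1) * N)) ^ (Nat.count Q N) * D Q N q (t + 1) ≤ D Q N q t := by
  unfold D
  rw [block hq hq1 (t * N + 1) N (by omega)]
  have e : t * N + 1 + N = (t + 1) * N + 1 := by ring
  have hc := Nat.filter_Ico_card_eq_of_periodic (t * N + 1) N Q hQ
  have h0 : 0 ≤ Z (fun _ => 1) (PQ Q) ((t + 1) * N + 1) q :=
    zero_le_one.trans (one_le_Z (by omega) hq hq1)
  rw [← hc]
  rw [← e] at h0 ⊢
  refine mul_le_mul_of_nonneg_right ?_ h0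
  rw [← Finset.prod_const]
  refine Finset.prod_le_prod (fun x _ => by positivity) fun x hx => ?_
  rw [Finset.mem_filter, Finset.mem_Ico] at hx
  have := pow_le_pow_of_le_one hq hq1.le (show x ≤ (t + 1) * N by omega)
  linarith

/-- the product over the blocks -/
noncomputable def Pi (N : ℕ) (q : ℝ) (T : ℕ) : ℝ := ∏ t ∈ Finset.range T, (1 + q ^ ((t + 1) * N))

lemma one_le_Pi (hq : 0 ≤ q) (T : ℕ) : 1 ≤ Pi N q T := by
  unfold Pi
  refine Finset.one_le_prod fun t _ => ?_
  have : 0 ≤ q ^ ((t + 1) * N) := pow_nonneg hq _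
  linarith

lemma Pi_succ (T : ℕ) : Pi N q (T + 1) = Pi N q T * (1 + q ^ ((T + 1) * N)) := by
  unfold Pi
  rw [Finset.prod_range_succ]

open scoped Classical in
lemma D_up_all (hQ : Function.Periodic Q N) (hq : 0 ≤ q) (hq1 : q < 1) (T : ℕ) :
    D Q N q 0 * (1 + q ^ (T * N)) ^ (Nat.count Q N) ≤
      (2 * Pi N q T) ^ (Nat.count Q N) * D Q N q T := by
  induction T with
  | zero =>
    rw [zero_mul, pow_zero]
    unfold Pi
    rw [Finset.range_zero, Finset.prod_empty]
    norm_num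
    rw [mul_comm]
  | succ T ih =>
    have h1 := D_up hQ hq hq1 T
    have h2 : (0 : ℝ) < (1 + q ^ (T * N)) ^ (Nat.count Q N) := by positivity
    have h3 : D Q N q 0 * (1 + q ^ (T * N)) ^ (Nat.count Q N) ≤
        (2 * Pi N q T) ^ (Nat.count Q N) *
          ((1 + q ^ (T * N)) ^ (Nat.count Q N) * D Q N q (T + 1)) := by
      refine ih.trans (mul_le_mul_of_nonneg_left h1 ?_)
      have := zero_le_one.trans (one_le_Pi (N := N) hq T)
      positivity
    have h4 : D Q N q 0 ≤ (2 * Pi N q T) ^ (Nat.count Q N) * D Q N q (T + 1) := by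
      refine le_of_mul_le_mul_right (h3.trans_eq ?_) h2
      ring
    rw [Pi_succ]
    have h5 : (0 : ℝ) ≤ (1 + q ^ ((T + 1) * N)) ^ (Nat.count Q N) := by positivity
    refine (mul_le_mul_of_nonneg_right h4 h5).trans_eq ?_
    rw [← mul_assoc 2, mul_pow (2 * Pi N q T)]
    ring

open scoped Classical in
lemma D_up' (hQ : Function.Periodic Q N) (hq : 0 ≤ q) (hq1 : q < 1) (T : ℕ) :
    D Q N q 0 ≤ (2 * Pi N q T) ^ (Nat.count Q N) * D Q N q T := by
  refine le_trans ?_ (D_up_all hQ hq hq1 T)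
  have h0 : 1 ≤ D Q N q 0 := one_le_Z (by omega) hq hq1
  have h1 : (1 : ℝ) ≤ (1 + q ^ (T * N)) ^ (Nat.count Q N) :=
    one_le_pow₀ (by have := pow_nonneg hq (T * N); linarith)
  nlinarith

open scoped Classical in
lemma D_lo' (hQ : Function.Periodic Q N) (hq : 0 ≤ q) (hq1 : q < 1) (T : ℕ) :
    Pi N q T ^ (Nat.count Q N) * D Q N q T ≤ D Q N q 0 := by
  induction T with
  | zero => simp [Pi]
  | succ T ih =>
    have h1 := D_lo hQ hq hq1 T
    rw [Pi_succ, mul_pow]
    refine le_trans ?_ ih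
    rw [mul_assoc]
    exact mul_le_mul_of_nonneg_left h1
      (pow_nonneg (zero_le_one.trans (one_le_Pi (N := N) hq T)) _)

lemma D_tendsto (hN : 1 ≤ N) (hq : 0 ≤ q) (hq1 : q < 1) :
    Filter.Tendsto (fun T => D Q N q T) Filter.atTop (nhds 1) := by
  have h1 : Filter.Tendsto (fun T : ℕ => Real.exp (q ^ T / (1 - q))) Filter.atTop
      (nhds (Real.exp (0 / (1 - q)))) :=
    (Real.continuous_exp.tendsto _).comp
      ((tendsto_pow_atTop_nhds_zero_of_lt_one hq hq1).div_const _)
  rw [zero_div, Real.exp_zero] at h1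
  refine tendsto_of_tendsto_of_tendsto_of_le_of_le tendsto_const_nhds h1
    (fun T => one_le_Z (by omega) hq hq1) fun T => ?_
  refine (Z_le_exp (g := fun _ => 1) (P := PQ Q) (m := T * N + 1) hq hq1).trans ?_
  refine Real.exp_le_exp.2 ?_
  refine div_le_div_of_nonneg_right ?_ (by linarith)
  refine pow_le_pow_of_le_one hq hq1.le ?_
  nlinarith

open scoped Classical in
/-- at most as many classes: the product is larger by a bounded factor only -/
theorem D_le (hQ : Function.Periodic Q N) (hQ' : Function.Periodic Q' N) (hN : 1 ≤ N)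
    (hd : Nat.count Q N ≤ Nat.count Q' N) (hq : 0 ≤ q) (hq1 : q < 1) :
    D Q N q 0 ≤ 2 ^ (Nat.count Q N) * D Q' N q 0 := by
  have key : ∀ T, D Q N q 0 ≤ 2 ^ (Nat.count Q N) * D Q' N q 0 * D Q N q T := by
    intro T
    have h1 := D_up' hQ hq hq1 T
    have h2 := D_lo' hQ' hq hq1 T
    have h3 : 1 ≤ D Q' N q T := one_le_Z (by omega) hq hq1
    have h4 : 0 ≤ D Q N q T := zero_le_one.trans (one_le_Z (by omega) hq hq1)
    have h5 := one_le_Pi (N := N) hq T
    have h6 : Pi N q T ^ (Nat.count Q N) ≤ Pi N q T ^ (Nat.count Q' N) :=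
      pow_le_pow_right₀ h5 hd
    have h7 : Pi N q T ^ (Nat.count Q N) ≤ D Q' N q 0 := by
      refine h6.trans (le_trans ?_ h2)
      exact le_mul_of_one_le_right (pow_nonneg (zero_le_one.trans h5) _) h3
    rw [mul_pow] at h1
    refine h1.trans ?_
    refine mul_le_mul_of_nonneg_right ?_ h4
    exact mul_le_mul_of_nonneg_left h7 (by positivity)
  have h1 := (D_tendsto (Q := Q) hN hq hq1).const_mul (2 ^ (Nat.count Q N) * D Q' N q 0)
  rw [mul_one] at h1
  exact ge_of_tendsto' h1 key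

open scoped Classical in
/-- more classes: the product is larger by an unbounded factor -/
theorem D_unb (hQ : Function.Periodic Q N) (hQ' : Function.Periodic Q' N) (hN : 1 ≤ N)
    (hd : Nat.count Q' N < Nat.count Q N) (R : ℝ) : ∃ q0 : ℝ, 0 < q0 ∧ q0 < 1 ∧
      ∀ q, q0 ≤ q → q < 1 → R * D Q' N q 0 ≤ D Q N q 0 := by
  obtain ⟨K, hK⟩ := exists_nat_ge (R * 2 ^ (Nat.count Q' N) * 2)
  obtain ⟨q0, h0, h1, h2⟩ := exists_q ((K + 1) * N) (by nlinarith)
  refine ⟨q0, h0, h1, fun q hq hq1 => ?_⟩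
  have hq0 : 0 ≤ q := h0.le.trans hq
  set d := Nat.count Q N with hdd
  set d' := Nat.count Q' N with hdd'
  have hPi : ∀ T, K ≤ T → R * 2 ^ d' ≤ Pi N q T := by
    intro T hT
    have h3 : Pi N q K ≤ Pi N q T := by
      refine monotone_nat_of_le_succ (f := fun T => Pi N q T) (fun i => ?_) hT
      rw [Pi_succ]
      refine le_mul_of_one_le_right (zero_le_one.trans (one_le_Pi hq0 i)) ?_
      have : 0 ≤ q ^ ((i + 1) * N) := pow_nonneg hq0 _
      linarith
    have h4 : (1 + (1 / 2 : ℝ)) ^ K ≤ Pi N q K := by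
      unfold Pi
      have h5 : ∏ _t ∈ Finset.range K, (1 + (1 / 2 : ℝ)) = (1 + (1 / 2 : ℝ)) ^ K := by
        rw [Finset.prod_const, Finset.card_range]
      rw [← h5]
      refine Finset.prod_le_prod (fun t _ => by norm_num) fun t ht => ?_
      rw [Finset.mem_range] at ht
      have h6 := h2 q hq hq1
      have h7 : q ^ ((K + 1) * N) ≤ q ^ ((t + 1) * N) :=
        pow_le_pow_of_le_one hq0 hq1.le (Nat.mul_le_mul_right _ (by omega))
      linarith
    have h8 : (1 : ℝ) + K * (1 / 2) ≤ (1 + 1 / 2) ^ K := one_add_mul_le_pow (by norm_num) K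
    linarith
  have key : ∀ T, K ≤ T → R * D Q' N q 0 ≤ D Q N q 0 * D Q' N q T := by
    intro T hT
    have h3 := D_up' hQ' hq0 hq1 T
    have h4 := D_lo' hQ hq0 hq1 T
    have h5 : 1 ≤ D Q N q T := one_le_Z (by omega) hq0 hq1
    have h6 : 0 ≤ D Q' N q T := zero_le_one.trans (one_le_Z (by omega) hq0 hq1)
    have h7 := one_le_Pi (N := N) hq0 T
    have h8 : Pi N q T ^ (d' + 1) ≤ Pi N q T ^ d := pow_le_pow_right₀ h7 hd
    have h9 : Pi N q T ^ (d' + 1) ≤ D Q N q 0 := by
      refine h8.trans (le_trans ?_ h4)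
      exact le_mul_of_one_le_right (pow_nonneg (zero_le_one.trans h7) _) h5
    rcases le_total R 0 with hR | hR
    · have h10 : R * D Q' N q 0 ≤ 0 :=
        mul_nonpos_of_nonpos_of_nonneg hR (zero_le_one.trans (one_le_Z (by omega) hq0 hq1))
      have h11 : 0 ≤ D Q N q 0 := zero_le_one.trans (one_le_Z (by omega) hq0 hq1)
      have := mul_nonneg h11 h6
      linarith
    · rw [mul_pow] at h3
      have h12 := mul_le_mul_of_nonneg_left h3 hR
      refine h12.trans ?_
      have h13 := hPi T hT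
      have h14 : 0 ≤ Pi N q T ^ d' := pow_nonneg (zero_le_one.trans h7) _
      have h15 : R * (2 ^ d' * Pi N q T ^ d' * D Q' N q T) =
          (R * 2 ^ d') * Pi N q T ^ d' * D Q' N q T := by ring
      rw [h15]
      refine mul_le_mul_of_nonneg_right ?_ h6
      refine le_trans (mul_le_mul_of_nonneg_right h13 h14) ?_
      rw [← pow_succ']
      exact h9
  have h1' := (D_tendsto (Q := Q') hN hq0 hq1).const_mul (D Q N q 0)
  rw [mul_one] at h1'
  exact ge_of_tendsto h1' (Filter.eventually_atTop.2 ⟨K, fun T hT => key T hT⟩)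

end

end P46788a
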