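import Pool.Agent.Lib.MP_46788a_nt.Fin3
import Pool.Agent.Lib.MP_46788a_nt.Conv

/-!
# Comparison of the solutions
-/

open Finset

namespace P46788a

/-- `(M; S; b; C)` is a solution: `S` is a set of residue classes in `{1, ..., M}`, the gaps `b_j`
(`1 ≤ j ≤ M`) and the elements of `C` are positive, and `A(S; M; n) = B_1(b; M; C; n)` for all
`n ≥ 1`. -/
def IsSol (M : ℕ) (S : Finset ℕ) (b : ℕ → ℕ) (C : Finset ℕ) : Prop :=
  1 ≤ M ∧ (∀ a ∈ S, 1 ≤ a ∧ a ≤ M) ∧ (∀ j, 1 ≤ j → j ≤ M → 1 ≤ b j) ∧ (∀ c ∈ C, 1 ≤ c) ∧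
    ∀ n, 1 ≤ n → countA S M n = countB b M C n

/-- congruent to an element of `S` -/
def QS (S : Finset ℕ) (M : ℕ) (x : ℕ) : Prop := ∃ a ∈ S, x ≡ a [MOD M]

lemma QS_periodic (S : Finset ℕ) (M : ℕ) : Function.Periodic (QS S M) M := by
  intro x
  apply propext
  unfold QS
  constructor
  · rintro ⟨a, ha, h⟩
    exact ⟨a, ha, by simpa [Nat.ModEq] using h⟩
  · rintro ⟨a, ha, h⟩
    exact ⟨a, ha, by simpa [Nat.ModEq] using h⟩

open scoped Classical in
lemma count_QS {S : Finset ℕ} {M : ℕ} (hS : ∀ a ∈ S, 1 ≤ a ∧ a ≤ M) :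
    Nat.count (QS S M) M = S.card := by
  rw [← Nat.filter_Ico_card_eq_of_periodic 1 M (QS S M) (QS_periodic S M)]
  congr 1
  ext x
  rw [Finset.mem_filter, Finset.mem_Ico]
  constructor
  · rintro ⟨⟨h1, h2⟩, a, ha, h⟩
    have h3 := hS a ha
    have h4 : x = a := by
      unfold Nat.ModEq at h
      rcases Nat.eq_or_lt_of_le h3.2 with h5 | h5
      · rw [h5, Nat.mod_self] at h
        rcases Nat.eq_or_lt_of_le (show x ≤ M by omega) with h6 | h6
        · omega
        · rw [Nat.mod_eq_of_lt h6] at h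
          omega
      · rw [Nat.mod_eq_of_lt h5] at h
        rcases Nat.eq_or_lt_of_le (show x ≤ M by omega) with h6 | h6
        · rw [h6, Nat.mod_self] at h
          omega
        · rw [Nat.mod_eq_of_lt h6] at h
          omega
    rw [h4]
    exact ha
  · intro h
    have h3 := hS x h
    exact ⟨⟨h3.1, by omega⟩, x, h, Nat.ModEq.refl x⟩

open scoped Classical in
lemma count_mul {Q : ℕ → Prop} {M : ℕ} (hQ : Function.Periodic Q M) (k : ℕ) :
    Nat.count Q (k * M) = k * Nat.count Q M := by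
  induction k with
  | zero => simp
  | succ k ih =>
    rw [Nat.succ_mul, Nat.count_add, ih, Nat.succ_mul]
    congr 1
    have : (fun x => Q (k * M + x)) = Q := by
      funext x
      rw [add_comm]
      exact hQ.nat_mul k x
    simp only [this]

/-- the gap function of the problem -/
def gb (b : ℕ → ℕ) (M x : ℕ) : ℕ := b (cls M x)

lemma cls_mem {M x : ℕ} (hM : 1 ≤ M) : 1 ≤ cls M x ∧ cls M x ≤ M := by
  unfold cls
  have := Nat.mod_lt (x - 1) hM
  omega

lemma gb_add (b : ℕ → ℕ) (M x k : ℕ) (hx : 1 ≤ x) : gb b M (x + k * M) = gb b M x := by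
  unfold gb cls
  have : x + k * M - 1 = x - 1 + k * M := by omega
  rw [this, Nat.add_mul_mod_self_right]

lemma sol_cnt {M : ℕ} {S C : Finset ℕ} {b : ℕ → ℕ} (h : IsSol M S b C) (n : ℕ) :
    cnt (gb b M) (PC C) n = cnt (fun _ => 1) (PQ (QS S M)) n := by
  rcases Nat.eq_zero_or_pos n with rfl | hn
  · rw [cnt_zero (fun x hx => hx.1), cnt_zero (fun x hx => hx.1)]
  · have h1 := h.2.2.2.2 n hn
    rw [countA_eq, countB_eq h.1 h.2.2.1] at h1
    exact h1.symm

lemma ge_one {P : ℕ → Prop} (hP : ∀ x, P x → 1 ≤ x) : ge P 1 = P := by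
  funext x
  apply propext
  exact ⟨fun h => h.1, fun h => ⟨h, hP x h⟩⟩

lemma sol_Z {M : ℕ} {S C : Finset ℕ} {b : ℕ → ℕ} (h : IsSol M S b C) (N : ℕ) (q : ℝ) :
    Z (gb b M) (PC C) 1 q = D (QS S M) N q 0 := by
  unfold D Z
  rw [zero_mul, zero_add, ge_one (fun x hx => hx.1), ge_one (fun x hx => hx.1)]
  simp only [sol_cnt h]

section
variable {M M' : ℕ} {S S' C C' : Finset ℕ} {b b' : ℕ → ℕ}

/-- strictly smaller gaps need strictly more classes -/
theorem sol_lt (h : IsSol M S b C) (h' : IsSol M' S' b' C')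
    (hle : ∀ n, 1 ≤ n → b (cls M n) ≤ b' (cls M' n))
    (hlt : ∃ n, 1 ≤ n ∧ b (cls M n) < b' (cls M' n)) : S'.card * M < S.card * M' := by
  classical
  by_contra hcon
  rw [not_lt] at hcon
  obtain ⟨n, hn, hlt⟩ := hlt
  have hM := h.1
  have hM' := h'.1
  set N := M * M' with hN
  have hN1 : 1 ≤ N := Nat.mul_pos hM hM'
  have hQ : Function.Periodic (QS S M) N := by
    rw [hN, mul_comm]
    exact (QS_periodic S M).nat_mul M'
  have hQ' : Function.Periodic (QS S' M') N := (QS_periodic S' M').nat_mul M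
  have hc : Nat.count (QS S M) N = S.card * M' := by
    rw [hN, mul_comm M M', count_mul (QS_periodic S M), count_QS h.2.1, mul_comm]
  have hc' : Nat.count (QS S' M') N = S'.card * M := by
    rw [hN, count_mul (QS_periodic S' M'), count_QS h'.2.1, mul_comm]
  obtain ⟨G, hG⟩ : ∃ G, ∀ j ∈ Finset.Icc 1 M', b' j ≤ G :=
    ⟨(Finset.Icc 1 M').sup b', fun j hj => Finset.le_sup hj⟩
  obtain ⟨m1, hm1⟩ := PC_cofin C
  obtain ⟨m2, hm2⟩ := PC_cofin C'
  have hb : ∀ x, 1 ≤ x → 1 ≤ gb b M x := fun x _ => h.2.2.1 _ (cls_mem hM).1 (cls_mem hM).2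
  have hG1 : ∀ x, 1 ≤ x → gb b' M' x ≤ G := fun x _ =>
    hG _ (Finset.mem_Icc.2 (cls_mem hM'))
  have hG0 : 1 ≤ G := (hb 1 le_rfl).trans ((hle 1 le_rfl).trans (hG1 1 le_rfl))
  obtain ⟨q, hq0, hq1, hq⟩ := growth (g := gb b M) (g' := gb b' M') (P := PC C) (P' := PC C')
    (L := G * N) (G := G) (m0 := 1 + m1 + m2) (j := n + (1 + m1 + m2) * N)
    (by nlinarith) hb hle hG1 (by omega) (fun x hx => hm1 x (by omega))
    (fun x hx => hm2 x (by omega)) (by nlinarith) (fun k => by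
      have e1 : n + (1 + m1 + m2) * N + k * (G * N) =
          n + ((1 + m1 + m2) * M' + k * (G * M')) * M := by
        rw [hN]; ring
      have e2 : n + (1 + m1 + m2) * N + k * (G * N) =
          n + ((1 + m1 + m2) * M + k * (G * M)) * M' := by
        rw [hN]; ring
      rw [e1, gb_add b M _ _ hn, ← e1, e2, gb_add b' M' _ _ hn]
      exact hlt) (2 ^ (Nat.count (QS S M) N) + 1)
  have h1 := hq q le_rfl hq1
  rw [sol_Z h N, sol_Z h' N] at h1
  have h2 := D_le hQ hQ' hN1 (by rw [hc, hc']; exact hcon) hq0.le hq1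
  have h3 : 1 ≤ D (QS S' M') N q 0 := one_le_Z (by omega) hq0.le hq1
  linarith

/-- the same gaps need at most as many classes -/
theorem sol_le (h : IsSol M S b C) (h' : IsSol M' S' b' C')
    (heq : ∀ n, 1 ≤ n → b (cls M n) = b' (cls M' n)) : S.card * M' ≤ S'.card * M := by
  classical
  by_contra hcon
  rw [not_le] at hcon
  have hM := h.1
  have hM' := h'.1
  set N := M * M' with hN
  have hN1 : 1 ≤ N := Nat.mul_pos hM hM'
  have hQ : Function.Periodic (QS S M) N := by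
    rw [hN, mul_comm]
    exact (QS_periodic S M).nat_mul M'
  have hQ' : Function.Periodic (QS S' M') N := (QS_periodic S' M').nat_mul M
  have hc : Nat.count (QS S M) N = S.card * M' := by
    rw [hN, mul_comm M M', count_mul (QS_periodic S M), count_QS h.2.1, mul_comm]
  have hc' : Nat.count (QS S' M') N = S'.card * M := by
    rw [hN, count_mul (QS_periodic S' M'), count_QS h'.2.1, mul_comm]
  obtain ⟨m1, hm1⟩ := PC_cofin C
  obtain ⟨m2, hm2⟩ := PC_cofin C'
  have hb : ∀ x, 1 ≤ x → 1 ≤ gb b M x := fun x _ => h.2.2.1 _ (cls_mem hM).1 (cls_mem hM).2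
  obtain ⟨q, hq0, hq1, hq⟩ := D_unb hQ hQ' hN1 (by rw [hc, hc']; exact hcon)
    (2 ^ (m1 + m2) + 1)
  have h1 := hq q le_rfl hq1
  rw [← sol_Z h N, ← sol_Z h' N] at h1
  have h2 := Z_halfs (g := gb b M) (P := PC C) (m := 1) (q := q) le_rfl hq0.le hq1 hb (m1 + m2)
  have h3 : Z (gb b M) (PC C) (1 + (m1 + m2)) q = Z (gb b' M') (PC C') (1 + (m1 + m2)) q :=
    Z_congr hq0.le hq1 (fun x hx => ⟨fun _ => hm2 x (by omega), fun _ => hm1 x (by omega)⟩)
      fun x hx => (heq x (by omega)).symm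
  have h4 : Z (gb b' M') (PC C') (1 + (m1 + m2)) q ≤ Z (gb b' M') (PC C') 1 q :=
    Z_anti hq0.le hq1 (by omega)
  have h5 : 1 ≤ Z (gb b' M') (PC C') 1 q := one_le_Z le_rfl hq0.le hq1
  have h6 : (0 : ℝ) < 2 ^ (m1 + m2) := by positivity
  rw [h3] at h2
  nlinarith

/-- **Monotonicity.** -/
theorem sol_mono (h : IsSol M S b C) (h' : IsSol M' S' b' C')
    (hle : ∀ n, 1 ≤ n → b (cls M n) ≤ b' (cls M' n)) :
    S'.card * M ≤ S.card * M' ∧
      (S'.card * M = S.card * M' ↔ ∀ n, 1 ≤ n → b (cls M n) = b' (cls M' n)) := by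
  by_cases heq : ∀ n, 1 ≤ n → b (cls M n) = b' (cls M' n)
  · have h1 := sol_le h h' heq
    have h2 := sol_le h' h fun n hn => (heq n hn).symm
    exact ⟨h2, fun _ => heq, fun _ => le_antisymm h2 h1⟩
  · have h1 : ∃ n, 1 ≤ n ∧ b (cls M n) < b' (cls M' n) := by
      push Not at heq
      obtain ⟨n, hn, hne⟩ := heq
      exact ⟨n, hn, lt_of_le_of_ne (hle n hn) hne⟩
    have h2 := sol_lt h h' hle h1
    exact ⟨h2.le, fun h3 => absurd h3 h2.ne, fun h3 => absurd h3 heq⟩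

end

end P46788a
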