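import Pool.Agent.Lib.MP_46788a_nt.Main
import Pool.Agent.Lib.MP_46788a_nt.Conv

/-!
# Partition identities with difference conditions on the smaller part: all solutions with `M ≤ 5`
-/

set_option linter.unusedVariables false

open Finset

namespace P46788a

/-- The list of solutions `(M, classes of S, b, C)` with `M ≤ 5`. -/
def Listed (M : ℕ) (S : Finset ℕ) (b : ℕ → ℕ) (C : Finset ℕ) : Prop :=
  (S.image (cls M) = Finset.Icc 1 M ∧ (∀ j, 1 ≤ j → j ≤ M → b j = 1) ∧ C = ∅) ∨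
  (M = 2 ∧ S.image (cls M) = {1} ∧ (b 1 = 6 ∧ b 2 = 7) ∧ C = {2}) ∨
  (M = 3 ∧ S.image (cls M) = {1, 2} ∧ (b 1 = 3 ∧ b 2 = 3 ∧ b 3 = 4) ∧ C = ∅) ∨
  (M = 4 ∧ S.image (cls M) = {1, 3} ∧ (b 1 = 6 ∧ b 2 = 7 ∧ b 3 = 6 ∧ b 4 = 7) ∧ C = {2}) ∨
  (M = 4 ∧ S.image (cls M) = {1, 2, 4} ∧ (b 1 = 3 ∧ b 2 = 2 ∧ b 3 = 3 ∧ b 4 = 2) ∧ C = ∅) ∨
  (M = 4 ∧ S.image (cls M) = {1, 2, 4} ∧ (b 1 = 4 ∧ b 2 = 1 ∧ b 3 = 4 ∧ b 4 = 1) ∧ C = ∅) ∨
  (M = 4 ∧ S.image (cls M) = {2, 3, 4} ∧ (b 1 = 3 ∧ b 2 = 2 ∧ b 3 = 3 ∧ b 4 = 2) ∧ C = {1})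

/-- classes from a mask -/
lemma image_eq {M sm : ℕ} {S : Finset ℕ} (hM : 1 ≤ M) (hS : ∀ a ∈ S, 1 ≤ a)
    (h : IsMask M sm S) (T : Finset ℕ)
    (hT : ∀ c, c ∈ T ↔ 1 ≤ c ∧ c ≤ M ∧ Nat.testBit sm (c % M) = true) : S.image (cls M) = T := by
  ext c
  rw [mem_classes hM hS h, hT]

/-- mask from the classes -/
lemma mask_of_image {M sm : ℕ} {S : Finset ℕ} (hM : 1 ≤ M) (hS : ∀ a ∈ S, 1 ≤ a)
    (h : S.image (cls M) = (Finset.Icc 1 M).filter fun c => Nat.testBit sm (c % M) = true) :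
    IsMask M sm S := by
  intro r hr
  obtain ⟨sm', _, h'⟩ := exists_mask M (fun r => ∃ a ∈ S, a % M = r)
  have hm' : IsMask M sm' S := h'
  rw [← hm' r hr]
  have h1 : ∀ c, 1 ≤ c → c ≤ M → (Nat.testBit sm (c % M) = true ↔ Nat.testBit sm' (c % M) = true) := by
    intro c hc1 hc2
    have e1 := mem_classes hM hS hm' c
    rw [h, Finset.mem_filter, Finset.mem_Icc] at e1
    tauto
  rcases Nat.eq_zero_or_pos r with h0 | h0
  · subst h0
    have := h1 M hM le_rfl
    rwa [Nat.mod_self] at this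
  · have := h1 r h0 hr.le
    rwa [Nat.mod_eq_of_lt hr] at this

theorem listed_of_sol {M sm : ℕ} {S C : Finset ℕ} {b : ℕ → ℕ} (hM : 1 ≤ M)
    (hS : ∀ a ∈ S, 1 ≤ a) (hC : ∀ c ∈ C, 1 ≤ c) (hm : IsMask M sm S)
    (h : Sol M sm (resb M b) (PC C)) : Listed M S b C := by
  unfold Sol at h
  rcases h with ⟨h1, h2, h3⟩ | ⟨h1, h2, h3, h4⟩ | ⟨h1, h2, h3, h4⟩ | ⟨h1, h2, h3, h4⟩ |
    ⟨h1, h2, h3, h4⟩ | ⟨h1, h2, h3, h4⟩ | ⟨h1, h2, h3, h4⟩
  · left
    refine ⟨?_, fun j hj1 hj2 => ?_, C_empty hC h3⟩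
    · refine image_eq hM hS hm _ fun c => ?_
      rw [Finset.mem_Icc, h1, Nat.testBit_two_pow_sub_one]
      have := Nat.mod_lt c (show 0 < M by omega)
      simp [this]
    · rcases Nat.lt_or_ge j M with h | h
      · have := h2 j h
        unfold resb at this
        rwa [if_neg (by omega)] at this
      · have := h2 0 (by omega)
        unfold resb at this
        rw [if_pos rfl] at this
        have hj : j = M := by omega
        rw [hj]; exact this
  · subst h1 h2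
    right; left
    refine ⟨rfl, image_eq hM hS hm _ fun c => ?_, ⟨h3.1, h3.2⟩, C_two hC h4⟩
    constructor
    · intro hc; simp at hc; subst hc; decide
    · rintro ⟨c1, c2, c3⟩; interval_cases c <;> first | decide | exact absurd c3 (by decide)
  · subst h1 h2
    right; right; left
    refine ⟨rfl, image_eq hM hS hm _ fun c => ?_, ⟨h3.1, h3.2.1, h3.2.2⟩, C_empty hC h4⟩
    constructor
    · intro hc; simp at hc; rcases hc with rfl | rfl <;> decide
    · rintro ⟨c1, c2, c3⟩; interval_cases c <;> first | decide | exact absurd c3 (by decide)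
  · subst h1 h2
    right; right; right; left
    refine ⟨rfl, image_eq hM hS hm _ fun c => ?_, ⟨h3.1, h3.2.1, h3.2.2.1, h3.2.2.2⟩, C_two hC h4⟩
    constructor
    · intro hc; simp at hc; rcases hc with rfl | rfl <;> decide
    · rintro ⟨c1, c2, c3⟩; interval_cases c <;> first | decide | exact absurd c3 (by decide)
  · subst h1 h2
    right; right; right; right; left
    refine ⟨rfl, image_eq hM hS hm _ fun c => ?_, ⟨h3.1, h3.2.1, h3.2.2.1, h3.2.2.2⟩,
      C_empty hC h4⟩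
    constructor
    · intro hc; simp at hc; rcases hc with rfl | rfl | rfl <;> decide
    · rintro ⟨c1, c2, c3⟩; interval_cases c <;> first | decide | exact absurd c3 (by decide)
  · subst h1 h2
    right; right; right; right; right; left
    refine ⟨rfl, image_eq hM hS hm _ fun c => ?_, ⟨h3.1, h3.2.1, h3.2.2.1, h3.2.2.2⟩,
      C_empty hC h4⟩
    constructor
    · intro hc; simp at hc; rcases hc with rfl | rfl | rfl <;> decide
    · rintro ⟨c1, c2, c3⟩; interval_cases c <;> first | decide | exact absurd c3 (by decide)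
  · subst h1 h2
    right; right; right; right; right; right
    refine ⟨rfl, image_eq hM hS hm _ fun c => ?_, ⟨h3.1, h3.2.1, h3.2.2.1, h3.2.2.2⟩,
      C_one hC h4⟩
    constructor
    · intro hc; simp at hc; rcases hc with rfl | rfl | rfl <;> decide
    · rintro ⟨c1, c2, c3⟩; interval_cases c <;> first | decide | exact absurd c3 (by decide)

/-- counts from a mask -/
lemma counts_of {M sm : ℕ} {S C : Finset ℕ} {b : ℕ → ℕ} (hM : 1 ≤ M)
    (hb : ∀ j, 1 ≤ j → j ≤ M → 1 ≤ b j) (hm : IsMask M sm S)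
    (h : ∀ n, cnt (gr M (resb M b)) (PC C) n = cnt (fun _ => 1) (SP M sm) n) (n : ℕ) :
    countA S M n = countB b M C n := by
  rw [cntA_eq hM hm, cntB_eq hM hb, h]

lemma SP_odd (x : ℕ) : SP 2 2 x ↔ ∃ i, x = 1 + i * 2 := by
  unfold SP rs
  constructor
  · rintro ⟨h1, h2⟩
    rcases (by omega : x % 2 = 1 ∨ x % 2 = 0) with h | h
    · exact ⟨(x - 1) / 2, by omega⟩
    · rw [h] at h1; exact absurd h1 (by decide)
  · rintro ⟨i, rfl⟩
    refine ⟨?_, by omega⟩
    have : (1 + i * 2) % 2 = 1 := by omega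
    rw [this]; decide

lemma SP_odd4 (x : ℕ) : SP 4 10 x ↔ ∃ i, x = 1 + i * 2 := by
  unfold SP rs
  constructor
  · rintro ⟨h1, h2⟩
    rcases (by omega : x % 2 = 1 ∨ x % 4 = 0 ∨ x % 4 = 2) with h | h | h
    · exact ⟨(x - 1) / 2, by omega⟩
    · rw [h] at h1; exact absurd h1 (by decide)
    · rw [h] at h1; exact absurd h1 (by decide)
  · rintro ⟨i, rfl⟩
    refine ⟨?_, by omega⟩
    rcases (by omega : (1 + i * 2) % 4 = 1 ∨ (1 + i * 2) % 4 = 3) with h | h <;> rw [h] <;> decide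

/-- the Sylvester type system with `m = 2`, `a = 1` -/
lemma odd_sys {g : ℕ → ℕ} (h1 : ∀ x, x % 2 = 1 → g x = 6) (h2 : ∀ x, x % 2 = 0 → g x = 7)
    (n : ℕ) : cnt g (PC {2}) n = cnt (fun _ => 1) (fun x => ∃ i, x = 1 + i * 2) n := by
  refine ref_sylv one_pos (by norm_num) (fun x => ?_) ?_ ?_ n
  · rw [PC_two]
    constructor
    · rintro ⟨h3, h4⟩
      rcases (by omega : x % 2 = 1 ∨ x % 2 = 0) with h | h
      · exact Or.inl ⟨(x - 1) / 2, by omega⟩
      · exact Or.inr ⟨(x - 2) / 2, by omega, by omega⟩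
    · rintro (⟨i, rfl⟩ | ⟨j, hj, rfl⟩) <;> omega
  · intro i; rw [h1 _ (by omega)]; omega
  · intro j _; rw [h2 _ (by omega)]; omega

theorem sol_of_listed {M : ℕ} {S C : Finset ℕ} {b : ℕ → ℕ} (hM : 1 ≤ M)
    (hS : ∀ a ∈ S, 1 ≤ a) (hb : ∀ j, 1 ≤ j → j ≤ M → 1 ≤ b j)
    (h : Listed M S b C) (n : ℕ) : countA S M n = countB b M C n := by
  rcases h with ⟨h1, h2, rfl⟩ | ⟨rfl, h2, h3, rfl⟩ | ⟨rfl, h2, h3, rfl⟩ | ⟨rfl, h2, h3, rfl⟩ |
    ⟨rfl, h2, h3, rfl⟩ | ⟨rfl, h2, h3, rfl⟩ | ⟨rfl, h2, h3, rfl⟩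
  · have hm : IsMask M (2 ^ M - 1) S := mask_of_image hM hS (by
      rw [h1]
      ext c
      rw [Finset.mem_filter, Nat.testBit_two_pow_sub_one]
      have := Nat.mod_lt c (show 0 < M by omega)
      simp [this])
    refine counts_of hM hb hm (fun n => ?_) n
    have h : adm (gr M (resb M b)) (PC ∅) n = adm (fun _ => 1) (SP M (2 ^ M - 1)) n := by
      refine adm_eq (fun x _ => by rw [PC_empty, SP_full _ _ hM]) ?_
      intro x y hxy hx _ _
      have hx1 : 1 ≤ x := hx.2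
      rw [← resb_eq (b := b) hM hx1, h2 _ (by unfold cls; omega) (by
        unfold cls
        have := Nat.mod_lt (x - 1) hM
        omega)]
    exact congrArg Finset.card h
  · have hm : IsMask 2 2 S := mask_of_image hM hS (by rw [h2]; decide)
    refine counts_of hM hb hm (fun n => ?_) n
    have e : SP 2 2 = fun x => ∃ i, x = 1 + i * 2 := funext fun x => propext (SP_odd x)
    rw [e]
    refine odd_sys (fun x hx => ?_) (fun x hx => ?_) n
    · unfold gr; rw [hx]; exact h3.1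
    · unfold gr; rw [hx]; exact h3.2
  · have hm : IsMask 3 6 S := mask_of_image hM hS (by rw [h2]; decide)
    refine counts_of hM hb hm (fun n => ?_) n
    have e : SP 3 6 = fun z => (∃ i, z = 1 + i * 3) ∨ ∃ i, z = 2 + i * 3 := by
      funext x
      apply propext
      unfold SP rs
      constructor
      · rintro ⟨h1, h2⟩
        rcases (by omega : x % 3 = 1 ∨ x % 3 = 2 ∨ x % 3 = 0) with h | h | h
        · exact Or.inl ⟨(x - 1) / 3, by omega⟩
        · exact Or.inr ⟨(x - 2) / 3, by omega⟩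
        · rw [h] at h1; exact absurd h1 (by decide)
      · rintro (⟨i, rfl⟩ | ⟨i, rfl⟩)
        · refine ⟨?_, by omega⟩
          have : (1 + i * 3) % 3 = 1 := by omega
          rw [this]; decide
        · refine ⟨?_, by omega⟩
          have : (2 + i * 3) % 3 = 2 := by omega
          rw [this]; decide
    rw [e]
    refine ref_schur one_pos (by norm_num) (by norm_num) (fun x => ?_) ?_ ?_ ?_ n
    · rw [PC_empty]
      constructor
      · intro hx
        rcases (by omega : x % 3 = 1 ∨ x % 3 = 2 ∨ x % 3 = 0) with h | h | h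
        · exact Or.inl ⟨(x - 1) / 3, by omega⟩
        · exact Or.inr (Or.inl ⟨(x - 2) / 3, by omega⟩)
        · exact Or.inr (Or.inr ⟨(x - 3) / 3, by omega⟩)
      · rintro (⟨i, rfl⟩ | ⟨i, rfl⟩ | ⟨i, rfl⟩) <;> omega
    · intro i
      have : (1 + i * 3) % 3 = 1 := by omega
      unfold gr; rw [this]; show 2 < b 1 ∧ b 1 ≤ 3; omega
    · intro i
      have : (2 + i * 3) % 3 = 2 := by omega
      unfold gr; rw [this]; show 3 + 1 < b 2 + 2 ∧ b 2 ≤ 3; omega
    · intro i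
      have : (1 + 2 + i * 3) % 3 = 0 := by omega
      unfold gr; rw [this]; show 3 < b 3 ∧ b 3 + 2 ≤ 2 * 3; omega
  · have hm : IsMask 4 10 S := mask_of_image hM hS (by rw [h2]; decide)
    refine counts_of hM hb hm (fun n => ?_) n
    have e : SP 4 10 = fun x => ∃ i, x = 1 + i * 2 := funext fun x => propext (SP_odd4 x)
    rw [e]
    refine odd_sys (fun x hx => ?_) (fun x hx => ?_) n
    · exact gr_odd (β := resb 4 b) h3.1 h3.2.2.1 x hx
    · exact gr_even (β := resb 4 b) h3.2.1 h3.2.2.2 x hx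
  · have hm : IsMask 4 7 S := mask_of_image hM hS (by rw [h2]; decide)
    refine counts_of hM hb hm (fun n => ?_) n
    rw [SP7]
    exact ref_323a PC_empty (gr_odd (β := resb 4 b) h3.1 h3.2.2.1)
      (fun x _ => gr_even (β := resb 4 b) h3.2.1 h3.2.2.2 x) n
  · have hm : IsMask 4 7 S := mask_of_image hM hS (by rw [h2]; decide)
    refine counts_of hM hb hm (fun n => ?_) n
    rw [SP7]
    exact ref_414 PC_empty (gr_odd (β := resb 4 b) h3.1 h3.2.2.1)
      (fun x _ => gr_even (β := resb 4 b) h3.2.1 h3.2.2.2 x) n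
  · have hm : IsMask 4 13 S := mask_of_image hM hS (by rw [h2]; decide)
    refine counts_of hM hb hm (fun n => ?_) n
    rw [SP13]
    exact ref_323b PC_one (gr_odd (β := resb 4 b) h3.1 h3.2.2.1)
      (fun x _ => gr_even (β := resb 4 b) h3.2.1 h3.2.2.2 x) n

/-- All solutions of `A(a_1, ..., a_s; M; n) = B_1(b_1, ..., b_M; M; C; n)` with `M ≤ 5`. -/
theorem small_moduli (M : ℕ) (S : Finset ℕ) (b : ℕ → ℕ) (C : Finset ℕ) (hM1 : 1 ≤ M) (hM5 : M ≤ 5)
    (hS0 : S.Nonempty) (hS : ∀ a ∈ S, 1 ≤ a) (hb : ∀ j, 1 ≤ j → j ≤ M → 1 ≤ b j)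
    (hC : ∀ c ∈ C, 1 ≤ c) :
    (∀ n, 1 ≤ n → countA S M n = countB b M C n) ↔ Listed M S b C := by
  constructor
  · intro h
    obtain ⟨sm, hsm, hm⟩ := exists_mask M (fun r => ∃ a ∈ S, a % M = r)
    have hm : IsMask M sm S := hm
    obtain ⟨N₀, hN⟩ := PC_cofin C
    have hsm1 : 1 ≤ sm := by
      obtain ⟨a, ha⟩ := hS0
      have h1 := (hm (a % M) (Nat.mod_lt _ (by omega))).2 ⟨a, ha, rfl⟩
      by_contra h0
      have : sm = 0 := by omega
      rw [this, Nat.zero_testBit] at h1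
      exact absurd h1 (by simp)
    have hc : ∀ n, cnt (gr M (resb M b)) (PC C) n = cnt (fun _ => 1) (SP M sm) n := by
      intro n
      rcases Nat.eq_zero_or_pos n with h0 | h0
      · subst h0; exact count_zero
      · rw [← cntB_eq hM1 hb, ← cntA_eq hM1 hm, h n h0]
    refine listed_of_sol hM1 hS hC hm (classify hM1 hM5 hsm1 hsm ?_ (fun x hx => hx.1) hN hc)
    intro r hr
    unfold resb
    split_ifs with h0
    · exact hb M hM1 le_rfl
    · exact hb r (by omega) hr.le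
  · intro h n _
    exact sol_of_listed hM1 hS hb h n

end P46788a
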