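import Pool.Agent.Lib.MP_46788a_nt.Fin4
import Pool.Agent.Lib.MP_46788a_nt.Small

/-!
# Finiteness of the set of solutions
-/

open Finset

namespace P46788a

lemma cls_self {M j : ℕ} (h1 : 1 ≤ j) (h2 : j ≤ M) : cls M j = j := by
  unfold cls
  rw [Nat.mod_eq_of_lt (by omega)]
  omega

/-- the excluded parts are determined by `M`, `S` and the gaps -/
lemma sol_C {M : ℕ} {S C C' : Finset ℕ} {b : ℕ → ℕ} (h : IsSol M S b C) (h' : IsSol M S b C') :
    C = C' := by
  have h1 : ∀ n, PC C n ↔ PC C' n := determ (g := gb b M) (fun x hx => hx.1) (fun x hx => hx.1)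
    fun n => by rw [sol_cnt h, sol_cnt h']
  ext c
  have h2 := h1 c
  unfold PC at h2
  constructor
  · intro hc
    by_contra hc'
    exact (h2.2 ⟨h.2.2.2.1 c hc, hc'⟩).2 hc
  · intro hc
    by_contra hc'
    exact (h2.1 ⟨h'.2.2.2.1 c hc, hc'⟩).2 hc

/-- the gaps are an antichain -/
lemma sol_anti {M : ℕ} {S C C' : Finset ℕ} {b b' : ℕ → ℕ} (h : IsSol M S b C)
    (h' : IsSol M S b' C') (hle : ∀ j, 1 ≤ j → j ≤ M → b j ≤ b' j) :
    ∀ j, 1 ≤ j → j ≤ M → b j = b' j := by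
  intro j hj1 hj2
  by_contra hne
  have h1 := sol_lt h h' (fun n _ => hle _ (cls_mem h.1).1 (cls_mem h.1).2)
    ⟨j, hj1, by rw [cls_self hj1 hj2]; exact lt_of_le_of_ne (hle j hj1 hj2) hne⟩
  exact lt_irrefl _ h1

/-- the gaps for `M` and `S` -/
def Gaps (M : ℕ) (S : Finset ℕ) : Set (ℕ → ℕ) :=
  {b | (∀ j, (j = 0 ∨ M < j) → b j = 0) ∧ ∃ C, IsSol M S b C}

lemma Gaps_finite (M : ℕ) (S : Finset ℕ) : (Gaps M S).Finite := by
  set f : (ℕ → ℕ) → (Fin M → ℕ) := fun b i => b (i + 1) with hf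
  have hinj : ∀ b ∈ Gaps M S, ∀ b' ∈ Gaps M S, (∀ j, 1 ≤ j → j ≤ M → b j = b' j) → b = b' := by
    intro b hb b' hb' h
    funext j
    rcases Nat.eq_zero_or_pos j with h0 | h0
    · rw [hb.1 j (Or.inl h0), hb'.1 j (Or.inl h0)]
    · rcases Nat.lt_or_ge M j with h1 | h1
      · rw [hb.1 j (Or.inr h1), hb'.1 j (Or.inr h1)]
      · exact h j h0 h1
  have hf1 : ∀ b b' : ℕ → ℕ, f b ≤ f b' → ∀ j, 1 ≤ j → j ≤ M → b j ≤ b' j := by
    intro b b' h j hj1 hj2
    have h1 := h ⟨j - 1, by omega⟩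
    simp only [hf] at h1
    rwa [Nat.sub_add_cancel hj1] at h1
  refine Set.Finite.of_finite_image (f := f) ?_ ?_
  · refine WellQuasiOrderedLE.finite_of_isAntichain ?_
    rintro _ ⟨b, hb, rfl⟩ _ ⟨b', hb', rfl⟩ hne hle
    obtain ⟨C, hC⟩ := hb.2
    obtain ⟨C', hC'⟩ := hb'.2
    refine hne ?_
    rw [hinj b hb b' hb' (sol_anti hC hC' (hf1 b b' hle))]
  · intro b hb b' hb' h
    exact hinj b hb b' hb' fun j hj1 hj2 =>
      le_antisymm (hf1 b b' h.le j hj1 hj2) (hf1 b' b h.ge j hj1 hj2)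

/-- the solutions with modulus `M`, the gaps being `0` outside `{1, ..., M}` -/
def Sols (M : ℕ) : Set (Finset ℕ × (ℕ → ℕ) × Finset ℕ) :=
  {x | IsSol M x.1 x.2.1 x.2.2 ∧ ∀ j, (j = 0 ∨ M < j) → x.2.1 j = 0}

/-- **Finiteness for one modulus.** -/
theorem Sols_finite (M : ℕ) : (Sols M).Finite := by
  refine Set.Finite.of_finite_image (f := fun x => (x.1, x.2.1)) ?_ ?_
  · refine Set.Finite.subset (s := ⋃ S ∈ (Finset.Icc 1 M).powerset, {S} ×ˢ Gaps M S)
      (Set.Finite.biUnion (Finset.finite_toSet _) fun S _ =>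
        (Set.finite_singleton S).prod (Gaps_finite M S)) ?_
    rintro _ ⟨x, hx, rfl⟩
    rw [Set.mem_iUnion₂]
    refine ⟨x.1, ?_, rfl, hx.2, x.2.2, hx.1⟩
    rw [Finset.mem_powerset]
    intro a ha
    rw [Finset.mem_Icc]
    exact hx.1.2.1 a ha
  · rintro ⟨S, b, C⟩ hx ⟨S', b', C'⟩ hx' h
    simp only [Prod.mk.injEq] at h
    obtain ⟨rfl, rfl⟩ := h
    have h1 : C = C' := sol_C hx.1 hx'.1
    rw [h1]

/-- a part which is not excluded is a sum of different allowed numbers -/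
lemma sol_sum {M : ℕ} {S C : Finset ℕ} {b : ℕ → ℕ} (h : IsSol M S b C) {n : ℕ} (hn : 1 ≤ n)
    (hC : n ∉ C) : ∃ T : Finset ℕ, (∀ e ∈ T, 1 ≤ e ∧ ∃ a ∈ S, e ≡ a [MOD M]) ∧
      ∑ e ∈ T, e = n := by
  have h1 := h.2.2.2.2 n hn
  have h2 : 1 ≤ countB b M C n := by
    rw [countB_eq h.1 h.2.2.1]
    unfold cnt
    rw [Nat.one_le_iff_ne_zero, Finset.card_ne_zero]
    exact ⟨{n}, singleton_mem.2 ⟨hn, hC⟩⟩
  rw [← h1] at h2
  unfold countA at h2
  obtain ⟨T, hT⟩ := Set.nonempty_of_ncard_ne_zero (Nat.one_le_iff_ne_zero.1 h2)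
  exact ⟨T, hT⟩

/-- the allowed numbers up to `K M` -/
lemma sol_parts {M K : ℕ} {S : Finset ℕ} (hS : ∀ a ∈ S, 1 ≤ a ∧ a ≤ M) {e : ℕ}
    (h1 : 1 ≤ e) (h2 : e ≤ K * M) (h3 : ∃ a ∈ S, e ≡ a [MOD M]) :
    e ∈ (S ×ˢ Finset.range K).image fun p => p.1 + p.2 * M := by
  obtain ⟨a, ha, h⟩ := h3
  have h4 := hS a ha
  have h5 : a ≤ e := by
    by_contra hlt
    rw [not_le] at hlt
    have h6 := (Nat.modEq_iff_dvd' hlt.le).1 h
    have h7 := Nat.le_of_dvd (by omega) h6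
    omega
  have h6 := (Nat.modEq_iff_dvd' h5).1 h.symm
  obtain ⟨k, hk⟩ := h6
  rw [Finset.mem_image]
  refine ⟨(a, k), ?_, ?_⟩
  · rw [Finset.mem_product, Finset.mem_range]
    refine ⟨ha, ?_⟩
    by_contra hK
    rw [not_lt] at hK
    have h7 : K * M ≤ M * k := by rw [mul_comm]; exact Nat.mul_le_mul_left M hK
    omega
  · show a + k * M = e
    rw [mul_comm k M, ← hk]
    omega

/-- the number of numbers up to `K M` which are not excluded -/
lemma sol_card {M : ℕ} {S C : Finset ℕ} {b : ℕ → ℕ} (h : IsSol M S b C) (K : ℕ) :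
    K * M < 2 ^ (K * S.card) + (C.filter fun c => c ≤ K * M).card := by
  classical
  set W := (S ×ˢ Finset.range K).image fun p => p.1 + p.2 * M with hW
  have hWc : W.card ≤ K * S.card := by
    refine Finset.card_image_le.trans ?_
    rw [Finset.card_product, Finset.card_range, mul_comm]
  have h1 : Finset.Icc 1 (K * M) ⊆
      ((W.powerset.erase ∅).image fun T => ∑ e ∈ T, e) ∪ C.filter fun c => c ≤ K * M := by
    intro n hn
    rw [Finset.mem_Icc] at hn
    rw [Finset.mem_union]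
    by_cases hC : n ∈ C
    · right
      rw [Finset.mem_filter]
      exact ⟨hC, hn.2⟩
    · left
      obtain ⟨T, hT, hs⟩ := sol_sum h hn.1 hC
      rw [Finset.mem_image]
      refine ⟨T, ?_, hs⟩
      rw [Finset.mem_erase, Finset.mem_powerset]
      refine ⟨?_, fun e he => ?_⟩
      · rintro rfl
        rw [Finset.sum_empty] at hs
        omega
      · obtain ⟨h2, h3⟩ := hT e he
        refine sol_parts h.2.1 h2 ?_ h3
        have h4 : e ≤ ∑ e ∈ T, e := Finset.single_le_sum (f := fun e => e)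
          (fun _ _ => Nat.zero_le _) he
        omega
  have h2 := (Finset.card_le_card h1).trans (Finset.card_union_le _ _)
  have h3 : ((W.powerset.erase ∅).image fun T => ∑ e ∈ T, e).card < 2 ^ (K * S.card) := by
    refine (Finset.card_image_le).trans_lt ?_
    rw [Finset.card_erase_of_mem (Finset.empty_mem_powerset W), Finset.card_powerset]
    have h4 : 2 ^ W.card ≤ 2 ^ (K * S.card) := Nat.pow_le_pow_right (by norm_num) hWc
    have h5 : 1 ≤ 2 ^ W.card := Nat.one_le_two_pow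
    omega
  rw [Nat.card_Icc, Nat.add_sub_cancel] at h2
  omega

/-- the modulus is bounded in terms of the numbers of classes and of excluded parts -/
theorem sol_mod {M : ℕ} {S C : Finset ℕ} {b : ℕ → ℕ} (h : IsSol M S b C) :
    M < 2 ^ S.card + C.card := by
  have h1 := sol_card h 1
  have h2 := Finset.card_filter_le C (fun c => c ≤ 1 * M)
  rw [one_mul, one_mul] at h1
  rw [one_mul] at h2
  omega

/-- the modulus is bounded in terms of the number of classes and the ratio of the largest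
excluded part to the modulus -/
theorem sol_mod' {M K : ℕ} {S C : Finset ℕ} {b : ℕ → ℕ} (h : IsSol M S b C)
    (hC : ∀ c ∈ C, c ≤ K * M) : M < 2 ^ ((K + 1) * S.card) := by
  have h1 := sol_card h (K + 1)
  have h2 : (C.filter fun c => c ≤ (K + 1) * M) ⊆ Finset.Icc 1 (K * M) := by
    intro c hc
    rw [Finset.mem_filter] at hc
    rw [Finset.mem_Icc]
    exact ⟨h.2.2.2.1 c hc.1, hC c hc.1⟩
  have h3 := Finset.card_le_card h2
  rw [Nat.card_Icc, Nat.add_sub_cancel] at h3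
  have h4 : (K + 1) * M = K * M + M := by ring
  omega

/-- the solutions, the gaps being `0` outside `{1, ..., M}` -/
def AllSols : Set (ℕ × Finset ℕ × (ℕ → ℕ) × Finset ℕ) :=
  {x | IsSol x.1 x.2.1 x.2.2.1 x.2.2.2 ∧ ∀ j, (j = 0 ∨ x.1 < j) → x.2.2.1 j = 0}

lemma AllSols_finite (X : Set (ℕ × Finset ℕ × (ℕ → ℕ) × Finset ℕ)) (hX : X ⊆ AllSols) (m : ℕ)
    (hm : ∀ x ∈ X, x.1 < m) : X.Finite := by
  refine Set.Finite.subset (s := ⋃ M ∈ Finset.range m, {M} ×ˢ Sols M)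
    (Set.Finite.biUnion (Finset.finite_toSet _) fun M _ =>
      (Set.finite_singleton M).prod (Sols_finite M)) ?_
  intro x hx
  rw [Set.mem_iUnion₂]
  exact ⟨x.1, Finset.mem_range.2 (hm x hx), rfl, hX hx⟩


end P46788a
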