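import Pool.Agent.Lib.MP_46788a_nt.Fin5

/-!
# Comparison with the known solutions
-/

open Finset

namespace P46788a

/-- the gaps `(b_1, ..., b_k)` of a listed solution -/
def gp (l : List ℕ) (j : ℕ) : ℕ := l.getD (j - 1) 0

lemma isSol_of_listed {M : ℕ} {S C : Finset ℕ} {b : ℕ → ℕ} (hM1 : 1 ≤ M) (hM5 : M ≤ 5)
    (hS0 : S.Nonempty) (hS : ∀ a ∈ S, 1 ≤ a ∧ a ≤ M) (hb : ∀ j, 1 ≤ j → j ≤ M → 1 ≤ b j)
    (hC : ∀ c ∈ C, 1 ≤ c) (h : Listed M S b C) : IsSol M S b C :=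
  ⟨hM1, hS, hb, hC, (small_moduli M S b C hM1 hM5 hS0 (fun a ha => (hS a ha).1) hb hC).2 h⟩

lemma sol_two : IsSol 2 {1} (gp [6, 7]) {2} := by
  refine isSol_of_listed (by norm_num) (by norm_num) ⟨1, by simp⟩ ?_ ?_ ?_ ?_
  · intro a ha
    rw [Finset.mem_singleton] at ha
    omega
  · intro j h1 h2
    interval_cases j <;> decide
  · intro c hc
    rw [Finset.mem_singleton] at hc
    omega
  · right; left
    refine ⟨rfl, by decide, ⟨rfl, rfl⟩, rfl⟩

lemma sol_three : IsSol 3 {1, 2} (gp [3, 3, 4]) ∅ := by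
  refine isSol_of_listed (by norm_num) (by norm_num) ⟨1, by simp⟩ ?_ ?_ ?_ ?_
  · intro a ha
    rw [Finset.mem_insert, Finset.mem_singleton] at ha
    omega
  · intro j h1 h2
    interval_cases j <;> decide
  · intro c hc
    simp at hc
  · right; right; left
    refine ⟨rfl, by decide, ⟨rfl, rfl, rfl⟩, rfl⟩

lemma sol_four : IsSol 4 {1, 2, 4} (gp [3, 2, 3, 2]) ∅ := by
  refine isSol_of_listed (by norm_num) (by norm_num) ⟨1, by simp⟩ ?_ ?_ ?_ ?_
  · intro a ha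
    rw [Finset.mem_insert, Finset.mem_insert, Finset.mem_singleton] at ha
    omega
  · intro j h1 h2
    interval_cases j <;> decide
  · intro c hc
    simp at hc
  · right; right; right; right; left
    refine ⟨rfl, by decide, ⟨rfl, rfl, rfl, rfl⟩, rfl⟩

section
variable {M M' : ℕ} {S S' C C' : Finset ℕ} {b b' : ℕ → ℕ}

/-- all gaps below those of another solution -/
lemma sol_below (h : IsSol M S b C) (h' : IsSol M' S' b' C') (d : ℕ)
    (hb : ∀ j, 1 ≤ j → j ≤ M → b j ≤ d) (hd : ∀ j, 1 ≤ j → j ≤ M' → d ≤ b' j)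
    (hs : ∃ j, 1 ≤ j ∧ j ≤ M' ∧ d < b' j) : S'.card * M < S.card * M' := by
  obtain ⟨j, hj1, hj2, hj3⟩ := hs
  refine sol_lt h h' (fun n _ => (hb _ (cls_mem h.1).1 (cls_mem h.1).2).trans
    (hd _ (cls_mem h'.1).1 (cls_mem h'.1).2)) ⟨j, hj1, ?_⟩
  rw [cls_self (M := M') hj1 hj2]
  exact (hb _ (cls_mem h.1).1 (cls_mem h.1).2).trans_lt hj3

/-- all gaps above those of another solution -/
lemma sol_above (h : IsSol M S b C) (h' : IsSol M' S' b' C') (d : ℕ)
    (hb : ∀ j, 1 ≤ j → j ≤ M → d ≤ b j) (hd : ∀ j, 1 ≤ j → j ≤ M' → b' j ≤ d)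
    (hs : ∃ j, 1 ≤ j ∧ j ≤ M' ∧ b' j < d) : S.card * M' < S'.card * M := by
  obtain ⟨j, hj1, hj2, hj3⟩ := hs
  refine sol_lt h' h (fun n _ => (hd _ (cls_mem h'.1).1 (cls_mem h'.1).2).trans
    (hb _ (cls_mem h.1).1 (cls_mem h.1).2)) ⟨j, hj1, ?_⟩
  rw [cls_self (M := M') hj1 hj2]
  exact hj3.trans_le (hb _ (cls_mem h.1).1 (cls_mem h.1).2)

/-- the density of the classes against the size of the gaps -/
theorem sol_density (h : IsSol M S b C) :
    ((∀ j, 1 ≤ j → j ≤ M → b j ≤ 2) → 3 * M < 4 * S.card) ∧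
    ((∀ j, 1 ≤ j → j ≤ M → 3 ≤ b j) → 4 * S.card < 3 * M) ∧
    ((∀ j, 1 ≤ j → j ≤ M → b j ≤ 3) → 2 * M < 3 * S.card) ∧
    ((∀ j, 1 ≤ j → j ≤ M → 4 ≤ b j) → 3 * S.card < 2 * M) ∧
    ((∀ j, 1 ≤ j → j ≤ M → b j ≤ 6) → M < 2 * S.card) ∧
    ((∀ j, 1 ≤ j → j ≤ M → 7 ≤ b j) → 2 * S.card < M) := by
  have c4 : ({1, 2, 4} : Finset ℕ).card = 3 := rfl
  have c3 : ({1, 2} : Finset ℕ).card = 2 := rfl
  have c2 : ({1} : Finset ℕ).card = 1 := rfl
  refine ⟨fun hb => ?_, fun hb => ?_, fun hb => ?_, fun hb => ?_, fun hb => ?_, fun hb => ?_⟩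
  · have := sol_below h sol_four 2 hb (fun j h1 h2 => by interval_cases j <;> decide)
      ⟨1, by decide⟩
    rw [c4] at this
    omega
  · have := sol_above h sol_four 3 hb (fun j h1 h2 => by interval_cases j <;> decide)
      ⟨2, by decide⟩
    rw [c4] at this
    omega
  · have := sol_below h sol_three 3 hb (fun j h1 h2 => by interval_cases j <;> decide)
      ⟨3, by decide⟩
    rw [c3] at this
    omega
  · have := sol_above h sol_three 4 hb (fun j h1 h2 => by interval_cases j <;> decide)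
      ⟨1, by decide⟩
    rw [c3] at this
    omega
  · have := sol_below h sol_two 6 hb (fun j h1 h2 => by interval_cases j <;> decide)
      ⟨2, by decide⟩
    rw [c2] at this
    omega
  · have := sol_above h sol_two 7 hb (fun j h1 h2 => by interval_cases j <;> decide)
      ⟨1, by decide⟩
    rw [c2] at this
    omega

end

end P46788a
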