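import Pool.Agent.Lib.MP_46788a_nt.Core

/-!
# Generating functions of gap systems
-/

open Finset PowerSeries

namespace P46788a

/-- generating function of the admissible sets with all parts `≥ k` -/
noncomputable def F (g : ℕ → ℕ) (P : ℕ → Prop) (k : ℕ) : PowerSeries ℚ :=
  PowerSeries.mk fun n => (cnt g (ge P k) n : ℚ)

lemma F_pos {g : ℕ → ℕ} {P : ℕ → Prop} {k : ℕ} (hg : 0 < g k) (hP : P k) :
    F g P k = F g P (k + 1) + X ^ k * F g P (k + g k) := by
  classical
  ext n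
  rw [map_add, coeff_X_pow_mul']
  simp only [F, coeff_mk]
  rw [cnt_split g P k n hg]
  by_cases h : k ≤ n <;> simp [h, hP]

lemma F_neg {g : ℕ → ℕ} {P : ℕ → Prop} {k : ℕ} (hP : ¬ P k) :
    F g P k = F g P (k + 1) := by
  have : ge P k = ge P (k + 1) := by
    funext x
    apply propext
    unfold ge
    constructor
    · rintro ⟨h1, h2⟩
      refine ⟨h1, ?_⟩
      rcases Nat.lt_or_ge k x with h | h
      · exact h
      · exact absurd ((le_antisymm h h2) ▸ h1) hP
    · rintro ⟨h1, h2⟩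
      exact ⟨h1, by omega⟩
  unfold F
  rw [this]

lemma F_skip {g : ℕ → ℕ} {P : ℕ → Prop} {k l : ℕ} (hkl : k ≤ l)
    (h : ∀ x, k ≤ x → x < l → ¬ P x) : F g P k = F g P l := by
  induction l, hkl using Nat.le_induction with
  | base => rfl
  | succ l hl ih =>
    rw [ih fun x h1 h2 => h x h1 (h2.trans (Nat.lt_succ_self l)),
      F_neg (h l hl (Nat.lt_succ_self l))]

lemma F_one {g : ℕ → ℕ} {P : ℕ → Prop} {k m : ℕ} (hk : 0 < k) (hm : m ≤ k) :
    X ^ m ∣ F g P k - 1 := by
  rw [X_pow_dvd_iff]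
  intro n hn
  rw [map_sub, coeff_one]
  simp only [F, coeff_mk]
  rcases Nat.eq_zero_or_pos n with h0 | h0
  · subst h0
    rw [cnt_zero (fun x hx => by have := hx.2; omega)]
    simp
  · rw [cnt_big (by omega) h0]
    simp [h0.ne']

lemma F_congr {g g' : ℕ → ℕ} {P P' : ℕ → Prop} {k : ℕ} (h : F g P k = F g' P' k)
    (hP : ∀ x, P x → k ≤ x) (hP' : ∀ x, P' x → k ≤ x) (n : ℕ) : cnt g P n = cnt g' P' n := by
  have h1 : ge P k = P := by
    funext x; apply propext; exact ⟨fun h => h.1, fun h => ⟨h, hP x h⟩⟩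
  have h2 : ge P' k = P' := by
    funext x; apply propext; exact ⟨fun h => h.1, fun h => ⟨h, hP' x h⟩⟩
  have h3 := congrArg (PowerSeries.coeff n) h
  simp only [F, coeff_mk, h1, h2] at h3
  exact_mod_cast h3

/-- two sequences with the same factors and the same limit -/
theorem prod_unique (c U V : ℕ → PowerSeries ℚ) (hU : ∀ k, U k = c k * U (k + 1))
    (hV : ∀ k, V k = c k * V (k + 1)) (h : ∀ k, X ^ k ∣ U k - V k) : U 0 = V 0 := by
  have h1 : ∀ k, U 0 - V 0 = (∏ i ∈ Finset.range k, c i) * (U k - V k) := by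
    intro k
    induction k with
    | zero => simp
    | succ k ih =>
      rw [ih, Finset.prod_range_succ, hU k, hV k]
      ring
  have h2 : U 0 - V 0 = 0 := by
    ext n
    have h3 : X ^ (n + 1) ∣ U 0 - V 0 := by
      rw [h1 (n + 1)]
      exact (h (n + 1)).mul_left _
    rw [X_pow_dvd_iff] at h3
    rw [h3 n (Nat.lt_succ_self n), map_zero]
  exact sub_eq_zero.1 h2

lemma X_dvd_sub {m : ℕ} {U V W : PowerSeries ℚ} (h1 : X ^ m ∣ U - W) (h2 : X ^ m ∣ V - W) :
    X ^ m ∣ U - V := by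
  have := dvd_sub h1 h2
  rwa [sub_sub_sub_cancel_right] at this

/-- constant coefficient of `1 + X^a` -/
lemma cc_one_add {a : ℕ} (ha : 0 < a) :
    PowerSeries.constantCoeff (1 + X ^ a : PowerSeries ℚ) = 1 := by
  rw [map_add, map_one, map_pow, constantCoeff_X, zero_pow ha.ne', add_zero]

lemma one_add_ne {a : ℕ} (ha : 0 < a) : (1 + X ^ a : PowerSeries ℚ) ≠ 0 := by
  intro h
  have := cc_one_add ha
  rw [h, map_zero] at this
  exact zero_ne_one this

lemma one_add_mul_inv {a : ℕ} (ha : 0 < a) (φ : PowerSeries ℚ) :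
    (1 + X ^ a : PowerSeries ℚ) * ((1 + X ^ a : PowerSeries ℚ)⁻¹ * φ) = φ := by
  rw [← mul_assoc, PowerSeries.mul_inv_cancel _ (by rw [cc_one_add ha]; exact one_ne_zero),
    one_mul]

/-- cancellation of a factor `1 + X^a` modulo `X^m` -/
lemma dvd_of_one_add {a m : ℕ} (ha : 0 < a) {φ : PowerSeries ℚ}
    (h : X ^ m ∣ (1 + X ^ a) * φ) : X ^ m ∣ φ := by
  have h1 := h.mul_left (1 + X ^ a : PowerSeries ℚ)⁻¹
  rwa [← mul_assoc, PowerSeries.inv_mul_cancel _ (by rw [cc_one_add ha]; exact one_ne_zero),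
    one_mul] at h1

end P46788a
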