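import Pool.Agent.Lib.MP_46788a_nt.Schur

/-!
# The reference systems with modulus 4 (Lebesgue identity)
-/

open Finset PowerSeries

namespace P46788a

/-- the recurrence `K n = (1 + X^(2n+2)) K (n+1) + X^(c+2n) K (n+2)` -/
structure LbSeq (c : ℕ) (K : ℕ → PowerSeries ℚ) : Prop where
  rc : ∀ n, K n = (1 + X ^ (2 * n + 2)) * K (n + 1) + X ^ (c + 2 * n) * K (n + 2)
  lim : ∀ n, X ^ (2 * n + 1) ∣ K n - 1

/-- from `c = d + 2` to `c + 2` -/
noncomputable def lbNext (d : ℕ) (K : ℕ → PowerSeries ℚ) : ℕ → PowerSeries ℚ := fun n =>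
  (1 + X ^ d : PowerSeries ℚ)⁻¹ * (K n + X ^ d * K (n + 1))

lemma lbNext_mul {d : ℕ} (hd : 0 < d) (K : ℕ → PowerSeries ℚ) (n : ℕ) :
    (1 + X ^ d) * lbNext d K n = K n + X ^ d * K (n + 1) :=
  one_add_mul_inv hd _

lemma lbNext_seq {d : ℕ} (hd : 0 < d) {K : ℕ → PowerSeries ℚ} (h : LbSeq (d + 2) K) :
    LbSeq (d + 4) (lbNext d K) := by
  constructor
  · intro n
    refine mul_left_cancel₀ (one_add_ne hd) ?_
    have e0 := lbNext_mul hd K n
    have e1 := lbNext_mul hd K (n + 1)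
    have e2 := lbNext_mul hd K (n + 2)
    have r0 := h.rc n
    have r1 := h.rc (n + 1)
    have p0 : (X : PowerSeries ℚ) ^ (2 * n + 2) = X ^ (2 * n) * X ^ 2 := pow_add _ _ _
    have p1 : (X : PowerSeries ℚ) ^ (2 * (n + 1) + 2) = X ^ (2 * n) * X ^ 2 * X ^ 2 := by
      rw [← pow_add, ← pow_add]; congr 1
    have p2 : (X : PowerSeries ℚ) ^ (d + 2 + 2 * n) = X ^ d * (X ^ (2 * n) * X ^ 2) := by
      rw [← pow_add, ← pow_add]; congr 1; ring
    have p3 : (X : PowerSeries ℚ) ^ (d + 2 + 2 * (n + 1)) =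
        X ^ d * (X ^ (2 * n) * X ^ 2 * X ^ 2) := by
      rw [← pow_add, ← pow_add, ← pow_add]; congr 1; ring
    have p4 : (X : PowerSeries ℚ) ^ (d + 4 + 2 * n) =
        X ^ d * (X ^ (2 * n) * X ^ 2 * X ^ 2) := by
      rw [← pow_add, ← pow_add, ← pow_add]; congr 1; ring
    rw [p0, p2] at r0
    rw [p1, p3] at r1
    rw [p0, p4]
    generalize (X : PowerSeries ℚ) ^ d = u at *
    generalize (X : PowerSeries ℚ) ^ (2 * n) = w at *
    generalize (X : PowerSeries ℚ) ^ 2 = p at *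
    linear_combination e0 - (1 + w * p) * e1 - u * (w * p * p) * e2 + r0 + u * r1
  · intro n
    refine dvd_of_one_add hd ?_
    rw [mul_sub, lbNext_mul hd]
    have h1 := h.lim n
    have h2 := h.lim (n + 1)
    have h3 := (dvd_trans (pow_dvd_pow (X : PowerSeries ℚ) (by omega : 2 * n + 1 ≤ 2 * (n + 1) + 1))
      h2).mul_left (X ^ d : PowerSeries ℚ)
    have h4 := dvd_add h1 h3
    convert h4 using 1
    ring

/-- `K 0` for `c = d + 2` in terms of the sequence for `c + 4` -/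
lemma lb_zero {d : ℕ} (hd : 0 < d) {K : ℕ → PowerSeries ℚ} (h : LbSeq (d + 2) K) :
    K 0 = (1 + X ^ (d + 2)) * lbNext (d + 2) (lbNext d K) 0 := by
  refine mul_left_cancel₀ (one_add_ne hd) ?_
  have e0 : (1 + X ^ d) * lbNext d K 0 = K 0 + X ^ d * K 1 := lbNext_mul hd K 0
  have e1 : (1 + X ^ d) * lbNext d K 1 = K 1 + X ^ d * K 2 := lbNext_mul hd K 1
  have e2 : (1 + X ^ (d + 2)) * lbNext (d + 2) (lbNext d K) 0 =
    lbNext d K 0 + X ^ (d + 2) * lbNext d K 1 := lbNext_mul (d := d + 2) (by omega) (lbNext d K) 0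
  have r0 := h.rc 0
  have p : (X : PowerSeries ℚ) ^ (d + 2) = X ^ d * X ^ 2 := pow_add _ _ _
  simp only [mul_zero, zero_add, add_zero] at r0
  rw [p] at e2 r0 ⊢
  linear_combination -(1 + X ^ d) * e2 - e0 - X ^ d * X ^ 2 * e1 + X ^ d * r0

/-- the double step -/
noncomputable def lbIter (K : ℕ → PowerSeries ℚ) (c : ℕ) : ℕ → ℕ → PowerSeries ℚ
  | 0 => K
  | k + 1 => lbNext (c + 4 * k) (lbNext (c + 4 * k - 2) (lbIter K c k))

lemma lbIter_seq {c : ℕ} (hc : 3 ≤ c) {K : ℕ → PowerSeries ℚ} (h : LbSeq c K) (k : ℕ) :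
    LbSeq (c + 4 * k) (lbIter K c k) := by
  induction k with
  | zero => simpa [lbIter] using h
  | succ k ih =>
    obtain ⟨d, hd⟩ : ∃ d, c + 4 * k = d + 2 := ⟨c + 4 * k - 2, by omega⟩
    rw [hd] at ih
    have h1 := lbNext_seq (by omega) ih
    have h2 := lbNext_seq (d := d + 2) (by omega) h1
    have e : c + 4 * (k + 1) = d + 2 + 4 := by omega
    rw [e]
    have e' : lbIter K c (k + 1) = lbNext (d + 2) (lbNext d (lbIter K c k)) := by
      show lbNext (c + 4 * k) (lbNext (c + 4 * k - 2) (lbIter K c k)) = _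
      rw [hd]
      rfl
    rw [e']
    exact h2

/-- comparison with the pure product of even factors -/
lemma lb_even {c : ℕ} {K E : ℕ → PowerSeries ℚ} (h : LbSeq c K)
    (hE : ∀ n, E n = (1 + X ^ (2 * n + 2)) * E (n + 1)) (hE1 : ∀ n, X ^ (2 * n + 1) ∣ E n - 1)
    (n : ℕ) : X ^ c ∣ K n - E n := by
  have key : ∀ j n, c ≤ 2 * (n + j) + 1 → X ^ c ∣ K n - E n := by
    intro j
    induction j with
    | zero =>
      intro n hn
      exact X_dvd_sub (W := 1) (dvd_trans (pow_dvd_pow _ (by omega)) (h.lim n))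
        (dvd_trans (pow_dvd_pow _ (by omega)) (hE1 n))
    | succ j ih =>
      intro n hn
      have h1 := (ih (n + 1) (by omega)).mul_left (1 + X ^ (2 * n + 2) : PowerSeries ℚ)
      have h2 : (X : PowerSeries ℚ) ^ c ∣ X ^ (c + 2 * n) * K (n + 2) :=
        (pow_dvd_pow _ (by omega)).mul_right _
      have h3 := dvd_add h1 h2
      convert h3 using 1
      rw [h.rc n, hE n]
      ring
  exact key c n (by omega)

/-- product formula: `K 0 = (product over c + 4 i) * (even product)` -/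
theorem lb_prod {c : ℕ} (hc : 3 ≤ c) {K E O : ℕ → PowerSeries ℚ} (h : LbSeq c K)
    (hE : ∀ n, E n = (1 + X ^ (2 * n + 2)) * E (n + 1)) (hE1 : ∀ n, X ^ (2 * n + 1) ∣ E n - 1)
    (hO : ∀ k, O k = (1 + X ^ (c + 4 * k)) * O (k + 1)) (hO1 : ∀ k, X ^ k ∣ O k - 1) :
    K 0 = O 0 * E 0 := by
  have h1 := prod_unique (fun k => 1 + X ^ (c + 4 * k)) (fun k => lbIter K c k 0)
    (fun k => O k * E 0) ?_ ?_ ?_
  · simpa [lbIter] using h1
  · intro k
    obtain ⟨d, hd⟩ : ∃ d, c + 4 * k = d + 2 := ⟨c + 4 * k - 2, by omega⟩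
    have hs := lbIter_seq hc h k
    rw [hd] at hs
    have e' : lbIter K c (k + 1) = lbNext (d + 2) (lbNext d (lbIter K c k)) := by
      show lbNext (c + 4 * k) (lbNext (c + 4 * k - 2) (lbIter K c k)) = _
      rw [hd]
      rfl
    show lbIter K c k 0 = (1 + X ^ (c + 4 * k)) * lbIter K c (k + 1) 0
    rw [e', hd]
    exact lb_zero (by omega) hs
  · intro k
    show O k * E 0 = (1 + X ^ (c + 4 * k)) * (O (k + 1) * E 0)
    rw [hO k]; ring
  · intro k
    have h2 := lb_even (lbIter_seq hc h k) hE hE1 0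
    have h3 := dvd_trans (pow_dvd_pow (X : PowerSeries ℚ) (by omega : k ≤ c + 4 * k)) h2
    have h4 := (hO1 k).mul_right (E 0)
    have h5 := dvd_sub h3 h4
    convert h5 using 1
    ring

/-- the three product formulas from the two kinds of recurrences -/
theorem lb_prod1 {H E O : ℕ → PowerSeries ℚ} (h : LbSeq 1 H)
    (hE : ∀ n, E n = (1 + X ^ (2 * n + 2)) * E (n + 1)) (hE1 : ∀ n, X ^ (2 * n + 1) ∣ E n - 1)
    (hO : ∀ k, O k = (1 + X ^ (1 + 4 * k)) * O (k + 1)) (hO1 : ∀ k, X ^ k ∣ O k - 1) :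
    H 0 = O 0 * E 0 := by
  -- the sequence for `c = 3`
  have h1X : (1 + X ^ 1 : PowerSeries ℚ) ≠ 0 := one_add_ne one_pos
  set V : ℕ → PowerSeries ℚ := fun n => (1 + X ^ 1 : PowerSeries ℚ)⁻¹ * (X * H n + H (n + 1))
    with hV
  have hVm : ∀ n, (1 + X ^ 1) * V n = X * H n + H (n + 1) := fun n => one_add_mul_inv one_pos _
  have hVs : LbSeq 3 V := by
    constructor
    · intro n
      refine mul_left_cancel₀ h1X ?_
      have e0 := hVm n
      have e1 := hVm (n + 1)
      have e2 := hVm (n + 2)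
      have r0 := h.rc n
      have r1 := h.rc (n + 1)
      have p0 : (X : PowerSeries ℚ) ^ (2 * n + 2) = X ^ (2 * n) * X * X := by
        rw [pow_add]; ring
      have p1 : (X : PowerSeries ℚ) ^ (2 * (n + 1) + 2) = X ^ (2 * n) * X * X * X * X := by
        have : 2 * (n + 1) + 2 = 2 * n + 4 := by ring
        rw [this, pow_add]; ring
      have p2 : (X : PowerSeries ℚ) ^ (1 + 2 * n) = X ^ (2 * n) * X := by
        rw [pow_add]; ring
      have p3 : (X : PowerSeries ℚ) ^ (1 + 2 * (n + 1)) = X ^ (2 * n) * X * X * X := by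
        have : 1 + 2 * (n + 1) = 2 * n + 3 := by ring
        rw [this, pow_add]; ring
      have p4 : (X : PowerSeries ℚ) ^ (3 + 2 * n) = X ^ (2 * n) * X * X * X := by
        rw [pow_add]; ring
      rw [p0, p2] at r0
      rw [p1, p3] at r1
      rw [p0, p4]
      generalize (X : PowerSeries ℚ) ^ (2 * n) = w at *
      linear_combination e0 - (1 + w * X * X) * e1 - w * X * X * X * e2 + X * r0 + r1
    · intro n
      refine dvd_of_one_add one_pos ?_
      rw [mul_sub, hVm]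
      have h1 := (h.lim n).mul_left (X : PowerSeries ℚ)
      have h2 := dvd_trans (pow_dvd_pow (X : PowerSeries ℚ)
        (by omega : 2 * n + 1 ≤ 2 * (n + 1) + 1)) (h.lim (n + 1))
      have h3 := dvd_add h1 h2
      convert h3 using 1
      ring
  -- the sequence for `c = 5`
  have hWs : LbSeq 5 (lbNext 1 V) := lbNext_seq one_pos hVs
  have e0 : (1 + X ^ 1) * lbNext 1 V 0 = V 0 + X ^ 1 * V 1 := lbNext_mul one_pos V 0
  have hH : H 0 = (1 + X ^ 1) * lbNext 1 V 0 := by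
    refine mul_left_cancel₀ h1X ?_
    have m0 : (1 + X ^ 1) * V 0 = X * H 0 + H 1 := hVm 0
    have m1 : (1 + X ^ 1) * V 1 = X * H 1 + H 2 := hVm 1
    have r0 := h.rc 0
    simp only [mul_zero, zero_add, add_zero] at r0
    linear_combination -(1 + X ^ 1) * e0 - m0 - X * m1 + r0
  have hp := lb_prod (by norm_num) hWs hE hE1 (O := fun k => O (k + 1)) ?_ ?_
  · rw [hH, hp, hO 0]
    simp only [mul_zero, add_zero, zero_add]
    ring
  · intro k
    show O (k + 1) = (1 + X ^ (5 + 4 * k)) * O (k + 1 + 1)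
    rw [hO (k + 1)]
    have : 1 + 4 * (k + 1) = 5 + 4 * k := by ring
    rw [this]
  · intro k
    exact dvd_trans (pow_dvd_pow (X : PowerSeries ℚ) (by omega : k ≤ k + 1)) (hO1 (k + 1))

end P46788a
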