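import Pool.Agent.Lib.MP_46788a_nt.Leb

/-!
# The reference systems with modulus 4: combinatorial form
-/

open Finset PowerSeries

namespace P46788a

lemma FA_pos {A : ℕ → Prop} {k : ℕ} (h : A k) :
    F (fun _ => 1) A k = (1 + X ^ k) * F (fun _ => 1) A (k + 1) := by
  have e1 := F_pos (g := fun _ => 1) (P := A) (k := k) one_pos h
  rw [e1]
  ring

/-- even parts -/
def Ev (x : ℕ) : Prop := 0 < x ∧ x % 2 = 0

/-- odd parts of one class modulo 4 -/
def Od (c : ℕ) (x : ℕ) : Prop := 0 < x ∧ x % 4 = c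

lemma ev_step (k : ℕ) (hk : k % 2 = 1) :
    F (fun _ => 1) Ev k = (1 + X ^ (k + 1)) * F (fun _ => 1) Ev (k + 2) := by
  have h1 : ¬ Ev k := fun h => by have := h.2; omega
  have h2 : Ev (k + 1) := ⟨by omega, by omega⟩
  rw [F_neg h1, FA_pos h2]

lemma ev_shift (n : ℕ) : F (fun _ => 1) Ev (2 * n + 2) =
    (1 + X ^ (2 * n + 2)) * F (fun _ => 1) Ev (2 * (n + 1) + 2) := by
  have h1 : Ev (2 * n + 2) := ⟨by omega, by omega⟩
  have h2 : ¬ Ev (2 * n + 2 + 1) := fun h => by have := h.2; omega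
  rw [FA_pos h1, F_neg h2]
  rfl

lemma od_step {c k : ℕ} (hc : c < 4) (hk : k % 4 = c) (hk0 : 0 < k) :
    F (fun _ => 1) (Od c) k = (1 + X ^ k) * F (fun _ => 1) (Od c) (k + 4) := by
  have h1 : Od c k := ⟨hk0, hk⟩
  rw [FA_pos h1]
  congr 1
  exact F_skip (by omega) fun x h1 h2 h3 => by have := h3.2; omega

/-- the product side for the classes `{c, 2, 4}` modulo 4, `c = 1, 3` -/
lemma prod_side {c : ℕ} (hc : c = 1 ∨ c = 3) :
    F (fun _ => 1) (fun x => 0 < x ∧ (x % 4 = c ∨ x % 2 = 0)) 1 =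
      F (fun _ => 1) (Od c) c * F (fun _ => 1) Ev 2 := by
  set A : ℕ → Prop := fun x => 0 < x ∧ (x % 4 = c ∨ x % 2 = 0) with hA
  have h1 := prod_unique
    (fun k => (1 + X ^ (4 * k + c)) * (1 + X ^ (4 * k + 2)) * (1 + X ^ (4 * k + 4)))
    (fun k => F (fun _ => 1) A (4 * k + 1))
    (fun k => F (fun _ => 1) (Od c) (4 * k + 1) * F (fun _ => 1) Ev (4 * k + 1)) ?_ ?_ ?_
  · simp only [mul_zero, zero_add] at h1
    rw [h1]
    congr 1
    · exact F_skip (by omega) fun x h1 h2 h3 => by have := h3.2; omega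
    · exact F_skip (by omega) fun x h1 h2 h3 => by have := h3.2; omega
  · intro k
    show F (fun _ => 1) A (4 * k + 1) = _ * F (fun _ => 1) A (4 * k + 1 + 4)
    have a2 : A (4 * k + 1 + 1) := ⟨by omega, by omega⟩
    have a4 : A (4 * k + 1 + 1 + 1 + 1) := ⟨by omega, by omega⟩
    rcases hc with rfl | rfl
    · have a1 : A (4 * k + 1) := ⟨by omega, by omega⟩
      have a3 : ¬ A (4 * k + 1 + 1 + 1) := fun h => by have := h.2; omega
      rw [FA_pos a1, FA_pos a2, F_neg a3, FA_pos a4]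
      ring
    · have a1 : ¬ A (4 * k + 1) := fun h => by have := h.2; omega
      have a3 : A (4 * k + 1 + 1 + 1) := ⟨by omega, by omega⟩
      rw [F_neg a1, FA_pos a2, FA_pos a3, FA_pos a4]
      ring
  · intro k
    show F (fun _ => 1) (Od c) (4 * k + 1) * F (fun _ => 1) Ev (4 * k + 1) =
      _ * (F (fun _ => 1) (Od c) (4 * k + 1 + 4) * F (fun _ => 1) Ev (4 * k + 1 + 2 + 2))
    rw [ev_step (4 * k + 1) (by omega), ev_step (4 * k + 1 + 2) (by omega)]
    have e : F (fun _ => 1) (Od c) (4 * k + 1) =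
        (1 + X ^ (4 * k + c)) * F (fun _ => 1) (Od c) (4 * k + 1 + 4) := by
      rcases hc with rfl | rfl
      · exact od_step (by omega) (by omega) (by omega)
      · rw [F_skip (k := 4 * k + 1) (l := 4 * k + 3) (by omega)
          (fun x h1 h2 h3 => by have := h3.2; omega),
          od_step (by omega) (by omega) (by omega)]
        congr 1
        exact (F_skip (by omega) fun x h1 h2 h3 => by have := h3.2; omega).symm
    rw [e]
    ring
  · intro k
    refine X_dvd_sub (W := 1) (F_one (by omega) (by omega)) ?_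
    have e1 : X ^ k ∣ F (fun _ => 1) (Od c) (4 * k + 1) - 1 := F_one (by omega) (by omega)
    have e2 : X ^ k ∣ F (fun _ => 1) Ev (4 * k + 1) - 1 := F_one (by omega) (by omega)
    have e3 := dvd_add (e1.mul_right (F (fun _ => 1) Ev (4 * k + 1))) e2
    convert e3 using 1
    ring

lemma od_shift {c : ℕ} (hc : c = 1 ∨ c = 3) (k : ℕ) :
    F (fun _ => 1) (Od c) (c + 4 * k) =
      (1 + X ^ (c + 4 * k)) * F (fun _ => 1) (Od c) (c + 4 * (k + 1)) := by
  have e : c + 4 * (k + 1) = c + 4 * k + 4 := by ring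
  rw [e]
  exact od_step (by omega) (by omega) (by omega)

/-- `b = (4,1,4,1)`, all parts allowed. -/
theorem ref_414 {g : ℕ → ℕ} {P : ℕ → Prop} (hP : ∀ x, P x ↔ 0 < x)
    (hg1 : ∀ x, x % 2 = 1 → g x = 4) (hg2 : ∀ x, 0 < x → x % 2 = 0 → g x = 1) (n : ℕ) :
    cnt g P n = cnt (fun _ => 1) (fun x => 0 < x ∧ (x % 4 = 1 ∨ x % 2 = 0)) n := by
  have hs : LbSeq 1 (fun n => F g P (2 * n + 1)) := by
    refine ⟨fun n => ?_, fun n => F_one (by omega) le_rfl⟩
    show F g P (2 * n + 1) = (1 + X ^ (2 * n + 2)) * F g P (2 * n + 1 + 1 + 1) +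
      X ^ (1 + 2 * n) * F g P (2 * n + 1 + 4)
    have e1 := F_pos (g := g) (k := 2 * n + 1) (by rw [hg1 _ (by omega)]; norm_num)
      ((hP _).2 (by omega))
    have e2 := F_pos (g := g) (k := 2 * n + 1 + 1) (by rw [hg2 _ (by omega) (by omega)]; norm_num)
      ((hP _).2 (by omega))
    rw [hg1 _ (by omega)] at e1
    rw [hg2 _ (by omega) (by omega)] at e2
    rw [e1, e2]
    ring
  have key := lb_prod1 hs (E := fun n => F (fun _ => 1) Ev (2 * n + 2))
    (O := fun k => F (fun _ => 1) (Od 1) (1 + 4 * k)) ev_shift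
    (fun n => F_one (by omega) (by omega)) (od_shift (Or.inl rfl))
    (fun k => F_one (by omega) (by omega))
  simp only [mul_zero, zero_add, add_zero] at key
  rw [← prod_side (Or.inl rfl)] at key
  exact F_congr key (fun x hx => (hP x).1 hx) (fun x hx => hx.1) n

lemma lb323 {g : ℕ → ℕ} {P : ℕ → Prop} (hP : ∀ x, 2 ≤ x → P x)
    (hg1 : ∀ x, x % 2 = 1 → g x = 3) (hg2 : ∀ x, 0 < x → x % 2 = 0 → g x = 2) :
    LbSeq 3 (fun n => F g P (2 * n + 2)) := by
  refine ⟨fun n => ?_, fun n => F_one (by omega) (by omega)⟩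
  show F g P (2 * n + 2) = (1 + X ^ (2 * n + 2)) * F g P (2 * n + 2 + 2) +
      X ^ (3 + 2 * n) * F g P (2 * n + 2 + 1 + 3)
  have e1 := F_pos (g := g) (k := 2 * n + 2) (by rw [hg2 _ (by omega) (by omega)]; norm_num)
    (hP _ (by omega))
  have e2 := F_pos (g := g) (k := 2 * n + 2 + 1) (by rw [hg1 _ (by omega)]; norm_num)
    (hP _ (by omega))
  rw [hg2 _ (by omega) (by omega)] at e1
  rw [hg1 _ (by omega)] at e2
  rw [e1, e2]
  ring

/-- `b = (3,2,3,2)`, `C = {1}`. -/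
theorem ref_323b {g : ℕ → ℕ} {P : ℕ → Prop} (hP : ∀ x, P x ↔ 2 ≤ x)
    (hg1 : ∀ x, x % 2 = 1 → g x = 3) (hg2 : ∀ x, 0 < x → x % 2 = 0 → g x = 2) (n : ℕ) :
    cnt g P n = cnt (fun _ => 1) (fun x => 0 < x ∧ (x % 4 = 3 ∨ x % 2 = 0)) n := by
  have hs := lb323 (fun x hx => (hP x).2 hx) hg1 hg2
  have key := lb_prod le_rfl hs (E := fun n => F (fun _ => 1) Ev (2 * n + 2))
    (O := fun k => F (fun _ => 1) (Od 3) (3 + 4 * k)) ev_shift
    (fun n => F_one (by omega) (by omega)) (od_shift (Or.inr rfl))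
    (fun k => F_one (by omega) (by omega))
  simp only [mul_zero, zero_add, add_zero] at key
  rw [← prod_side (Or.inr rfl)] at key
  have h1 : F g P 1 = F g P 2 := F_neg fun h => by have := (hP 1).1 h; omega
  exact F_congr (h1.trans key) (fun x hx => by have := (hP x).1 hx; omega) (fun x hx => hx.1) n

/-- `b = (3,2,3,2)`, all parts allowed. -/
theorem ref_323a {g : ℕ → ℕ} {P : ℕ → Prop} (hP : ∀ x, P x ↔ 0 < x)
    (hg1 : ∀ x, x % 2 = 1 → g x = 3) (hg2 : ∀ x, 0 < x → x % 2 = 0 → g x = 2) (n : ℕ) :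
    cnt g P n = cnt (fun _ => 1) (fun x => 0 < x ∧ (x % 4 = 1 ∨ x % 2 = 0)) n := by
  have hs := lb323 (fun x hx => (hP x).2 (by omega)) hg1 hg2
  -- the value at 1
  have e1 := F_pos (g := g) (k := 1) (by rw [hg1 _ (by omega)]; norm_num) ((hP 1).2 one_pos)
  rw [hg1 _ (by omega)] at e1
  have hW := lbNext_seq one_pos hs
  have e0 : (1 + X ^ 1) * lbNext 1 (fun n => F g P (2 * n + 2)) 0 =
    F g P (2 * 0 + 2) + X ^ 1 * F g P (2 * 1 + 2) := lbNext_mul one_pos _ 0
  have hp := lb_prod (by norm_num) hW (E := fun n => F (fun _ => 1) Ev (2 * n + 2))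
    (O := fun k => F (fun _ => 1) (Od 1) (1 + 4 * (k + 1))) ev_shift
    (fun n => F_one (by omega) (by omega)) (fun k => by
      have := od_shift (c := 1) (Or.inl rfl) (k + 1)
      have t : 1 + 4 + 4 * k = 1 + 4 * (k + 1) := by ring
      rw [t]; exact this)
    (fun k => F_one (by omega) (by omega))
  have ho := od_shift (c := 1) (Or.inl rfl) 0
  have key : F g P 1 = F (fun _ => 1) (Od 1) 1 * F (fun _ => 1) Ev 2 := by
    have e2 : F g P 1 = F g P (2 * 0 + 2) + X ^ 1 * F g P (2 * 1 + 2) := e1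
    rw [e2, ← e0, hp]
    simp only [mul_zero, add_zero, zero_add] at ho ⊢
    rw [ho]
    ring
  rw [← prod_side (Or.inl rfl)] at key
  exact F_congr key (fun x hx => (hP x).1 hx) (fun x hx => hx.1) n

end P46788a
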