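import Pool.Agent.Lib.MP_46788a_nt.Sol

/-!
# Searches and conclusions, modulus 2
-/

set_option maxRecDepth 100000
set_option linter.unusedVariables false

open Finset

namespace P46788a

theorem c2_1 {β : ℕ → ℕ} {P : ℕ → Prop} {N₀ : ℕ} (hβ : ∀ r < 2, 1 ≤ β r)
    (h0 : ∀ x, P x → 0 < x) (hN : ∀ x, N₀ ≤ x → P x)
    (hc : ∀ n, cnt (gr 2 β) P n = cnt (fun _ => 1) (SP 2 1) n) : Sol 2 1 β P := by
  exact (gcd_false 2 (by norm_num) (by norm_num) (by norm_num) hN hc (by decide)).elim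

theorem s2_2 :
    (chkA 2 2 [1, 0, 1, 1, 1, 1, 1, 2, 2, 2, 2, 3, 3, 3, 4, 5] 1 &&
      dfs 2 [[(1, 0, 2)], [(1, 3, 4), (0, 4, 5)], [(1, 5, 6), (0, 6, 7)]]
      [1, 0, 1, 1, 1, 1, 1, 2, 2, 2, 2, 3, 3, 3, 4, 5] 1 0
      [0, 0]) = true := by
  decide +kernel

theorem c2_2 {β : ℕ → ℕ} {P : ℕ → Prop} {N₀ : ℕ} (hβ : ∀ r < 2, 1 ≤ β r)
    (h0 : ∀ x, P x → 0 < x) (hN : ∀ x, N₀ ≤ x → P x)
    (hc : ∀ n, cnt (gr 2 β) P n = cnt (fun _ => 1) (SP 2 2) n) : Sol 2 2 β P := by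
  obtain ⟨bx, h1, h2⟩ := search_sound (by norm_num) rfl s2_2 hβ h0 hc
  simp only [List.mem_cons, List.not_mem_nil, or_false] at h1
  rcases h1 with rfl | rfl | rfl
  · exact (use_triv_false (by norm_num) h0 hN hc h2 0 (by decide +kernel)).elim
  · have b1 : 3 < β 1 ∧ β 1 ≤ 4 := h2 (1, 3, 4) (by simp)
    have b3 : 4 < β 0 ∧ β 0 ≤ 5 := h2 (0, 4, 5) (by simp)
    have key := use_schur (M := 2) (m := 4) (x0 := 1) (y0 := 3) (by norm_num) (by norm_num)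
      (by norm_num) (by norm_num) (by norm_num) h0 hc (by decide)
      (show 3 < β 1 ∧ β 1 ≤ 4 by omega)
      (show 4 + 1 < β 1 + 3 ∧ β 1 ≤ 4 by omega)
      (show 4 < β 0 ∧ β 0 + 3 ≤ 2 * 4 by omega)
    exact (schur_false (by norm_num) hN key).elim
  · have b0 : 5 < β 1 ∧ β 1 ≤ 6 := h2 (1, 5, 6) (by simp)
    have b1 : 6 < β 0 ∧ β 0 ≤ 7 := h2 (0, 6, 7) (by simp)
    have key := use_sylv (M := 2) (m := 2) (a := 1) (by norm_num) (by norm_num)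
      (by norm_num) (by norm_num) h0 hc (by decide)
      (by intro r hr h; interval_cases r <;> omega)
      (by intro r hr h; interval_cases r <;> omega)
    right; left
    refine ⟨rfl, rfl, ⟨by omega, by omega⟩, fun x => ?_⟩
    rw [key x]
    constructor
    · rintro (⟨i, rfl⟩ | ⟨j, hj, rfl⟩) <;> omega
    · intro hx
      rcases (by omega : x % 2 = 1 ∨ x % 2 = 0) with h | h
      · exact Or.inl ⟨(x - 1) / 2, by omega⟩
      · exact Or.inr ⟨(x - 2) / 2, by omega, by omega⟩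

theorem s2_3 :
    (chkA 2 3 [1, 1, 2, 2, 3, 4] 1 &&
      dfs 2 [[(1, 0, 1), (0, 0, 1)]]
      [1, 1, 2, 2, 3, 4] 1 0
      [0, 0]) = true := by
  decide +kernel

theorem c2_3 {β : ℕ → ℕ} {P : ℕ → Prop} {N₀ : ℕ} (hβ : ∀ r < 2, 1 ≤ β r)
    (h0 : ∀ x, P x → 0 < x) (hN : ∀ x, N₀ ≤ x → P x)
    (hc : ∀ n, cnt (gr 2 β) P n = cnt (fun _ => 1) (SP 2 3) n) : Sol 2 3 β P := by
  obtain ⟨bx, h1, h2⟩ := search_sound (by norm_num) rfl s2_3 hβ h0 hc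
  simp only [List.mem_cons, List.not_mem_nil, or_false] at h1
  subst h1
  exact sol_full (by norm_num) hβ h0 hc h2 (by decide +kernel) (by decide)

end P46788a
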