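import Pool.Agent.Lib.MP_46788a_nt.Sol

/-!
# Searches and conclusions, modulus 3
-/

set_option maxRecDepth 100000
set_option linter.unusedVariables false

open Finset

namespace P46788a

theorem c3_1 {β : ℕ → ℕ} {P : ℕ → Prop} {N₀ : ℕ} (hβ : ∀ r < 3, 1 ≤ β r)
    (h0 : ∀ x, P x → 0 < x) (hN : ∀ x, N₀ ≤ x → P x)
    (hc : ∀ n, cnt (gr 3 β) P n = cnt (fun _ => 1) (SP 3 1) n) : Sol 3 1 β P := by
  exact (gcd_false 3 (by norm_num) (by norm_num) (by norm_num) hN hc (by decide)).elim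

theorem s3_2 :
    (chkA 3 2 [1, 0, 0, 1, 1, 0, 1, 1, 0, 1, 2, 1, 1, 2, 1, 1, 3, 2, 1, 3, 3, 2, 4, 4, 2, 4, 5, 3, 5] 1 &&
      dfs 3 [[(1, 0, 3)], [(1, 4, 6), (2, 6, 8)], [(1, 7, 9), (2, 9, 11)]]
      [1, 0, 0, 1, 1, 0, 1, 1, 0, 1, 2, 1, 1, 2, 1, 1, 3, 2, 1, 3, 3, 2, 4, 4, 2, 4, 5, 3, 5] 1 0
      [0, 0, 0]) = true := by
  decide +kernel

theorem c3_2 {β : ℕ → ℕ} {P : ℕ → Prop} {N₀ : ℕ} (hβ : ∀ r < 3, 1 ≤ β r)
    (h0 : ∀ x, P x → 0 < x) (hN : ∀ x, N₀ ≤ x → P x)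
    (hc : ∀ n, cnt (gr 3 β) P n = cnt (fun _ => 1) (SP 3 2) n) : Sol 3 2 β P := by
  obtain ⟨bx, h1, h2⟩ := search_sound (by norm_num) rfl s3_2 hβ h0 hc
  simp only [List.mem_cons, List.not_mem_nil, or_false] at h1
  rcases h1 with rfl | rfl | rfl
  · exact (use_triv_false (by norm_num) h0 hN hc h2 0 (by decide +kernel)).elim
  · have b1 : 4 < β 1 ∧ β 1 ≤ 6 := h2 (1, 4, 6) (by simp)
    have b3 : 6 < β 2 ∧ β 2 ≤ 8 := h2 (2, 6, 8) (by simp)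
    have key := use_schur (M := 3) (m := 6) (x0 := 1) (y0 := 4) (by norm_num) (by norm_num)
      (by norm_num) (by norm_num) (by norm_num) h0 hc (by decide)
      (show 4 < β 1 ∧ β 1 ≤ 6 by omega)
      (show 6 + 1 < β 1 + 4 ∧ β 1 ≤ 6 by omega)
      (show 6 < β 2 ∧ β 2 + 4 ≤ 2 * 6 by omega)
    exact (schur_false (by norm_num) hN key).elim
  · have b0 : 7 < β 1 ∧ β 1 ≤ 9 := h2 (1, 7, 9) (by simp)
    have b1 : 9 < β 2 ∧ β 2 ≤ 11 := h2 (2, 9, 11) (by simp)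
    have key := use_sylv (M := 3) (m := 3) (a := 1) (by norm_num) (by norm_num)
      (by norm_num) (by norm_num) h0 hc (by decide)
      (by intro r hr h; interval_cases r <;> omega)
      (by intro r hr h; interval_cases r <;> omega)
    exact (sylv_false (by norm_num) (by norm_num) (by norm_num) hN key).elim

theorem s3_3 :
    (chkA 3 3 [1, 0, 1, 2, 1, 1, 3, 2] 1 &&
      dfs 3 [[(1, 0, 2), (0, 0, 1)]]
      [1, 0, 1, 2, 1, 1, 3, 2] 1 0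
      [0, 0, 0]) = true := by
  decide +kernel

theorem c3_3 {β : ℕ → ℕ} {P : ℕ → Prop} {N₀ : ℕ} (hβ : ∀ r < 3, 1 ≤ β r)
    (h0 : ∀ x, P x → 0 < x) (hN : ∀ x, N₀ ≤ x → P x)
    (hc : ∀ n, cnt (gr 3 β) P n = cnt (fun _ => 1) (SP 3 3) n) : Sol 3 3 β P := by
  obtain ⟨bx, h1, h2⟩ := search_sound (by norm_num) rfl s3_3 hβ h0 hc
  simp only [List.mem_cons, List.not_mem_nil, or_false] at h1
  subst h1
  exact (use_triv_false (by norm_num) h0 hN hc h2 2 (by decide +kernel)).elim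

theorem s3_4 :
    (chkA 3 4 [0, 1, 0, 0, 1, 0, 1, 1, 0, 1, 1, 0, 2, 1, 1, 2, 1, 1, 3, 1, 2, 3, 1, 3, 4, 2, 4, 4, 2, 5, 5, 3,
      7, 5] 1 &&
      dfs 3 [[(2, 0, 3)], [(2, 5, 6), (1, 6, 7)], [(2, 8, 9), (1, 9, 10)]]
      [0, 1, 0, 0, 1, 0, 1, 1, 0, 1, 1, 0, 2, 1, 1, 2, 1, 1, 3, 1, 2, 3, 1, 3, 4, 2, 4, 4, 2, 5, 5, 3,
      7, 5] 1 0
      [0, 0, 0]) = true := by
  decide +kernel

theorem c3_4 {β : ℕ → ℕ} {P : ℕ → Prop} {N₀ : ℕ} (hβ : ∀ r < 3, 1 ≤ β r)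
    (h0 : ∀ x, P x → 0 < x) (hN : ∀ x, N₀ ≤ x → P x)
    (hc : ∀ n, cnt (gr 3 β) P n = cnt (fun _ => 1) (SP 3 4) n) : Sol 3 4 β P := by
  obtain ⟨bx, h1, h2⟩ := search_sound (by norm_num) rfl s3_4 hβ h0 hc
  simp only [List.mem_cons, List.not_mem_nil, or_false] at h1
  rcases h1 with rfl | rfl | rfl
  · exact (use_triv_false (by norm_num) h0 hN hc h2 0 (by decide +kernel)).elim
  · have b1 : 5 < β 2 ∧ β 2 ≤ 6 := h2 (2, 5, 6) (by simp)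
    have b3 : 6 < β 1 ∧ β 1 ≤ 7 := h2 (1, 6, 7) (by simp)
    have key := use_schur (M := 3) (m := 6) (x0 := 2) (y0 := 5) (by norm_num) (by norm_num)
      (by norm_num) (by norm_num) (by norm_num) h0 hc (by decide)
      (show 5 < β 2 ∧ β 2 ≤ 6 by omega)
      (show 6 + 2 < β 2 + 5 ∧ β 2 ≤ 6 by omega)
      (show 6 < β 1 ∧ β 1 + 5 ≤ 2 * 6 by omega)
    exact (schur_false (by norm_num) hN key).elim
  · have b0 : 8 < β 2 ∧ β 2 ≤ 9 := h2 (2, 8, 9) (by simp)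
    have b1 : 9 < β 1 ∧ β 1 ≤ 10 := h2 (1, 9, 10) (by simp)
    have key := use_sylv (M := 3) (m := 3) (a := 2) (by norm_num) (by norm_num)
      (by norm_num) (by norm_num) h0 hc (by decide)
      (by intro r hr h; interval_cases r <;> omega)
      (by intro r hr h; interval_cases r <;> omega)
    exact (sylv_false (by norm_num) (by norm_num) (by norm_num) hN key).elim

theorem s3_5 :
    (chkA 3 5 [0, 1, 1, 0, 2, 1, 1, 3, 2] 1 &&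
      dfs 3 [[(2, 0, 1), (0, 0, 2)]]
      [0, 1, 1, 0, 2, 1, 1, 3, 2] 1 0
      [0, 0, 0]) = true := by
  decide +kernel

theorem c3_5 {β : ℕ → ℕ} {P : ℕ → Prop} {N₀ : ℕ} (hβ : ∀ r < 3, 1 ≤ β r)
    (h0 : ∀ x, P x → 0 < x) (hN : ∀ x, N₀ ≤ x → P x)
    (hc : ∀ n, cnt (gr 3 β) P n = cnt (fun _ => 1) (SP 3 5) n) : Sol 3 5 β P := by
  obtain ⟨bx, h1, h2⟩ := search_sound (by norm_num) rfl s3_5 hβ h0 hc
  simp only [List.mem_cons, List.not_mem_nil, or_false] at h1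
  subst h1
  exact (use_triv_false (by norm_num) h0 hN hc h2 1 (by decide +kernel)).elim

theorem s3_6 :
    (chkA 3 6 [1, 1, 1, 1, 2, 2, 3, 3, 3, 4, 5, 6, 7, 8, 9, 10, 12, 14, 16, 18, 20, 23, 26, 30, 34, 38, 42,
      47, 53, 60, 67, 74] 1 &&
      dfs 3 [[(1, 0, 1), (2, 0, 2)], [(1, 2, 3), (2, 2, 3), (0, 3, 4)]]
      [1, 1, 1, 1, 2, 2, 3, 3, 3, 4, 5, 6, 7, 8, 9, 10, 12, 14, 16, 18, 20, 23, 26, 30, 34, 38, 42,
      47, 53, 60, 67, 74] 1 0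
      [0, 0, 0]) = true := by
  decide +kernel

theorem c3_6 {β : ℕ → ℕ} {P : ℕ → Prop} {N₀ : ℕ} (hβ : ∀ r < 3, 1 ≤ β r)
    (h0 : ∀ x, P x → 0 < x) (hN : ∀ x, N₀ ≤ x → P x)
    (hc : ∀ n, cnt (gr 3 β) P n = cnt (fun _ => 1) (SP 3 6) n) : Sol 3 6 β P := by
  obtain ⟨bx, h1, h2⟩ := search_sound (by norm_num) rfl s3_6 hβ h0 hc
  simp only [List.mem_cons, List.not_mem_nil, or_false] at h1
  rcases h1 with rfl | rfl
  · exact (use_triv_false (by norm_num) h0 hN hc h2 0 (by decide +kernel)).elim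
  · have b1 : 2 < β 1 ∧ β 1 ≤ 3 := h2 (1, 2, 3) (by simp)
    have b2 : 2 < β 2 ∧ β 2 ≤ 3 := h2 (2, 2, 3) (by simp)
    have b3 : 3 < β 0 ∧ β 0 ≤ 4 := h2 (0, 3, 4) (by simp)
    have key := use_schur (M := 3) (m := 3) (x0 := 1) (y0 := 2) (by norm_num) (by norm_num)
      (by norm_num) (by norm_num) (by norm_num) h0 hc (by decide)
      (show 2 < β 1 ∧ β 1 ≤ 3 by omega)
      (show 3 + 1 < β 2 + 2 ∧ β 2 ≤ 3 by omega)
      (show 3 < β 0 ∧ β 0 + 2 ≤ 2 * 3 by omega)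
    right; right; left
    refine ⟨rfl, rfl, ⟨by omega, by omega, by omega⟩, fun x => ?_⟩
    rw [key x]
    constructor
    · rintro (⟨i, rfl⟩ | ⟨i, rfl⟩ | ⟨i, rfl⟩) <;> omega
    · intro hx
      rcases (by omega : x % 3 = 1 ∨ x % 3 = 2 ∨ x % 3 = 0) with h | h | h
      · exact Or.inl ⟨(x - 1) / 3, by omega⟩
      · exact Or.inr (Or.inl ⟨(x - 2) / 3, by omega⟩)
      · exact Or.inr (Or.inr ⟨(x - 3) / 3, by omega⟩)

theorem s3_7 :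
    (chkA 3 7 [1, 1, 2, 2, 3, 4, 5, 6] 1 &&
      dfs 3 [[(1, 0, 1), (2, 0, 1), (0, 0, 1)]]
      [1, 1, 2, 2, 3, 4, 5, 6] 1 0
      [0, 0, 0]) = true := by
  decide +kernel

theorem c3_7 {β : ℕ → ℕ} {P : ℕ → Prop} {N₀ : ℕ} (hβ : ∀ r < 3, 1 ≤ β r)
    (h0 : ∀ x, P x → 0 < x) (hN : ∀ x, N₀ ≤ x → P x)
    (hc : ∀ n, cnt (gr 3 β) P n = cnt (fun _ => 1) (SP 3 7) n) : Sol 3 7 β P := by
  obtain ⟨bx, h1, h2⟩ := search_sound (by norm_num) rfl s3_7 hβ h0 hc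
  simp only [List.mem_cons, List.not_mem_nil, or_false] at h1
  subst h1
  exact sol_full (by norm_num) hβ h0 hc h2 (by decide +kernel) (by decide)

end P46788a
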