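import Pool.Agent.Lib.MP_46788a_nt.Sol

/-!
# Searches and conclusions, modulus 4
-/

set_option maxRecDepth 100000
set_option linter.unusedVariables false

open Finset

namespace P46788a

theorem c4_1 {β : ℕ → ℕ} {P : ℕ → Prop} {N₀ : ℕ} (hβ : ∀ r < 4, 1 ≤ β r)
    (h0 : ∀ x, P x → 0 < x) (hN : ∀ x, N₀ ≤ x → P x)
    (hc : ∀ n, cnt (gr 4 β) P n = cnt (fun _ => 1) (SP 4 1) n) : Sol 4 1 β P := by
  exact (gcd_false 4 (by norm_num) (by norm_num) (by norm_num) hN hc (by decide)).elim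

theorem s4_2 :
    (chkA 4 2 [1, 0, 0, 0, 1, 1, 0, 0, 1, 1, 0, 0, 1, 2, 1, 0, 1, 2, 1, 0, 1, 3, 2, 0, 1, 3, 3, 1, 1, 4, 4, 1] 1 &&
      dfs 4 [[(1, 0, 4)], [(1, 5, 8), (2, 8, 11)], [(1, 9, 12), (2, 12, 15)]]
      [1, 0, 0, 0, 1, 1, 0, 0, 1, 1, 0, 0, 1, 2, 1, 0, 1, 2, 1, 0, 1, 3, 2, 0, 1, 3, 3, 1, 1, 4, 4, 1] 1 0
      [0, 0, 0, 0]) = true := by
  decide +kernel

theorem c4_2 {β : ℕ → ℕ} {P : ℕ → Prop} {N₀ : ℕ} (hβ : ∀ r < 4, 1 ≤ β r)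
    (h0 : ∀ x, P x → 0 < x) (hN : ∀ x, N₀ ≤ x → P x)
    (hc : ∀ n, cnt (gr 4 β) P n = cnt (fun _ => 1) (SP 4 2) n) : Sol 4 2 β P := by
  obtain ⟨bx, h1, h2⟩ := search_sound (by norm_num) rfl s4_2 hβ h0 hc
  simp only [List.mem_cons, List.not_mem_nil, or_false] at h1
  rcases h1 with rfl | rfl | rfl
  · exact (use_triv_false (by norm_num) h0 hN hc h2 0 (by decide +kernel)).elim
  · have b1 : 5 < β 1 ∧ β 1 ≤ 8 := h2 (1, 5, 8) (by simp)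
    have b3 : 8 < β 2 ∧ β 2 ≤ 11 := h2 (2, 8, 11) (by simp)
    have key := use_schur (M := 4) (m := 8) (x0 := 1) (y0 := 5) (by norm_num) (by norm_num)
      (by norm_num) (by norm_num) (by norm_num) h0 hc (by decide)
      (show 5 < β 1 ∧ β 1 ≤ 8 by omega)
      (show 8 + 1 < β 1 + 5 ∧ β 1 ≤ 8 by omega)
      (show 8 < β 2 ∧ β 2 + 5 ≤ 2 * 8 by omega)
    exact (schur_false (by norm_num) hN key).elim
  · have b0 : 9 < β 1 ∧ β 1 ≤ 12 := h2 (1, 9, 12) (by simp)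
    have b1 : 12 < β 2 ∧ β 2 ≤ 15 := h2 (2, 12, 15) (by simp)
    have key := use_sylv (M := 4) (m := 4) (a := 1) (by norm_num) (by norm_num)
      (by norm_num) (by norm_num) h0 hc (by decide)
      (by intro r hr h; interval_cases r <;> omega)
      (by intro r hr h; interval_cases r <;> omega)
    exact (sylv_false (by norm_num) (by norm_num) (by norm_num) hN key).elim

theorem s4_3 :
    (chkA 4 3 [1, 0, 0, 1, 2, 1, 0, 1, 3, 2] 1 &&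
      dfs 4 [[(1, 0, 3), (0, 0, 1)]]
      [1, 0, 0, 1, 2, 1, 0, 1, 3, 2] 1 0
      [0, 0, 0, 0]) = true := by
  decide +kernel

theorem c4_3 {β : ℕ → ℕ} {P : ℕ → Prop} {N₀ : ℕ} (hβ : ∀ r < 4, 1 ≤ β r)
    (h0 : ∀ x, P x → 0 < x) (hN : ∀ x, N₀ ≤ x → P x)
    (hc : ∀ n, cnt (gr 4 β) P n = cnt (fun _ => 1) (SP 4 3) n) : Sol 4 3 β P := by
  obtain ⟨bx, h1, h2⟩ := search_sound (by norm_num) rfl s4_3 hβ h0 hc
  simp only [List.mem_cons, List.not_mem_nil, or_false] at h1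
  subst h1
  exact (use_triv_false (by norm_num) h0 hN hc h2 2 (by decide +kernel)).elim

theorem c4_4 {β : ℕ → ℕ} {P : ℕ → Prop} {N₀ : ℕ} (hβ : ∀ r < 4, 1 ≤ β r)
    (h0 : ∀ x, P x → 0 < x) (hN : ∀ x, N₀ ≤ x → P x)
    (hc : ∀ n, cnt (gr 4 β) P n = cnt (fun _ => 1) (SP 4 4) n) : Sol 4 4 β P := by
  exact (gcd_false 2 (by norm_num) (by norm_num) (by norm_num) hN hc (by decide)).elim

theorem c4_5 {β : ℕ → ℕ} {P : ℕ → Prop} {N₀ : ℕ} (hβ : ∀ r < 4, 1 ≤ β r)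
    (h0 : ∀ x, P x → 0 < x) (hN : ∀ x, N₀ ≤ x → P x)
    (hc : ∀ n, cnt (gr 4 β) P n = cnt (fun _ => 1) (SP 4 5) n) : Sol 4 5 β P := by
  exact (gcd_false 2 (by norm_num) (by norm_num) (by norm_num) hN hc (by decide)).elim

theorem s4_6 :
    (chkA 4 6 [1, 1, 1, 0, 1, 2, 2, 2, 2, 2, 3, 3, 3, 4, 5, 6, 6, 6, 7, 8, 9, 10, 11, 13, 14, 14, 16, 18, 20,
      23, 24] 1 &&
      dfs 4 [[(1, 0, 1), (2, 0, 3)], [(1, 2, 4), (2, 3, 4), (3, 4, 6)]]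
      [1, 1, 1, 0, 1, 2, 2, 2, 2, 2, 3, 3, 3, 4, 5, 6, 6, 6, 7, 8, 9, 10, 11, 13, 14, 14, 16, 18, 20,
      23, 24] 1 0
      [0, 0, 0, 0]) = true := by
  decide +kernel

theorem c4_6 {β : ℕ → ℕ} {P : ℕ → Prop} {N₀ : ℕ} (hβ : ∀ r < 4, 1 ≤ β r)
    (h0 : ∀ x, P x → 0 < x) (hN : ∀ x, N₀ ≤ x → P x)
    (hc : ∀ n, cnt (gr 4 β) P n = cnt (fun _ => 1) (SP 4 6) n) : Sol 4 6 β P := by
  obtain ⟨bx, h1, h2⟩ := search_sound (by norm_num) rfl s4_6 hβ h0 hc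
  simp only [List.mem_cons, List.not_mem_nil, or_false] at h1
  rcases h1 with rfl | rfl
  · exact (use_triv_false (by norm_num) h0 hN hc h2 0 (by decide +kernel)).elim
  · have b1 : 2 < β 1 ∧ β 1 ≤ 4 := h2 (1, 2, 4) (by simp)
    have b2 : 3 < β 2 ∧ β 2 ≤ 4 := h2 (2, 3, 4) (by simp)
    have b3 : 4 < β 3 ∧ β 3 ≤ 6 := h2 (3, 4, 6) (by simp)
    have key := use_schur (M := 4) (m := 4) (x0 := 1) (y0 := 2) (by norm_num) (by norm_num)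
      (by norm_num) (by norm_num) (by norm_num) h0 hc (by decide)
      (show 2 < β 1 ∧ β 1 ≤ 4 by omega)
      (show 4 + 1 < β 2 + 2 ∧ β 2 ≤ 4 by omega)
      (show 4 < β 3 ∧ β 3 + 2 ≤ 2 * 4 by omega)
    exact (schur_false (by norm_num) hN key).elim

theorem s4_7 :
    (chkA 4 7 [1, 1, 1, 1, 2, 3, 3, 3, 4, 5, 6, 7, 8, 10, 12, 13, 15, 18, 21, 24] 1 &&
      dfs 4 [[(1, 0, 1), (2, 0, 2), (0, 0, 1)], [(1, 2, 3), (2, 1, 2), (3, 2, 3), (0, 1, 2)], [(1, 3, 4),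
      (2, 0, 1), (3, 3, 4), (0, 0, 1)]]
      [1, 1, 1, 1, 2, 3, 3, 3, 4, 5, 6, 7, 8, 10, 12, 13, 15, 18, 21, 24] 1 0
      [0, 0, 0, 0]) = true := by
  decide +kernel

theorem c4_7 {β : ℕ → ℕ} {P : ℕ → Prop} {N₀ : ℕ} (hβ : ∀ r < 4, 1 ≤ β r)
    (h0 : ∀ x, P x → 0 < x) (hN : ∀ x, N₀ ≤ x → P x)
    (hc : ∀ n, cnt (gr 4 β) P n = cnt (fun _ => 1) (SP 4 7) n) : Sol 4 7 β P := by
  obtain ⟨bx, h1, h2⟩ := search_sound (by norm_num) rfl s4_7 hβ h0 hc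
  simp only [List.mem_cons, List.not_mem_nil, or_false] at h1
  rcases h1 with rfl | rfl | rfl
  · exact (use_triv_false (by norm_num) h0 hN hc h2 3 (by decide +kernel)).elim
  · have b0 : 2 < β 1 ∧ β 1 ≤ 3 := h2 (1, 2, 3) (by simp)
    have b1 : 1 < β 2 ∧ β 2 ≤ 2 := h2 (2, 1, 2) (by simp)
    have b2 : 2 < β 3 ∧ β 3 ≤ 3 := h2 (3, 2, 3) (by simp)
    have b3 : 1 < β 0 ∧ β 0 ≤ 2 := h2 (0, 1, 2) (by simp)
    right; right; right; right; left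
    refine ⟨rfl, rfl, ⟨by omega, by omega, by omega, by omega⟩, ?_⟩
    exact use_leb323a h0 hc (by omega) (by omega) (by omega) (by omega)
  · have b0 : 3 < β 1 ∧ β 1 ≤ 4 := h2 (1, 3, 4) (by simp)
    have b1 : 0 < β 2 ∧ β 2 ≤ 1 := h2 (2, 0, 1) (by simp)
    have b2 : 3 < β 3 ∧ β 3 ≤ 4 := h2 (3, 3, 4) (by simp)
    have b3 : 0 < β 0 ∧ β 0 ≤ 1 := h2 (0, 0, 1) (by simp)
    right; right; right; right; right; left
    refine ⟨rfl, rfl, ⟨by omega, by omega, by omega, by omega⟩, ?_⟩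
    exact use_leb414 h0 hc (by omega) (by omega) (by omega) (by omega)

theorem s4_8 :
    (chkA 4 8 [0, 0, 1, 0, 0, 0, 1, 0, 0, 1, 1, 0, 0, 1, 1, 0, 0, 2, 1, 0, 1, 2, 1, 0, 1, 3, 1, 0, 2, 3, 1, 0,
      3, 4, 1, 1, 4, 4, 1, 1] 1 &&
      dfs 4 [[(3, 0, 4)], [(3, 7, 8), (2, 8, 9)], [(3, 11, 12), (2, 12, 13)]]
      [0, 0, 1, 0, 0, 0, 1, 0, 0, 1, 1, 0, 0, 1, 1, 0, 0, 2, 1, 0, 1, 2, 1, 0, 1, 3, 1, 0, 2, 3, 1, 0,
      3, 4, 1, 1, 4, 4, 1, 1] 1 0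
      [0, 0, 0, 0]) = true := by
  decide +kernel

theorem c4_8 {β : ℕ → ℕ} {P : ℕ → Prop} {N₀ : ℕ} (hβ : ∀ r < 4, 1 ≤ β r)
    (h0 : ∀ x, P x → 0 < x) (hN : ∀ x, N₀ ≤ x → P x)
    (hc : ∀ n, cnt (gr 4 β) P n = cnt (fun _ => 1) (SP 4 8) n) : Sol 4 8 β P := by
  obtain ⟨bx, h1, h2⟩ := search_sound (by norm_num) rfl s4_8 hβ h0 hc
  simp only [List.mem_cons, List.not_mem_nil, or_false] at h1
  rcases h1 with rfl | rfl | rfl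
  · exact (use_triv_false (by norm_num) h0 hN hc h2 0 (by decide +kernel)).elim
  · have b1 : 7 < β 3 ∧ β 3 ≤ 8 := h2 (3, 7, 8) (by simp)
    have b3 : 8 < β 2 ∧ β 2 ≤ 9 := h2 (2, 8, 9) (by simp)
    have key := use_schur (M := 4) (m := 8) (x0 := 3) (y0 := 7) (by norm_num) (by norm_num)
      (by norm_num) (by norm_num) (by norm_num) h0 hc (by decide)
      (show 7 < β 3 ∧ β 3 ≤ 8 by omega)
      (show 8 + 3 < β 3 + 7 ∧ β 3 ≤ 8 by omega)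
      (show 8 < β 2 ∧ β 2 + 7 ≤ 2 * 8 by omega)
    exact (schur_false (by norm_num) hN key).elim
  · have b0 : 11 < β 3 ∧ β 3 ≤ 12 := h2 (3, 11, 12) (by simp)
    have b1 : 12 < β 2 ∧ β 2 ≤ 13 := h2 (2, 12, 13) (by simp)
    have key := use_sylv (M := 4) (m := 4) (a := 3) (by norm_num) (by norm_num)
      (by norm_num) (by norm_num) h0 hc (by decide)
      (by intro r hr h; interval_cases r <;> omega)
      (by intro r hr h; interval_cases r <;> omega)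
    exact (sylv_false (by norm_num) (by norm_num) (by norm_num) hN key).elim

theorem s4_9 :
    (chkA 4 9 [0, 0, 1, 1, 0, 0, 2, 1, 0, 1, 3, 2] 1 &&
      dfs 4 [[(3, 0, 1), (0, 0, 3)]]
      [0, 0, 1, 1, 0, 0, 2, 1, 0, 1, 3, 2] 1 0
      [0, 0, 0, 0]) = true := by
  decide +kernel

theorem c4_9 {β : ℕ → ℕ} {P : ℕ → Prop} {N₀ : ℕ} (hβ : ∀ r < 4, 1 ≤ β r)
    (h0 : ∀ x, P x → 0 < x) (hN : ∀ x, N₀ ≤ x → P x)
    (hc : ∀ n, cnt (gr 4 β) P n = cnt (fun _ => 1) (SP 4 9) n) : Sol 4 9 β P := by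
  obtain ⟨bx, h1, h2⟩ := search_sound (by norm_num) rfl s4_9 hβ h0 hc
  simp only [List.mem_cons, List.not_mem_nil, or_false] at h1
  subst h1
  exact (use_triv_false (by norm_num) h0 hN hc h2 1 (by decide +kernel)).elim

theorem s4_10 :
    (chkA 4 10 [1, 0, 1, 1, 1, 1, 1, 2, 2, 2, 2, 3, 3, 3, 4, 5, 5, 5, 6, 7, 8, 8, 9, 11, 12, 12, 14, 16, 17,
      18, 20, 23] 1 &&
      dfs 4 [[(1, 0, 2), (3, 0, 2)], [(1, 3, 4), (3, 2, 4), (0, 4, 5)], [(1, 5, 6), (3, 5, 6), (2, 6, 7),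
      (0, 6, 7)]]
      [1, 0, 1, 1, 1, 1, 1, 2, 2, 2, 2, 3, 3, 3, 4, 5, 5, 5, 6, 7, 8, 8, 9, 11, 12, 12, 14, 16, 17,
      18, 20, 23] 1 0
      [0, 0, 0, 0]) = true := by
  decide +kernel

theorem c4_10 {β : ℕ → ℕ} {P : ℕ → Prop} {N₀ : ℕ} (hβ : ∀ r < 4, 1 ≤ β r)
    (h0 : ∀ x, P x → 0 < x) (hN : ∀ x, N₀ ≤ x → P x)
    (hc : ∀ n, cnt (gr 4 β) P n = cnt (fun _ => 1) (SP 4 10) n) : Sol 4 10 β P := by
  obtain ⟨bx, h1, h2⟩ := search_sound (by norm_num) rfl s4_10 hβ h0 hc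
  simp only [List.mem_cons, List.not_mem_nil, or_false] at h1
  rcases h1 with rfl | rfl | rfl
  · exact (use_triv_false (by norm_num) h0 hN hc h2 0 (by decide +kernel)).elim
  · have b1 : 3 < β 1 ∧ β 1 ≤ 4 := h2 (1, 3, 4) (by simp)
    have b2 : 2 < β 3 ∧ β 3 ≤ 4 := h2 (3, 2, 4) (by simp)
    have b3 : 4 < β 0 ∧ β 0 ≤ 5 := h2 (0, 4, 5) (by simp)
    have key := use_schur (M := 4) (m := 4) (x0 := 1) (y0 := 3) (by norm_num) (by norm_num)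
      (by norm_num) (by norm_num) (by norm_num) h0 hc (by decide)
      (show 3 < β 1 ∧ β 1 ≤ 4 by omega)
      (show 4 + 1 < β 3 + 3 ∧ β 3 ≤ 4 by omega)
      (show 4 < β 0 ∧ β 0 + 3 ≤ 2 * 4 by omega)
    exact (schur_false (by norm_num) hN key).elim
  · have b0 : 5 < β 1 ∧ β 1 ≤ 6 := h2 (1, 5, 6) (by simp)
    have b1 : 5 < β 3 ∧ β 3 ≤ 6 := h2 (3, 5, 6) (by simp)
    have b2 : 6 < β 2 ∧ β 2 ≤ 7 := h2 (2, 6, 7) (by simp)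
    have b3 : 6 < β 0 ∧ β 0 ≤ 7 := h2 (0, 6, 7) (by simp)
    have key := use_sylv (M := 4) (m := 2) (a := 1) (by norm_num) (by norm_num)
      (by norm_num) (by norm_num) h0 hc (by decide)
      (by intro r hr h; interval_cases r <;> omega)
      (by intro r hr h; interval_cases r <;> omega)
    right; right; right; left
    refine ⟨rfl, rfl, ⟨by omega, by omega, by omega, by omega⟩, fun x => ?_⟩
    rw [key x]
    constructor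
    · rintro (⟨i, rfl⟩ | ⟨j, hj, rfl⟩) <;> omega
    · intro hx
      rcases (by omega : x % 2 = 1 ∨ x % 2 = 0) with h | h
      · exact Or.inl ⟨(x - 1) / 2, by omega⟩
      · exact Or.inr ⟨(x - 2) / 2, by omega, by omega⟩

theorem s4_11 :
    (chkA 4 11 [1, 0, 1, 2, 2, 1, 2, 4, 4, 3] 1 &&
      dfs 4 [[(1, 0, 2), (3, 0, 1), (0, 0, 1)]]
      [1, 0, 1, 2, 2, 1, 2, 4, 4, 3] 1 0
      [0, 0, 0, 0]) = true := by
  decide +kernel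

theorem c4_11 {β : ℕ → ℕ} {P : ℕ → Prop} {N₀ : ℕ} (hβ : ∀ r < 4, 1 ≤ β r)
    (h0 : ∀ x, P x → 0 < x) (hN : ∀ x, N₀ ≤ x → P x)
    (hc : ∀ n, cnt (gr 4 β) P n = cnt (fun _ => 1) (SP 4 11) n) : Sol 4 11 β P := by
  obtain ⟨bx, h1, h2⟩ := search_sound (by norm_num) rfl s4_11 hβ h0 hc
  simp only [List.mem_cons, List.not_mem_nil, or_false] at h1
  subst h1
  exact (use_triv_false (by norm_num) h0 hN hc h2 2 (by decide +kernel)).elim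

theorem s4_12 :
    (chkA 4 12 [0, 1, 1, 0, 1, 1, 1, 1, 2, 2, 2, 2, 3, 2, 3, 4, 4, 5, 5, 6, 7, 6, 8, 9, 9, 11, 12] 1 &&
      dfs 4 [[(2, 0, 1), (3, 0, 3)], [(2, 3, 4), (3, 3, 4), (1, 4, 5)]]
      [0, 1, 1, 0, 1, 1, 1, 1, 2, 2, 2, 2, 3, 2, 3, 4, 4, 5, 5, 6, 7, 6, 8, 9, 9, 11, 12] 1 0
      [0, 0, 0, 0]) = true := by
  decide +kernel

theorem c4_12 {β : ℕ → ℕ} {P : ℕ → Prop} {N₀ : ℕ} (hβ : ∀ r < 4, 1 ≤ β r)
    (h0 : ∀ x, P x → 0 < x) (hN : ∀ x, N₀ ≤ x → P x)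
    (hc : ∀ n, cnt (gr 4 β) P n = cnt (fun _ => 1) (SP 4 12) n) : Sol 4 12 β P := by
  obtain ⟨bx, h1, h2⟩ := search_sound (by norm_num) rfl s4_12 hβ h0 hc
  simp only [List.mem_cons, List.not_mem_nil, or_false] at h1
  rcases h1 with rfl | rfl
  · exact (use_triv_false (by norm_num) h0 hN hc h2 0 (by decide +kernel)).elim
  · have b1 : 3 < β 2 ∧ β 2 ≤ 4 := h2 (2, 3, 4) (by simp)
    have b2 : 3 < β 3 ∧ β 3 ≤ 4 := h2 (3, 3, 4) (by simp)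
    have b3 : 4 < β 1 ∧ β 1 ≤ 5 := h2 (1, 4, 5) (by simp)
    have key := use_schur (M := 4) (m := 4) (x0 := 2) (y0 := 3) (by norm_num) (by norm_num)
      (by norm_num) (by norm_num) (by norm_num) h0 hc (by decide)
      (show 3 < β 2 ∧ β 2 ≤ 4 by omega)
      (show 4 + 2 < β 3 + 3 ∧ β 3 ≤ 4 by omega)
      (show 4 < β 1 ∧ β 1 + 3 ≤ 2 * 4 by omega)
    exact (schur_false (by norm_num) hN key).elim

theorem s4_13 :
    (chkA 4 13 [0, 1, 1, 1, 1, 2, 2, 2, 3, 4, 4, 5, 6, 7, 8] 1 &&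
      dfs 4 [[(2, 0, 1), (3, 0, 1), (0, 0, 2)], [(1, 2, 3), (2, 1, 2), (3, 2, 3), (0, 1, 2)]]
      [0, 1, 1, 1, 1, 2, 2, 2, 3, 4, 4, 5, 6, 7, 8] 1 0
      [0, 0, 0, 0]) = true := by
  decide +kernel

theorem c4_13 {β : ℕ → ℕ} {P : ℕ → Prop} {N₀ : ℕ} (hβ : ∀ r < 4, 1 ≤ β r)
    (h0 : ∀ x, P x → 0 < x) (hN : ∀ x, N₀ ≤ x → P x)
    (hc : ∀ n, cnt (gr 4 β) P n = cnt (fun _ => 1) (SP 4 13) n) : Sol 4 13 β P := by
  obtain ⟨bx, h1, h2⟩ := search_sound (by norm_num) rfl s4_13 hβ h0 hc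
  simp only [List.mem_cons, List.not_mem_nil, or_false] at h1
  rcases h1 with rfl | rfl
  · exact (use_triv_false (by norm_num) h0 hN hc h2 1 (by decide +kernel)).elim
  · have b0 : 2 < β 1 ∧ β 1 ≤ 3 := h2 (1, 2, 3) (by simp)
    have b1 : 1 < β 2 ∧ β 2 ≤ 2 := h2 (2, 1, 2) (by simp)
    have b2 : 2 < β 3 ∧ β 3 ≤ 3 := h2 (3, 2, 3) (by simp)
    have b3 : 1 < β 0 ∧ β 0 ≤ 2 := h2 (0, 1, 2) (by simp)
    right; right; right; right; right; right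
    refine ⟨rfl, rfl, ⟨by omega, by omega, by omega, by omega⟩, ?_⟩
    exact use_leb323b h0 hc (by omega) (by omega) (by omega) (by omega)

theorem s4_14 :
    (chkA 4 14 [1, 1, 2, 1, 2, 3, 3, 4, 5, 6, 7, 8, 9, 11] 1 &&
      dfs 4 [[(1, 0, 1), (2, 0, 1), (3, 0, 2)]]
      [1, 1, 2, 1, 2, 3, 3, 4, 5, 6, 7, 8, 9, 11] 1 0
      [0, 0, 0, 0]) = true := by
  decide +kernel

theorem c4_14 {β : ℕ → ℕ} {P : ℕ → Prop} {N₀ : ℕ} (hβ : ∀ r < 4, 1 ≤ β r)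
    (h0 : ∀ x, P x → 0 < x) (hN : ∀ x, N₀ ≤ x → P x)
    (hc : ∀ n, cnt (gr 4 β) P n = cnt (fun _ => 1) (SP 4 14) n) : Sol 4 14 β P := by
  obtain ⟨bx, h1, h2⟩ := search_sound (by norm_num) rfl s4_14 hβ h0 hc
  simp only [List.mem_cons, List.not_mem_nil, or_false] at h1
  subst h1
  exact (use_triv_false (by norm_num) h0 hN hc h2 0 (by decide +kernel)).elim

theorem s4_15 :
    (chkA 4 15 [1, 1, 2, 2, 3, 4, 5, 6, 8, 10] 1 &&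
      dfs 4 [[(1, 0, 1), (2, 0, 1), (3, 0, 1), (0, 0, 1)]]
      [1, 1, 2, 2, 3, 4, 5, 6, 8, 10] 1 0
      [0, 0, 0, 0]) = true := by
  decide +kernel

theorem c4_15 {β : ℕ → ℕ} {P : ℕ → Prop} {N₀ : ℕ} (hβ : ∀ r < 4, 1 ≤ β r)
    (h0 : ∀ x, P x → 0 < x) (hN : ∀ x, N₀ ≤ x → P x)
    (hc : ∀ n, cnt (gr 4 β) P n = cnt (fun _ => 1) (SP 4 15) n) : Sol 4 15 β P := by
  obtain ⟨bx, h1, h2⟩ := search_sound (by norm_num) rfl s4_15 hβ h0 hc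
  simp only [List.mem_cons, List.not_mem_nil, or_false] at h1
  subst h1
  exact sol_full (by norm_num) hβ h0 hc h2 (by decide +kernel) (by decide)

end P46788a
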