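import Pool.Agent.Lib.MP_46788a_nt.Sol

/-!
# Searches and conclusions, modulus 5
-/

set_option maxRecDepth 100000
set_option linter.unusedVariables false

open Finset

namespace P46788a

theorem s5_6 :
    (chkA 5 6 [1, 1, 1, 0, 0, 1, 2, 2, 2, 1, 1, 2, 3, 3, 2, 2, 3, 5, 6, 5, 4, 4, 6, 8, 8, 7, 7, 9, 12, 13, 11,
      10, 12, 16, 19, 19, 17, 18] 1 &&
      dfs 5 [[(1, 0, 1), (2, 0, 4)], [(1, 2, 5), (2, 4, 5), (3, 5, 8)]]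
      [1, 1, 1, 0, 0, 1, 2, 2, 2, 1, 1, 2, 3, 3, 2, 2, 3, 5, 6, 5, 4, 4, 6, 8, 8, 7, 7, 9, 12, 13, 11,
      10, 12, 16, 19, 19, 17, 18] 1 0
      [0, 0, 0, 0, 0]) = true := by
  decide +kernel

theorem c5_6 {β : ℕ → ℕ} {P : ℕ → Prop} {N₀ : ℕ} (hβ : ∀ r < 5, 1 ≤ β r)
    (h0 : ∀ x, P x → 0 < x) (hN : ∀ x, N₀ ≤ x → P x)
    (hc : ∀ n, cnt (gr 5 β) P n = cnt (fun _ => 1) (SP 5 6) n) : Sol 5 6 β P := by
  obtain ⟨bx, h1, h2⟩ := search_sound (by norm_num) rfl s5_6 hβ h0 hc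
  simp only [List.mem_cons, List.not_mem_nil, or_false] at h1
  rcases h1 with rfl | rfl
  · exact (use_triv_false (by norm_num) h0 hN hc h2 0 (by decide +kernel)).elim
  · have b1 : 2 < β 1 ∧ β 1 ≤ 5 := h2 (1, 2, 5) (by simp)
    have b2 : 4 < β 2 ∧ β 2 ≤ 5 := h2 (2, 4, 5) (by simp)
    have b3 : 5 < β 3 ∧ β 3 ≤ 8 := h2 (3, 5, 8) (by simp)
    have key := use_schur (M := 5) (m := 5) (x0 := 1) (y0 := 2) (by norm_num) (by norm_num)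
      (by norm_num) (by norm_num) (by norm_num) h0 hc (by decide)
      (show 2 < β 1 ∧ β 1 ≤ 5 by omega)
      (show 5 + 1 < β 2 + 2 ∧ β 2 ≤ 5 by omega)
      (show 5 < β 3 ∧ β 3 + 2 ≤ 2 * 5 by omega)
    exact (schur_false (by norm_num) hN key).elim

theorem s5_12 :
    (chkA 5 12 [0, 1, 1, 0, 1, 0, 1, 1, 1, 2, 1, 2, 2, 1, 3, 1, 3, 3, 2, 5, 3, 5, 5, 4, 7, 4, 7, 7, 6, 11, 7,
      11, 11, 9, 15, 10] 1 &&
      dfs 5 [[(2, 0, 1), (3, 0, 4)], [(2, 3, 5), (3, 4, 5), (0, 5, 7)]]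
      [0, 1, 1, 0, 1, 0, 1, 1, 1, 2, 1, 2, 2, 1, 3, 1, 3, 3, 2, 5, 3, 5, 5, 4, 7, 4, 7, 7, 6, 11, 7,
      11, 11, 9, 15, 10] 1 0
      [0, 0, 0, 0, 0]) = true := by
  decide +kernel

theorem c5_12 {β : ℕ → ℕ} {P : ℕ → Prop} {N₀ : ℕ} (hβ : ∀ r < 5, 1 ≤ β r)
    (h0 : ∀ x, P x → 0 < x) (hN : ∀ x, N₀ ≤ x → P x)
    (hc : ∀ n, cnt (gr 5 β) P n = cnt (fun _ => 1) (SP 5 12) n) : Sol 5 12 β P := by
  obtain ⟨bx, h1, h2⟩ := search_sound (by norm_num) rfl s5_12 hβ h0 hc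
  simp only [List.mem_cons, List.not_mem_nil, or_false] at h1
  rcases h1 with rfl | rfl
  · exact (use_triv_false (by norm_num) h0 hN hc h2 0 (by decide +kernel)).elim
  · have b1 : 3 < β 2 ∧ β 2 ≤ 5 := h2 (2, 3, 5) (by simp)
    have b2 : 4 < β 3 ∧ β 3 ≤ 5 := h2 (3, 4, 5) (by simp)
    have b3 : 5 < β 0 ∧ β 0 ≤ 7 := h2 (0, 5, 7) (by simp)
    have key := use_schur (M := 5) (m := 5) (x0 := 2) (y0 := 3) (by norm_num) (by norm_num)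
      (by norm_num) (by norm_num) (by norm_num) h0 hc (by decide)
      (show 3 < β 2 ∧ β 2 ≤ 5 by omega)
      (show 5 + 2 < β 3 + 3 ∧ β 3 ≤ 5 by omega)
      (show 5 < β 0 ∧ β 0 + 3 ≤ 2 * 5 by omega)
    exact (schur_false (by norm_num) hN key).elim

end P46788a
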