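import Pool.Agent.Lib.MP_46788a_nt.Sol

/-!
# Searches and conclusions, modulus 5
-/

set_option maxRecDepth 100000
set_option linter.unusedVariables false

open Finset

namespace P46788a

theorem c5_1 {β : ℕ → ℕ} {P : ℕ → Prop} {N₀ : ℕ} (hβ : ∀ r < 5, 1 ≤ β r)
    (h0 : ∀ x, P x → 0 < x) (hN : ∀ x, N₀ ≤ x → P x)
    (hc : ∀ n, cnt (gr 5 β) P n = cnt (fun _ => 1) (SP 5 1) n) : Sol 5 1 β P := by
  exact (gcd_false 5 (by norm_num) (by norm_num) (by norm_num) hN hc (by decide)).elim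

theorem s5_2 :
    (chkA 5 2 [1, 0, 0, 0, 0, 1, 1, 0, 0, 0, 1, 1, 0, 0, 0, 1, 2, 1, 0, 0, 1, 2, 1, 0, 0, 1, 3, 2, 0, 0, 1, 3,
      3, 1, 0, 1, 4, 4, 1] 1 &&
      dfs 5 [[(1, 0, 5)], [(1, 6, 10), (2, 10, 14)], [(1, 11, 15), (2, 15, 19)]]
      [1, 0, 0, 0, 0, 1, 1, 0, 0, 0, 1, 1, 0, 0, 0, 1, 2, 1, 0, 0, 1, 2, 1, 0, 0, 1, 3, 2, 0, 0, 1, 3,
      3, 1, 0, 1, 4, 4, 1] 1 0
      [0, 0, 0, 0, 0]) = true := by
  decide +kernel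

theorem c5_2 {β : ℕ → ℕ} {P : ℕ → Prop} {N₀ : ℕ} (hβ : ∀ r < 5, 1 ≤ β r)
    (h0 : ∀ x, P x → 0 < x) (hN : ∀ x, N₀ ≤ x → P x)
    (hc : ∀ n, cnt (gr 5 β) P n = cnt (fun _ => 1) (SP 5 2) n) : Sol 5 2 β P := by
  obtain ⟨bx, h1, h2⟩ := search_sound (by norm_num) rfl s5_2 hβ h0 hc
  simp only [List.mem_cons, List.not_mem_nil, or_false] at h1
  rcases h1 with rfl | rfl | rfl
  · exact (use_triv_false (by norm_num) h0 hN hc h2 0 (by decide +kernel)).elim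
  · have b1 : 6 < β 1 ∧ β 1 ≤ 10 := h2 (1, 6, 10) (by simp)
    have b3 : 10 < β 2 ∧ β 2 ≤ 14 := h2 (2, 10, 14) (by simp)
    have key := use_schur (M := 5) (m := 10) (x0 := 1) (y0 := 6) (by norm_num) (by norm_num)
      (by norm_num) (by norm_num) (by norm_num) h0 hc (by decide)
      (show 6 < β 1 ∧ β 1 ≤ 10 by omega)
      (show 10 + 1 < β 1 + 6 ∧ β 1 ≤ 10 by omega)
      (show 10 < β 2 ∧ β 2 + 6 ≤ 2 * 10 by omega)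
    exact (schur_false (by norm_num) hN key).elim
  · have b0 : 11 < β 1 ∧ β 1 ≤ 15 := h2 (1, 11, 15) (by simp)
    have b1 : 15 < β 2 ∧ β 2 ≤ 19 := h2 (2, 15, 19) (by simp)
    have key := use_sylv (M := 5) (m := 5) (a := 1) (by norm_num) (by norm_num)
      (by norm_num) (by norm_num) h0 hc (by decide)
      (by intro r hr h; interval_cases r <;> omega)
      (by intro r hr h; interval_cases r <;> omega)
    exact (sylv_false (by norm_num) (by norm_num) (by norm_num) hN key).elim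

theorem s5_3 :
    (chkA 5 3 [1, 0, 0, 0, 1, 2, 1, 0, 0, 1, 3, 2] 1 &&
      dfs 5 [[(1, 0, 4), (0, 0, 1)]]
      [1, 0, 0, 0, 1, 2, 1, 0, 0, 1, 3, 2] 1 0
      [0, 0, 0, 0, 0]) = true := by
  decide +kernel

theorem c5_3 {β : ℕ → ℕ} {P : ℕ → Prop} {N₀ : ℕ} (hβ : ∀ r < 5, 1 ≤ β r)
    (h0 : ∀ x, P x → 0 < x) (hN : ∀ x, N₀ ≤ x → P x)
    (hc : ∀ n, cnt (gr 5 β) P n = cnt (fun _ => 1) (SP 5 3) n) : Sol 5 3 β P := by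
  obtain ⟨bx, h1, h2⟩ := search_sound (by norm_num) rfl s5_3 hβ h0 hc
  simp only [List.mem_cons, List.not_mem_nil, or_false] at h1
  subst h1
  exact (use_triv_false (by norm_num) h0 hN hc h2 2 (by decide +kernel)).elim

theorem s5_4 :
    (chkA 5 4 [0, 1, 0, 0, 0, 0, 1, 0, 1, 0, 0, 1, 0, 1, 0, 0, 1, 0, 2, 0, 1, 1, 0, 2, 0, 1, 1, 0, 3, 0, 2, 1,
      0, 3, 0, 3, 1, 1, 4, 0, 4, 1, 1] 1 &&
      dfs 5 [[(2, 0, 5)], [(2, 7, 10), (4, 10, 13)], [(2, 12, 15), (4, 15, 18)]]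
      [0, 1, 0, 0, 0, 0, 1, 0, 1, 0, 0, 1, 0, 1, 0, 0, 1, 0, 2, 0, 1, 1, 0, 2, 0, 1, 1, 0, 3, 0, 2, 1,
      0, 3, 0, 3, 1, 1, 4, 0, 4, 1, 1] 1 0
      [0, 0, 0, 0, 0]) = true := by
  decide +kernel

theorem c5_4 {β : ℕ → ℕ} {P : ℕ → Prop} {N₀ : ℕ} (hβ : ∀ r < 5, 1 ≤ β r)
    (h0 : ∀ x, P x → 0 < x) (hN : ∀ x, N₀ ≤ x → P x)
    (hc : ∀ n, cnt (gr 5 β) P n = cnt (fun _ => 1) (SP 5 4) n) : Sol 5 4 β P := by
  obtain ⟨bx, h1, h2⟩ := search_sound (by norm_num) rfl s5_4 hβ h0 hc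
  simp only [List.mem_cons, List.not_mem_nil, or_false] at h1
  rcases h1 with rfl | rfl | rfl
  · exact (use_triv_false (by norm_num) h0 hN hc h2 0 (by decide +kernel)).elim
  · have b1 : 7 < β 2 ∧ β 2 ≤ 10 := h2 (2, 7, 10) (by simp)
    have b3 : 10 < β 4 ∧ β 4 ≤ 13 := h2 (4, 10, 13) (by simp)
    have key := use_schur (M := 5) (m := 10) (x0 := 2) (y0 := 7) (by norm_num) (by norm_num)
      (by norm_num) (by norm_num) (by norm_num) h0 hc (by decide)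
      (show 7 < β 2 ∧ β 2 ≤ 10 by omega)
      (show 10 + 2 < β 2 + 7 ∧ β 2 ≤ 10 by omega)
      (show 10 < β 4 ∧ β 4 + 7 ≤ 2 * 10 by omega)
    exact (schur_false (by norm_num) hN key).elim
  · have b0 : 12 < β 2 ∧ β 2 ≤ 15 := h2 (2, 12, 15) (by simp)
    have b1 : 15 < β 4 ∧ β 4 ≤ 18 := h2 (4, 15, 18) (by simp)
    have key := use_sylv (M := 5) (m := 5) (a := 2) (by norm_num) (by norm_num)
      (by norm_num) (by norm_num) h0 hc (by decide)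
      (by intro r hr h; interval_cases r <;> omega)
      (by intro r hr h; interval_cases r <;> omega)
    exact (sylv_false (by norm_num) (by norm_num) (by norm_num) hN key).elim

theorem s5_5 :
    (chkA 5 5 [0, 1, 0, 0, 1, 0, 2, 0, 1, 1, 0, 3, 0] 1 &&
      dfs 5 [[(2, 0, 3), (0, 0, 2)]]
      [0, 1, 0, 0, 1, 0, 2, 0, 1, 1, 0, 3, 0] 1 0
      [0, 0, 0, 0, 0]) = true := by
  decide +kernel

theorem c5_5 {β : ℕ → ℕ} {P : ℕ → Prop} {N₀ : ℕ} (hβ : ∀ r < 5, 1 ≤ β r)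
    (h0 : ∀ x, P x → 0 < x) (hN : ∀ x, N₀ ≤ x → P x)
    (hc : ∀ n, cnt (gr 5 β) P n = cnt (fun _ => 1) (SP 5 5) n) : Sol 5 5 β P := by
  obtain ⟨bx, h1, h2⟩ := search_sound (by norm_num) rfl s5_5 hβ h0 hc
  simp only [List.mem_cons, List.not_mem_nil, or_false] at h1
  subst h1
  exact (use_triv_false (by norm_num) h0 hN hc h2 1 (by decide +kernel)).elim

theorem s5_7 :
    (chkA 5 7 [1, 1, 1, 0, 1, 2, 3, 3, 2, 2, 3, 5, 6, 5, 5, 6, 9, 12, 11, 10, 11, 15, 20, 21, 20, 20, 25, 33] 1 &&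
      dfs 5 [[(1, 0, 1), (2, 0, 3), (0, 0, 1)]]
      [1, 1, 1, 0, 1, 2, 3, 3, 2, 2, 3, 5, 6, 5, 5, 6, 9, 12, 11, 10, 11, 15, 20, 21, 20, 20, 25, 33] 1 0
      [0, 0, 0, 0, 0]) = true := by
  decide +kernel

theorem c5_7 {β : ℕ → ℕ} {P : ℕ → Prop} {N₀ : ℕ} (hβ : ∀ r < 5, 1 ≤ β r)
    (h0 : ∀ x, P x → 0 < x) (hN : ∀ x, N₀ ≤ x → P x)
    (hc : ∀ n, cnt (gr 5 β) P n = cnt (fun _ => 1) (SP 5 7) n) : Sol 5 7 β P := by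
  obtain ⟨bx, h1, h2⟩ := search_sound (by norm_num) rfl s5_7 hβ h0 hc
  simp only [List.mem_cons, List.not_mem_nil, or_false] at h1
  subst h1
  exact (use_triv_false (by norm_num) h0 hN hc h2 3 (by decide +kernel)).elim

theorem s5_8 :
    (chkA 5 8 [0, 0, 1, 0, 0, 0, 0, 1, 0, 0, 1, 0, 1, 0, 0, 1, 0, 1, 0, 0, 2, 0, 1, 1, 0, 2, 0, 1, 1, 0, 3, 0,
      1, 2, 0, 3, 0, 1, 3, 0, 4, 1, 1, 4, 0, 4, 1] 1 &&
      dfs 5 [[(3, 0, 5)], [(3, 8, 10), (1, 10, 12)], [(3, 13, 15), (1, 15, 17)]]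
      [0, 0, 1, 0, 0, 0, 0, 1, 0, 0, 1, 0, 1, 0, 0, 1, 0, 1, 0, 0, 2, 0, 1, 1, 0, 2, 0, 1, 1, 0, 3, 0,
      1, 2, 0, 3, 0, 1, 3, 0, 4, 1, 1, 4, 0, 4, 1] 1 0
      [0, 0, 0, 0, 0]) = true := by
  decide +kernel

theorem c5_8 {β : ℕ → ℕ} {P : ℕ → Prop} {N₀ : ℕ} (hβ : ∀ r < 5, 1 ≤ β r)
    (h0 : ∀ x, P x → 0 < x) (hN : ∀ x, N₀ ≤ x → P x)
    (hc : ∀ n, cnt (gr 5 β) P n = cnt (fun _ => 1) (SP 5 8) n) : Sol 5 8 β P := by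
  obtain ⟨bx, h1, h2⟩ := search_sound (by norm_num) rfl s5_8 hβ h0 hc
  simp only [List.mem_cons, List.not_mem_nil, or_false] at h1
  rcases h1 with rfl | rfl | rfl
  · exact (use_triv_false (by norm_num) h0 hN hc h2 0 (by decide +kernel)).elim
  · have b1 : 8 < β 3 ∧ β 3 ≤ 10 := h2 (3, 8, 10) (by simp)
    have b3 : 10 < β 1 ∧ β 1 ≤ 12 := h2 (1, 10, 12) (by simp)
    have key := use_schur (M := 5) (m := 10) (x0 := 3) (y0 := 8) (by norm_num) (by norm_num)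
      (by norm_num) (by norm_num) (by norm_num) h0 hc (by decide)
      (show 8 < β 3 ∧ β 3 ≤ 10 by omega)
      (show 10 + 3 < β 3 + 8 ∧ β 3 ≤ 10 by omega)
      (show 10 < β 1 ∧ β 1 + 8 ≤ 2 * 10 by omega)
    exact (schur_false (by norm_num) hN key).elim
  · have b0 : 13 < β 3 ∧ β 3 ≤ 15 := h2 (3, 13, 15) (by simp)
    have b1 : 15 < β 1 ∧ β 1 ≤ 17 := h2 (1, 15, 17) (by simp)
    have key := use_sylv (M := 5) (m := 5) (a := 3) (by norm_num) (by norm_num)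
      (by norm_num) (by norm_num) h0 hc (by decide)
      (by intro r hr h; interval_cases r <;> omega)
      (by intro r hr h; interval_cases r <;> omega)
    exact (sylv_false (by norm_num) (by norm_num) (by norm_num) hN key).elim

theorem s5_9 :
    (chkA 5 9 [0, 0, 1, 0, 1, 0, 0, 2, 0, 1, 1, 0, 3, 0] 1 &&
      dfs 5 [[(3, 0, 2), (0, 0, 3)]]
      [0, 0, 1, 0, 1, 0, 0, 2, 0, 1, 1, 0, 3, 0] 1 0
      [0, 0, 0, 0, 0]) = true := by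
  decide +kernel

theorem c5_9 {β : ℕ → ℕ} {P : ℕ → Prop} {N₀ : ℕ} (hβ : ∀ r < 5, 1 ≤ β r)
    (h0 : ∀ x, P x → 0 < x) (hN : ∀ x, N₀ ≤ x → P x)
    (hc : ∀ n, cnt (gr 5 β) P n = cnt (fun _ => 1) (SP 5 9) n) : Sol 5 9 β P := by
  obtain ⟨bx, h1, h2⟩ := search_sound (by norm_num) rfl s5_9 hβ h0 hc
  simp only [List.mem_cons, List.not_mem_nil, or_false] at h1
  subst h1
  exact (use_triv_false (by norm_num) h0 hN hc h2 1 (by decide +kernel)).elim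

theorem s5_10 :
    (chkA 5 10 [1, 0, 1, 1, 0, 1, 1, 1, 2, 1, 2, 2, 1, 3, 2, 2, 4, 3, 4, 4, 4, 6, 4, 6, 7, 5, 9, 8, 8, 11, 9,
      12, 12, 12, 16, 13, 17] 1 &&
      dfs 5 [[(1, 0, 2), (3, 0, 3)], [(1, 3, 5), (3, 3, 5), (4, 5, 7)]]
      [1, 0, 1, 1, 0, 1, 1, 1, 2, 1, 2, 2, 1, 3, 2, 2, 4, 3, 4, 4, 4, 6, 4, 6, 7, 5, 9, 8, 8, 11, 9,
      12, 12, 12, 16, 13, 17] 1 0
      [0, 0, 0, 0, 0]) = true := by
  decide +kernel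

theorem c5_10 {β : ℕ → ℕ} {P : ℕ → Prop} {N₀ : ℕ} (hβ : ∀ r < 5, 1 ≤ β r)
    (h0 : ∀ x, P x → 0 < x) (hN : ∀ x, N₀ ≤ x → P x)
    (hc : ∀ n, cnt (gr 5 β) P n = cnt (fun _ => 1) (SP 5 10) n) : Sol 5 10 β P := by
  obtain ⟨bx, h1, h2⟩ := search_sound (by norm_num) rfl s5_10 hβ h0 hc
  simp only [List.mem_cons, List.not_mem_nil, or_false] at h1
  rcases h1 with rfl | rfl
  · exact (use_triv_false (by norm_num) h0 hN hc h2 0 (by decide +kernel)).elim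
  · have b1 : 3 < β 1 ∧ β 1 ≤ 5 := h2 (1, 3, 5) (by simp)
    have b2 : 3 < β 3 ∧ β 3 ≤ 5 := h2 (3, 3, 5) (by simp)
    have b3 : 5 < β 4 ∧ β 4 ≤ 7 := h2 (4, 5, 7) (by simp)
    have key := use_schur (M := 5) (m := 5) (x0 := 1) (y0 := 3) (by norm_num) (by norm_num)
      (by norm_num) (by norm_num) (by norm_num) h0 hc (by decide)
      (show 3 < β 1 ∧ β 1 ≤ 5 by omega)
      (show 5 + 1 < β 3 + 3 ∧ β 3 ≤ 5 by omega)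
      (show 5 < β 4 ∧ β 4 + 3 ≤ 2 * 5 by omega)
    exact (schur_false (by norm_num) hN key).elim

theorem s5_11 :
    (chkA 5 11 [1, 0, 1, 1, 1, 2, 1, 2, 3, 2, 4, 3, 3, 6, 5, 7, 7, 7, 11, 9, 12, 14, 12, 19, 18] 1 &&
      dfs 5 [[(1, 0, 2), (3, 0, 2), (0, 0, 1)]]
      [1, 0, 1, 1, 1, 2, 1, 2, 3, 2, 4, 3, 3, 6, 5, 7, 7, 7, 11, 9, 12, 14, 12, 19, 18] 1 0
      [0, 0, 0, 0, 0]) = true := by
  decide +kernel

theorem c5_11 {β : ℕ → ℕ} {P : ℕ → Prop} {N₀ : ℕ} (hβ : ∀ r < 5, 1 ≤ β r)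
    (h0 : ∀ x, P x → 0 < x) (hN : ∀ x, N₀ ≤ x → P x)
    (hc : ∀ n, cnt (gr 5 β) P n = cnt (fun _ => 1) (SP 5 11) n) : Sol 5 11 β P := by
  obtain ⟨bx, h1, h2⟩ := search_sound (by norm_num) rfl s5_11 hβ h0 hc
  simp only [List.mem_cons, List.not_mem_nil, or_false] at h1
  subst h1
  exact (use_triv_false (by norm_num) h0 hN hc h2 2 (by decide +kernel)).elim

theorem s5_13 :
    (chkA 5 13 [0, 1, 1, 0, 2, 0, 2, 2, 1, 4, 1, 4, 4] 1 &&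
      dfs 5 [[(2, 0, 1), (3, 0, 2), (0, 0, 2)]]
      [0, 1, 1, 0, 2, 0, 2, 2, 1, 4, 1, 4, 4] 1 0
      [0, 0, 0, 0, 0]) = true := by
  decide +kernel

theorem c5_13 {β : ℕ → ℕ} {P : ℕ → Prop} {N₀ : ℕ} (hβ : ∀ r < 5, 1 ≤ β r)
    (h0 : ∀ x, P x → 0 < x) (hN : ∀ x, N₀ ≤ x → P x)
    (hc : ∀ n, cnt (gr 5 β) P n = cnt (fun _ => 1) (SP 5 13) n) : Sol 5 13 β P := by
  obtain ⟨bx, h1, h2⟩ := search_sound (by norm_num) rfl s5_13 hβ h0 hc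
  simp only [List.mem_cons, List.not_mem_nil, or_false] at h1
  subst h1
  exact (use_triv_false (by norm_num) h0 hN hc h2 1 (by decide +kernel)).elim

theorem s5_14 :
    (chkA 5 14 [1, 1, 2, 1, 1, 2, 2, 3, 4, 4, 5, 5, 6, 7, 7, 9, 10, 12, 14, 15, 18, 19, 21, 25, 26, 30, 34] 1 &&
      dfs 5 [[(1, 0, 1), (2, 0, 1), (3, 0, 3)]]
      [1, 1, 2, 1, 1, 2, 2, 3, 4, 4, 5, 5, 6, 7, 7, 9, 10, 12, 14, 15, 18, 19, 21, 25, 26, 30, 34] 1 0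
      [0, 0, 0, 0, 0]) = true := by
  decide +kernel

theorem c5_14 {β : ℕ → ℕ} {P : ℕ → Prop} {N₀ : ℕ} (hβ : ∀ r < 5, 1 ≤ β r)
    (h0 : ∀ x, P x → 0 < x) (hN : ∀ x, N₀ ≤ x → P x)
    (hc : ∀ n, cnt (gr 5 β) P n = cnt (fun _ => 1) (SP 5 14) n) : Sol 5 14 β P := by
  obtain ⟨bx, h1, h2⟩ := search_sound (by norm_num) rfl s5_14 hβ h0 hc
  simp only [List.mem_cons, List.not_mem_nil, or_false] at h1
  subst h1
  exact (use_triv_false (by norm_num) h0 hN hc h2 0 (by decide +kernel)).elim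

theorem s5_15 :
    (chkA 5 15 [1, 1, 2, 1, 2, 3, 3, 5, 5, 6, 8, 8] 1 &&
      dfs 5 [[(1, 0, 1), (2, 0, 1), (3, 0, 2), (0, 0, 1)]]
      [1, 1, 2, 1, 2, 3, 3, 5, 5, 6, 8, 8] 1 0
      [0, 0, 0, 0, 0]) = true := by
  decide +kernel

theorem c5_15 {β : ℕ → ℕ} {P : ℕ → Prop} {N₀ : ℕ} (hβ : ∀ r < 5, 1 ≤ β r)
    (h0 : ∀ x, P x → 0 < x) (hN : ∀ x, N₀ ≤ x → P x)
    (hc : ∀ n, cnt (gr 5 β) P n = cnt (fun _ => 1) (SP 5 15) n) : Sol 5 15 β P := by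
  obtain ⟨bx, h1, h2⟩ := search_sound (by norm_num) rfl s5_15 hβ h0 hc
  simp only [List.mem_cons, List.not_mem_nil, or_false] at h1
  subst h1
  exact (use_triv_false (by norm_num) h0 hN hc h2 4 (by decide +kernel)).elim

theorem s5_16 :
    (chkA 5 16 [0, 0, 0, 1, 0, 0, 0, 0, 1, 0, 0, 0, 1, 1, 0, 0, 0, 1, 1, 0, 0, 0, 2, 1, 0, 0, 1, 2, 1, 0, 0, 1,
      3, 1, 0, 0, 2, 3, 1, 0, 0, 3, 4, 1, 0, 1, 4, 4, 1, 0, 1] 1 &&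
      dfs 5 [[(4, 0, 5)], [(4, 9, 10), (3, 10, 11)], [(4, 14, 15), (3, 15, 16)]]
      [0, 0, 0, 1, 0, 0, 0, 0, 1, 0, 0, 0, 1, 1, 0, 0, 0, 1, 1, 0, 0, 0, 2, 1, 0, 0, 1, 2, 1, 0, 0, 1,
      3, 1, 0, 0, 2, 3, 1, 0, 0, 3, 4, 1, 0, 1, 4, 4, 1, 0, 1] 1 0
      [0, 0, 0, 0, 0]) = true := by
  decide +kernel

theorem c5_16 {β : ℕ → ℕ} {P : ℕ → Prop} {N₀ : ℕ} (hβ : ∀ r < 5, 1 ≤ β r)
    (h0 : ∀ x, P x → 0 < x) (hN : ∀ x, N₀ ≤ x → P x)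
    (hc : ∀ n, cnt (gr 5 β) P n = cnt (fun _ => 1) (SP 5 16) n) : Sol 5 16 β P := by
  obtain ⟨bx, h1, h2⟩ := search_sound (by norm_num) rfl s5_16 hβ h0 hc
  simp only [List.mem_cons, List.not_mem_nil, or_false] at h1
  rcases h1 with rfl | rfl | rfl
  · exact (use_triv_false (by norm_num) h0 hN hc h2 0 (by decide +kernel)).elim
  · have b1 : 9 < β 4 ∧ β 4 ≤ 10 := h2 (4, 9, 10) (by simp)
    have b3 : 10 < β 3 ∧ β 3 ≤ 11 := h2 (3, 10, 11) (by simp)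
    have key := use_schur (M := 5) (m := 10) (x0 := 4) (y0 := 9) (by norm_num) (by norm_num)
      (by norm_num) (by norm_num) (by norm_num) h0 hc (by decide)
      (show 9 < β 4 ∧ β 4 ≤ 10 by omega)
      (show 10 + 4 < β 4 + 9 ∧ β 4 ≤ 10 by omega)
      (show 10 < β 3 ∧ β 3 + 9 ≤ 2 * 10 by omega)
    exact (schur_false (by norm_num) hN key).elim
  · have b0 : 14 < β 4 ∧ β 4 ≤ 15 := h2 (4, 14, 15) (by simp)
    have b1 : 15 < β 3 ∧ β 3 ≤ 16 := h2 (3, 15, 16) (by simp)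
    have key := use_sylv (M := 5) (m := 5) (a := 4) (by norm_num) (by norm_num)
      (by norm_num) (by norm_num) h0 hc (by decide)
      (by intro r hr h; interval_cases r <;> omega)
      (by intro r hr h; interval_cases r <;> omega)
    exact (sylv_false (by norm_num) (by norm_num) (by norm_num) hN key).elim

theorem s5_17 :
    (chkA 5 17 [0, 0, 0, 1, 1, 0, 0, 0, 2, 1, 0, 0, 1, 3, 2] 1 &&
      dfs 5 [[(4, 0, 1), (0, 0, 4)]]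
      [0, 0, 0, 1, 1, 0, 0, 0, 2, 1, 0, 0, 1, 3, 2] 1 0
      [0, 0, 0, 0, 0]) = true := by
  decide +kernel

theorem c5_17 {β : ℕ → ℕ} {P : ℕ → Prop} {N₀ : ℕ} (hβ : ∀ r < 5, 1 ≤ β r)
    (h0 : ∀ x, P x → 0 < x) (hN : ∀ x, N₀ ≤ x → P x)
    (hc : ∀ n, cnt (gr 5 β) P n = cnt (fun _ => 1) (SP 5 17) n) : Sol 5 17 β P := by
  obtain ⟨bx, h1, h2⟩ := search_sound (by norm_num) rfl s5_17 hβ h0 hc
  simp only [List.mem_cons, List.not_mem_nil, or_false] at h1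
  subst h1
  exact (use_triv_false (by norm_num) h0 hN hc h2 1 (by decide +kernel)).elim

theorem s5_19 :
    (chkA 5 19 [1, 0, 0, 1, 2, 2, 1, 0, 2, 4, 4, 2] 1 &&
      dfs 5 [[(1, 0, 3), (4, 0, 1), (0, 0, 1)]]
      [1, 0, 0, 1, 2, 2, 1, 0, 2, 4, 4, 2] 1 0
      [0, 0, 0, 0, 0]) = true := by
  decide +kernel

theorem c5_19 {β : ℕ → ℕ} {P : ℕ → Prop} {N₀ : ℕ} (hβ : ∀ r < 5, 1 ≤ β r)
    (h0 : ∀ x, P x → 0 < x) (hN : ∀ x, N₀ ≤ x → P x)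
    (hc : ∀ n, cnt (gr 5 β) P n = cnt (fun _ => 1) (SP 5 19) n) : Sol 5 19 β P := by
  obtain ⟨bx, h1, h2⟩ := search_sound (by norm_num) rfl s5_19 hβ h0 hc
  simp only [List.mem_cons, List.not_mem_nil, or_false] at h1
  subst h1
  exact (use_triv_false (by norm_num) h0 hN hc h2 2 (by decide +kernel)).elim

theorem s5_20 :
    (chkA 5 20 [0, 1, 0, 1, 0, 1, 1, 0, 2, 0, 2, 1, 2, 2, 1, 3, 1, 3, 3, 2, 5, 2, 6, 3, 5, 6, 4, 8, 5, 8, 8, 7,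
      12, 7, 13, 11, 11, 16, 11] 1 &&
      dfs 5 [[(2, 0, 2), (4, 0, 3)], [(2, 4, 5), (4, 3, 5), (1, 5, 6)]]
      [0, 1, 0, 1, 0, 1, 1, 0, 2, 0, 2, 1, 2, 2, 1, 3, 1, 3, 3, 2, 5, 2, 6, 3, 5, 6, 4, 8, 5, 8, 8, 7,
      12, 7, 13, 11, 11, 16, 11] 1 0
      [0, 0, 0, 0, 0]) = true := by
  decide +kernel

theorem c5_20 {β : ℕ → ℕ} {P : ℕ → Prop} {N₀ : ℕ} (hβ : ∀ r < 5, 1 ≤ β r)
    (h0 : ∀ x, P x → 0 < x) (hN : ∀ x, N₀ ≤ x → P x)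
    (hc : ∀ n, cnt (gr 5 β) P n = cnt (fun _ => 1) (SP 5 20) n) : Sol 5 20 β P := by
  obtain ⟨bx, h1, h2⟩ := search_sound (by norm_num) rfl s5_20 hβ h0 hc
  simp only [List.mem_cons, List.not_mem_nil, or_false] at h1
  rcases h1 with rfl | rfl
  · exact (use_triv_false (by norm_num) h0 hN hc h2 0 (by decide +kernel)).elim
  · have b1 : 4 < β 2 ∧ β 2 ≤ 5 := h2 (2, 4, 5) (by simp)
    have b2 : 3 < β 4 ∧ β 4 ≤ 5 := h2 (4, 3, 5) (by simp)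
    have b3 : 5 < β 1 ∧ β 1 ≤ 6 := h2 (1, 5, 6) (by simp)
    have key := use_schur (M := 5) (m := 5) (x0 := 2) (y0 := 4) (by norm_num) (by norm_num)
      (by norm_num) (by norm_num) (by norm_num) h0 hc (by decide)
      (show 4 < β 2 ∧ β 2 ≤ 5 by omega)
      (show 5 + 2 < β 4 + 4 ∧ β 4 ≤ 5 by omega)
      (show 5 < β 1 ∧ β 1 + 4 ≤ 2 * 5 by omega)
    exact (schur_false (by norm_num) hN key).elim

theorem s5_21 :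
    (chkA 5 21 [0, 1, 0, 1, 1, 1, 2, 0, 3, 1, 3, 3, 2] 1 &&
      dfs 5 [[(2, 0, 2), (4, 0, 1), (0, 0, 2)]]
      [0, 1, 0, 1, 1, 1, 2, 0, 3, 1, 3, 3, 2] 1 0
      [0, 0, 0, 0, 0]) = true := by
  decide +kernel

theorem c5_21 {β : ℕ → ℕ} {P : ℕ → Prop} {N₀ : ℕ} (hβ : ∀ r < 5, 1 ≤ β r)
    (h0 : ∀ x, P x → 0 < x) (hN : ∀ x, N₀ ≤ x → P x)
    (hc : ∀ n, cnt (gr 5 β) P n = cnt (fun _ => 1) (SP 5 21) n) : Sol 5 21 β P := by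
  obtain ⟨bx, h1, h2⟩ := search_sound (by norm_num) rfl s5_21 hβ h0 hc
  simp only [List.mem_cons, List.not_mem_nil, or_false] at h1
  subst h1
  exact (use_triv_false (by norm_num) h0 hN hc h2 1 (by decide +kernel)).elim

theorem s5_22 :
    (chkA 5 22 [1, 1, 1, 1, 1, 2, 3, 2, 3, 3, 4, 5, 6, 6, 6, 8, 9, 11, 12, 13, 15, 17, 20, 21, 23] 1 &&
      dfs 5 [[(1, 0, 1), (2, 0, 2), (4, 0, 2)]]
      [1, 1, 1, 1, 1, 2, 3, 2, 3, 3, 4, 5, 6, 6, 6, 8, 9, 11, 12, 13, 15, 17, 20, 21, 23] 1 0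
      [0, 0, 0, 0, 0]) = true := by
  decide +kernel

theorem c5_22 {β : ℕ → ℕ} {P : ℕ → Prop} {N₀ : ℕ} (hβ : ∀ r < 5, 1 ≤ β r)
    (h0 : ∀ x, P x → 0 < x) (hN : ∀ x, N₀ ≤ x → P x)
    (hc : ∀ n, cnt (gr 5 β) P n = cnt (fun _ => 1) (SP 5 22) n) : Sol 5 22 β P := by
  obtain ⟨bx, h1, h2⟩ := search_sound (by norm_num) rfl s5_22 hβ h0 hc
  simp only [List.mem_cons, List.not_mem_nil, or_false] at h1
  subst h1
  exact (use_triv_false (by norm_num) h0 hN hc h2 0 (by decide +kernel)).elim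

theorem s5_23 :
    (chkA 5 23 [1, 1, 1, 1, 2, 3, 4, 3, 4, 5, 7, 9, 9, 10, 12, 16, 19, 21, 23, 26, 33, 39, 43, 47] 1 &&
      dfs 5 [[(1, 0, 1), (2, 0, 2), (4, 0, 1), (0, 0, 1)]]
      [1, 1, 1, 1, 2, 3, 4, 3, 4, 5, 7, 9, 9, 10, 12, 16, 19, 21, 23, 26, 33, 39, 43, 47] 1 0
      [0, 0, 0, 0, 0]) = true := by
  decide +kernel

theorem c5_23 {β : ℕ → ℕ} {P : ℕ → Prop} {N₀ : ℕ} (hβ : ∀ r < 5, 1 ≤ β r)
    (h0 : ∀ x, P x → 0 < x) (hN : ∀ x, N₀ ≤ x → P x)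
    (hc : ∀ n, cnt (gr 5 β) P n = cnt (fun _ => 1) (SP 5 23) n) : Sol 5 23 β P := by
  obtain ⟨bx, h1, h2⟩ := search_sound (by norm_num) rfl s5_23 hβ h0 hc
  simp only [List.mem_cons, List.not_mem_nil, or_false] at h1
  subst h1
  exact (use_triv_false (by norm_num) h0 hN hc h2 3 (by decide +kernel)).elim

theorem s5_24 :
    (chkA 5 24 [0, 0, 1, 1, 0, 0, 1, 1, 1, 0, 1, 2, 2, 1, 1, 2, 3, 2, 1, 2, 4, 4, 3, 3, 4, 6, 6, 4, 4, 7, 9] 1 &&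
      dfs 5 [[(3, 0, 1), (4, 0, 4)], [(3, 4, 5), (4, 4, 5), (2, 5, 6)]]
      [0, 0, 1, 1, 0, 0, 1, 1, 1, 0, 1, 2, 2, 1, 1, 2, 3, 2, 1, 2, 4, 4, 3, 3, 4, 6, 6, 4, 4, 7, 9] 1 0
      [0, 0, 0, 0, 0]) = true := by
  decide +kernel

theorem c5_24 {β : ℕ → ℕ} {P : ℕ → Prop} {N₀ : ℕ} (hβ : ∀ r < 5, 1 ≤ β r)
    (h0 : ∀ x, P x → 0 < x) (hN : ∀ x, N₀ ≤ x → P x)
    (hc : ∀ n, cnt (gr 5 β) P n = cnt (fun _ => 1) (SP 5 24) n) : Sol 5 24 β P := by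
  obtain ⟨bx, h1, h2⟩ := search_sound (by norm_num) rfl s5_24 hβ h0 hc
  simp only [List.mem_cons, List.not_mem_nil, or_false] at h1
  rcases h1 with rfl | rfl
  · exact (use_triv_false (by norm_num) h0 hN hc h2 0 (by decide +kernel)).elim
  · have b1 : 4 < β 3 ∧ β 3 ≤ 5 := h2 (3, 4, 5) (by simp)
    have b2 : 4 < β 4 ∧ β 4 ≤ 5 := h2 (4, 4, 5) (by simp)
    have b3 : 5 < β 2 ∧ β 2 ≤ 6 := h2 (2, 5, 6) (by simp)
    have key := use_schur (M := 5) (m := 5) (x0 := 3) (y0 := 4) (by norm_num) (by norm_num)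
      (by norm_num) (by norm_num) (by norm_num) h0 hc (by decide)
      (show 4 < β 3 ∧ β 3 ≤ 5 by omega)
      (show 5 + 3 < β 4 + 4 ∧ β 4 ≤ 5 by omega)
      (show 5 < β 2 ∧ β 2 + 4 ≤ 2 * 5 by omega)
    exact (schur_false (by norm_num) hN key).elim

theorem s5_25 :
    (chkA 5 25 [0, 0, 1, 1, 1, 0, 1, 2, 2, 1, 1, 3, 4, 3] 1 &&
      dfs 5 [[(3, 0, 1), (4, 0, 1), (0, 0, 3)]]
      [0, 0, 1, 1, 1, 0, 1, 2, 2, 1, 1, 3, 4, 3] 1 0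
      [0, 0, 0, 0, 0]) = true := by
  decide +kernel

theorem c5_25 {β : ℕ → ℕ} {P : ℕ → Prop} {N₀ : ℕ} (hβ : ∀ r < 5, 1 ≤ β r)
    (h0 : ∀ x, P x → 0 < x) (hN : ∀ x, N₀ ≤ x → P x)
    (hc : ∀ n, cnt (gr 5 β) P n = cnt (fun _ => 1) (SP 5 25) n) : Sol 5 25 β P := by
  obtain ⟨bx, h1, h2⟩ := search_sound (by norm_num) rfl s5_25 hβ h0 hc
  simp only [List.mem_cons, List.not_mem_nil, or_false] at h1
  subst h1
  exact (use_triv_false (by norm_num) h0 hN hc h2 1 (by decide +kernel)).elim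

theorem s5_26 :
    (chkA 5 26 [1, 0, 1, 2, 1, 1, 2, 2, 3, 3, 3, 4, 5, 6, 6, 6, 8, 10, 10, 11, 13, 15, 17, 19] 1 &&
      dfs 5 [[(1, 0, 2), (3, 0, 1), (4, 0, 2)]]
      [1, 0, 1, 2, 1, 1, 2, 2, 3, 3, 3, 4, 5, 6, 6, 6, 8, 10, 10, 11, 13, 15, 17, 19] 1 0
      [0, 0, 0, 0, 0]) = true := by
  decide +kernel

theorem c5_26 {β : ℕ → ℕ} {P : ℕ → Prop} {N₀ : ℕ} (hβ : ∀ r < 5, 1 ≤ β r)
    (h0 : ∀ x, P x → 0 < x) (hN : ∀ x, N₀ ≤ x → P x)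
    (hc : ∀ n, cnt (gr 5 β) P n = cnt (fun _ => 1) (SP 5 26) n) : Sol 5 26 β P := by
  obtain ⟨bx, h1, h2⟩ := search_sound (by norm_num) rfl s5_26 hβ h0 hc
  simp only [List.mem_cons, List.not_mem_nil, or_false] at h1
  subst h1
  exact (use_triv_false (by norm_num) h0 hN hc h2 0 (by decide +kernel)).elim

theorem s5_27 :
    (chkA 5 27 [1, 0, 1, 2, 2, 2, 2, 3, 5, 5, 5, 6, 8] 1 &&
      dfs 5 [[(1, 0, 2), (3, 0, 1), (4, 0, 1), (0, 0, 1)]]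
      [1, 0, 1, 2, 2, 2, 2, 3, 5, 5, 5, 6, 8] 1 0
      [0, 0, 0, 0, 0]) = true := by
  decide +kernel

theorem c5_27 {β : ℕ → ℕ} {P : ℕ → Prop} {N₀ : ℕ} (hβ : ∀ r < 5, 1 ≤ β r)
    (h0 : ∀ x, P x → 0 < x) (hN : ∀ x, N₀ ≤ x → P x)
    (hc : ∀ n, cnt (gr 5 β) P n = cnt (fun _ => 1) (SP 5 27) n) : Sol 5 27 β P := by
  obtain ⟨bx, h1, h2⟩ := search_sound (by norm_num) rfl s5_27 hβ h0 hc
  simp only [List.mem_cons, List.not_mem_nil, or_false] at h1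
  subst h1
  exact (use_triv_false (by norm_num) h0 hN hc h2 2 (by decide +kernel)).elim

theorem s5_28 :
    (chkA 5 28 [0, 1, 1, 1, 1, 1, 2, 1, 3, 2, 3, 4, 4, 5, 5, 6, 7, 7, 9, 9, 12, 13, 14, 17, 17, 21, 22] 1 &&
      dfs 5 [[(2, 0, 1), (3, 0, 1), (4, 0, 3)]]
      [0, 1, 1, 1, 1, 1, 2, 1, 3, 2, 3, 4, 4, 5, 5, 6, 7, 7, 9, 9, 12, 13, 14, 17, 17, 21, 22] 1 0
      [0, 0, 0, 0, 0]) = true := by
  decide +kernel

theorem c5_28 {β : ℕ → ℕ} {P : ℕ → Prop} {N₀ : ℕ} (hβ : ∀ r < 5, 1 ≤ β r)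
    (h0 : ∀ x, P x → 0 < x) (hN : ∀ x, N₀ ≤ x → P x)
    (hc : ∀ n, cnt (gr 5 β) P n = cnt (fun _ => 1) (SP 5 28) n) : Sol 5 28 β P := by
  obtain ⟨bx, h1, h2⟩ := search_sound (by norm_num) rfl s5_28 hβ h0 hc
  simp only [List.mem_cons, List.not_mem_nil, or_false] at h1
  subst h1
  exact (use_triv_false (by norm_num) h0 hN hc h2 0 (by decide +kernel)).elim

theorem s5_29 :
    (chkA 5 29 [0, 1, 1, 1, 2, 1, 3, 2, 4, 4, 4, 7, 6] 1 &&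
      dfs 5 [[(2, 0, 1), (3, 0, 1), (4, 0, 1), (0, 0, 2)]]
      [0, 1, 1, 1, 2, 1, 3, 2, 4, 4, 4, 7, 6] 1 0
      [0, 0, 0, 0, 0]) = true := by
  decide +kernel

theorem c5_29 {β : ℕ → ℕ} {P : ℕ → Prop} {N₀ : ℕ} (hβ : ∀ r < 5, 1 ≤ β r)
    (h0 : ∀ x, P x → 0 < x) (hN : ∀ x, N₀ ≤ x → P x)
    (hc : ∀ n, cnt (gr 5 β) P n = cnt (fun _ => 1) (SP 5 29) n) : Sol 5 29 β P := by
  obtain ⟨bx, h1, h2⟩ := search_sound (by norm_num) rfl s5_29 hβ h0 hc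
  simp only [List.mem_cons, List.not_mem_nil, or_false] at h1
  subst h1
  exact (use_triv_false (by norm_num) h0 hN hc h2 1 (by decide +kernel)).elim

theorem s5_30 :
    (chkA 5 30 [1, 1, 2, 2, 2, 3, 4, 4, 6, 7, 8, 10, 12, 14, 16, 19, 22, 26, 30, 35, 41, 47, 54, 62, 70, 80,
      92] 1 &&
      dfs 5 [[(1, 0, 1), (2, 0, 1), (3, 0, 1), (4, 0, 2)]]
      [1, 1, 2, 2, 2, 3, 4, 4, 6, 7, 8, 10, 12, 14, 16, 19, 22, 26, 30, 35, 41, 47, 54, 62, 70, 80,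
      92] 1 0
      [0, 0, 0, 0, 0]) = true := by
  decide +kernel

theorem c5_30 {β : ℕ → ℕ} {P : ℕ → Prop} {N₀ : ℕ} (hβ : ∀ r < 5, 1 ≤ β r)
    (h0 : ∀ x, P x → 0 < x) (hN : ∀ x, N₀ ≤ x → P x)
    (hc : ∀ n, cnt (gr 5 β) P n = cnt (fun _ => 1) (SP 5 30) n) : Sol 5 30 β P := by
  obtain ⟨bx, h1, h2⟩ := search_sound (by norm_num) rfl s5_30 hβ h0 hc
  simp only [List.mem_cons, List.not_mem_nil, or_false] at h1
  subst h1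
  exact (use_triv_false (by norm_num) h0 hN hc h2 0 (by decide +kernel)).elim

theorem s5_31 :
    (chkA 5 31 [1, 1, 2, 2, 3, 4, 5, 6, 8, 10, 12, 15] 1 &&
      dfs 5 [[(1, 0, 1), (2, 0, 1), (3, 0, 1), (4, 0, 1), (0, 0, 1)]]
      [1, 1, 2, 2, 3, 4, 5, 6, 8, 10, 12, 15] 1 0
      [0, 0, 0, 0, 0]) = true := by
  decide +kernel

theorem c5_31 {β : ℕ → ℕ} {P : ℕ → Prop} {N₀ : ℕ} (hβ : ∀ r < 5, 1 ≤ β r)
    (h0 : ∀ x, P x → 0 < x) (hN : ∀ x, N₀ ≤ x → P x)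
    (hc : ∀ n, cnt (gr 5 β) P n = cnt (fun _ => 1) (SP 5 31) n) : Sol 5 31 β P := by
  obtain ⟨bx, h1, h2⟩ := search_sound (by norm_num) rfl s5_31 hβ h0 hc
  simp only [List.mem_cons, List.not_mem_nil, or_false] at h1
  subst h1
  exact sol_full (by norm_num) hβ h0 hc h2 (by decide +kernel) (by decide)

end P46788a
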