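import Pool.Agent.Lib.MP_46788a_nt.Tab1
import Pool.Agent.Lib.MP_46788a_nt.Tab2
import Pool.Agent.Lib.MP_46788a_nt.Tab3
import Pool.Agent.Lib.MP_46788a_nt.Tab4
import Pool.Agent.Lib.MP_46788a_nt.Tab5a
import Pool.Agent.Lib.MP_46788a_nt.Tab5b
import Pool.Agent.Lib.MP_46788a_nt.Tab5c
import Pool.Agent.Lib.MP_46788a_nt.Bridge

/-!
# Classification for `M ≤ 5`
-/

set_option linter.unusedVariables false

open Finset

namespace P46788a

theorem classify {M sm : ℕ} (hM1 : 1 ≤ M) (hM5 : M ≤ 5) (h1 : 1 ≤ sm) (h2 : sm < 2 ^ M)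
    {β : ℕ → ℕ} {P : ℕ → Prop} {N₀ : ℕ} (hβ : ∀ r < M, 1 ≤ β r)
    (h0 : ∀ x, P x → 0 < x) (hN : ∀ x, N₀ ≤ x → P x)
    (hc : ∀ n, cnt (gr M β) P n = cnt (fun _ => 1) (SP M sm) n) : Sol M sm β P := by
  interval_cases M
  · interval_cases sm
    exact c1_1 hβ h0 hN hc
  · interval_cases sm
    · exact c2_1 hβ h0 hN hc
    · exact c2_2 hβ h0 hN hc
    · exact c2_3 hβ h0 hN hc
  · interval_cases sm
    · exact c3_1 hβ h0 hN hc
    · exact c3_2 hβ h0 hN hc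
    · exact c3_3 hβ h0 hN hc
    · exact c3_4 hβ h0 hN hc
    · exact c3_5 hβ h0 hN hc
    · exact c3_6 hβ h0 hN hc
    · exact c3_7 hβ h0 hN hc
  · interval_cases sm
    · exact c4_1 hβ h0 hN hc
    · exact c4_2 hβ h0 hN hc
    · exact c4_3 hβ h0 hN hc
    · exact c4_4 hβ h0 hN hc
    · exact c4_5 hβ h0 hN hc
    · exact c4_6 hβ h0 hN hc
    · exact c4_7 hβ h0 hN hc
    · exact c4_8 hβ h0 hN hc
    · exact c4_9 hβ h0 hN hc
    · exact c4_10 hβ h0 hN hc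
    · exact c4_11 hβ h0 hN hc
    · exact c4_12 hβ h0 hN hc
    · exact c4_13 hβ h0 hN hc
    · exact c4_14 hβ h0 hN hc
    · exact c4_15 hβ h0 hN hc
  · interval_cases sm
    · exact c5_1 hβ h0 hN hc
    · exact c5_2 hβ h0 hN hc
    · exact c5_3 hβ h0 hN hc
    · exact c5_4 hβ h0 hN hc
    · exact c5_5 hβ h0 hN hc
    · exact c5_6 hβ h0 hN hc
    · exact c5_7 hβ h0 hN hc
    · exact c5_8 hβ h0 hN hc
    · exact c5_9 hβ h0 hN hc
    · exact c5_10 hβ h0 hN hc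
    · exact c5_11 hβ h0 hN hc
    · exact c5_12 hβ h0 hN hc
    · exact c5_13 hβ h0 hN hc
    · exact c5_14 hβ h0 hN hc
    · exact c5_15 hβ h0 hN hc
    · exact c5_16 hβ h0 hN hc
    · exact c5_17 hβ h0 hN hc
    · exact c5_18 hβ h0 hN hc
    · exact c5_19 hβ h0 hN hc
    · exact c5_20 hβ h0 hN hc
    · exact c5_21 hβ h0 hN hc
    · exact c5_22 hβ h0 hN hc
    · exact c5_23 hβ h0 hN hc
    · exact c5_24 hβ h0 hN hc
    · exact c5_25 hβ h0 hN hc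
    · exact c5_26 hβ h0 hN hc
    · exact c5_27 hβ h0 hN hc
    · exact c5_28 hβ h0 hN hc
    · exact c5_29 hβ h0 hN hc
    · exact c5_30 hβ h0 hN hc
    · exact c5_31 hβ h0 hN hc

end P46788a
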