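import Pool.Agent.Lib.MP_46788a_nt.Schur

/-!
# One residue class
-/

open Finset

namespace P46788a

/-! ## two general comparison lemmas -/

/-- an extra pair whose sum is not an allowed part of the reference system is impossible -/
lemma extra_false {g g' : ℕ → ℕ} {P P' : ℕ → Prop} {n : ℕ}
    (h0' : ∀ x, P' x → 0 < x) (hc : cnt g P n = cnt g' P' n) (hP : ∀ m < n, (P m ↔ P' m))
    (hn : ¬ P' n)
    (hp : ∀ x y, x < y → P' x → P' y → x + y ≤ n → x + g' x ≤ y → x + g x ≤ y)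
    {u v : ℕ} (huv : u < v) (hu : P' u) (hv : P' v) (hs : u + v = n) (h1 : u + g u ≤ v)
    (h2 : ¬ u + g' u ≤ v) : False := by
  have hsub : adm g' P' n ⊆ adm g P n := by
    intro T hT
    have hT' := mem_adm.1 hT
    have hne : T ≠ {n} := by
      rintro rfl
      exact hn (singleton_mem.1 hT)
    have hlt := fun x hx => lt_of_mem h0' hT hne (x := x) hx
    refine mem_adm.2 ⟨⟨fun x hx => (hP x (hlt x hx)).2 (hT'.1.1 x hx), fun x hx y hy hxy => ?_⟩,
      hT'.2⟩
    exact hp x y hxy (hT'.1.1 x hx) (hT'.1.1 y hy) (add_le_of_mem hT hx hy hxy.ne)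
      (hT'.1.2 x hx y hy hxy)
  have hu0 := h0' u hu
  have hv0 := h0' v hv
  have hmem : {u, v} ∈ adm g P n := by
    rw [mem_adm]
    refine ⟨⟨fun x hx => ?_, fun x hx y hy hxy => ?_⟩, by rw [Finset.sum_pair huv.ne]; exact hs⟩
    · rw [Finset.mem_insert, Finset.mem_singleton] at hx
      rcases hx with rfl | rfl
      · exact (hP x (by omega)).2 hu
      · exact (hP x (by omega)).2 hv
    · rw [Finset.mem_insert, Finset.mem_singleton] at hx hy
      rcases hx with rfl | rfl <;> rcases hy with rfl | rfl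
      · omega
      · exact h1
      · omega
      · omega
  have hnot : {u, v} ∉ adm g' P' n := by
    intro h
    exact h2 ((mem_adm.1 h).1.2 u (by simp) v (by simp) huv)
  have := Finset.card_lt_card (Finset.ssubset_iff_subset_ne.2 ⟨hsub, fun h => hnot (h ▸ hmem)⟩)
  unfold cnt at hc
  omega

/-- a missing pair forces a new part -/
lemma missing_new {g g' : ℕ → ℕ} {P P' : ℕ → Prop} {n : ℕ} (h0 : ∀ x, P x → 0 < x)
    (h0' : ∀ x, P' x → 0 < x) (hc : cnt g P n = cnt g' P' n) (hP : ∀ m < n, (P m ↔ P' m))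
    (hp : ∀ x y, x < y → P' x → P' y → x + y ≤ n → x + g x ≤ y → x + g' x ≤ y)
    {u v : ℕ} (huv : u < v) (hu : P' u) (hv : P' v) (hs : u + v = n) (h1 : u + g' u ≤ v)
    (h2 : ¬ u + g u ≤ v) : P n ∧ ¬ P' n := by
  by_contra hcon
  have himp : P n → P' n := fun h => by_contra fun h' => hcon ⟨h, h'⟩
  have hsub : adm g P n ⊆ adm g' P' n := by
    intro T hT
    have hT' := mem_adm.1 hT
    have hle : ∀ x ∈ T, P' x := by
      intro x hx
      rcases lt_or_eq_of_le (le_of_mem hT hx) with h | h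
      · exact (hP x h).1 (hT'.1.1 x hx)
      · have := hT'.1.1 x hx
        rw [h] at this ⊢
        exact himp this
    refine mem_adm.2 ⟨⟨hle, fun x hx y hy hxy => ?_⟩, hT'.2⟩
    exact hp x y hxy (hle x hx) (hle y hy) (add_le_of_mem hT hx hy hxy.ne)
      (hT'.1.2 x hx y hy hxy)
  have hmem : {u, v} ∈ adm g' P' n := by
    rw [mem_adm]
    refine ⟨⟨fun x hx => ?_, fun x hx y hy hxy => ?_⟩, by rw [Finset.sum_pair huv.ne]; exact hs⟩
    · rw [Finset.mem_insert, Finset.mem_singleton] at hx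
      rcases hx with rfl | rfl
      · exact hu
      · exact hv
    · rw [Finset.mem_insert, Finset.mem_singleton] at hx hy
      rcases hx with rfl | rfl <;> rcases hy with rfl | rfl
      · omega
      · exact h1
      · omega
      · omega
  have hnot : {u, v} ∉ adm g P n := by
    intro h
    exact h2 ((mem_adm.1 h).1.2 u (by simp) v (by simp) huv)
  have := Finset.card_lt_card (Finset.ssubset_iff_subset_ne.2 ⟨hsub, fun h => hnot (h ▸ hmem)⟩)
  unfold cnt at hc
  omega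

lemma add3_le_of_mem {g : ℕ → ℕ} {P : ℕ → Prop} {n : ℕ} {T : Finset ℕ} (h : T ∈ adm g P n)
    {x y z : ℕ} (hx : x ∈ T) (hy : y ∈ T) (hz : z ∈ T) (hxy : x ≠ y) (hxz : x ≠ z)
    (hyz : y ≠ z) : x + y + z ≤ n := by
  rw [mem_adm] at h
  rw [← h.2]
  have h1 : ({x, y, z} : Finset ℕ) ⊆ T := by
    intro w hw
    rw [Finset.mem_insert, Finset.mem_insert, Finset.mem_singleton] at hw
    rcases hw with rfl | rfl | rfl <;> assumption
  have h2 := Finset.sum_le_sum_of_subset (f := fun x => x) h1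
  rw [Finset.sum_insert (by simp [hxy, hxz]), Finset.sum_pair hyz] at h2
  omega

/-- if no third element fits, the two elements have sum `n` -/
lemma pair_sum {g : ℕ → ℕ} {P : ℕ → Prop} {n : ℕ} {T : Finset ℕ} (h : T ∈ adm g P n)
    {x y : ℕ} (hx : x ∈ T) (hy : y ∈ T) (hxy : x ≠ y)
    (h3 : ∀ z ∈ T, z ≠ x → z ≠ y → n < x + y + z) : T = {x, y} := by
  ext z
  rw [Finset.mem_insert, Finset.mem_singleton]
  constructor
  · intro hz
    by_contra hcon
    push Not at hcon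
    have h4 := h3 z hz hcon.1 hcon.2
    have h5 := add3_le_of_mem h hx hy hz hxy hcon.1.symm hcon.2.symm
    omega
  · rintro (rfl | rfl) <;> assumption

/-! ## multiples -/

lemma mc (d M : ℕ) : (d = 0 ∧ d * M = 0) ∨ (d = 1 ∧ d * M = M) ∨ (d = 2 ∧ d * M = 2 * M) ∨
    (d = 3 ∧ d * M = 3 * M) ∨ (d = 4 ∧ d * M = 4 * M) ∨ (d = 5 ∧ d * M = 5 * M) ∨
    (d = 6 ∧ d * M = 6 * M) ∨ (7 ≤ d ∧ 7 * M ≤ d * M) := by
  rcases (by omega : d = 0 ∨ d = 1 ∨ d = 2 ∨ d = 3 ∨ d = 4 ∨ d = 5 ∨ d = 6 ∨ 7 ≤ d) with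
    rfl | rfl | rfl | rfl | rfl | rfl | rfl | h
  · simp
  · simp
  · simp
  · simp
  · simp
  · simp
  · simp
  · have := Nat.mul_le_mul_right M h
    omega

/-- parts of the Sylvester type system -/
def P3 (M a : ℕ) (x : ℕ) : Prop := (∃ i, x = a + i * M) ∨ ∃ j, 1 ≤ j ∧ x = 2 * a + j * M

/-- parts of the Schur type system -/
def P2 (M a : ℕ) (x : ℕ) : Prop := (∃ i, x = a + i * M) ∨ ∃ j, x = 2 * a + (2 * j + 1) * M

lemma P2_P3 {M a x : ℕ} (h : P2 M a x) : P3 M a x := by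
  rcases h with ⟨i, hi⟩ | ⟨j, hj⟩
  · exact Or.inl ⟨i, hi⟩
  · exact Or.inr ⟨2 * j + 1, by omega, hj⟩

/-- the four kinds of pairs -/
lemma pair3 {M a x y : ℕ} (ha : 0 < a) (haM : a < M) (hx : P3 M a x) (hy : P3 M a y)
    (hxy : x < y) :
    (∃ i d, x = a + i * M ∧ 1 ≤ d ∧ y = x + d * M) ∨
    (∃ i d, x = a + i * M ∧ y = x + a + d * M) ∨
    (∃ j d, 1 ≤ j ∧ x = 2 * a + j * M ∧ 1 ≤ d ∧ y + a = x + d * M) ∨
    ∃ j d, 1 ≤ j ∧ x = 2 * a + j * M ∧ 1 ≤ d ∧ y = x + d * M := by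
  rcases hx with ⟨i, rfl⟩ | ⟨i, hi, rfl⟩ <;> rcases hy with ⟨j, rfl⟩ | ⟨j, hj, rfl⟩
  · left
    have h1 : i < j := by
      by_contra h
      have := Nat.mul_le_mul_right M (not_lt.1 h)
      omega
    refine ⟨i, j - i, rfl, by omega, ?_⟩
    obtain ⟨k, rfl⟩ : ∃ k, j = i + k := ⟨j - i, by omega⟩
    rw [Nat.add_sub_cancel_left]; ring
  · right; left
    have h1 : i ≤ j := by
      by_contra h
      have := Nat.mul_le_mul_right M (Nat.succ_le_of_lt (not_le.1 h))
      rw [Nat.succ_mul] at this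
      omega
    refine ⟨i, j - i, rfl, ?_⟩
    obtain ⟨k, rfl⟩ : ∃ k, j = i + k := ⟨j - i, by omega⟩
    rw [Nat.add_sub_cancel_left]; ring
  · right; right; left
    have h1 : i < j := by
      by_contra h
      have := Nat.mul_le_mul_right M (not_lt.1 h)
      omega
    refine ⟨i, j - i, hi, rfl, by omega, ?_⟩
    obtain ⟨k, rfl⟩ : ∃ k, j = i + k := ⟨j - i, by omega⟩
    rw [Nat.add_sub_cancel_left]; ring
  · right; right; right
    have h1 : i < j := by
      by_contra h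
      have := Nat.mul_le_mul_right M (not_lt.1 h)
      omega
    refine ⟨i, j - i, hi, rfl, by omega, ?_⟩
    obtain ⟨k, rfl⟩ : ∃ k, j = i + k := ⟨j - i, by omega⟩
    rw [Nat.add_sub_cancel_left]; ring

/-- the same for the Schur type system: consecutive parts of the second kind differ by at least
`2 M` -/
lemma pair2 {M a x y : ℕ} (ha : 0 < a) (haM : a < M) (h2a : ¬ M ∣ a) (hx : P2 M a x)
    (hy : P2 M a y) (hxy : x < y) :
    (∃ i d, x = a + i * M ∧ 1 ≤ d ∧ y = x + d * M) ∨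
    (∃ i d, x = a + i * M ∧ y = x + a + d * M) ∨
    (∃ j d, 1 ≤ j ∧ x = 2 * a + j * M ∧ 1 ≤ d ∧ y + a = x + d * M) ∨
    ∃ j d, 1 ≤ j ∧ x = 2 * a + j * M ∧ 2 ≤ d ∧ y = x + d * M := by
  rcases pair3 ha haM (P2_P3 hx) (P2_P3 hy) hxy with h | h | h | ⟨j, d, h1, h2, h3, h4⟩
  · exact Or.inl h
  · exact Or.inr (Or.inl h)
  · exact Or.inr (Or.inr (Or.inl h))
  · right; right; right
    refine ⟨j, d, h1, h2, ?_, h4⟩
    by_contra hd
    have hd1 : d = 1 := by omega
    subst hd1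
    rcases hx with ⟨i, hi⟩ | ⟨i, hi⟩
    · -- x in both kinds: impossible
      apply h2a
      have h5 : a + j * M = i * M := by omega
      exact (Nat.dvd_add_left (dvd_mul_left M j)).1 (h5 ▸ dvd_mul_left M i)
    · rcases hy with ⟨k, hk⟩ | ⟨k, hk⟩
      · apply h2a
        have h5 : a + (j + 1) * M = k * M := by
          rw [h4, h2] at hk
          have : (j + 1) * M = j * M + 1 * M := by ring
          omega
        exact (Nat.dvd_add_left (dvd_mul_left M (j + 1))).1 (h5 ▸ dvd_mul_left M k)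
      · have h5 : (2 * k + 1) * M = (2 * i + 1) * M + 1 * M := by omega
        have h6 : (2 * k + 1) * M = (2 * i + 2) * M := by rw [h5]; ring
        have h7 := Nat.eq_of_mul_eq_mul_right (by omega) h6
        omega

end P46788a
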