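import Pool.Agent.Lib.MP_46788a_nt.One

/-!
# One residue class: the case analysis
-/

set_option linter.unusedVariables false

open Finset

namespace P46788a

/-- reference gaps, Schur type -/
def r2 (M a x : ℕ) : ℕ := if x % M = a then 2 * M else 3 * M - a

/-- reference gaps, Sylvester type -/
def r3 (M a x : ℕ) : ℕ := if x % M = a then 3 * M else 4 * M - a

lemma r2a {M a : ℕ} (haM : a < M) (i : ℕ) : r2 M a (a + i * M) = 2 * M := by
  unfold r2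
  rw [Nat.add_mul_mod_self_right, Nat.mod_eq_of_lt haM, if_pos rfl]

lemma r3a {M a : ℕ} (haM : a < M) (i : ℕ) : r3 M a (a + i * M) = 3 * M := by
  unfold r3
  rw [Nat.add_mul_mod_self_right, Nat.mod_eq_of_lt haM, if_pos rfl]

lemma two_mod {M a : ℕ} (haM : a < M) (n1 : ¬ M ∣ a) (j : ℕ) : (2 * a + j * M) % M ≠ a := by
  intro h
  apply n1
  have h1 : a ≡ 2 * a + j * M [MOD M] := by
    unfold Nat.ModEq
    rw [h, Nat.mod_eq_of_lt haM]
  have h2 := (Nat.modEq_iff_dvd' (by omega)).1 h1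
  have h3 : 2 * a + j * M - a = a + j * M := by omega
  rw [h3] at h2
  exact (Nat.dvd_add_left (dvd_mul_left M j)).1 h2

lemma r2b {M a : ℕ} (haM : a < M) (n1 : ¬ M ∣ a) (j : ℕ) :
    r2 M a (2 * a + j * M) = 3 * M - a := by
  unfold r2
  rw [if_neg (two_mod haM n1 j)]

lemma r3b {M a : ℕ} (haM : a < M) (n1 : ¬ M ∣ a) (j : ℕ) :
    r3 M a (2 * a + j * M) = 4 * M - a := by
  unfold r3
  rw [if_neg (two_mod haM n1 j)]

/-- the product side -/
def PA (M a : ℕ) (x : ℕ) : Prop := ∃ i, x = a + i * M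

lemma np3_3 {M a : ℕ} (n1 : ¬ M ∣ a) (n2 : ¬ M ∣ 2 * a) (t : ℕ) : ¬ P3 M a (3 * a + t * M) := by
  rintro (⟨i, hi⟩ | ⟨j, _, hj⟩)
  · apply n2
    have h : 2 * a + t * M = i * M := by omega
    exact (Nat.dvd_add_left (dvd_mul_left M t)).1 (h ▸ dvd_mul_left M i)
  · apply n1
    have h : a + t * M = j * M := by omega
    exact (Nat.dvd_add_left (dvd_mul_left M t)).1 (h ▸ dvd_mul_left M j)

lemma np3_4 {M a : ℕ} (n2 : ¬ M ∣ 2 * a) (n3 : ¬ M ∣ 3 * a) (t : ℕ) :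
    ¬ P3 M a (4 * a + t * M) := by
  rintro (⟨i, hi⟩ | ⟨j, _, hj⟩)
  · apply n3
    have h : 3 * a + t * M = i * M := by omega
    exact (Nat.dvd_add_left (dvd_mul_left M t)).1 (h ▸ dvd_mul_left M i)
  · apply n2
    have h : 2 * a + t * M = j * M := by omega
    exact (Nat.dvd_add_left (dvd_mul_left M t)).1 (h ▸ dvd_mul_left M j)

lemma P3_pos {M a x : ℕ} (ha : 0 < a) (h : P3 M a x) : a ≤ x := by
  rcases h with ⟨i, rfl⟩ | ⟨j, _, rfl⟩ <;> omega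

/-- the parity argument: `2 a + 2 t M` is not a part of the Schur type system -/
lemma np2_even {M a : ℕ} (ha : 0 < a) (haM : a < M) (n1 : ¬ M ∣ a) (t : ℕ) :
    ¬ P2 M a (2 * a + (2 * t) * M) := by
  rintro (⟨i, hi⟩ | ⟨j, hj⟩)
  · apply n1
    have h : a + (2 * t) * M = i * M := by omega
    exact (Nat.dvd_add_left (dvd_mul_left M (2 * t))).1 (h ▸ dvd_mul_left M i)
  · have h : (2 * t) * M = (2 * j + 1) * M := by omega
    have := Nat.eq_of_mul_eq_mul_right (by omega) h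
    omega

theorem ref2 {M a : ℕ} (ha : 0 < a) (haM : a < M) (n1 : ¬ M ∣ a) (n : ℕ) :
    cnt (r2 M a) (P2 M a) n = cnt (fun _ => 1) (PA M a) n := by
  have e1 : PA M a = fun z => (∃ i, z = a + i * (2 * M)) ∨ ∃ i, z = a + M + i * (2 * M) := by
    funext z
    apply propext
    constructor
    · rintro ⟨i, rfl⟩
      rcases Nat.even_or_odd' i with ⟨k, rfl | rfl⟩
      · exact Or.inl ⟨k, by ring⟩
      · exact Or.inr ⟨k, by ring⟩
    · rintro (⟨k, rfl⟩ | ⟨k, rfl⟩)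
      · exact ⟨2 * k, by ring⟩
      · exact ⟨2 * k + 1, by ring⟩
  have e2 : ∀ z, P2 M a z ↔ (∃ i, z = a + i * (2 * M)) ∨ (∃ i, z = a + M + i * (2 * M)) ∨
      ∃ i, z = a + (a + M) + i * (2 * M) := by
    intro z
    have := congrFun e1 z
    unfold PA at this
    unfold P2
    rw [this, or_assoc]
    constructor
    · rintro (h | h | ⟨j, rfl⟩)
      · exact Or.inl h
      · exact Or.inr (Or.inl h)
      · exact Or.inr (Or.inr ⟨j, by ring⟩)
    · rintro (h | h | ⟨j, rfl⟩)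
      · exact Or.inl h
      · exact Or.inr (Or.inl h)
      · exact Or.inr (Or.inr ⟨j, by ring⟩)
  rw [e1]
  refine ref_schur (M := 2 * M) (x := a) (y := a + M) ha (by omega) (by omega) e2 ?_ ?_ ?_ n
  · intro i
    have : a + i * (2 * M) = a + (2 * i) * M := by ring
    rw [this, r2a haM]; omega
  · intro i
    have : a + M + i * (2 * M) = a + (2 * i + 1) * M := by ring
    rw [this, r2a haM]; omega
  · intro i
    have : a + (a + M) + i * (2 * M) = 2 * a + (2 * i + 1) * M := by ring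
    rw [this, r2b haM n1]; omega

theorem ref3 {M a : ℕ} (ha : 0 < a) (haM : a < M) (n1 : ¬ M ∣ a) (n : ℕ) :
    cnt (r3 M a) (P3 M a) n = cnt (fun _ => 1) (PA M a) n := by
  refine ref_sylv ha haM (fun x => Iff.rfl) ?_ ?_ n
  · intro i; rw [r3a haM]; omega
  · intro j _; rw [r3b haM n1]; omega

section

variable {M a β1 β2 : ℕ} {g : ℕ → ℕ} {P : ℕ → Prop} {N₀ : ℕ}

lemma c2a (ha : 0 < a) (haM : a < M) (n1 : ¬ M ∣ a)
    (n2 : ¬ M ∣ 2 * a) (n3 : ¬ M ∣ 3 * a) (hg1 : ∀ i, g (a + i * M) = β1)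
    (hg2 : ∀ j, g (2 * a + j * M) = β2) (h0 : ∀ x, P x → 0 < x)
    (hc : ∀ n, cnt g P n = cnt (fun _ => 1) (PA M a) n)
    (b1 : M < β1) (b1' : β1 ≤ M + a) : False := by
  have hp : ∀ x y, x < y → P2 M a x → P2 M a y → x + y < 3 * a + M →
      (x + g x ≤ y ↔ x + r2 M a x ≤ y) := by
    intro x y hxy hx hy hs
    rcases pair2 ha haM n1 hx hy hxy with ⟨i, d, rfl, hd, rfl⟩ | ⟨i, d, rfl, rfl⟩ |
      ⟨j, d, hj, rfl, hd, h⟩ | ⟨j, d, hj, rfl, hd, rfl⟩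
    · rw [hg1, r2a haM]; have e1 := mc i M; have e2 := mc d M; omega
    · rw [hg1, r2a haM]; have e1 := mc i M; have e2 := mc d M; omega
    · rw [hg2, r2b haM n1]; have e1 := mc j M; have e2 := mc d M; omega
    · rw [hg2, r2b haM n1]; have e1 := mc j M; have e2 := mc d M; omega
  have hq : ∀ x y, x < y → P2 M a x → P2 M a y → x + y ≤ 3 * a + M →
      x + r2 M a x ≤ y → x + g x ≤ y := by
    intro x y hxy hx hy hs
    rcases pair2 ha haM n1 hx hy hxy with ⟨i, d, rfl, hd, rfl⟩ | ⟨i, d, rfl, rfl⟩ |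
      ⟨j, d, hj, rfl, hd, h⟩ | ⟨j, d, hj, rfl, hd, rfl⟩
    · rw [hg1, r2a haM]; have e1 := mc i M; have e2 := mc d M; omega
    · rw [hg1, r2a haM]; have e1 := mc i M; have e2 := mc d M; omega
    · rw [hg2, r2b haM n1]; have e1 := mc j M; have e2 := mc d M; omega
    · rw [hg2, r2b haM n1]; have e1 := mc j M; have e2 := mc d M; omega
  have hag := agree h0 (fun x hx => lt_of_lt_of_le ha (P3_pos ha (P2_P3 hx))) (3 * a + M)
    (fun m _ => (hc m).trans (ref2 ha haM n1 m).symm) hp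
  have hnp : ¬ P2 M a (3 * a + M) := by
    intro h
    have h' : P3 M a (3 * a + 1 * M) := by
      have e : 3 * a + 1 * M = 3 * a + M := by ring
      rw [e]; exact P2_P3 h
    exact np3_3 n1 n2 _ h'
  have hu : P2 M a (a + 0 * M) := Or.inl ⟨0, rfl⟩
  have hv : P2 M a (2 * a + 1 * M) := Or.inr ⟨0, rfl⟩
  refine extra_false (fun x hx => lt_of_lt_of_le ha (P3_pos ha (P2_P3 hx))) ((hc _).trans (ref2 ha haM n1 _).symm)
    hag hnp hq (u := a + 0 * M) (v := 2 * a + 1 * M) (by omega) hu hv (by ring) ?_ ?_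
  · rw [hg1]; omega
  · rw [r2a haM]; omega

lemma c2b1 (ha : 0 < a) (haM : a < M) (n1 : ¬ M ∣ a)
    (n2 : ¬ M ∣ 2 * a) (n3 : ¬ M ∣ 3 * a) (hg1 : ∀ i, g (a + i * M) = β1)
    (hg2 : ∀ j, g (2 * a + j * M) = β2) (h0 : ∀ x, P x → 0 < x)
    (hc : ∀ n, cnt g P n = cnt (fun _ => 1) (PA M a) n)
    (b1 : M + a < β1) (b1' : β1 ≤ 2 * M) (b2 : 1 ≤ β2) (b2' : β2 + a ≤ M) : False := by
  have hp : ∀ x y, x < y → P2 M a x → P2 M a y → x + y < 3 * a + 3 * M →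
      (x + g x ≤ y ↔ x + r2 M a x ≤ y) := by
    intro x y hxy hx hy hs
    rcases pair2 ha haM n1 hx hy hxy with ⟨i, d, rfl, hd, rfl⟩ | ⟨i, d, rfl, rfl⟩ |
      ⟨j, d, hj, rfl, hd, h⟩ | ⟨j, d, hj, rfl, hd, rfl⟩
    · rw [hg1, r2a haM]; have e1 := mc i M; have e2 := mc d M; omega
    · rw [hg1, r2a haM]; have e1 := mc i M; have e2 := mc d M; omega
    · rw [hg2, r2b haM n1]; have e1 := mc j M; have e2 := mc d M; omega
    · rw [hg2, r2b haM n1]; have e1 := mc j M; have e2 := mc d M; omega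
  have hq : ∀ x y, x < y → P2 M a x → P2 M a y → x + y ≤ 3 * a + 3 * M →
      x + r2 M a x ≤ y → x + g x ≤ y := by
    intro x y hxy hx hy hs
    rcases pair2 ha haM n1 hx hy hxy with ⟨i, d, rfl, hd, rfl⟩ | ⟨i, d, rfl, rfl⟩ |
      ⟨j, d, hj, rfl, hd, h⟩ | ⟨j, d, hj, rfl, hd, rfl⟩
    · rw [hg1, r2a haM]; have e1 := mc i M; have e2 := mc d M; omega
    · rw [hg1, r2a haM]; have e1 := mc i M; have e2 := mc d M; omega
    · rw [hg2, r2b haM n1]; have e1 := mc j M; have e2 := mc d M; omega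
    · rw [hg2, r2b haM n1]; have e1 := mc j M; have e2 := mc d M; omega
  have hag := agree h0 (fun x hx => lt_of_lt_of_le ha (P3_pos ha (P2_P3 hx))) (3 * a + 3 * M)
    (fun m _ => (hc m).trans (ref2 ha haM n1 m).symm) hp
  have hnp : ¬ P2 M a (3 * a + 3 * M) := by
    intro h
    have h' : P3 M a (3 * a + 3 * M) := by
      have e : 3 * a + 3 * M = 3 * a + 3 * M := by ring
      rw [e]; exact P2_P3 h
    exact np3_3 n1 n2 _ h'
  have hu : P2 M a (2 * a + 1 * M) := Or.inr ⟨0, rfl⟩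
  have hv : P2 M a (a + 2 * M) := Or.inl ⟨2, rfl⟩
  refine extra_false (fun x hx => lt_of_lt_of_le ha (P3_pos ha (P2_P3 hx))) ((hc _).trans (ref2 ha haM n1 _).symm)
    hag hnp hq (u := 2 * a + 1 * M) (v := a + 2 * M) (by omega) hu hv (by ring) ?_ ?_
  · rw [hg2]; omega
  · rw [r2b haM n1]; omega

lemma c2b2 (ha : 0 < a) (haM : a < M) (n1 : ¬ M ∣ a)
    (n2 : ¬ M ∣ 2 * a) (n3 : ¬ M ∣ 3 * a) (hg1 : ∀ i, g (a + i * M) = β1)
    (hg2 : ∀ j, g (2 * a + j * M) = β2) (h0 : ∀ x, P x → 0 < x)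
    (hc : ∀ n, cnt g P n = cnt (fun _ => 1) (PA M a) n)
    (b1 : M + a < β1) (b1' : β1 ≤ 2 * M) (b2 : M < β2 + a) (b2' : β2 + a ≤ 2 * M) : False := by
  have hp : ∀ x y, x < y → P2 M a x → P2 M a y → x + y < 3 * a + 4 * M →
      (x + g x ≤ y ↔ x + r2 M a x ≤ y) := by
    intro x y hxy hx hy hs
    rcases pair2 ha haM n1 hx hy hxy with ⟨i, d, rfl, hd, rfl⟩ | ⟨i, d, rfl, rfl⟩ |
      ⟨j, d, hj, rfl, hd, h⟩ | ⟨j, d, hj, rfl, hd, rfl⟩
    · rw [hg1, r2a haM]; have e1 := mc i M; have e2 := mc d M; omega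
    · rw [hg1, r2a haM]; have e1 := mc i M; have e2 := mc d M; omega
    · rw [hg2, r2b haM n1]; have e1 := mc j M; have e2 := mc d M; omega
    · rw [hg2, r2b haM n1]; have e1 := mc j M; have e2 := mc d M; omega
  have hq : ∀ x y, x < y → P2 M a x → P2 M a y → x + y ≤ 3 * a + 4 * M →
      x + r2 M a x ≤ y → x + g x ≤ y := by
    intro x y hxy hx hy hs
    rcases pair2 ha haM n1 hx hy hxy with ⟨i, d, rfl, hd, rfl⟩ | ⟨i, d, rfl, rfl⟩ |
      ⟨j, d, hj, rfl, hd, h⟩ | ⟨j, d, hj, rfl, hd, rfl⟩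
    · rw [hg1, r2a haM]; have e1 := mc i M; have e2 := mc d M; omega
    · rw [hg1, r2a haM]; have e1 := mc i M; have e2 := mc d M; omega
    · rw [hg2, r2b haM n1]; have e1 := mc j M; have e2 := mc d M; omega
    · rw [hg2, r2b haM n1]; have e1 := mc j M; have e2 := mc d M; omega
  have hag := agree h0 (fun x hx => lt_of_lt_of_le ha (P3_pos ha (P2_P3 hx))) (3 * a + 4 * M)
    (fun m _ => (hc m).trans (ref2 ha haM n1 m).symm) hp
  have hnp : ¬ P2 M a (3 * a + 4 * M) := by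
    intro h
    have h' : P3 M a (3 * a + 4 * M) := by
      have e : 3 * a + 4 * M = 3 * a + 4 * M := by ring
      rw [e]; exact P2_P3 h
    exact np3_3 n1 n2 _ h'
  have hu : P2 M a (2 * a + 1 * M) := Or.inr ⟨0, rfl⟩
  have hv : P2 M a (a + 3 * M) := Or.inl ⟨3, rfl⟩
  refine extra_false (fun x hx => lt_of_lt_of_le ha (P3_pos ha (P2_P3 hx))) ((hc _).trans (ref2 ha haM n1 _).symm)
    hag hnp hq (u := 2 * a + 1 * M) (v := a + 3 * M) (by omega) hu hv (by ring) ?_ ?_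
  · rw [hg2]; omega
  · rw [r2b haM n1]; omega

lemma c2b3 (ha : 0 < a) (haM : a < M) (n1 : ¬ M ∣ a)
    (n2 : ¬ M ∣ 2 * a) (n3 : ¬ M ∣ 3 * a) (hg1 : ∀ i, g (a + i * M) = β1)
    (hg2 : ∀ j, g (2 * a + j * M) = β2) (h0 : ∀ x, P x → 0 < x)
    (hc : ∀ n, cnt g P n = cnt (fun _ => 1) (PA M a) n)
    (b1 : M + a < β1) (b1' : β1 ≤ 2 * M) (b2 : 2 * M < β2 + a) (b2' : β2 ≤ 2 * M) : False := by
  have hp : ∀ x y, x < y → P2 M a x → P2 M a y → x + y < 4 * a + 4 * M →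
      (x + g x ≤ y ↔ x + r2 M a x ≤ y) := by
    intro x y hxy hx hy hs
    rcases pair2 ha haM n1 hx hy hxy with ⟨i, d, rfl, hd, rfl⟩ | ⟨i, d, rfl, rfl⟩ |
      ⟨j, d, hj, rfl, hd, h⟩ | ⟨j, d, hj, rfl, hd, rfl⟩
    · rw [hg1, r2a haM]; have e1 := mc i M; have e2 := mc d M; omega
    · rw [hg1, r2a haM]; have e1 := mc i M; have e2 := mc d M; omega
    · rw [hg2, r2b haM n1]; have e1 := mc j M; have e2 := mc d M; omega
    · rw [hg2, r2b haM n1]; have e1 := mc j M; have e2 := mc d M; omega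
  have hq : ∀ x y, x < y → P2 M a x → P2 M a y → x + y ≤ 4 * a + 4 * M →
      x + r2 M a x ≤ y → x + g x ≤ y := by
    intro x y hxy hx hy hs
    rcases pair2 ha haM n1 hx hy hxy with ⟨i, d, rfl, hd, rfl⟩ | ⟨i, d, rfl, rfl⟩ |
      ⟨j, d, hj, rfl, hd, h⟩ | ⟨j, d, hj, rfl, hd, rfl⟩
    · rw [hg1, r2a haM]; have e1 := mc i M; have e2 := mc d M; omega
    · rw [hg1, r2a haM]; have e1 := mc i M; have e2 := mc d M; omega
    · rw [hg2, r2b haM n1]; have e1 := mc j M; have e2 := mc d M; omega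
    · rw [hg2, r2b haM n1]; have e1 := mc j M; have e2 := mc d M; omega
  have hag := agree h0 (fun x hx => lt_of_lt_of_le ha (P3_pos ha (P2_P3 hx))) (4 * a + 4 * M)
    (fun m _ => (hc m).trans (ref2 ha haM n1 m).symm) hp
  have hnp : ¬ P2 M a (4 * a + 4 * M) := by
    intro h
    have h' : P3 M a (4 * a + 4 * M) := by
      have e : 4 * a + 4 * M = 4 * a + 4 * M := by ring
      rw [e]; exact P2_P3 h
    exact np3_4 n2 n3 _ h'
  have hu : P2 M a (2 * a + 1 * M) := Or.inr ⟨0, rfl⟩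
  have hv : P2 M a (2 * a + 3 * M) := Or.inr ⟨1, rfl⟩
  refine extra_false (fun x hx => lt_of_lt_of_le ha (P3_pos ha (P2_P3 hx))) ((hc _).trans (ref2 ha haM n1 _).symm)
    hag hnp hq (u := 2 * a + 1 * M) (v := 2 * a + 3 * M) (by omega) hu hv (by ring) ?_ ?_
  · rw [hg2]; omega
  · rw [r2b haM n1]; omega

lemma c3a (ha : 0 < a) (haM : a < M) (n1 : ¬ M ∣ a)
    (n2 : ¬ M ∣ 2 * a) (n3 : ¬ M ∣ 3 * a) (hg1 : ∀ i, g (a + i * M) = β1)
    (hg2 : ∀ j, g (2 * a + j * M) = β2) (h0 : ∀ x, P x → 0 < x)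
    (hc : ∀ n, cnt g P n = cnt (fun _ => 1) (PA M a) n)
    (b1 : 2 * M < β1) (b1' : β1 ≤ 2 * M + a) : False := by
  have hp : ∀ x y, x < y → P3 M a x → P3 M a y → x + y < 3 * a + 2 * M →
      (x + g x ≤ y ↔ x + r3 M a x ≤ y) := by
    intro x y hxy hx hy hs
    rcases pair3 ha haM hx hy hxy with ⟨i, d, rfl, hd, rfl⟩ | ⟨i, d, rfl, rfl⟩ |
      ⟨j, d, hj, rfl, hd, h⟩ | ⟨j, d, hj, rfl, hd, rfl⟩
    · rw [hg1, r3a haM]; have e1 := mc i M; have e2 := mc d M; omega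
    · rw [hg1, r3a haM]; have e1 := mc i M; have e2 := mc d M; omega
    · rw [hg2, r3b haM n1]; have e1 := mc j M; have e2 := mc d M; omega
    · rw [hg2, r3b haM n1]; have e1 := mc j M; have e2 := mc d M; omega
  have hq : ∀ x y, x < y → P3 M a x → P3 M a y → x + y ≤ 3 * a + 2 * M →
      x + r3 M a x ≤ y → x + g x ≤ y := by
    intro x y hxy hx hy hs
    rcases pair3 ha haM hx hy hxy with ⟨i, d, rfl, hd, rfl⟩ | ⟨i, d, rfl, rfl⟩ |
      ⟨j, d, hj, rfl, hd, h⟩ | ⟨j, d, hj, rfl, hd, rfl⟩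
    · rw [hg1, r3a haM]; have e1 := mc i M; have e2 := mc d M; omega
    · rw [hg1, r3a haM]; have e1 := mc i M; have e2 := mc d M; omega
    · rw [hg2, r3b haM n1]; have e1 := mc j M; have e2 := mc d M; omega
    · rw [hg2, r3b haM n1]; have e1 := mc j M; have e2 := mc d M; omega
  have hag := agree h0 (fun x hx => lt_of_lt_of_le ha (P3_pos ha hx)) (3 * a + 2 * M)
    (fun m _ => (hc m).trans (ref3 ha haM n1 m).symm) hp
  have hnp : ¬ P3 M a (3 * a + 2 * M) := by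
    intro h
    have h' : P3 M a (3 * a + 2 * M) := by
      have e : 3 * a + 2 * M = 3 * a + 2 * M := by ring
      rw [e]; exact h
    exact np3_3 n1 n2 _ h'
  have hu : P3 M a (a + 0 * M) := Or.inl ⟨0, rfl⟩
  have hv : P3 M a (2 * a + 2 * M) := Or.inr ⟨2, by norm_num, rfl⟩
  refine extra_false (fun x hx => lt_of_lt_of_le ha (P3_pos ha hx)) ((hc _).trans (ref3 ha haM n1 _).symm)
    hag hnp hq (u := a + 0 * M) (v := 2 * a + 2 * M) (by omega) hu hv (by ring) ?_ ?_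
  · rw [hg1]; omega
  · rw [r3a haM]; omega

lemma c3b1 (ha : 0 < a) (haM : a < M) (n1 : ¬ M ∣ a)
    (n2 : ¬ M ∣ 2 * a) (n3 : ¬ M ∣ 3 * a) (hg1 : ∀ i, g (a + i * M) = β1)
    (hg2 : ∀ j, g (2 * a + j * M) = β2) (h0 : ∀ x, P x → 0 < x)
    (hc : ∀ n, cnt g P n = cnt (fun _ => 1) (PA M a) n)
    (b1 : 2 * M + a < β1) (b1' : β1 ≤ 3 * M) (b2 : 1 ≤ β2) (b2' : β2 + a ≤ M) : False := by
  have hp : ∀ x y, x < y → P3 M a x → P3 M a y → x + y < 3 * a + 3 * M →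
      (x + g x ≤ y ↔ x + r3 M a x ≤ y) := by
    intro x y hxy hx hy hs
    rcases pair3 ha haM hx hy hxy with ⟨i, d, rfl, hd, rfl⟩ | ⟨i, d, rfl, rfl⟩ |
      ⟨j, d, hj, rfl, hd, h⟩ | ⟨j, d, hj, rfl, hd, rfl⟩
    · rw [hg1, r3a haM]; have e1 := mc i M; have e2 := mc d M; omega
    · rw [hg1, r3a haM]; have e1 := mc i M; have e2 := mc d M; omega
    · rw [hg2, r3b haM n1]; have e1 := mc j M; have e2 := mc d M; omega
    · rw [hg2, r3b haM n1]; have e1 := mc j M; have e2 := mc d M; omega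
  have hq : ∀ x y, x < y → P3 M a x → P3 M a y → x + y ≤ 3 * a + 3 * M →
      x + r3 M a x ≤ y → x + g x ≤ y := by
    intro x y hxy hx hy hs
    rcases pair3 ha haM hx hy hxy with ⟨i, d, rfl, hd, rfl⟩ | ⟨i, d, rfl, rfl⟩ |
      ⟨j, d, hj, rfl, hd, h⟩ | ⟨j, d, hj, rfl, hd, rfl⟩
    · rw [hg1, r3a haM]; have e1 := mc i M; have e2 := mc d M; omega
    · rw [hg1, r3a haM]; have e1 := mc i M; have e2 := mc d M; omega
    · rw [hg2, r3b haM n1]; have e1 := mc j M; have e2 := mc d M; omega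
    · rw [hg2, r3b haM n1]; have e1 := mc j M; have e2 := mc d M; omega
  have hag := agree h0 (fun x hx => lt_of_lt_of_le ha (P3_pos ha hx)) (3 * a + 3 * M)
    (fun m _ => (hc m).trans (ref3 ha haM n1 m).symm) hp
  have hnp : ¬ P3 M a (3 * a + 3 * M) := by
    intro h
    have h' : P3 M a (3 * a + 3 * M) := by
      have e : 3 * a + 3 * M = 3 * a + 3 * M := by ring
      rw [e]; exact h
    exact np3_3 n1 n2 _ h'
  have hu : P3 M a (2 * a + 1 * M) := Or.inr ⟨1, by norm_num, rfl⟩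
  have hv : P3 M a (a + 2 * M) := Or.inl ⟨2, rfl⟩
  refine extra_false (fun x hx => lt_of_lt_of_le ha (P3_pos ha hx)) ((hc _).trans (ref3 ha haM n1 _).symm)
    hag hnp hq (u := 2 * a + 1 * M) (v := a + 2 * M) (by omega) hu hv (by ring) ?_ ?_
  · rw [hg2]; omega
  · rw [r3b haM n1]; omega

lemma c3b2 (ha : 0 < a) (haM : a < M) (n1 : ¬ M ∣ a)
    (n2 : ¬ M ∣ 2 * a) (n3 : ¬ M ∣ 3 * a) (hg1 : ∀ i, g (a + i * M) = β1)
    (hg2 : ∀ j, g (2 * a + j * M) = β2) (h0 : ∀ x, P x → 0 < x)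
    (hc : ∀ n, cnt g P n = cnt (fun _ => 1) (PA M a) n)
    (b1 : 2 * M + a < β1) (b1' : β1 ≤ 3 * M) (b2 : M < β2 + a) (b2' : β2 ≤ M) : False := by
  have hp : ∀ x y, x < y → P3 M a x → P3 M a y → x + y < 4 * a + 3 * M →
      (x + g x ≤ y ↔ x + r3 M a x ≤ y) := by
    intro x y hxy hx hy hs
    rcases pair3 ha haM hx hy hxy with ⟨i, d, rfl, hd, rfl⟩ | ⟨i, d, rfl, rfl⟩ |
      ⟨j, d, hj, rfl, hd, h⟩ | ⟨j, d, hj, rfl, hd, rfl⟩
    · rw [hg1, r3a haM]; have e1 := mc i M; have e2 := mc d M; omega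
    · rw [hg1, r3a haM]; have e1 := mc i M; have e2 := mc d M; omega
    · rw [hg2, r3b haM n1]; have e1 := mc j M; have e2 := mc d M; omega
    · rw [hg2, r3b haM n1]; have e1 := mc j M; have e2 := mc d M; omega
  have hq : ∀ x y, x < y → P3 M a x → P3 M a y → x + y ≤ 4 * a + 3 * M →
      x + r3 M a x ≤ y → x + g x ≤ y := by
    intro x y hxy hx hy hs
    rcases pair3 ha haM hx hy hxy with ⟨i, d, rfl, hd, rfl⟩ | ⟨i, d, rfl, rfl⟩ |
      ⟨j, d, hj, rfl, hd, h⟩ | ⟨j, d, hj, rfl, hd, rfl⟩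
    · rw [hg1, r3a haM]; have e1 := mc i M; have e2 := mc d M; omega
    · rw [hg1, r3a haM]; have e1 := mc i M; have e2 := mc d M; omega
    · rw [hg2, r3b haM n1]; have e1 := mc j M; have e2 := mc d M; omega
    · rw [hg2, r3b haM n1]; have e1 := mc j M; have e2 := mc d M; omega
  have hag := agree h0 (fun x hx => lt_of_lt_of_le ha (P3_pos ha hx)) (4 * a + 3 * M)
    (fun m _ => (hc m).trans (ref3 ha haM n1 m).symm) hp
  have hnp : ¬ P3 M a (4 * a + 3 * M) := by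
    intro h
    have h' : P3 M a (4 * a + 3 * M) := by
      have e : 4 * a + 3 * M = 4 * a + 3 * M := by ring
      rw [e]; exact h
    exact np3_4 n2 n3 _ h'
  have hu : P3 M a (2 * a + 1 * M) := Or.inr ⟨1, by norm_num, rfl⟩
  have hv : P3 M a (2 * a + 2 * M) := Or.inr ⟨2, by norm_num, rfl⟩
  refine extra_false (fun x hx => lt_of_lt_of_le ha (P3_pos ha hx)) ((hc _).trans (ref3 ha haM n1 _).symm)
    hag hnp hq (u := 2 * a + 1 * M) (v := 2 * a + 2 * M) (by omega) hu hv (by ring) ?_ ?_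
  · rw [hg2]; omega
  · rw [r3b haM n1]; omega

lemma c3b3 (ha : 0 < a) (haM : a < M) (n1 : ¬ M ∣ a)
    (n2 : ¬ M ∣ 2 * a) (n3 : ¬ M ∣ 3 * a) (hg1 : ∀ i, g (a + i * M) = β1)
    (hg2 : ∀ j, g (2 * a + j * M) = β2) (h0 : ∀ x, P x → 0 < x)
    (hc : ∀ n, cnt g P n = cnt (fun _ => 1) (PA M a) n)
    (b1 : 2 * M + a < β1) (b1' : β1 ≤ 3 * M) (b2 : M < β2) (b2' : β2 + a ≤ 2 * M) : False := by
  have hp : ∀ x y, x < y → P3 M a x → P3 M a y → x + y < 3 * a + 4 * M →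
      (x + g x ≤ y ↔ x + r3 M a x ≤ y) := by
    intro x y hxy hx hy hs
    rcases pair3 ha haM hx hy hxy with ⟨i, d, rfl, hd, rfl⟩ | ⟨i, d, rfl, rfl⟩ |
      ⟨j, d, hj, rfl, hd, h⟩ | ⟨j, d, hj, rfl, hd, rfl⟩
    · rw [hg1, r3a haM]; have e1 := mc i M; have e2 := mc d M; omega
    · rw [hg1, r3a haM]; have e1 := mc i M; have e2 := mc d M; omega
    · rw [hg2, r3b haM n1]; have e1 := mc j M; have e2 := mc d M; omega
    · rw [hg2, r3b haM n1]; have e1 := mc j M; have e2 := mc d M; omega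
  have hq : ∀ x y, x < y → P3 M a x → P3 M a y → x + y ≤ 3 * a + 4 * M →
      x + r3 M a x ≤ y → x + g x ≤ y := by
    intro x y hxy hx hy hs
    rcases pair3 ha haM hx hy hxy with ⟨i, d, rfl, hd, rfl⟩ | ⟨i, d, rfl, rfl⟩ |
      ⟨j, d, hj, rfl, hd, h⟩ | ⟨j, d, hj, rfl, hd, rfl⟩
    · rw [hg1, r3a haM]; have e1 := mc i M; have e2 := mc d M; omega
    · rw [hg1, r3a haM]; have e1 := mc i M; have e2 := mc d M; omega
    · rw [hg2, r3b haM n1]; have e1 := mc j M; have e2 := mc d M; omega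
    · rw [hg2, r3b haM n1]; have e1 := mc j M; have e2 := mc d M; omega
  have hag := agree h0 (fun x hx => lt_of_lt_of_le ha (P3_pos ha hx)) (3 * a + 4 * M)
    (fun m _ => (hc m).trans (ref3 ha haM n1 m).symm) hp
  have hnp : ¬ P3 M a (3 * a + 4 * M) := by
    intro h
    have h' : P3 M a (3 * a + 4 * M) := by
      have e : 3 * a + 4 * M = 3 * a + 4 * M := by ring
      rw [e]; exact h
    exact np3_3 n1 n2 _ h'
  have hu : P3 M a (2 * a + 1 * M) := Or.inr ⟨1, by norm_num, rfl⟩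
  have hv : P3 M a (a + 3 * M) := Or.inl ⟨3, rfl⟩
  refine extra_false (fun x hx => lt_of_lt_of_le ha (P3_pos ha hx)) ((hc _).trans (ref3 ha haM n1 _).symm)
    hag hnp hq (u := 2 * a + 1 * M) (v := a + 3 * M) (by omega) hu hv (by ring) ?_ ?_
  · rw [hg2]; omega
  · rw [r3b haM n1]; omega

lemma c3b4 (ha : 0 < a) (haM : a < M) (n1 : ¬ M ∣ a)
    (n2 : ¬ M ∣ 2 * a) (n3 : ¬ M ∣ 3 * a) (hg1 : ∀ i, g (a + i * M) = β1)
    (hg2 : ∀ j, g (2 * a + j * M) = β2) (h0 : ∀ x, P x → 0 < x)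
    (hc : ∀ n, cnt g P n = cnt (fun _ => 1) (PA M a) n)
    (b1 : 2 * M + a < β1) (b1' : β1 ≤ 3 * M) (b2 : 2 * M < β2 + a) (b2' : β2 ≤ 2 * M) : False := by
  have hp : ∀ x y, x < y → P3 M a x → P3 M a y → x + y < 4 * a + 4 * M →
      (x + g x ≤ y ↔ x + r3 M a x ≤ y) := by
    intro x y hxy hx hy hs
    rcases pair3 ha haM hx hy hxy with ⟨i, d, rfl, hd, rfl⟩ | ⟨i, d, rfl, rfl⟩ |
      ⟨j, d, hj, rfl, hd, h⟩ | ⟨j, d, hj, rfl, hd, rfl⟩
    · rw [hg1, r3a haM]; have e1 := mc i M; have e2 := mc d M; omega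
    · rw [hg1, r3a haM]; have e1 := mc i M; have e2 := mc d M; omega
    · rw [hg2, r3b haM n1]; have e1 := mc j M; have e2 := mc d M; omega
    · rw [hg2, r3b haM n1]; have e1 := mc j M; have e2 := mc d M; omega
  have hq : ∀ x y, x < y → P3 M a x → P3 M a y → x + y ≤ 4 * a + 4 * M →
      x + r3 M a x ≤ y → x + g x ≤ y := by
    intro x y hxy hx hy hs
    rcases pair3 ha haM hx hy hxy with ⟨i, d, rfl, hd, rfl⟩ | ⟨i, d, rfl, rfl⟩ |
      ⟨j, d, hj, rfl, hd, h⟩ | ⟨j, d, hj, rfl, hd, rfl⟩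
    · rw [hg1, r3a haM]; have e1 := mc i M; have e2 := mc d M; omega
    · rw [hg1, r3a haM]; have e1 := mc i M; have e2 := mc d M; omega
    · rw [hg2, r3b haM n1]; have e1 := mc j M; have e2 := mc d M; omega
    · rw [hg2, r3b haM n1]; have e1 := mc j M; have e2 := mc d M; omega
  have hag := agree h0 (fun x hx => lt_of_lt_of_le ha (P3_pos ha hx)) (4 * a + 4 * M)
    (fun m _ => (hc m).trans (ref3 ha haM n1 m).symm) hp
  have hnp : ¬ P3 M a (4 * a + 4 * M) := by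
    intro h
    have h' : P3 M a (4 * a + 4 * M) := by
      have e : 4 * a + 4 * M = 4 * a + 4 * M := by ring
      rw [e]; exact h
    exact np3_4 n2 n3 _ h'
  have hu : P3 M a (2 * a + 1 * M) := Or.inr ⟨1, by norm_num, rfl⟩
  have hv : P3 M a (2 * a + 3 * M) := Or.inr ⟨3, by norm_num, rfl⟩
  refine extra_false (fun x hx => lt_of_lt_of_le ha (P3_pos ha hx)) ((hc _).trans (ref3 ha haM n1 _).symm)
    hag hnp hq (u := 2 * a + 1 * M) (v := 2 * a + 3 * M) (by omega) hu hv (by ring) ?_ ?_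
  · rw [hg2]; omega
  · rw [r3b haM n1]; omega

lemma c3b5 (ha : 0 < a) (haM : a < M) (n1 : ¬ M ∣ a)
    (n2 : ¬ M ∣ 2 * a) (n3 : ¬ M ∣ 3 * a) (hg1 : ∀ i, g (a + i * M) = β1)
    (hg2 : ∀ j, g (2 * a + j * M) = β2) (h0 : ∀ x, P x → 0 < x)
    (hc : ∀ n, cnt g P n = cnt (fun _ => 1) (PA M a) n)
    (b1 : 2 * M + a < β1) (b1' : β1 ≤ 3 * M) (b2 : 2 * M < β2) (b2' : β2 + a ≤ 3 * M) : False := by
  have hp : ∀ x y, x < y → P3 M a x → P3 M a y → x + y < 3 * a + 5 * M →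
      (x + g x ≤ y ↔ x + r3 M a x ≤ y) := by
    intro x y hxy hx hy hs
    rcases pair3 ha haM hx hy hxy with ⟨i, d, rfl, hd, rfl⟩ | ⟨i, d, rfl, rfl⟩ |
      ⟨j, d, hj, rfl, hd, h⟩ | ⟨j, d, hj, rfl, hd, rfl⟩
    · rw [hg1, r3a haM]; have e1 := mc i M; have e2 := mc d M; omega
    · rw [hg1, r3a haM]; have e1 := mc i M; have e2 := mc d M; omega
    · rw [hg2, r3b haM n1]; have e1 := mc j M; have e2 := mc d M; omega
    · rw [hg2, r3b haM n1]; have e1 := mc j M; have e2 := mc d M; omega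
  have hq : ∀ x y, x < y → P3 M a x → P3 M a y → x + y ≤ 3 * a + 5 * M →
      x + r3 M a x ≤ y → x + g x ≤ y := by
    intro x y hxy hx hy hs
    rcases pair3 ha haM hx hy hxy with ⟨i, d, rfl, hd, rfl⟩ | ⟨i, d, rfl, rfl⟩ |
      ⟨j, d, hj, rfl, hd, h⟩ | ⟨j, d, hj, rfl, hd, rfl⟩
    · rw [hg1, r3a haM]; have e1 := mc i M; have e2 := mc d M; omega
    · rw [hg1, r3a haM]; have e1 := mc i M; have e2 := mc d M; omega
    · rw [hg2, r3b haM n1]; have e1 := mc j M; have e2 := mc d M; omega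
    · rw [hg2, r3b haM n1]; have e1 := mc j M; have e2 := mc d M; omega
  have hag := agree h0 (fun x hx => lt_of_lt_of_le ha (P3_pos ha hx)) (3 * a + 5 * M)
    (fun m _ => (hc m).trans (ref3 ha haM n1 m).symm) hp
  have hnp : ¬ P3 M a (3 * a + 5 * M) := by
    intro h
    have h' : P3 M a (3 * a + 5 * M) := by
      have e : 3 * a + 5 * M = 3 * a + 5 * M := by ring
      rw [e]; exact h
    exact np3_3 n1 n2 _ h'
  have hu : P3 M a (2 * a + 1 * M) := Or.inr ⟨1, by norm_num, rfl⟩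
  have hv : P3 M a (a + 4 * M) := Or.inl ⟨4, rfl⟩
  refine extra_false (fun x hx => lt_of_lt_of_le ha (P3_pos ha hx)) ((hc _).trans (ref3 ha haM n1 _).symm)
    hag hnp hq (u := 2 * a + 1 * M) (v := a + 4 * M) (by omega) hu hv (by ring) ?_ ?_
  · rw [hg2]; omega
  · rw [r3b haM n1]; omega

lemma c3b6 (ha : 0 < a) (haM : a < M) (n1 : ¬ M ∣ a)
    (n2 : ¬ M ∣ 2 * a) (n3 : ¬ M ∣ 3 * a) (hg1 : ∀ i, g (a + i * M) = β1)
    (hg2 : ∀ j, g (2 * a + j * M) = β2) (h0 : ∀ x, P x → 0 < x)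
    (hc : ∀ n, cnt g P n = cnt (fun _ => 1) (PA M a) n)
    (b1 : 2 * M + a < β1) (b1' : β1 ≤ 3 * M) (b2 : 3 * M < β2 + a) (b2' : β2 ≤ 3 * M) : False := by
  have hp : ∀ x y, x < y → P3 M a x → P3 M a y → x + y < 4 * a + 5 * M →
      (x + g x ≤ y ↔ x + r3 M a x ≤ y) := by
    intro x y hxy hx hy hs
    rcases pair3 ha haM hx hy hxy with ⟨i, d, rfl, hd, rfl⟩ | ⟨i, d, rfl, rfl⟩ |
      ⟨j, d, hj, rfl, hd, h⟩ | ⟨j, d, hj, rfl, hd, rfl⟩
    · rw [hg1, r3a haM]; have e1 := mc i M; have e2 := mc d M; omega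
    · rw [hg1, r3a haM]; have e1 := mc i M; have e2 := mc d M; omega
    · rw [hg2, r3b haM n1]; have e1 := mc j M; have e2 := mc d M; omega
    · rw [hg2, r3b haM n1]; have e1 := mc j M; have e2 := mc d M; omega
  have hq : ∀ x y, x < y → P3 M a x → P3 M a y → x + y ≤ 4 * a + 5 * M →
      x + r3 M a x ≤ y → x + g x ≤ y := by
    intro x y hxy hx hy hs
    rcases pair3 ha haM hx hy hxy with ⟨i, d, rfl, hd, rfl⟩ | ⟨i, d, rfl, rfl⟩ |
      ⟨j, d, hj, rfl, hd, h⟩ | ⟨j, d, hj, rfl, hd, rfl⟩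
    · rw [hg1, r3a haM]; have e1 := mc i M; have e2 := mc d M; omega
    · rw [hg1, r3a haM]; have e1 := mc i M; have e2 := mc d M; omega
    · rw [hg2, r3b haM n1]; have e1 := mc j M; have e2 := mc d M; omega
    · rw [hg2, r3b haM n1]; have e1 := mc j M; have e2 := mc d M; omega
  have hag := agree h0 (fun x hx => lt_of_lt_of_le ha (P3_pos ha hx)) (4 * a + 5 * M)
    (fun m _ => (hc m).trans (ref3 ha haM n1 m).symm) hp
  have hnp : ¬ P3 M a (4 * a + 5 * M) := by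
    intro h
    have h' : P3 M a (4 * a + 5 * M) := by
      have e : 4 * a + 5 * M = 4 * a + 5 * M := by ring
      rw [e]; exact h
    exact np3_4 n2 n3 _ h'
  have hu : P3 M a (2 * a + 1 * M) := Or.inr ⟨1, by norm_num, rfl⟩
  have hv : P3 M a (2 * a + 4 * M) := Or.inr ⟨4, by norm_num, rfl⟩
  refine extra_false (fun x hx => lt_of_lt_of_le ha (P3_pos ha hx)) ((hc _).trans (ref3 ha haM n1 _).symm)
    hag hnp hq (u := 2 * a + 1 * M) (v := 2 * a + 4 * M) (by omega) hu hv (by ring) ?_ ?_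
  · rw [hg2]; omega
  · rw [r3b haM n1]; omega

lemma c2ex (ha : 0 < a) (haM : a < M) (n1 : ¬ M ∣ a)
    (n2 : ¬ M ∣ 2 * a) (n3 : ¬ M ∣ 3 * a) (hg1 : ∀ i, g (a + i * M) = β1)
    (hg2 : ∀ j, g (2 * a + j * M) = β2) (h0 : ∀ x, P x → 0 < x)
    (hc : ∀ n, cnt g P n = cnt (fun _ => 1) (PA M a) n)
    (b1 : M + a < β1) (b1' : β1 ≤ 2 * M) (b2 : 2 * M < β2) (b2' : β2 + a ≤ 3 * M) (x : ℕ) : P x ↔ P2 M a x := by
  have hp : ∀ x y, x < y → P2 M a x → P2 M a y → (x + g x ≤ y ↔ x + r2 M a x ≤ y) := by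
    intro x y hxy hx hy
    rcases pair2 ha haM n1 hx hy hxy with ⟨i, d, rfl, hd, rfl⟩ | ⟨i, d, rfl, rfl⟩ |
      ⟨j, d, hj, rfl, hd, h⟩ | ⟨j, d, hj, rfl, hd, rfl⟩
    · rw [hg1, r2a haM]; have e2 := mc d M; omega
    · rw [hg1, r2a haM]; have e2 := mc d M; omega
    · rw [hg2, r2b haM n1]; have e2 := mc d M; omega
    · rw [hg2, r2b haM n1]; have e2 := mc d M; omega
  exact agree h0 (fun x hx => lt_of_lt_of_le ha (P3_pos ha (P2_P3 hx))) (x + 1)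
    (fun m _ => (hc m).trans (ref2 ha haM n1 m).symm) (fun u v h1 h2 h3 _ => hp u v h1 h2 h3) x
    (Nat.lt_succ_self x)

lemma c3ex (ha : 0 < a) (haM : a < M) (n1 : ¬ M ∣ a)
    (n2 : ¬ M ∣ 2 * a) (n3 : ¬ M ∣ 3 * a) (hg1 : ∀ i, g (a + i * M) = β1)
    (hg2 : ∀ j, g (2 * a + j * M) = β2) (h0 : ∀ x, P x → 0 < x)
    (hc : ∀ n, cnt g P n = cnt (fun _ => 1) (PA M a) n)
    (b1 : 2 * M + a < β1) (b1' : β1 ≤ 3 * M) (b2 : 3 * M < β2) (b2' : β2 + a ≤ 4 * M) (x : ℕ) : P x ↔ P3 M a x := by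
  have hp : ∀ x y, x < y → P3 M a x → P3 M a y → (x + g x ≤ y ↔ x + r3 M a x ≤ y) := by
    intro x y hxy hx hy
    rcases pair3 ha haM hx hy hxy with ⟨i, d, rfl, hd, rfl⟩ | ⟨i, d, rfl, rfl⟩ |
      ⟨j, d, hj, rfl, hd, h⟩ | ⟨j, d, hj, rfl, hd, rfl⟩
    · rw [hg1, r3a haM]; have e2 := mc d M; omega
    · rw [hg1, r3a haM]; have e2 := mc d M; omega
    · rw [hg2, r3b haM n1]; have e2 := mc d M; omega
    · rw [hg2, r3b haM n1]; have e2 := mc d M; omega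
  exact agree h0 (fun x hx => lt_of_lt_of_le ha (P3_pos ha hx)) (x + 1)
    (fun m _ => (hc m).trans (ref3 ha haM n1 m).symm) (fun u v h1 h2 h3 _ => hp u v h1 h2 h3) x
    (Nat.lt_succ_self x)

lemma c4 (ha : 0 < a) (haM : a < M) (n1 : ¬ M ∣ a)
    (n2 : ¬ M ∣ 2 * a) (n3 : ¬ M ∣ 3 * a) (hg1 : ∀ i, g (a + i * M) = β1)
    (hg2 : ∀ j, g (2 * a + j * M) = β2) (h0 : ∀ x, P x → 0 < x)
    (hc : ∀ n, cnt g P n = cnt (fun _ => 1) (PA M a) n)
    (b1 : 3 * M < β1) (b2 : 1 ≤ β2) : False := by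
  have hp : ∀ x y, x < y → P3 M a x → P3 M a y → x + y < 2 * a + 3 * M →
      (x + g x ≤ y ↔ x + r3 M a x ≤ y) := by
    intro x y hxy hx hy hs
    rcases pair3 ha haM hx hy hxy with ⟨i, d, rfl, hd, rfl⟩ | ⟨i, d, rfl, rfl⟩ |
      ⟨j, d, hj, rfl, hd, h⟩ | ⟨j, d, hj, rfl, hd, rfl⟩
    · rw [hg1, r3a haM]; have e1 := mc i M; have e2 := mc d M; omega
    · rw [hg1, r3a haM]; have e1 := mc i M; have e2 := mc d M; omega
    · rw [hg2, r3b haM n1]; have e1 := mc j M; have e2 := mc d M; omega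
    · rw [hg2, r3b haM n1]; have e1 := mc j M; have e2 := mc d M; omega
  have hq : ∀ x y, x < y → P3 M a x → P3 M a y → x + y ≤ 2 * a + 3 * M →
      x + g x ≤ y → x + r3 M a x ≤ y := by
    intro x y hxy hx hy hs
    rcases pair3 ha haM hx hy hxy with ⟨i, d, rfl, hd, rfl⟩ | ⟨i, d, rfl, rfl⟩ |
      ⟨j, d, hj, rfl, hd, h⟩ | ⟨j, d, hj, rfl, hd, rfl⟩
    · rw [hg1, r3a haM]; have e1 := mc i M; have e2 := mc d M; omega
    · rw [hg1, r3a haM]; have e1 := mc i M; have e2 := mc d M; omega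
    · rw [hg2, r3b haM n1]; have e1 := mc j M; have e2 := mc d M; omega
    · rw [hg2, r3b haM n1]; have e1 := mc j M; have e2 := mc d M; omega
  have hag := agree h0 (fun x hx => lt_of_lt_of_le ha (P3_pos ha hx)) (2 * a + 3 * M)
    (fun m _ => (hc m).trans (ref3 ha haM n1 m).symm) hp
  have hu : P3 M a (a + 0 * M) := Or.inl ⟨0, rfl⟩
  have hv : P3 M a (a + 3 * M) := Or.inl ⟨3, rfl⟩
  have := missing_new h0 (fun x hx => lt_of_lt_of_le ha (P3_pos ha hx))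
    ((hc _).trans (ref3 ha haM n1 _).symm) hag hq (u := a + 0 * M) (v := a + 3 * M) (by omega)
    hu hv (by ring) (by rw [r3a haM]; omega) (by rw [hg1]; omega)
  exact this.2 (Or.inr ⟨3, by norm_num, rfl⟩)

end

end P46788a
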