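import Pool.Agent.Lib.MP_46788a_nt.One2

/-!
# One residue class: the two long branches and the conclusion
-/

set_option linter.unusedVariables false

open Finset

namespace P46788a

lemma pair_mem {g : ℕ → ℕ} {P : ℕ → Prop} {u v n : ℕ} (huv : u < v) (hu : P u) (hv : P v)
    (hs : u + v = n) (h1 : u + g u ≤ v) : {u, v} ∈ adm g P n := by
  rw [mem_adm]
  refine ⟨⟨fun x hx => ?_, fun x hx y hy hxy => ?_⟩, by rw [Finset.sum_pair huv.ne]; exact hs⟩
  · rw [Finset.mem_insert, Finset.mem_singleton] at hx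
    rcases hx with rfl | rfl
    · exact hu
    · exact hv
  · rw [Finset.mem_insert, Finset.mem_singleton] at hx hy
    rcases hx with rfl | rfl <;> rcases hy with rfl | rfl
    · omega
    · exact h1
    · omega
    · omega

lemma pair_notMem_right {g : ℕ → ℕ} {P : ℕ → Prop} {u v n : ℕ} (hv : ¬ P v) :
    {u, v} ∉ adm g P n := fun h => hv ((mem_adm.1 h).1.1 v (by simp))

lemma pair_notMem_gap {g : ℕ → ℕ} {P : ℕ → Prop} {u v n : ℕ} (huv : u < v)
    (h : ¬ u + g u ≤ v) : {u, v} ∉ adm g P n :=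
  fun h' => h ((mem_adm.1 h').1.2 u (by simp) v (by simp) huv)

lemma eq_or_exists {T : Finset ℕ} {x : ℕ} (hx : x ∈ T) : T = {x} ∨ ∃ z ∈ T, z ≠ x := by
  by_cases h : ∃ z ∈ T, z ≠ x
  · exact Or.inr h
  · left
    push Not at h
    ext z
    rw [Finset.mem_singleton]
    exact ⟨fun hz => h z hz, fun hz => hz ▸ hx⟩

/-- small parts of the Sylvester type system -/
lemma P3_small {M a z : ℕ} (ha : 0 < a) (haM : a < M) (hz : P3 M a z) (h : z < 2 * a + M) :
    z = a ∨ z = a + M := by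
  rcases hz with ⟨i, rfl⟩ | ⟨j, hj, rfl⟩
  · have := mc i M; omega
  · have := mc j M; omega

section

variable {M a β1 β2 : ℕ} {g : ℕ → ℕ} {P : ℕ → Prop} {N₀ : ℕ}

lemma c2miss (ha : 0 < a) (haM : a < M) (n1 : ¬ M ∣ a)
    (n2 : ¬ M ∣ 2 * a) (n3 : ¬ M ∣ 3 * a) (hg1 : ∀ i, g (a + i * M) = β1)
    (hg2 : ∀ j, g (2 * a + j * M) = β2) (h0 : ∀ x, P x → 0 < x)
    (hc : ∀ n, cnt g P n = cnt (fun _ => 1) (PA M a) n)
    (b1 : M + a < β1) (b1' : β1 ≤ 2 * M) (b2 : 3 * M < β2 + a) : False := by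
  have hp : ∀ x y, x < y → P2 M a x → P2 M a y → x + y < 3 * a + 5 * M →
      (x + g x ≤ y ↔ x + r2 M a x ≤ y) := by
    intro x y hxy hx hy hs
    rcases pair2 ha haM n1 hx hy hxy with ⟨i, d, rfl, hd, rfl⟩ | ⟨i, d, rfl, rfl⟩ |
      ⟨j, d, hj, rfl, hd, h⟩ | ⟨j, d, hj, rfl, hd, rfl⟩
    · rw [hg1, r2a haM]; have e1 := mc i M; have e2 := mc d M; omega
    · rw [hg1, r2a haM]; have e1 := mc i M; have e2 := mc d M; omega
    · rw [hg2, r2b haM n1]; have e1 := mc j M; have e2 := mc d M; omega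
    · rw [hg2, r2b haM n1]; have e1 := mc j M; have e2 := mc d M; omega
  have hq : ∀ x y, x < y → P2 M a x → P2 M a y → x + y ≤ 3 * a + 5 * M →
      x + g x ≤ y → x + r2 M a x ≤ y := by
    intro x y hxy hx hy hs
    rcases pair2 ha haM n1 hx hy hxy with ⟨i, d, rfl, hd, rfl⟩ | ⟨i, d, rfl, rfl⟩ |
      ⟨j, d, hj, rfl, hd, h⟩ | ⟨j, d, hj, rfl, hd, rfl⟩
    · rw [hg1, r2a haM]; have e1 := mc i M; have e2 := mc d M; omega
    · rw [hg1, r2a haM]; have e1 := mc i M; have e2 := mc d M; omega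
    · rw [hg2, r2b haM n1]; have e1 := mc j M; have e2 := mc d M; omega
    · rw [hg2, r2b haM n1]; have e1 := mc j M; have e2 := mc d M; omega
  have h0' : ∀ x, P2 M a x → 0 < x := fun x hx => lt_of_lt_of_le ha (P3_pos ha (P2_P3 hx))
  have hag := agree h0 h0' (3 * a + 5 * M) (fun m _ => (hc m).trans (ref2 ha haM n1 m).symm) hp
  have hu : P2 M a (2 * a + 1 * M) := Or.inr ⟨0, rfl⟩
  have hv : P2 M a (a + 4 * M) := Or.inl ⟨4, rfl⟩
  have hf := (missing_new h0 h0' ((hc _).trans (ref2 ha haM n1 _).symm) hag hq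
    (u := 2 * a + 1 * M) (v := a + 4 * M) (by omega) hu hv (by ring)
    (by rw [r2b haM n1]; omega) (by rw [hg2]; omega)).1
  -- the contradiction at `4 a + 5 M`
  have hsub : adm (r2 M a) (P2 M a) (4 * a + 5 * M) ⊆ adm g P (4 * a + 5 * M) := by
    intro T hT
    have hT' := mem_adm.1 hT
    have hlt : ∀ x ∈ T, x < 3 * a + 5 * M := by
      intro x hx
      by_contra hge
      rcases eq_or_exists hx with h | ⟨z, hz, hzx⟩
      · have h1 := hT'.2
        rw [h, Finset.sum_singleton] at h1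
        exact np3_4 n2 n3 5 (h1 ▸ P2_P3 (hT'.1.1 x hx))
      · have h1 := add_le_of_mem hT hx hz hzx.symm
        have h2 := P3_pos ha (P2_P3 (hT'.1.1 z hz))
        have h3 := pair_sum hT hx hz hzx.symm (fun w hw _ _ => by
          have := P3_pos ha (P2_P3 (hT'.1.1 w hw)); omega)
        have h4 := hT'.2
        rw [h3, Finset.sum_pair hzx.symm] at h4
        have h5 : x = 3 * a + 5 * M := by omega
        exact np3_3 n1 n2 5 (h5 ▸ P2_P3 (hT'.1.1 x hx))
    refine mem_adm.2 ⟨⟨fun x hx => (hag x (hlt x hx)).2 (hT'.1.1 x hx), ?_⟩, hT'.2⟩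
    intro x hx y hy hxy
    by_contra hno
    have hr := hT'.1.2 x hx y hy hxy
    have hs := add_le_of_mem hT hx hy hxy.ne
    have hPx := hT'.1.1 x hx
    have hPy := hT'.1.1 y hy
    rcases pair2 ha haM n1 hPx hPy hxy with ⟨i, d, rfl, hd, rfl⟩ | ⟨i, d, rfl, rfl⟩ |
      ⟨j, d, hj, hx2, hd, h⟩ | ⟨j, d, hj, hx2, hd, hy2⟩
    · rw [r2a haM] at hr; rw [hg1] at hno; have e2 := mc d M; omega
    · rw [r2a haM] at hr; rw [hg1] at hno; have e2 := mc d M; omega
    · have hr' : x + (3 * M - a) ≤ y := by rw [hx2, r2b haM n1, ← hx2] at hr; exact hr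
      have e : x = 2 * a + M ∧ y = a + 4 * M := by
        have e1 := mc j M; have e2 := mc d M; omega
      have h3 := pair_sum hT hx hy hxy.ne (fun z hz hzx hzy => by
        have hz1 := P3_pos ha (P2_P3 (hT'.1.1 z hz))
        have hz2 : z ≠ a := by
          rintro rfl
          have h4 := hT'.1.2 z hz x hx (by omega)
          have h5 := r2a haM 0
          rw [zero_mul, add_zero] at h5
          rw [h5] at h4
          omega
        omega)
      have h4 := hT'.2
      rw [h3, Finset.sum_pair hxy.ne] at h4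
      omega
    · have hr' : x + (3 * M - a) ≤ y := by rw [hx2, r2b haM n1, ← hx2] at hr; exact hr
      have e : y = 2 * a + 4 * M := by
        have e1 := mc j M; have e2 := mc d M; omega
      have := np2_even ha haM n1 2
      exact this (by rw [e] at hPy; exact hPy)
  have ha0 : P a := (hag a (by omega)).2 (Or.inl ⟨0, by ring⟩)
  have hga : g a = β1 := by have := hg1 0; rwa [zero_mul, add_zero] at this
  have hmem : {a, 3 * a + 5 * M} ∈ adm g P (4 * a + 5 * M) :=
    pair_mem (by omega) ha0 hf (by ring) (by rw [hga]; omega)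
  have hnot : {a, 3 * a + 5 * M} ∉ adm (r2 M a) (P2 M a) (4 * a + 5 * M) :=
    pair_notMem_right (fun h => np3_3 n1 n2 5 (P2_P3 h))
  have h1 := Finset.card_lt_card (Finset.ssubset_iff_subset_ne.2 ⟨hsub, fun h => hnot (h ▸ hmem)⟩)
  have h2 := (hc (4 * a + 5 * M)).trans (ref2 ha haM n1 _).symm
  unfold cnt at h2
  omega

lemma c3miss (ha : 0 < a) (haM : a < M) (n1 : ¬ M ∣ a)
    (n2 : ¬ M ∣ 2 * a) (n3 : ¬ M ∣ 3 * a) (hg1 : ∀ i, g (a + i * M) = β1)
    (hg2 : ∀ j, g (2 * a + j * M) = β2) (h0 : ∀ x, P x → 0 < x)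
    (hc : ∀ n, cnt g P n = cnt (fun _ => 1) (PA M a) n)
    (b1 : 2 * M + a < β1) (b1' : β1 ≤ 3 * M) (b2 : 4 * M < β2 + a) : False := by
  have hp : ∀ x y, x < y → P3 M a x → P3 M a y → x + y < 3 * a + 6 * M →
      (x + g x ≤ y ↔ x + r3 M a x ≤ y) := by
    intro x y hxy hx hy hs
    rcases pair3 ha haM hx hy hxy with ⟨i, d, rfl, hd, rfl⟩ | ⟨i, d, rfl, rfl⟩ |
      ⟨j, d, hj, rfl, hd, h⟩ | ⟨j, d, hj, rfl, hd, rfl⟩
    · rw [hg1, r3a haM]; have e1 := mc i M; have e2 := mc d M; omega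
    · rw [hg1, r3a haM]; have e1 := mc i M; have e2 := mc d M; omega
    · rw [hg2, r3b haM n1]; have e1 := mc j M; have e2 := mc d M; omega
    · rw [hg2, r3b haM n1]; have e1 := mc j M; have e2 := mc d M; omega
  have hq : ∀ x y, x < y → P3 M a x → P3 M a y →
      x + g x ≤ y → x + r3 M a x ≤ y := by
    intro x y hxy hx hy
    rcases pair3 ha haM hx hy hxy with ⟨i, d, rfl, hd, rfl⟩ | ⟨i, d, rfl, rfl⟩ |
      ⟨j, d, hj, rfl, hd, h⟩ | ⟨j, d, hj, rfl, hd, rfl⟩
    · rw [hg1, r3a haM]; have e2 := mc d M; omega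
    · rw [hg1, r3a haM]; have e2 := mc d M; omega
    · rw [hg2, r3b haM n1]; have e2 := mc d M; omega
    · rw [hg2, r3b haM n1]; have e2 := mc d M; omega
  have h0' : ∀ x, P3 M a x → 0 < x := fun x hx => lt_of_lt_of_le ha (P3_pos ha hx)
  have hag := agree h0 h0' (3 * a + 6 * M) (fun m _ => (hc m).trans (ref3 ha haM n1 m).symm) hp
  have hu : P3 M a (2 * a + 1 * M) := Or.inr ⟨1, le_rfl, rfl⟩
  have hv : P3 M a (a + 5 * M) := Or.inl ⟨5, rfl⟩
  have hf := (missing_new h0 h0' ((hc _).trans (ref3 ha haM n1 _).symm) hag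
    (fun x y h1 h2 h3 _ => hq x y h1 h2 h3)
    (u := 2 * a + 1 * M) (v := a + 5 * M) (by omega) hu hv (by ring)
    (by rw [r3b haM n1]; omega) (by rw [hg2]; omega)).1
  have ha0 : P a := (hag a (by omega)).2 (Or.inl ⟨0, by ring⟩)
  have ha1 : P (a + M) := (hag (a + M) (by omega)).2 (Or.inl ⟨1, by ring⟩)
  have hga : g a = β1 := by have := hg1 0; rwa [zero_mul, add_zero] at this
  have hga1 : g (a + M) = β1 := by have := hg1 1; rwa [one_mul] at this
  have hra : r3 M a a = 3 * M := by have := r3a haM 0; rwa [zero_mul, add_zero] at this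
  have hra1 : r3 M a (a + M) = 3 * M := by have := r3a haM 1; rwa [one_mul] at this
  -- parts of sets of sum `4 a + 7 M` in the reference system
  have hlt : ∀ T ∈ adm (r3 M a) (P3 M a) (4 * a + 7 * M), ∀ x ∈ T, x < 3 * a + 6 * M := by
    intro T hT x hx
    have hT' := mem_adm.1 hT
    by_contra hge
    rcases eq_or_exists hx with h | ⟨z, hz, hzx⟩
    · have h1 := hT'.2
      rw [h, Finset.sum_singleton] at h1
      exact np3_4 n2 n3 7 (h1 ▸ hT'.1.1 x hx)
    · have h1 := add_le_of_mem hT hx hz hzx.symm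
      have hz' := P3_small ha haM (hT'.1.1 z hz) (by omega)
      have h3 := pair_sum hT hx hz hzx.symm (fun w hw hwx hwz => by
        have h4 := add_le_of_mem hT hx hw hwx.symm
        have h5 := P3_small ha haM (hT'.1.1 w hw) (by omega)
        omega)
      have h4 := hT'.2
      rw [h3, Finset.sum_pair hzx.symm] at h4
      rcases hz' with h5 | h5
      · have h6 : x = 3 * a + 7 * M := by omega
        exact np3_3 n1 n2 7 (h6 ▸ hT'.1.1 x hx)
      · have h6 : x = 3 * a + 6 * M := by omega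
        exact np3_3 n1 n2 6 (h6 ▸ hT'.1.1 x hx)
  -- membership in the unknown system
  have hmain : ∀ T ∈ adm (r3 M a) (P3 M a) (4 * a + 7 * M),
      (T ≠ {2 * a + M, 2 * a + 6 * M} ∨ β2 ≤ 5 * M) → T ∈ adm g P (4 * a + 7 * M) := by
    intro T hT hex
    have hT' := mem_adm.1 hT
    refine mem_adm.2 ⟨⟨fun x hx => (hag x (hlt T hT x hx)).2 (hT'.1.1 x hx), ?_⟩, hT'.2⟩
    intro x hx y hy hxy
    by_contra hno
    have hr := hT'.1.2 x hx y hy hxy
    have hs := add_le_of_mem hT hx hy hxy.ne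
    have hPx := hT'.1.1 x hx
    have hPy := hT'.1.1 y hy
    -- if `x = 2 a + M` and `x + y ≥ 3 a + 6 M` then `T = {x, y}`
    have hpair : x = 2 * a + M → 3 * a + 6 * M ≤ x + y → T = {x, y} := by
      intro hx2 hxy2
      refine pair_sum hT hx hy hxy.ne (fun z hz hzx hzy => ?_)
      by_cases hz3 : z < 2 * a + M
      · exfalso
        rcases P3_small ha haM (hT'.1.1 z hz) hz3 with h5 | h5
        · have h6 := hT'.1.2 z hz x hx (by omega)
          rw [h5, hra] at h6
          omega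
        · have h6 := hT'.1.2 z hz x hx (by omega)
          rw [h5, hra1] at h6
          omega
      · omega
    rcases pair3 ha haM hPx hPy hxy with ⟨i, d, rfl, hd, rfl⟩ | ⟨i, d, rfl, rfl⟩ |
      ⟨j, d, hj, hx2, hd, h⟩ | ⟨j, d, hj, hx2, hd, hy2⟩
    · rw [r3a haM] at hr; rw [hg1] at hno; have e2 := mc d M; omega
    · rw [r3a haM] at hr; rw [hg1] at hno; have e2 := mc d M; omega
    · have hr' : x + (4 * M - a) ≤ y := by rw [hx2, r3b haM n1, ← hx2] at hr; exact hr
      have e : x = 2 * a + M ∧ (y = a + 5 * M ∨ y = a + 6 * M) := by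
        have e1 := mc j M; have e2 := mc d M; omega
      have h3 := hpair e.1 (by omega)
      have h4 := hT'.2
      rw [h3, Finset.sum_pair hxy.ne] at h4
      omega
    · have hr' : x + (4 * M - a) ≤ y := by rw [hx2, r3b haM n1, ← hx2] at hr; exact hr
      have hno' : ¬ x + β2 ≤ y := by
        have : g x = β2 := by rw [hx2, hg2]
        rw [this] at hno; exact hno
      have e : x = 2 * a + M ∧ (y = 2 * a + 5 * M ∨ y = 2 * a + 6 * M) := by
        have e1 := mc j M; have e2 := mc d M; omega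
      have h3 := hpair e.1 (by omega)
      have h4 := hT'.2
      rw [h3, Finset.sum_pair hxy.ne] at h4
      have h5 : y = 2 * a + 6 * M := by omega
      rcases hex with h6 | h6
      · apply h6; rw [h3, e.1, h5]
      · omega
  have hE1 : {a + M, 3 * a + 6 * M} ∈ adm g P (4 * a + 7 * M) :=
    pair_mem (by omega) ha1 hf (by ring) (by rw [hga1]; omega)
  have hE1' : {a + M, 3 * a + 6 * M} ∉ adm (r3 M a) (P3 M a) (4 * a + 7 * M) :=
    pair_notMem_right (np3_3 n1 n2 6)
  have hcc := (hc (4 * a + 7 * M)).trans (ref3 ha haM n1 _).symm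
  unfold cnt at hcc
  rcases Nat.lt_or_ge (5 * M) β2 with hb | hb
  swap
  · have hsub : adm (r3 M a) (P3 M a) (4 * a + 7 * M) ⊆ adm g P (4 * a + 7 * M) :=
      fun T hT => hmain T hT (Or.inr hb)
    have h1 := Finset.card_lt_card
      (Finset.ssubset_iff_subset_ne.2 ⟨hsub, fun h => hE1' (h ▸ hE1)⟩)
    omega
  -- the second new part
  have hf' : P (3 * a + 7 * M) := by
    by_contra hnf
    have hsub : adm g P (3 * a + 7 * M) ⊆ adm (r3 M a) (P3 M a) (3 * a + 7 * M) := by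
      intro T hT
      have hT' := mem_adm.1 hT
      have hle : ∀ x ∈ T, P3 M a x := by
        intro x hx
        rcases Nat.lt_or_ge x (3 * a + 6 * M) with hxf | hxf
        · exact (hag x hxf).1 (hT'.1.1 x hx)
        · rcases eq_or_exists hx with h | ⟨z, hz, hzx⟩
          · have h1 := hT'.2
            rw [h, Finset.sum_singleton] at h1
            exact absurd (h1 ▸ hT'.1.1 x hx) hnf
          · have small : ∀ w ∈ T, w ≠ x → w = a := by
              intro w hw hwx
              have h1 := add_le_of_mem hT hx hw hwx.symm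
              have h2 := (hag w (by omega)).1 (hT'.1.1 w hw)
              have h3 := P3_small ha haM h2 (by omega)
              omega
            have hza := small z hz hzx
            have h3 := pair_sum hT hx hz hzx.symm (fun w hw hwx hwz => by
              have := small w hw hwx
              omega)
            have h4 := hT'.2
            rw [h3, Finset.sum_pair hzx.symm] at h4
            exact Or.inr ⟨7, by norm_num, by omega⟩
      refine mem_adm.2 ⟨⟨hle, fun x hx y hy hxy => ?_⟩, hT'.2⟩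
      exact hq x y hxy (hle x hx) (hle y hy) (hT'.1.2 x hx y hy hxy)
    have hPv : P3 M a (a + 6 * M) := Or.inl ⟨6, rfl⟩
    have hmem : {2 * a + 1 * M, a + 6 * M} ∈ adm (r3 M a) (P3 M a) (3 * a + 7 * M) :=
      pair_mem (by omega) hu hPv (by ring) (by rw [r3b haM n1]; omega)
    have hnot : {2 * a + 1 * M, a + 6 * M} ∉ adm g P (3 * a + 7 * M) :=
      pair_notMem_gap (by omega) (by rw [hg2]; omega)
    have h1 := Finset.card_lt_card
      (Finset.ssubset_iff_subset_ne.2 ⟨hsub, fun h => hnot (h ▸ hmem)⟩)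
    have h2 := (hc (3 * a + 7 * M)).trans (ref3 ha haM n1 _).symm
    unfold cnt at h2
    omega
  have hE2 : {a, 3 * a + 7 * M} ∈ adm g P (4 * a + 7 * M) :=
    pair_mem (by omega) ha0 hf' (by ring) (by rw [hga]; omega)
  have hE2' : {a, 3 * a + 7 * M} ∉ adm (r3 M a) (P3 M a) (4 * a + 7 * M) :=
    pair_notMem_right (np3_3 n1 n2 7)
  have hne : ({a + M, 3 * a + 6 * M} : Finset ℕ) ≠ {a, 3 * a + 7 * M} := by
    intro h
    have : a ∈ ({a + M, 3 * a + 6 * M} : Finset ℕ) := by rw [h]; simp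
    rw [Finset.mem_insert, Finset.mem_singleton] at this
    omega
  have hsub : insert {a + M, 3 * a + 6 * M} (insert {a, 3 * a + 7 * M}
      ((adm (r3 M a) (P3 M a) (4 * a + 7 * M)).erase {2 * a + M, 2 * a + 6 * M})) ⊆
      adm g P (4 * a + 7 * M) := by
    intro T hT
    rw [Finset.mem_insert, Finset.mem_insert, Finset.mem_erase] at hT
    rcases hT with rfl | rfl | ⟨h1, h2⟩
    · exact hE1
    · exact hE2
    · exact hmain T h2 (Or.inl h1)
  have h1 := Finset.card_le_card hsub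
  rw [Finset.card_insert_of_notMem, Finset.card_insert_of_notMem] at h1
  · have h2 := Finset.pred_card_le_card_erase
      (s := adm (r3 M a) (P3 M a) (4 * a + 7 * M)) (a := {2 * a + M, 2 * a + 6 * M})
    omega
  · rw [Finset.mem_erase]; exact fun h => hE2' h.2
  · rw [Finset.mem_insert, Finset.mem_erase]
    rintro (h | h)
    · exact hne h
    · exact hE1' h.2

/-- No solution with one residue class for `M ≥ 4`. -/
theorem one_false (hM : 4 ≤ M) (ha : 0 < a) (haM : a < M) (hco : Nat.Coprime a M)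
    (hg1 : ∀ i, g (a + i * M) = β1) (hg2 : ∀ j, g (2 * a + j * M) = β2) (hb1 : 1 ≤ β1)
    (hb2 : 1 ≤ β2) (h0 : ∀ x, P x → 0 < x) (hN : ∀ x, N₀ ≤ x → P x)
    (hc : ∀ n, cnt g P n = cnt (fun _ => 1) (PA M a) n) : False := by
  have n1 : ¬ M ∣ a := fun h => by have := Nat.le_of_dvd ha h; omega
  have n2 : ¬ M ∣ 2 * a := fun h => by
    have := Nat.le_of_dvd (by norm_num) (hco.symm.dvd_of_dvd_mul_right h); omega
  have n3 : ¬ M ∣ 3 * a := fun h => by
    have := Nat.le_of_dvd (by norm_num) (hco.symm.dvd_of_dvd_mul_right h); omega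
  have hbig : P (4 * a + N₀ * M) := hN _ (by nlinarith)
  rcases Nat.lt_or_ge M β1 with h1 | h1
  swap
  · -- trivial type
    have hA : ∀ x, P x ↔ PA M a x := by
      refine determ h0 (by rintro x ⟨i, rfl⟩; omega) (g := g) (fun n => ?_)
      rw [hc n]
      refine congrArg Finset.card (adm_eq (fun _ _ => Iff.rfl) ?_)
      rintro x y hxy ⟨i, rfl⟩ ⟨j, rfl⟩ _
      refine ⟨fun _ => ?_, fun _ => hxy⟩
      have hij : i < j := by
        by_contra h
        have := Nat.mul_le_mul_right M (not_lt.1 h)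
        omega
      have := Nat.mul_le_mul_right M (Nat.succ_le_of_lt hij)
      rw [Nat.succ_mul] at this
      rw [hg1]
      omega
    obtain ⟨i, hi⟩ := (hA _).1 hbig
    exact np3_4 n2 n3 N₀ (Or.inl ⟨i, hi⟩)
  rcases Nat.lt_or_ge (2 * M) β1 with h2 | h2
  swap
  · rcases Nat.lt_or_ge (M + a) β1 with h3 | h3
    swap
    · exact c2a ha haM n1 n2 n3 hg1 hg2 h0 hc h1 h3
    rcases Nat.lt_or_ge M (β2 + a) with h4 | h4
    swap
    · exact c2b1 ha haM n1 n2 n3 hg1 hg2 h0 hc h3 h2 hb2 h4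
    rcases Nat.lt_or_ge (2 * M) (β2 + a) with h5 | h5
    swap
    · exact c2b2 ha haM n1 n2 n3 hg1 hg2 h0 hc h3 h2 h4 h5
    rcases Nat.lt_or_ge (2 * M) β2 with h6 | h6
    swap
    · exact c2b3 ha haM n1 n2 n3 hg1 hg2 h0 hc h3 h2 h5 h6
    rcases Nat.lt_or_ge (3 * M) (β2 + a) with h7 | h7
    · exact c2miss ha haM n1 n2 n3 hg1 hg2 h0 hc h3 h2 h7
    · have := (c2ex ha haM n1 n2 n3 hg1 hg2 h0 hc h3 h2 h6 h7 _).1 hbig
      exact np3_4 n2 n3 N₀ (P2_P3 this)
  rcases Nat.lt_or_ge (3 * M) β1 with h3 | h3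
  · exact c4 ha haM n1 n2 n3 hg1 hg2 h0 hc h3 hb2
  rcases Nat.lt_or_ge (2 * M + a) β1 with h4 | h4
  swap
  · exact c3a ha haM n1 n2 n3 hg1 hg2 h0 hc h2 h4
  rcases Nat.lt_or_ge M (β2 + a) with h5 | h5
  swap
  · exact c3b1 ha haM n1 n2 n3 hg1 hg2 h0 hc h4 h3 hb2 h5
  rcases Nat.lt_or_ge M β2 with h6 | h6
  swap
  · exact c3b2 ha haM n1 n2 n3 hg1 hg2 h0 hc h4 h3 h5 h6
  rcases Nat.lt_or_ge (2 * M) (β2 + a) with h7 | h7
  swap
  · exact c3b3 ha haM n1 n2 n3 hg1 hg2 h0 hc h4 h3 h6 h7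
  rcases Nat.lt_or_ge (2 * M) β2 with h8 | h8
  swap
  · exact c3b4 ha haM n1 n2 n3 hg1 hg2 h0 hc h4 h3 h7 h8
  rcases Nat.lt_or_ge (3 * M) (β2 + a) with h9 | h9
  swap
  · exact c3b5 ha haM n1 n2 n3 hg1 hg2 h0 hc h4 h3 h8 h9
  rcases Nat.lt_or_ge (3 * M) β2 with h10 | h10
  swap
  · exact c3b6 ha haM n1 n2 n3 hg1 hg2 h0 hc h4 h3 h9 h10
  rcases Nat.lt_or_ge (4 * M) (β2 + a) with h11 | h11
  · exact c3miss ha haM n1 n2 n3 hg1 hg2 h0 hc h4 h3 h11
  · have := (c3ex ha haM n1 n2 n3 hg1 hg2 h0 hc h4 h3 h10 h11 _).1 hbig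
    exact np3_4 n2 n3 N₀ this

end

end P46788a
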