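import Pool.Agent.Lib.MP_46788a_nt.Sylv

/-!
# The reference system of Schur type
-/

open Finset PowerSeries

namespace P46788a

/-- the recurrence of Schur type, with its limit -/
structure ScSeq (M x y : ℕ) (E : ℕ → PowerSeries ℚ) : Prop where
  rc : ∀ n, E n = (1 + X ^ (x + n * M) + X ^ (y + n * M)) * E (n + 1) +
    X ^ (x + y + n * M) * (1 - X ^ ((n + 1) * M)) * E (n + 2)
  lim : ∀ n, X ^ (x + n * M) ∣ E n - 1

/-- the right side before division -/
noncomputable def scR (M x y : ℕ) (E : ℕ → PowerSeries ℚ) (n : ℕ) : PowerSeries ℚ :=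
  (1 + X ^ x + X ^ y) * E (n + 1) + X ^ (x + y) * (1 - X ^ ((n + 1) * M)) * E (n + 2)

/-- the next sequence (parameters `x + M`, `y + M`) -/
noncomputable def scNext (M x y : ℕ) (E : ℕ → PowerSeries ℚ) : ℕ → PowerSeries ℚ := fun n =>
  (1 + X ^ x : PowerSeries ℚ)⁻¹ * ((1 + X ^ y : PowerSeries ℚ)⁻¹ * scR M x y E n)

lemma scNext_mul {M x y : ℕ} (hx : 0 < x) (hy : 0 < y) (E : ℕ → PowerSeries ℚ) (n : ℕ) :
    (1 + X ^ x) * (1 + X ^ y) * scNext M x y E n = scR M x y E n := by
  have h1 := one_add_mul_inv hx ((1 + X ^ y : PowerSeries ℚ)⁻¹ * scR M x y E n)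
  have h2 := one_add_mul_inv hy (scR M x y E n)
  rw [mul_comm (1 + X ^ x : PowerSeries ℚ), mul_assoc]
  unfold scNext
  rw [h1, h2]

lemma scNext_seq {M x y : ℕ} (hx : 0 < x) (hxy : x ≤ y) {E : ℕ → PowerSeries ℚ}
    (h : ScSeq M x y E) : ScSeq M (x + M) (y + M) (scNext M x y E) := by
  have hy : 0 < y := by omega
  constructor
  · intro n
    refine mul_left_cancel₀ (mul_ne_zero (one_add_ne hx) (one_add_ne hy)) ?_
    have e0 := scNext_mul (M := M) hx hy E n
    have e1 := scNext_mul (M := M) hx hy E (n + 1)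
    have e2 := scNext_mul (M := M) hx hy E (n + 2)
    unfold scR at e0 e1 e2
    have r1 := h.rc (n + 1)
    have r2 := h.rc (n + 2)
    have a1 : (X : PowerSeries ℚ) ^ ((n + 1) * M) = X ^ (n * M) * X ^ M := by
      rw [← pow_add]; congr 1; ring
    have a2 : (X : PowerSeries ℚ) ^ ((n + 1 + 1) * M) = X ^ (n * M) * X ^ M * X ^ M := by
      rw [← pow_add, ← pow_add]; congr 1; ring
    have a3 : (X : PowerSeries ℚ) ^ ((n + 2 + 1) * M) = X ^ (n * M) * X ^ M * X ^ M * X ^ M := by
      rw [← pow_add, ← pow_add, ← pow_add]; congr 1; ring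
    have b1 : (X : PowerSeries ℚ) ^ (x + (n + 1) * M) = X ^ x * (X ^ (n * M) * X ^ M) := by
      rw [← pow_add, ← pow_add]; congr 1; ring
    have b2 : (X : PowerSeries ℚ) ^ (y + (n + 1) * M) = X ^ y * (X ^ (n * M) * X ^ M) := by
      rw [← pow_add, ← pow_add]; congr 1; ring
    have b3 : (X : PowerSeries ℚ) ^ (x + y + (n + 1) * M) =
        X ^ x * X ^ y * (X ^ (n * M) * X ^ M) := by
      rw [← pow_add, ← pow_add, ← pow_add]; congr 1; ring
    have b4 : (X : PowerSeries ℚ) ^ (x + (n + 2) * M) =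
        X ^ x * (X ^ (n * M) * X ^ M * X ^ M) := by
      rw [← pow_add, ← pow_add, ← pow_add]; congr 1; ring
    have b5 : (X : PowerSeries ℚ) ^ (y + (n + 2) * M) =
        X ^ y * (X ^ (n * M) * X ^ M * X ^ M) := by
      rw [← pow_add, ← pow_add, ← pow_add]; congr 1; ring
    have b6 : (X : PowerSeries ℚ) ^ (x + y + (n + 2) * M) =
        X ^ x * X ^ y * (X ^ (n * M) * X ^ M * X ^ M) := by
      rw [← pow_add, ← pow_add, ← pow_add, ← pow_add]; congr 1; ring
    have c0 : (X : PowerSeries ℚ) ^ (x + y) = X ^ x * X ^ y := pow_add _ _ _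
    have c1 : (X : PowerSeries ℚ) ^ (x + M + n * M) = X ^ x * (X ^ (n * M) * X ^ M) := by
      rw [← pow_add, ← pow_add]; congr 1; ring
    have c2 : (X : PowerSeries ℚ) ^ (y + M + n * M) = X ^ y * (X ^ (n * M) * X ^ M) := by
      rw [← pow_add, ← pow_add]; congr 1; ring
    have c3 : (X : PowerSeries ℚ) ^ (x + M + (y + M) + n * M) =
        X ^ x * X ^ y * (X ^ (n * M) * X ^ M * X ^ M) := by
      rw [← pow_add, ← pow_add, ← pow_add, ← pow_add]; congr 1; ring
    rw [c0, a1] at e0
    rw [c0, a2] at e1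
    rw [c0, a3] at e2
    rw [b1, b2, b3, a2] at r1
    rw [b4, b5, b6, a3] at r2
    rw [c1, c2, c3, a1]
    generalize (X : PowerSeries ℚ) ^ x = u at *
    generalize (X : PowerSeries ℚ) ^ y = v at *
    generalize (X : PowerSeries ℚ) ^ (n * M) = w at *
    generalize (X : PowerSeries ℚ) ^ M = p at *
    linear_combination e0 - (1 + (u + v) * (w * p)) * e1 -
      u * v * (w * p * p) * (1 - w * p) * e2 + (1 + u + v) * r1 + u * v * (1 - w * p) * r2
  · intro n
    refine dvd_of_one_add hx (dvd_of_one_add hy ?_)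
    have e1 : (1 + X ^ y) * ((1 + X ^ x) * (scNext M x y E n - 1)) =
        scR M x y E n - (1 + X ^ x) * (1 + X ^ y) := by
      rw [← scNext_mul hx hy]; ring
    rw [e1]
    unfold scR
    have h1 := h.lim (n + 1)
    have h2 := h.lim (n + 2)
    have t1 : x + (n + 1) * M = x + M + n * M := by ring
    have t2 : x + (n + 2) * M = (x + M + n * M) + M := by ring
    rw [t1] at h1
    rw [t2, pow_add] at h2
    have h3 := (h1.mul_left (1 + X ^ x + X ^ y : PowerSeries ℚ))
    have h4 := (dvd_of_mul_right_dvd h2).mul_left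
      (X ^ (x + y) * (1 - X ^ ((n + 1) * M)) : PowerSeries ℚ)
    have h5 : (X : PowerSeries ℚ) ^ (x + M + n * M) ∣ X ^ (x + y) * X ^ ((n + 1) * M) := by
      rw [← pow_add]
      refine pow_dvd_pow _ ?_
      have : (n + 1) * M = n * M + M := by ring
      omega
    have h6 := dvd_sub (dvd_add h3 h4) h5
    convert h6 using 1
    rw [pow_add]
    ring

/-- the iterated sequences -/
noncomputable def scIter (M x y : ℕ) (E : ℕ → PowerSeries ℚ) : ℕ → ℕ → PowerSeries ℚ
  | 0 => E
  | k + 1 => scNext M (x + k * M) (y + k * M) (scIter M x y E k)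

lemma scIter_seq {M x y : ℕ} (hx : 0 < x) (hxy : x ≤ y) {E : ℕ → PowerSeries ℚ}
    (h : ScSeq M x y E) (k : ℕ) : ScSeq M (x + k * M) (y + k * M) (scIter M x y E k) := by
  induction k with
  | zero => simpa [scIter] using h
  | succ k ih =>
    have := scNext_seq (by omega) (by omega) ih
    have e : x + (k + 1) * M = x + k * M + M := by ring
    have e' : y + (k + 1) * M = y + k * M + M := by ring
    rw [e, e']
    exact this

/-- product formula for the Schur recurrence -/
theorem sc_prod {M x y : ℕ} (hx : 0 < x) (hxy : x ≤ y) (hM : 0 < M)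
    {E V : ℕ → PowerSeries ℚ} (h : ScSeq M x y E)
    (hV : ∀ k, V k = (1 + X ^ (x + k * M)) * (1 + X ^ (y + k * M)) * V (k + 1))
    (hV1 : ∀ k, X ^ k ∣ V k - 1) : E 0 = V 0 := by
  have h1 := prod_unique (fun k => (1 + X ^ (x + k * M)) * (1 + X ^ (y + k * M)))
    (fun k => scIter M x y E k 0) V ?_ hV ?_
  · simpa [scIter] using h1
  · intro k
    have hs := scIter_seq hx hxy h k
    have e0 := scNext_mul (M := M) (x := x + k * M) (y := y + k * M) (by omega) (by omega)
      (scIter M x y E k) 0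
    have r0 := hs.rc 0
    have q0 : scIter M x y E (k + 1) 0 =
      scNext M (x + k * M) (y + k * M) (scIter M x y E k) 0 := rfl
    simp only [q0, e0]
    rw [r0]
    unfold scR
    simp
  · intro k
    have hs := scIter_seq hx hxy h k
    have hk : k ≤ x + k * M := by nlinarith
    refine X_dvd_sub (W := 1) ?_ (hV1 k)
    refine dvd_trans (pow_dvd_pow _ ?_) (hs.lim 0)
    omega

/-- Reference system of Schur type. -/
theorem ref_schur {M x y : ℕ} (hx : 0 < x) (hxy : x < y) (hyM : y < M) {g : ℕ → ℕ}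
    {P : ℕ → Prop}
    (hP : ∀ z, P z ↔ (∃ i, z = x + i * M) ∨ (∃ i, z = y + i * M) ∨ ∃ i, z = x + y + i * M)
    (hg1 : ∀ i, y < g (x + i * M) ∧ g (x + i * M) ≤ M)
    (hg2 : ∀ i, M + x < g (y + i * M) + y ∧ g (y + i * M) ≤ M)
    (hg3 : ∀ i, M < g (x + y + i * M) ∧ g (x + y + i * M) + y ≤ 2 * M) (n : ℕ) :
    cnt g P n = cnt (fun _ => 1) (fun z => (∃ i, z = x + i * M) ∨ ∃ i, z = y + i * M) n := by
  have hM : 0 < M := by omega
  have np1 : ∀ m z, x + y + m * M < z → z < x + m * M + M → ¬ P z := by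
    intro m z h1 h2 h3
    rcases (hP z).1 h3 with ⟨i, rfl⟩ | ⟨i, rfl⟩ | ⟨i, rfl⟩ <;>
      rcases mul_lt_cases (i := i) (m := m) (M := M) with h | h <;> omega
  have np2 : ∀ m z, x + m * M < z → z < y + m * M → ¬ P z := by
    intro m z h1 h2 h3
    rcases (hP z).1 h3 with ⟨i, rfl⟩ | ⟨i, rfl⟩ | ⟨i, rfl⟩ <;>
      rcases mul_lt_cases (i := i) (m := m) (M := M) with h | h <;>
      rcases mul_lt_cases (i := m) (m := i) (M := M) with h' | h' <;> omega
  have np3 : ∀ m z, y + m * M < z → z < x + y + m * M → ¬ P z := by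
    intro m z h1 h2 h3
    rcases (hP z).1 h3 with ⟨i, rfl⟩ | ⟨i, rfl⟩ | ⟨i, rfl⟩ <;>
      rcases mul_lt_cases (i := i) (m := m) (M := M) with h | h <;>
      rcases mul_lt_cases (i := m) (m := i) (M := M) with h' | h' <;> omega
  have hPx : ∀ i, P (x + i * M) := fun i => (hP _).2 (Or.inl ⟨i, rfl⟩)
  have hPy : ∀ i, P (y + i * M) := fun i => (hP _).2 (Or.inr (Or.inl ⟨i, rfl⟩))
  have hPz : ∀ i, P (x + y + i * M) := fun i => (hP _).2 (Or.inr (Or.inr ⟨i, rfl⟩))
  -- the recursion
  have ex : ∀ n, F g P (x + n * M) = F g P (y + n * M) +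
      X ^ (x + n * M) * F g P (x + (n + 1) * M) := by
    intro n
    have g1 := hg1 n
    have e1 := F_pos (g := g) (k := x + n * M) (by omega) (hPx n)
    have e2 : F g P (x + n * M + 1) = F g P (y + n * M) :=
      F_skip (by omega) fun z h1 h2 => np2 n z (by omega) (by omega)
    have e3 : F g P (x + n * M + g (x + n * M)) = F g P (x + (n + 1) * M) := by
      have t : x + (n + 1) * M = x + n * M + M := by ring
      rw [t]
      exact F_skip (by omega) fun z h1 h2 => np1 n z (by omega) (by omega)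
    rw [e1, e2, e3]
  have ey : ∀ n, F g P (y + n * M) = F g P (x + y + n * M) +
      X ^ (y + n * M) * F g P (y + (n + 1) * M) := by
    intro n
    have g2 := hg2 n
    have e1 := F_pos (g := g) (k := y + n * M) (by omega) (hPy n)
    have e2 : F g P (y + n * M + 1) = F g P (x + y + n * M) :=
      F_skip (by omega) fun z h1 h2 => np3 n z (by omega) (by omega)
    have e3 : F g P (y + n * M + g (y + n * M)) = F g P (y + (n + 1) * M) := by
      have t : y + (n + 1) * M = y + n * M + M := by ring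
      have t2 : (n + 1) * M = n * M + M := by ring
      rw [t]
      exact F_skip (by omega) fun z h1 h2 => np2 (n + 1) z (by omega) (by omega)
    rw [e1, e2, e3]
  have ez : ∀ n, F g P (x + y + n * M) = F g P (x + (n + 1) * M) +
      X ^ (x + y + n * M) * F g P (x + (n + 2) * M) := by
    intro n
    have g3 := hg3 n
    have e1 := F_pos (g := g) (k := x + y + n * M) (by omega) (hPz n)
    have e2 : F g P (x + y + n * M + 1) = F g P (x + (n + 1) * M) := by
      have t : x + (n + 1) * M = x + n * M + M := by ring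
      rw [t]
      exact F_skip (by omega) fun z h1 h2 => np1 n z (by omega) (by omega)
    have e3 : F g P (x + y + n * M + g (x + y + n * M)) = F g P (x + (n + 2) * M) := by
      have t : x + (n + 2) * M = x + n * M + 2 * M := by ring
      have t2 : (n + 1) * M = n * M + M := by ring
      rw [t]
      exact F_skip (by omega) fun z h1 h2 => np1 (n + 1) z (by omega) (by omega)
    rw [e1, e2, e3]
  have hs : ScSeq M x y (fun n => F g P (x + n * M)) := by
    refine ⟨fun n => ?_, fun n => F_one (by omega) le_rfl⟩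
    have e1 := ex n
    have e2 := ey n
    have e3 := ez n
    have e4 := ex (n + 1)
    have p1 : (X : PowerSeries ℚ) ^ (x + (n + 1) * M) = X ^ x * (X ^ (n * M) * X ^ M) := by
      rw [← pow_add, ← pow_add]; congr 1; ring
    have p2 : (X : PowerSeries ℚ) ^ (x + n * M) = X ^ x * X ^ (n * M) := pow_add _ _ _
    have p3 : (X : PowerSeries ℚ) ^ (y + n * M) = X ^ y * X ^ (n * M) := pow_add _ _ _
    have p4 : (X : PowerSeries ℚ) ^ (x + y + n * M) = X ^ x * X ^ y * X ^ (n * M) := by
      rw [pow_add, pow_add]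
    have p5 : (X : PowerSeries ℚ) ^ ((n + 1) * M) = X ^ (n * M) * X ^ M := by
      rw [← pow_add]; congr 1; ring
    rw [p2] at e1
    rw [p3] at e2
    rw [p4] at e3
    rw [p1] at e4
    rw [p2, p3, p4, p5]
    linear_combination e1 + e2 + e3 - X ^ y * X ^ (n * M) * e4
  -- the product side
  set A : ℕ → Prop := fun z => (∃ i, z = x + i * M) ∨ ∃ i, z = y + i * M with hA
  have npA1 : ∀ m z, x + m * M < z → z < y + m * M → ¬ A z := by
    rintro m z h1 h2 (⟨i, rfl⟩ | ⟨i, rfl⟩) <;>
      rcases mul_lt_cases (i := i) (m := m) (M := M) with h | h <;>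
      rcases mul_lt_cases (i := m) (m := i) (M := M) with h' | h' <;> omega
  have npA2 : ∀ m z, y + m * M < z → z < x + m * M + M → ¬ A z := by
    rintro m z h1 h2 (⟨i, rfl⟩ | ⟨i, rfl⟩) <;>
      rcases mul_lt_cases (i := i) (m := m) (M := M) with h | h <;> omega
  have hV : ∀ k, F (fun _ => 1) A (x + k * M) =
      (1 + X ^ (x + k * M)) * (1 + X ^ (y + k * M)) * F (fun _ => 1) A (x + (k + 1) * M) := by
    intro k
    have e1 := F_pos (g := fun _ => 1) (P := A) (k := x + k * M) one_pos (Or.inl ⟨k, rfl⟩)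
    have e2 : F (fun _ => 1) A (x + k * M + 1) = F (fun _ => 1) A (y + k * M) :=
      F_skip (by omega) fun z h1 h2 => npA1 k z (by omega) (by omega)
    have e3 := F_pos (g := fun _ => 1) (P := A) (k := y + k * M) one_pos (Or.inr ⟨k, rfl⟩)
    have e4 : F (fun _ => 1) A (y + k * M + 1) = F (fun _ => 1) A (x + (k + 1) * M) := by
      have : x + (k + 1) * M = x + k * M + M := by ring
      rw [this]
      exact F_skip (by omega) fun z h1 h2 => npA2 k z (by omega) (by omega)
    rw [e1, e2, e3, e4]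
    ring
  have key := sc_prod hx hxy.le hM hs (V := fun k => F (fun _ => 1) A (x + k * M)) hV
    (fun k => F_one (by omega) (by nlinarith))
  simp only [zero_mul, add_zero] at key
  refine F_congr key ?_ ?_ n
  · intro z hz
    rcases (hP z).1 hz with ⟨i, rfl⟩ | ⟨i, rfl⟩ | ⟨i, rfl⟩ <;> omega
  · rintro z (⟨i, rfl⟩ | ⟨i, rfl⟩) <;> omega

end P46788a
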