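import Pool.Agent.Lib.MP_46788a_nt.Use

/-!
# The list of solutions in terms of residues
-/

open Finset

namespace P46788a

/-- the solutions with `M ≤ 5`, in terms of residues -/
def Sol (M sm : ℕ) (β : ℕ → ℕ) (P : ℕ → Prop) : Prop :=
  (sm = 2 ^ M - 1 ∧ (∀ r < M, β r = 1) ∧ ∀ x, P x ↔ 0 < x) ∨
  (M = 2 ∧ sm = 2 ∧ (β 1 = 6 ∧ β 0 = 7) ∧ ∀ x, P x ↔ 0 < x ∧ x ≠ 2) ∨
  (M = 3 ∧ sm = 6 ∧ (β 1 = 3 ∧ β 2 = 3 ∧ β 0 = 4) ∧ ∀ x, P x ↔ 0 < x) ∨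
  (M = 4 ∧ sm = 10 ∧ (β 1 = 6 ∧ β 2 = 7 ∧ β 3 = 6 ∧ β 0 = 7) ∧ ∀ x, P x ↔ 0 < x ∧ x ≠ 2) ∨
  (M = 4 ∧ sm = 7 ∧ (β 1 = 3 ∧ β 2 = 2 ∧ β 3 = 3 ∧ β 0 = 2) ∧ ∀ x, P x ↔ 0 < x) ∨
  (M = 4 ∧ sm = 7 ∧ (β 1 = 4 ∧ β 2 = 1 ∧ β 3 = 4 ∧ β 0 = 1) ∧ ∀ x, P x ↔ 0 < x) ∨
  (M = 4 ∧ sm = 13 ∧ (β 1 = 3 ∧ β 2 = 2 ∧ β 3 = 3 ∧ β 0 = 2) ∧ ∀ x, P x ↔ 2 ≤ x)

lemma SP_full (M x : ℕ) (hM : 1 ≤ M) : SP M (2 ^ M - 1) x ↔ 0 < x := by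
  unfold SP rs
  rw [Nat.testBit_two_pow_sub_one]
  have := Nat.mod_lt x (show 0 < M by omega)
  simp only [this, decide_true, true_and]
  exact Iff.rfl

lemma sol_full {M : ℕ} (hM : 1 ≤ M) {β : ℕ → ℕ} {P : ℕ → Prop} (hβ : ∀ r < M, 1 ≤ β r)
    (h0 : ∀ x, P x → 0 < x)
    (hc : ∀ n, cnt (gr M β) P n = cnt (fun _ => 1) (SP M (2 ^ M - 1)) n)
    {bx : List (ℕ × ℕ × ℕ)} (hbx : ∀ t ∈ bx, t.2.1 < β t.1 ∧ β t.1 ≤ t.2.2)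
    (hT : trivOK M (2 ^ M - 1) bx = true) (h1 : ∀ r < M, ∃ t ∈ bx, t.1 = r ∧ t.2.2 = 1) :
    Sol M (2 ^ M - 1) β P := by
  left
  refine ⟨rfl, fun r hr => ?_, fun x => ?_⟩
  · obtain ⟨t, ht, rfl, h3⟩ := h1 r hr
    have := (hbx t ht).2
    have := hβ _ hr
    omega
  · rw [use_triv hM h0 hc hbx hT, SP_full _ _ hM]

lemma gcd_false {M sm : ℕ} {β : ℕ → ℕ} {P : ℕ → Prop} {N₀ : ℕ} (g : ℕ) (hg : 2 ≤ g)
    (hM : 1 ≤ M) (hgM : g ∣ M) (hN : ∀ x, N₀ ≤ x → P x)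
    (hc : ∀ n, cnt (gr M β) P n = cnt (fun _ => 1) (SP M sm) n)
    (hsm : ∀ r < M, Nat.testBit sm r = true → g ∣ r) : False := by
  have h1 : P (1 + N₀ * M) := hN _ (by nlinarith)
  have h2 : 0 < cnt (gr M β) P (1 + N₀ * M) := Finset.card_pos.2 ⟨_, singleton_mem.2 h1⟩
  rw [hc] at h2
  obtain ⟨T, hT⟩ := Finset.card_pos.1 h2
  rw [mem_adm] at hT
  have h3 : g ∣ ∑ x ∈ T, x := by
    refine Finset.dvd_sum fun x hx => ?_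
    have h4 := hT.1.1 x hx
    have h5 := hsm (x % M) (Nat.mod_lt _ (by omega)) h4.1
    exact (Nat.dvd_mod_iff hgM).1 h5
  rw [hT.2] at h3
  have h4 : g ∣ N₀ * M := hgM.mul_left _
  have h5 := (Nat.dvd_add_left h4).1 h3
  have := Nat.le_of_dvd one_pos h5
  omega

lemma gr_odd {β : ℕ → ℕ} {v : ℕ} (h1 : β 1 = v) (h3 : β 3 = v) (x : ℕ) (hx : x % 2 = 1) :
    gr 4 β x = v := by
  unfold gr
  rcases (by omega : x % 4 = 1 ∨ x % 4 = 3) with h | h <;> rw [h] <;> assumption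

lemma gr_even {β : ℕ → ℕ} {v : ℕ} (h1 : β 2 = v) (h3 : β 0 = v) (x : ℕ) (hx : x % 2 = 0) :
    gr 4 β x = v := by
  unfold gr
  rcases (by omega : x % 4 = 2 ∨ x % 4 = 0) with h | h <;> rw [h] <;> assumption

lemma SP7 : SP 4 7 = fun x => 0 < x ∧ (x % 4 = 1 ∨ x % 2 = 0) := by
  funext x
  apply propext
  unfold SP rs
  have h4 : x % 4 < 4 := Nat.mod_lt _ (by norm_num)
  have h2 : x % 2 = (x % 4) % 2 := (Nat.mod_mod_of_dvd x (by norm_num)).symm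
  rw [h2]
  generalize x % 4 = r at h4
  interval_cases r <;> simp [Nat.testBit] <;> omega

lemma SP13 : SP 4 13 = fun x => 0 < x ∧ (x % 4 = 3 ∨ x % 2 = 0) := by
  funext x
  apply propext
  unfold SP rs
  have h4 : x % 4 < 4 := Nat.mod_lt _ (by norm_num)
  have h2 : x % 2 = (x % 4) % 2 := (Nat.mod_mod_of_dvd x (by norm_num)).symm
  rw [h2]
  generalize x % 4 = r at h4
  interval_cases r <;> simp [Nat.testBit] <;> omega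

lemma use_leb414 {β : ℕ → ℕ} {P : ℕ → Prop} (h0 : ∀ x, P x → 0 < x)
    (hc : ∀ n, cnt (gr 4 β) P n = cnt (fun _ => 1) (SP 4 7) n)
    (h1 : β 1 = 4) (h2 : β 2 = 1) (h3 : β 3 = 4) (h4 : β 0 = 1) (x : ℕ) : P x ↔ 0 < x := by
  refine determ (P' := fun x => 0 < x) h0 (fun x hx => hx) (g := gr 4 β) (fun n => ?_) x
  rw [hc n, SP7]
  exact (ref_414 (fun x => Iff.rfl) (gr_odd h1 h3) (fun x _ => gr_even h2 h4 x) n).symm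

lemma use_leb323a {β : ℕ → ℕ} {P : ℕ → Prop} (h0 : ∀ x, P x → 0 < x)
    (hc : ∀ n, cnt (gr 4 β) P n = cnt (fun _ => 1) (SP 4 7) n)
    (h1 : β 1 = 3) (h2 : β 2 = 2) (h3 : β 3 = 3) (h4 : β 0 = 2) (x : ℕ) : P x ↔ 0 < x := by
  refine determ (P' := fun x => 0 < x) h0 (fun x hx => hx) (g := gr 4 β) (fun n => ?_) x
  rw [hc n, SP7]
  exact (ref_323a (fun x => Iff.rfl) (gr_odd h1 h3) (fun x _ => gr_even h2 h4 x) n).symm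

lemma use_leb323b {β : ℕ → ℕ} {P : ℕ → Prop} (h0 : ∀ x, P x → 0 < x)
    (hc : ∀ n, cnt (gr 4 β) P n = cnt (fun _ => 1) (SP 4 13) n)
    (h1 : β 1 = 3) (h2 : β 2 = 2) (h3 : β 3 = 3) (h4 : β 0 = 2) (x : ℕ) : P x ↔ 2 ≤ x := by
  refine determ (P' := fun x => 2 ≤ x) h0 (fun x hx => by omega) (g := gr 4 β) (fun n => ?_) x
  rw [hc n, SP13]
  exact (ref_323b (fun x => Iff.rfl) (gr_odd h1 h3) (fun x _ => gr_even h2 h4 x) n).symm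

end P46788a
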