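import Pool.Agent.Lib.MP_46788a_nt.Gen

/-!
# The reference system of Sylvester type
-/

open Finset PowerSeries

namespace P46788a

/-- the recurrence of Sylvester type, with its limit -/
structure SySeq (M a : ℕ) (K : ℕ → PowerSeries ℚ) : Prop where
  rc : ∀ n, 1 ≤ n → K n = K (n + 1) + X ^ (a + n * M) * K (n + 3) +
    X ^ (2 * a + n * M) * K (n + 4)
  lim : ∀ n, X ^ (a + n * M) ∣ K n - 1

/-- the next sequence (parameter `a + M`) -/
noncomputable def syNext (a : ℕ) (K : ℕ → PowerSeries ℚ) : ℕ → PowerSeries ℚ := fun n =>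
  (1 + X ^ a : PowerSeries ℚ)⁻¹ * (K (n + 1) + X ^ a * K (n + 2))

lemma syNext_mul {a : ℕ} (ha : 0 < a) (K : ℕ → PowerSeries ℚ) (n : ℕ) :
    (1 + X ^ a) * syNext a K n = K (n + 1) + X ^ a * K (n + 2) :=
  one_add_mul_inv ha _

lemma syNext_seq {M a : ℕ} (ha : 0 < a) {K : ℕ → PowerSeries ℚ} (h : SySeq M a K) :
    SySeq M (a + M) (syNext a K) := by
  constructor
  · intro n _
    refine mul_left_cancel₀ (one_add_ne ha) ?_
    have e0 := syNext_mul ha K n
    have e1 := syNext_mul ha K (n + 1)
    have e3 := syNext_mul ha K (n + 3)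
    have e4 := syNext_mul ha K (n + 4)
    have r1 := h.rc (n + 1) (by omega)
    have r2 := h.rc (n + 2) (by omega)
    have p1 : (X : PowerSeries ℚ) ^ (a + (n + 1) * M) = X ^ a * X ^ (n * M) * X ^ M := by
      rw [← pow_add, ← pow_add]; congr 1; ring
    have p2 : (X : PowerSeries ℚ) ^ (2 * a + (n + 1) * M) =
        X ^ a * X ^ a * X ^ (n * M) * X ^ M := by
      rw [← pow_add, ← pow_add, ← pow_add]; congr 1; ring
    have p3 : (X : PowerSeries ℚ) ^ (a + (n + 2) * M) =
        X ^ a * X ^ (n * M) * X ^ M * X ^ M := by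
      rw [← pow_add, ← pow_add, ← pow_add]; congr 1; ring
    have p4 : (X : PowerSeries ℚ) ^ (2 * a + (n + 2) * M) =
        X ^ a * X ^ a * X ^ (n * M) * X ^ M * X ^ M := by
      rw [← pow_add, ← pow_add, ← pow_add, ← pow_add]; congr 1; ring
    have p5 : (X : PowerSeries ℚ) ^ (a + M + n * M) = X ^ a * X ^ (n * M) * X ^ M := by
      rw [← pow_add, ← pow_add]; congr 1; ring
    have p6 : (X : PowerSeries ℚ) ^ (2 * (a + M) + n * M) =
        X ^ a * X ^ a * X ^ (n * M) * X ^ M * X ^ M := by
      rw [← pow_add, ← pow_add, ← pow_add, ← pow_add]; congr 1; ring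
    rw [p1, p2] at r1
    rw [p3, p4] at r2
    rw [p5, p6]
    linear_combination e0 - e1 - X ^ a * X ^ (n * M) * X ^ M * e3 -
      X ^ a * X ^ a * X ^ (n * M) * X ^ M * X ^ M * e4 + r1 + X ^ a * r2
  · intro n
    refine dvd_of_one_add ha ?_
    rw [mul_sub, syNext_mul ha]
    have h1 := h.lim (n + 1)
    have h2 := h.lim (n + 2)
    have e1 : a + (n + 1) * M = a + M + n * M := by ring
    have e2 : a + (n + 2) * M = (a + M + n * M) + M := by ring
    rw [e1] at h1
    rw [e2, pow_add] at h2
    have h3 := (dvd_of_mul_right_dvd h2).mul_left (X ^ a : PowerSeries ℚ)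
    have h4 := dvd_add h1 h3
    convert h4 using 1
    ring

/-- the iterated sequences -/
noncomputable def syIter (M a : ℕ) (K : ℕ → PowerSeries ℚ) : ℕ → ℕ → PowerSeries ℚ
  | 0 => K
  | k + 1 => syNext (a + k * M) (syIter M a K k)

lemma syIter_seq {M a : ℕ} (ha : 0 < a) {K : ℕ → PowerSeries ℚ} (h : SySeq M a K) (k : ℕ) :
    SySeq M (a + k * M) (syIter M a K k) := by
  induction k with
  | zero => simpa [syIter] using h
  | succ k ih =>
    have := syNext_seq (by omega) ih
    have e : a + (k + 1) * M = a + k * M + M := by ring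
    rw [e]
    exact this

/-- product formula for the Sylvester recurrence -/
theorem sy_prod {M a : ℕ} (ha : 0 < a) (hM : 0 < M) {K V : ℕ → PowerSeries ℚ}
    (h : SySeq M a K) (hV : ∀ k, V k = (1 + X ^ (a + k * M)) * V (k + 1))
    (hV1 : ∀ k, X ^ k ∣ V k - 1) : K 1 + X ^ a * K 3 = V 0 := by
  have h1 := prod_unique (fun k => 1 + X ^ (a + k * M))
    (fun k => syIter M a K k 1 + X ^ (a + k * M) * syIter M a K k 3) V ?_ hV ?_
  · simpa [syIter] using h1
  · intro k
    have hs := syIter_seq ha h k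
    have hak : 0 < a + k * M := by omega
    have e1 := syNext_mul hak (syIter M a K k) 1
    have e3 := syNext_mul hak (syIter M a K k) 3
    have r1 := hs.rc 1 le_rfl
    have q1 : syIter M a K (k + 1) 1 = syNext (a + k * M) (syIter M a K k) 1 := rfl
    have q3 : syIter M a K (k + 1) 3 = syNext (a + k * M) (syIter M a K k) 3 := rfl
    rw [q1, q3]
    have p1 : (X : PowerSeries ℚ) ^ (a + k * M + 1 * M) = X ^ (a + k * M) * X ^ M := by
      rw [← pow_add]; congr 1; ring
    have p2 : (X : PowerSeries ℚ) ^ (2 * (a + k * M) + 1 * M) =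
        X ^ (a + k * M) * X ^ (a + k * M) * X ^ M := by
      rw [← pow_add, ← pow_add]; congr 1; ring
    have p3 : (X : PowerSeries ℚ) ^ (a + (k + 1) * M) = X ^ (a + k * M) * X ^ M := by
      rw [← pow_add]; congr 1; ring
    rw [p1, p2] at r1
    rw [p3]
    linear_combination r1 - e1 - X ^ (a + k * M) * X ^ M * e3
  · intro k
    have hs := syIter_seq ha h k
    have hk : k ≤ a + k * M := by nlinarith
    refine X_dvd_sub (W := 1) ?_ (hV1 k)
    have h1 : X ^ k ∣ syIter M a K k 1 - 1 := by
      refine dvd_trans (pow_dvd_pow _ ?_) (hs.lim 1)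
      omega
    have h2 : (X : PowerSeries ℚ) ^ k ∣ X ^ (a + k * M) * syIter M a K k 3 :=
      (pow_dvd_pow _ hk).mul_right _
    have h3 := dvd_add h1 h2
    convert h3 using 1
    ring

lemma mul_lt_cases {i m M : ℕ} : i * M ≤ m * M ∨ m * M + M ≤ i * M := by
  rcases Nat.lt_or_ge m i with h | h
  · right
    have := Nat.mul_le_mul_right M (Nat.succ_le_of_lt h)
    rw [Nat.succ_mul] at this
    exact this
  · left
    exact Nat.mul_le_mul_right M h

/-- Reference system of Sylvester type. -/
theorem ref_sylv {M a : ℕ} (ha : 0 < a) (haM : a < M) {g : ℕ → ℕ} {P : ℕ → Prop}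
    (hP : ∀ x, P x ↔ (∃ i, x = a + i * M) ∨ ∃ j, 1 ≤ j ∧ x = 2 * a + j * M)
    (hg1 : ∀ i, 2 * M + a < g (a + i * M) ∧ g (a + i * M) ≤ 3 * M)
    (hg2 : ∀ j, 1 ≤ j → 3 * M < g (2 * a + j * M) ∧ g (2 * a + j * M) + a ≤ 4 * M) (n : ℕ) :
    cnt g P n = cnt (fun _ => 1) (fun x => ∃ i, x = a + i * M) n := by
  have hM : 0 < M := by omega
  -- no part strictly between `2 a + m M` and `a + (m+1) M`
  have np1 : ∀ m x, 2 * a + m * M < x → x < a + m * M + M → ¬ P x := by
    intro m x h1 h2 h3
    rcases (hP x).1 h3 with ⟨i, rfl⟩ | ⟨j, _, rfl⟩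
    · rcases mul_lt_cases (i := i) (m := m) (M := M) with h | h <;> omega
    · rcases mul_lt_cases (i := j) (m := m) (M := M) with h | h <;> omega
  have np2 : ∀ m x, a + m * M < x → x < 2 * a + m * M → ¬ P x := by
    intro m x h1 h2 h3
    rcases (hP x).1 h3 with ⟨i, rfl⟩ | ⟨j, _, rfl⟩
    · rcases mul_lt_cases (i := i) (m := m) (M := M) with h | h <;> omega
    · rcases mul_lt_cases (i := j) (m := m) (M := M) with h | h
      · rcases mul_lt_cases (i := m) (m := j) (M := M) with h' | h' <;> omega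
      · omega
  have hPa : ∀ i, P (a + i * M) := fun i => (hP _).2 (Or.inl ⟨i, rfl⟩)
  have hP2 : ∀ j, 1 ≤ j → P (2 * a + j * M) := fun j hj => (hP _).2 (Or.inr ⟨j, hj, rfl⟩)
  have r : ∀ n, 1 ≤ n → F g P (a + n * M) = F g P (a + (n + 1) * M) +
      X ^ (a + n * M) * F g P (a + (n + 3) * M) +
      X ^ (2 * a + n * M) * F g P (a + (n + 4) * M) := by
    intro n hn
    have g1 := hg1 n
    have g2 := hg2 n hn
    have e1 := F_pos (g := g) (k := a + n * M) (by omega) (hPa n)
    have e2 : F g P (a + n * M + 1) = F g P (2 * a + n * M) :=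
      F_skip (by omega) fun x h1 h2 => np2 n x (by omega) (by omega)
    have e3 := F_pos (g := g) (k := 2 * a + n * M) (by omega) (hP2 n hn)
    have e4 : F g P (2 * a + n * M + 1) = F g P (a + (n + 1) * M) := by
      have : a + (n + 1) * M = a + n * M + M := by ring
      rw [this]
      exact F_skip (by omega) fun x h1 h2 => np1 n x (by omega) (by omega)
    have e5 : F g P (a + n * M + g (a + n * M)) = F g P (a + (n + 3) * M) := by
      have t1 : a + (n + 3) * M = a + n * M + 3 * M := by ring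
      have t2 : (n + 2) * M = n * M + 2 * M := by ring
      rw [t1]
      exact F_skip (by omega) fun x h1 h2 => np1 (n + 2) x (by omega) (by omega)
    have e6 : F g P (2 * a + n * M + g (2 * a + n * M)) = F g P (a + (n + 4) * M) := by
      have t1 : a + (n + 4) * M = a + n * M + 4 * M := by ring
      have t2 : (n + 3) * M = n * M + 3 * M := by ring
      rw [t1]
      exact F_skip (by omega) fun x h1 h2 => np1 (n + 3) x (by omega) (by omega)
    rw [e1, e2, e3, e4, e5, e6]
    ring
  have hs : SySeq M a (fun n => F g P (a + n * M)) :=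
    ⟨r, fun n => F_one (by omega) le_rfl⟩
  -- the product side
  set A : ℕ → Prop := fun x => ∃ i, x = a + i * M with hA
  have npA : ∀ m x, a + m * M < x → x < a + m * M + M → ¬ A x := by
    rintro m x h1 h2 ⟨i, rfl⟩
    rcases mul_lt_cases (i := i) (m := m) (M := M) with h | h <;> omega
  have hV : ∀ k, F (fun _ => 1) A (a + k * M) =
      (1 + X ^ (a + k * M)) * F (fun _ => 1) A (a + (k + 1) * M) := by
    intro k
    have e1 := F_pos (g := fun _ => 1) (P := A) (k := a + k * M) one_pos ⟨k, rfl⟩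
    have e2 : F (fun _ => 1) A (a + k * M + 1) = F (fun _ => 1) A (a + (k + 1) * M) := by
      have : a + (k + 1) * M = a + k * M + M := by ring
      rw [this]
      exact F_skip (by omega) fun x h1 h2 => npA k x (by omega) (by omega)
    rw [e1, e2]
    ring
  have key := sy_prod ha hM hs (V := fun k => F (fun _ => 1) A (a + k * M)) hV
    (fun k => F_one (by omega) (by nlinarith))
  simp only [zero_mul, add_zero] at key
  -- the left side
  have e0 := F_pos (g := g) (k := a) (by have := hg1 0; simp at this; omega)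
    (by simpa using hPa 0)
  have g0 := hg1 0
  simp only [zero_mul, add_zero] at g0
  have e1 : F g P (a + 1) = F g P (a + 1 * M) := by
    refine F_skip (by omega) fun x h1 h2 h3 => ?_
    rcases (hP x).1 h3 with ⟨i, rfl⟩ | ⟨j, hj, rfl⟩
    · rcases mul_lt_cases (i := i) (m := 0) (M := M) with h | h <;> omega
    · rcases mul_lt_cases (i := j) (m := 0) (M := M) with h | h
      · have := Nat.mul_le_mul_right M hj
        omega
      · omega
  have e3 : F g P (a + g a) = F g P (a + 3 * M) :=
    F_skip (by omega) fun x h1 h2 => np1 2 x (by omega) (by omega)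
  have e4 : F g P a = F (fun _ => 1) A a := by
    rw [e0, e1, e3]; exact key
  refine F_congr e4 ?_ ?_ n
  · intro x hx
    rcases (hP x).1 hx with ⟨i, rfl⟩ | ⟨j, hj, rfl⟩ <;> omega
  · rintro x ⟨i, rfl⟩; omega

end P46788a
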