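import Pool.Agent.Lib.MP_46788a_nt.Sol

/-!
# Searches and conclusions, modulus 1
-/

set_option maxRecDepth 100000
set_option linter.unusedVariables false

open Finset

namespace P46788a

theorem s1_1 :
    (chkA 1 1 [1, 1, 2, 2] 1 &&
      dfs 1 [[(0, 0, 1)]]
      [1, 1, 2, 2] 1 0
      [0]) = true := by
  decide +kernel

theorem c1_1 {β : ℕ → ℕ} {P : ℕ → Prop} {N₀ : ℕ} (hβ : ∀ r < 1, 1 ≤ β r)
    (h0 : ∀ x, P x → 0 < x) (hN : ∀ x, N₀ ≤ x → P x)
    (hc : ∀ n, cnt (gr 1 β) P n = cnt (fun _ => 1) (SP 1 1) n) : Sol 1 1 β P := by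
  obtain ⟨bx, h1, h2⟩ := search_sound (by norm_num) rfl s1_1 hβ h0 hc
  simp only [List.mem_cons, List.not_mem_nil, or_false] at h1
  subst h1
  exact sol_full (by norm_num) hβ h0 hc h2 (by decide +kernel) (by decide)

end P46788a
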