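import Pool.Agent.Lib.MP_46788a_nt.Dfs
import Pool.Agent.Lib.MP_46788a_nt.Leb2

/-!
# Consequences of the boxes
-/

open Finset

namespace P46788a

/-- the gap function of residues -/
def gr (M : ℕ) (β : ℕ → ℕ) (x : ℕ) : ℕ := β (x % M)

/-- box of the trivial type: after a part of class `r` every part of the product side is allowed -/
def trivOK (M sm : ℕ) (bx : List (ℕ × ℕ × ℕ)) : Bool :=
  (List.range M).all fun r => !Nat.testBit sm r || bx.any fun t =>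
    Nat.beq t.1 r && (List.range t.2.2).all fun d => Nat.beq d 0 || !Nat.testBit sm ((r + d) % M)

lemma use_triv {M sm : ℕ} (hM : 1 ≤ M) {β : ℕ → ℕ} {P : ℕ → Prop} (h0 : ∀ x, P x → 0 < x)
    (hc : ∀ n, cnt (gr M β) P n = cnt (fun _ => 1) (SP M sm) n)
    {bx : List (ℕ × ℕ × ℕ)} (hbx : ∀ t ∈ bx, t.2.1 < β t.1 ∧ β t.1 ≤ t.2.2)
    (hT : trivOK M sm bx = true) (x : ℕ) : P x ↔ SP M sm x := by
  have hp : ∀ x y, x < y → SP M sm x → SP M sm y → x + gr M β x ≤ y := by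
    intro x y hxy hx hy
    unfold trivOK at hT
    rw [List.all_eq_true] at hT
    have h1 := hT (x % M) (List.mem_range.2 (Nat.mod_lt _ (by omega)))
    have hx1 : Nat.testBit sm (x % M) = true := hx.1
    rw [hx1, Bool.not_true, Bool.false_or, List.any_eq_true] at h1
    obtain ⟨t, ht, h2⟩ := h1
    rw [Bool.and_eq_true, Nat.beq_eq, List.all_eq_true] at h2
    have h3 := (hbx t ht).2
    rw [h2.1] at h3
    unfold gr
    by_contra hlt
    have h4 := h2.2 (y - x) (List.mem_range.2 (by omega))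
    rw [Bool.or_eq_true, Nat.beq_eq] at h4
    rcases h4 with h4 | h4
    · omega
    · have e : (x % M + (y - x)) % M = y % M := by
        rw [Nat.mod_add_mod]
        congr 1
        omega
      rw [e] at h4
      have hy1 : Nat.testBit sm (y % M) = true := hy.1
      rw [hy1] at h4
      exact absurd h4 (by simp)
  refine determ h0 (fun x hx => hx.2) (g := gr M β) (fun n => ?_) x
  rw [hc n]
  unfold cnt
  rw [adm_eq (g := fun _ => 1) (g' := gr M β) (P := SP M sm) (P' := SP M sm)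
    (fun _ _ => Iff.rfl)]
  intro x y hxy hx hy _
  exact ⟨fun _ => hp x y hxy hx hy, fun _ => hxy⟩

lemma use_triv_false {M sm : ℕ} (hM : 1 ≤ M) {β : ℕ → ℕ} {P : ℕ → Prop}
    (h0 : ∀ x, P x → 0 < x) {N₀ : ℕ} (hN : ∀ x, N₀ ≤ x → P x)
    (hc : ∀ n, cnt (gr M β) P n = cnt (fun _ => 1) (SP M sm) n)
    {bx : List (ℕ × ℕ × ℕ)} (hbx : ∀ t ∈ bx, t.2.1 < β t.1 ∧ β t.1 ≤ t.2.2)
    (r : ℕ) (hT : (trivOK M sm bx && !Nat.testBit sm r && Nat.ble (r + 1) M) = true) : False := by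
  rw [Bool.and_eq_true, Bool.and_eq_true, Nat.ble_eq] at hT
  have h1 := (use_triv hM h0 hc hbx hT.1.1 (r + N₀ * M)).1 (hN _ (by nlinarith))
  have h2 : Nat.testBit sm ((r + N₀ * M) % M) = true := h1.1
  rw [Nat.add_mul_mod_self_right, Nat.mod_eq_of_lt (by omega)] at h2
  have h3 := hT.1.2
  rw [h2] at h3
  exact absurd h3 (by simp)

/-- membership in a residue class, as progression -/
lemma prog_iff {M a x : ℕ} (hM : 1 ≤ M) : (∃ i, x = a + i * M) ↔ a ≤ x ∧ x % M = a % M := by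
  constructor
  · rintro ⟨i, rfl⟩
    exact ⟨by omega, by rw [Nat.add_mul_mod_self_right]⟩
  · rintro ⟨h1, h2⟩
    refine ⟨(x - a) / M, ?_⟩
    have h3 : (x - a) % M = 0 := by
      have := (Nat.modEq_iff_dvd' h1).1 (show a ≡ x [MOD M] from h2.symm)
      exact Nat.mod_eq_zero_of_dvd this
    have h4 := Nat.div_add_mod (x - a) M
    rw [h3, add_zero] at h4
    rw [Nat.mul_comm] at h4
    omega

lemma use_sylv {M m a sm : ℕ} (ha : 0 < a) (ham : a < m) (hmM : m ∣ M) (hM : 1 ≤ M)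
    {β : ℕ → ℕ} {P : ℕ → Prop} (h0 : ∀ x, P x → 0 < x)
    (hc : ∀ n, cnt (gr M β) P n = cnt (fun _ => 1) (SP M sm) n)
    (hsm : ∀ r < M, (Nat.testBit sm r = true ↔ r % m = a))
    (hb1 : ∀ r < M, r % m = a → 2 * m + a < β r ∧ β r ≤ 3 * m)
    (hb2 : ∀ r < M, r % m = (2 * a) % m → 3 * m < β r ∧ β r + a ≤ 4 * m) (x : ℕ) :
    P x ↔ (∃ i, x = a + i * m) ∨ ∃ j, 1 ≤ j ∧ x = 2 * a + j * m := by
  have hm : 1 ≤ m := by omega
  set P' : ℕ → Prop := fun x => (∃ i, x = a + i * m) ∨ ∃ j, 1 ≤ j ∧ x = 2 * a + j * m with hP'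
  have hSP : SP M sm = fun x => ∃ i, x = a + i * m := by
    funext x
    apply propext
    rw [prog_iff hm]
    have h1 := hsm (x % M) (Nat.mod_lt _ (by omega))
    rw [Nat.mod_mod_of_dvd _ hmM] at h1
    rw [Nat.mod_eq_of_lt ham]
    unfold SP rs
    rw [h1]
    constructor
    · rintro ⟨h2, h3⟩
      refine ⟨?_, h2⟩
      rw [← h2]; exact Nat.mod_le _ _
    · rintro ⟨h2, h3⟩
      exact ⟨h3, by omega⟩
  refine determ h0 (P' := P') ?_ (g := gr M β) (fun n => ?_) x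
  · rintro x (⟨i, rfl⟩ | ⟨j, hj, rfl⟩) <;> omega
  rw [hc n, hSP]
  refine (ref_sylv ha ham (fun x => Iff.rfl) ?_ ?_ n).symm
  · intro i
    unfold gr
    refine hb1 _ (Nat.mod_lt _ (by omega)) ?_
    rw [Nat.mod_mod_of_dvd _ hmM, Nat.add_mul_mod_self_right, Nat.mod_eq_of_lt ham]
  · intro j _
    unfold gr
    refine hb2 _ (Nat.mod_lt _ (by omega)) ?_
    rw [Nat.mod_mod_of_dvd _ hmM, Nat.add_mul_mod_self_right]

lemma sylv_false {m a N₀ : ℕ} (ha : 0 < a) (ham : a < m) (hm : 3 ≤ m) {P : ℕ → Prop}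
    (hN : ∀ x, N₀ ≤ x → P x)
    (h : ∀ x, P x ↔ (∃ i, x = a + i * m) ∨ ∃ j, 1 ≤ j ∧ x = 2 * a + j * m) : False := by
  -- a residue different from `a` and `2 a`
  obtain ⟨r, hr, h1, h2⟩ : ∃ r < m, r ≠ a % m ∧ r ≠ (2 * a) % m := by
    by_contra hcon
    push Not at hcon
    have h0 := hcon 0 (by omega)
    have h1 := hcon 1 (by omega)
    have h2 := hcon 2 (by omega)
    rw [Nat.mod_eq_of_lt ham] at h0 h1 h2
    omega
  rcases (h (r + N₀ * m)).1 (hN _ (by nlinarith)) with ⟨i, hi⟩ | ⟨j, _, hj⟩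
  · have := congrArg (· % m) hi
    simp only [Nat.add_mul_mod_self_right, Nat.mod_eq_of_lt hr] at this
    exact h1 this
  · have := congrArg (· % m) hj
    simp only [Nat.add_mul_mod_self_right, Nat.mod_eq_of_lt hr] at this
    exact h2 this

lemma use_schur {M m x0 y0 sm : ℕ} (hx : 0 < x0) (hxy : x0 < y0) (hym : y0 < m) (hMm : M ∣ m)
    (hM : 1 ≤ M) {β : ℕ → ℕ} {P : ℕ → Prop} (h0 : ∀ x, P x → 0 < x)
    (hc : ∀ n, cnt (gr M β) P n = cnt (fun _ => 1) (SP M sm) n)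
    (hsm : ∀ r < m, (Nat.testBit sm (r % M) = true ↔ r = x0 ∨ r = y0))
    (hb1 : y0 < β (x0 % M) ∧ β (x0 % M) ≤ m)
    (hb2 : m + x0 < β (y0 % M) + y0 ∧ β (y0 % M) ≤ m)
    (hb3 : m < β ((x0 + y0) % M) ∧ β ((x0 + y0) % M) + y0 ≤ 2 * m) (z : ℕ) :
    P z ↔ (∃ i, z = x0 + i * m) ∨ (∃ i, z = y0 + i * m) ∨ ∃ i, z = x0 + y0 + i * m := by
  have hm : 1 ≤ m := by omega
  set P' : ℕ → Prop := fun z => (∃ i, z = x0 + i * m) ∨ (∃ i, z = y0 + i * m) ∨
    ∃ i, z = x0 + y0 + i * m with hP'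
  have hSP : SP M sm = fun x => (∃ i, x = x0 + i * m) ∨ ∃ i, x = y0 + i * m := by
    funext x
    apply propext
    rw [prog_iff hm, prog_iff hm]
    have h1 := hsm (x % m) (Nat.mod_lt _ (by omega))
    rw [Nat.mod_mod_of_dvd _ hMm] at h1
    rw [Nat.mod_eq_of_lt (by omega : x0 < m), Nat.mod_eq_of_lt hym]
    unfold SP rs
    rw [h1]
    constructor
    · rintro ⟨h2 | h2, h3⟩
      · exact Or.inl ⟨by rw [← h2]; exact Nat.mod_le _ _, h2⟩
      · exact Or.inr ⟨by rw [← h2]; exact Nat.mod_le _ _, h2⟩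
    · rintro (⟨h2, h3⟩ | ⟨h2, h3⟩)
      · exact ⟨Or.inl h3, by omega⟩
      · exact ⟨Or.inr h3, by omega⟩
  have hmod : ∀ i c, (c + i * m) % M = c % M := by
    intro i c
    obtain ⟨k, rfl⟩ := hMm
    rw [Nat.mul_left_comm, Nat.add_mul_mod_self_left]
  refine determ h0 (P' := P') ?_ (g := gr M β) (fun n => ?_) z
  · rintro x (⟨i, rfl⟩ | ⟨i, rfl⟩ | ⟨i, rfl⟩) <;> omega
  rw [hc n, hSP]
  refine (ref_schur hx hxy hym (fun x => Iff.rfl) ?_ ?_ ?_ n).symm
  · intro i; unfold gr; rw [hmod]; exact hb1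
  · intro i; unfold gr; rw [hmod]; exact hb2
  · intro i; unfold gr; rw [hmod]; exact hb3

lemma schur_false {m x0 y0 N₀ : ℕ} (hm : 4 ≤ m) {P : ℕ → Prop}
    (hN : ∀ x, N₀ ≤ x → P x)
    (h : ∀ z, P z ↔ (∃ i, z = x0 + i * m) ∨ (∃ i, z = y0 + i * m) ∨
      ∃ i, z = x0 + y0 + i * m) : False := by
  obtain ⟨r, hr, h1, h2, h3⟩ : ∃ r < m, r ≠ x0 % m ∧ r ≠ y0 % m ∧ r ≠ (x0 + y0) % m := by
    by_contra hcon
    push Not at hcon
    have h0 := hcon 0 (by omega)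
    have h1 := hcon 1 (by omega)
    have h2 := hcon 2 (by omega)
    have h3 := hcon 3 (by omega)
    omega
  rcases (h (r + N₀ * m)).1 (hN _ (by nlinarith)) with ⟨i, hi⟩ | ⟨i, hi⟩ | ⟨i, hi⟩
  · have := congrArg (· % m) hi
    simp only [Nat.add_mul_mod_self_right, Nat.mod_eq_of_lt hr] at this
    exact h1 this
  · have := congrArg (· % m) hi
    simp only [Nat.add_mul_mod_self_right, Nat.mod_eq_of_lt hr] at this
    exact h2 this
  · have := congrArg (· % m) hi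
    simp only [Nat.add_mul_mod_self_right, Nat.mod_eq_of_lt hr] at this
    exact h3 this

end P46788a
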